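import Pool.Agent.KS6_85.LZ.One

/-!
# Conditions which hold for large `L`
-/

set_option autoImplicit false
set_option maxHeartbeats 1000000

open Complex Filter Topology Set MeasureTheory

namespace Pool.Agent.KS6_85.LZ

/-- the conditions on `L = log X` -/
structure BigL (M : ℕ) (C T κ η β Λ0 L : ℝ) : Prop where
  b0 : Λ0 ≤ L
  b1 : 1 ≤ L
  b2 : 1 ≤ η * L
  b3 : κ / L ≤ 1 / 2
  b4 : 3 ≤ 4 * Real.sqrt L
  b5 : C * (κ / L) * ((T + 4 * Real.sqrt L + 7) + 1) ≤ 1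
  b6 : ∀ l : ℝ, 0 ≤ l → l ≤ 2 * L → η * L * ((l + (T + 4 * Real.sqrt L + 7)) ^ 2 * Real.exp (-(5 * L))) ≤ 1
  b7 : (4 * L) ^ 2 * G2 (κ / L) (η * L) ^ 2 ≤ 1
  b8 : ((κ / L) ^ 2 + 1 / (β * L) ^ 2) * (1 + κ) ≤ 1
  b9 : |L * Gg M (κ / L) (η * L) 0 - κ / Real.pi * (2 * Real.sqrt Real.pi)| ≤ 1

theorem bigL (M : ℕ) (C T κ η β Λ0 : ℝ) (_hC : 0 ≤ C) (hT : 0 ≤ T) (hκ : 0 < κ) (hη : 0 < η)
    (hη1 : η ≤ 1) (hβ : 1 ≤ β) : ∀ᶠ L : ℝ in atTop, BigL M C T κ η β Λ0 L := by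
  have hpi := Real.pi_pos
  have hpi3 := Real.pi_gt_three
  have t3 := Real.tendsto_pow_mul_exp_neg_atTop_nhds_zero 3
  have e3 : ∀ᶠ L : ℝ in atTop, L ^ 3 * Real.exp (-L) ≤ 1 / 49 :=
    (t3.eventually (ge_mem_nhds (by norm_num : (0 : ℝ) < 1 / 49)))
  have t7 : Tendsto (fun L : ℝ => Real.exp (-(η / 4 * L))) atTop (𝓝 0) := by
    have h1 : Tendsto (fun L : ℝ => η / 4 * L) atTop atTop :=
      tendsto_id.const_mul_atTop (by positivity)
    exact Real.tendsto_exp_neg_atTop_nhds_zero.comp h1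
  have e7 : ∀ᶠ L : ℝ in atTop, Real.exp (-(η / 4 * L)) ≤ 1 / (128 * κ ^ 2) :=
    t7.eventually (ge_mem_nhds (by positivity))
  have t9 := Gg_zero M κ η hη
  have e9 : ∀ᶠ L : ℝ in atTop,
      |L * Gg M (κ / L) (η * L) 0 - κ / Real.pi * (2 * Real.sqrt Real.pi)| ≤ 1 := by
    have := (Metric.tendsto_nhds.1 t9) 1 one_pos
    filter_upwards [this] with L hL
    rw [Real.dist_eq] at hL
    exact hL.le
  filter_upwards [eventually_ge_atTop Λ0, eventually_ge_atTop 1, eventually_ge_atTop (1 / η),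
    eventually_ge_atTop (2 * κ), eventually_ge_atTop (2 * (C * κ * (T + 8))),
    eventually_ge_atTop ((8 * (C * κ)) ^ 2), eventually_ge_atTop (T + 7), e3, e7,
    eventually_ge_atTop ((κ ^ 2 + 1) * (1 + κ)), e9] with L h0 h1 h2 h3 h4 h5 h6 h7 h8 h9 h10
  have hL : 0 < L := by linarith
  have hsL : 1 ≤ Real.sqrt L := by
    rw [Real.one_le_sqrt]
    exact h1
  have hsL2 : Real.sqrt L ≤ L := by
    rw [Real.sqrt_le_left (by linarith)]
    nlinarith
  have hss : Real.sqrt L * Real.sqrt L = L := Real.mul_self_sqrt hL.le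
  have hηL : 1 ≤ η * L := by
    rw [div_le_iff₀ hη] at h2
    linarith
  refine ⟨h0, h1, hηL, ?_, by linarith, ?_, ?_, ?_, ?_, h10⟩
  · rw [div_le_iff₀ hL]
    linarith
  · -- b5
    have e1 : C * (κ / L) * ((T + 4 * Real.sqrt L + 7) + 1) =
        (C * κ * (T + 8)) / L + (4 * (C * κ)) * (Real.sqrt L / L) := by ring
    have e2 : (C * κ * (T + 8)) / L ≤ 1 / 2 := by
      rw [div_le_iff₀ hL]
      linarith
    have e4 : 8 * (C * κ) ≤ Real.sqrt L := Real.le_sqrt_of_sq_le h5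
    have e5 : (4 * (C * κ)) * (Real.sqrt L / L) ≤ 1 / 2 := by
      rw [mul_div_assoc', div_le_iff₀ hL]
      nlinarith
    linarith
  · intro l hl0 hl
    have e1 : l + (T + 4 * Real.sqrt L + 7) ≤ 7 * L := by linarith
    have e2 : Real.exp (-(5 * L)) ≤ Real.exp (-L) := Real.exp_le_exp.2 (by linarith)
    calc η * L * ((l + (T + 4 * Real.sqrt L + 7)) ^ 2 * Real.exp (-(5 * L))) ≤
          1 * L * ((7 * L) ^ 2 * Real.exp (-L)) := by gcongr
      _ = 49 * (L ^ 3 * Real.exp (-L)) := by ring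
      _ ≤ 1 := by linarith
  · have e1 : (4 * L) ^ 2 * G2 (κ / L) (η * L) ^ 2 = 16 * κ ^ 2 / Real.pi ^ 2 * (8 * Real.pi) *
        (Real.exp (-(η * L) ^ 2 / 8)) ^ 2 := by
      unfold G2
      rw [mul_pow (κ / L / Real.pi), mul_pow (Real.sqrt (8 * Real.pi)),
        Real.sq_sqrt (by positivity)]
      field_simp
      ring
    have e2 : (Real.exp (-(η * L) ^ 2 / 8)) ^ 2 ≤ Real.exp (-(η / 4 * L)) := by
      rw [← Real.exp_nat_mul]
      apply Real.exp_le_exp.2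
      push_cast
      nlinarith
    have e4 : 16 * κ ^ 2 / Real.pi ^ 2 * (8 * Real.pi) ≤ 128 * κ ^ 2 := by
      rw [div_mul_eq_mul_div, div_le_iff₀ (by positivity)]
      have : Real.pi ≤ Real.pi ^ 2 := by nlinarith
      nlinarith [sq_nonneg κ]
    rw [e1]
    calc _ ≤ 128 * κ ^ 2 * (1 / (128 * κ ^ 2)) := by
          refine mul_le_mul e4 (e2.trans h8) (by positivity) (by positivity)
      _ = 1 := by field_simp
  · have e1 : ((κ / L) ^ 2 + 1 / (β * L) ^ 2) ≤ (κ ^ 2 + 1) / L := by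
      have e2 : 1 / (β * L) ^ 2 ≤ 1 / L := by
        refine one_div_le_one_div_of_le hL ?_
        nlinarith [mul_nonneg (sub_nonneg.2 hβ) hL.le]
      have e4 : (κ / L) ^ 2 ≤ κ ^ 2 / L := by
        rw [div_pow]
        refine div_le_div_of_nonneg_left (sq_nonneg _) hL ?_
        nlinarith
      calc _ ≤ κ ^ 2 / L + 1 / L := add_le_add e4 e2
        _ = _ := by ring
    calc _ ≤ (κ ^ 2 + 1) / L * (1 + κ) := by gcongr
      _ = ((κ ^ 2 + 1) * (1 + κ)) / L := by ring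
      _ ≤ 1 := by
          rw [div_le_one hL]
          exact h9

end Pool.Agent.KS6_85.LZ
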