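import Pool.Agent.KS6_85.LZ.Fam2
import Pool.Agent.KS6_85.LZ.Big
import Pool.Graph.R_seed8.W388.TW.Final

/-!
# The theorem for a family: the pieces
-/

set_option autoImplicit false
set_option maxHeartbeats 1000000

open Complex Filter Topology Set MeasureTheory
open Pool.Agent.R399.TW (Fm)
open Pool.Agent.R399.TM (Fo)
open H385 (primFamM WM Rw)
open W388 (SWu Wu SelE CoefE rad rad_squarefree primFamM_rad)

namespace Pool.Agent.KS6_85.LZ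

/-- the parameters -/
structure Par (τ η0 k l h c Λ : ℝ) : Prop where
  τ0 : 0 < τ
  τ1 : τ ≤ 1 / 4
  k1 : 1 ≤ k
  l1 : 1 ≤ l
  hh : h = k ^ 3 / l
  hc : c = 1 / k ^ 2 * l
  hΛ : Λ = (2 - τ) * l
  h0 : 0 < h
  h2 : h ≤ 1 / 2
  c1 : 1 ≤ c
  cl : c ≤ 1 / 160 * l
  cτ : c ≤ τ / 2 * l
  cη : c ≤ η0 * Λ
  Λ1 : 1 ≤ Λ
  lΛ : l ≤ Λ
  Λl : Λ ≤ 2 * l
  cΛ : 2 * c ≤ Λ

lemma mkPar {τ η0 k l : ℝ} (hτ0 : 0 < τ) (hτ1 : τ ≤ 1 / 4) (hη0 : 0 < η0) (hk1 : 1 ≤ k)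
    (hη_a : 1 / k ^ 2 ≤ τ / 2) (hη_b : 1 / k ^ 2 ≤ 1 / 160) (hη_c : 1 / k ^ 2 ≤ η0) (hl1 : 1 ≤ l)
    (hb2 : 1 ≤ 1 / k ^ 2 * l) (hb3 : k ^ 3 / l ≤ 1 / 2) :
    Par τ η0 k l (k ^ 3 / l) (1 / k ^ 2 * l) ((2 - τ) * l) := by
  have hl0 : 0 < l := by linarith
  have hk0 : 0 < k := by linarith
  have h2 : 1 ≤ 2 - τ := by linarith
  have h3 : l ≤ (2 - τ) * l := le_mul_of_one_le_left hl0.le h2
  have h4 : (2 - τ) * l ≤ 2 * l := mul_le_mul_of_nonneg_right (by linarith) hl0.le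
  have h5 : 1 / k ^ 2 * l ≤ 1 / 160 * l := mul_le_mul_of_nonneg_right hη_b hl0.le
  refine ⟨hτ0, hτ1, hk1, hl1, rfl, rfl, rfl, by positivity, hb3, hb2, h5,
    mul_le_mul_of_nonneg_right hη_a hl0.le, ?_, by linarith, h3, h4, by linarith⟩
  calc 1 / k ^ 2 * l ≤ η0 * l := mul_le_mul_of_nonneg_right hη_c hl0.le
    _ ≤ η0 * ((2 - τ) * l) := mul_le_mul_of_nonneg_left h3 hη0.le

/-- the constants -/
noncomputable def D1 (γ C5 Cs : ℝ) : ℝ := C5 * (Rw γ 0 * (6 * Cs + 2))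
noncomputable def D3 (C5 Cs : ℝ) : ℝ := C5 * (10 * Cs + 4)
noncomputable def D4 (C5 Cs : ℝ) : ℝ := 144 * Cs + C5 * (4 * Cs + 2)

/-- the family mean square -/
def MSq (N X Y : ℕ) (cf : ℕ → ℂ) (τ C5 h c l : ℝ) (m : ℝ) : Prop :=
  ∀ w : ℝ, w + c ≤ (2 - τ / 2) * l →
      primFamM N X Y (fun q χ => ‖QF (aT cf q χ) 1605 h c m w‖ ^ 2) ≤ WM N X Y *
          ((1 + 11 * τ) * (2 * Real.sqrt Real.pi *
            ∫ v in (-c)..c, gh 1605 h c v ^ 2 * SWu cf (1 / 4) (w + v)) +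
          C5 * (h ^ 2 * (c * ∫ v in (-c)..c, (Wu cf (w + v) + 1))))

section

variable {N X Y : ℕ} {cf : ℕ → ℂ} {γ τ η0 k l h c Λ C5 Cs m J : ℝ}

theorem famA1 (P : Par τ η0 k l h c Λ) (hs : SmD cf Cs) (h0 : 0 < γ) (hπ : γ < Real.pi)
    (hW : 0 ≤ WM N X Y) (hC5 : 0 ≤ C5)
    (hQc : ∀ (q : ℕ) (χ : DirichletCharacter ℂ q),
      Continuous (fun u : ℝ => QF (aT cf q χ) 1605 h c m u)) (hJ0 : 0 ≤ J)
    (hQ : MSq N X Y cf τ C5 h c l m)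
    (hJ : ∀ v, |v| ≤ c → ∫ u in (0 : ℝ)..Λ, Rw γ (u / Λ) * SWu cf (1 / 4) (u + v) ≤
      2 * Real.sqrt Real.pi * Λ ^ 2 * J) :
    primFamM N X Y (fun q χ => ∫ u in (0 : ℝ)..Λ, Rw γ (u / Λ) *
      ‖QF (aT cf q χ) 1605 h c m u‖ ^ 2) ≤ WM N X Y * ((1 + 11 * τ) * (4 * h * Λ ^ 2 * J) +
      D1 γ C5 Cs * (h ^ 2 * c ^ 2 * Λ)) := by
  have hRc : Continuous (Rw γ) := H385.PerChi.Rw_cont γ h0 hπ
  have hQ2c : Continuous (fun u : ℝ =>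
      primFamM N X Y (fun q χ => ‖QF (aT cf q χ) 1605 h c m u‖ ^ 2)) :=
    pf_cont N X Y (fun q χ u => ‖QF (aT cf q χ) 1605 h c m u‖ ^ 2) fun q χ => by
      have := hQc q χ
      fun_prop
  rw [pf_int N X Y (fun q χ u => Rw γ (u / Λ) * ‖QF (aT cf q χ) 1605 h c m u‖ ^ 2) 0 Λ
    (fun q χ => by
      have := hQc q χ
      exact Continuous.intervalIntegrable (by fun_prop) _ _)]
  have e : ∫ u in (0 : ℝ)..Λ, primFamM N X Y (fun q χ => Rw γ (u / Λ) *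
      ‖QF (aT cf q χ) 1605 h c m u‖ ^ 2) = ∫ u in (0 : ℝ)..Λ, Rw γ (u / Λ) *
      primFamM N X Y (fun q χ => ‖QF (aT cf q χ) 1605 h c m u‖ ^ 2) := by
    refine intervalIntegral.integral_congr fun u _ => ?_
    show _ = Rw γ (u / Λ) * _
    rw [pf_mul]
  rw [e]
  unfold D1
  refine fam_I1 hs γ h0 hπ hQ2c hW hC5 P.τ0.le 1605 P.h0 (by linarith [P.c1]) P.cΛ P.Λ1 hJ0
    (fun u _ hu => hQ u ?_) hJ
  rw [P.hΛ] at hu
  have e1 : (2 - τ / 2) * l = (2 - τ) * l + τ / 2 * l := by ring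
  rw [e1]
  exact add_le_add hu P.cτ

theorem famA2 (P : Par τ η0 k l h c Λ) (hs : SmD cf Cs)
    (hW : 0 ≤ WM N X Y) (hC5 : 0 ≤ C5)
    (hQc : ∀ (q : ℕ) (χ : DirichletCharacter ℂ q),
      Continuous (fun u : ℝ => QF (aT cf q χ) 1605 h c m u))
    (hQ : MSq N X Y cf τ C5 h c l m) :
    primFamM N X Y (fun q χ => ∫ u in (0 : ℝ)..(2 * c),
      ‖QF (aT cf q χ) 1605 h c m u‖ ^ 2) ≤ WM N X Y * (408 * Cs * (h * c ^ 2) +
      D3 C5 Cs * (h ^ 2 * c ^ 3)) := by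
  have hQ2c : Continuous (fun u : ℝ =>
      primFamM N X Y (fun q χ => ‖QF (aT cf q χ) 1605 h c m u‖ ^ 2)) :=
    pf_cont N X Y (fun q χ u => ‖QF (aT cf q χ) 1605 h c m u‖ ^ 2) fun q χ => by
      have := hQc q χ
      fun_prop
  rw [pf_int N X Y (fun q χ u => ‖QF (aT cf q χ) 1605 h c m u‖ ^ 2) 0 (2 * c)
    (fun q χ => by
      have := hQc q χ
      exact Continuous.intervalIntegrable (by fun_prop) _ _)]
  unfold D3
  refine fam_I2 hs hQ2c hW hC5 P.τ0.le (by linarith [P.τ1]) 1605 P.h0 P.c1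
    (fun u _ hu => hQ u ?_)
  have e1 : 1 * l ≤ (2 - τ / 2) * l :=
    mul_le_mul_of_nonneg_right (by linarith [P.τ1]) (by linarith [P.l1])
  linarith [P.cl, P.l1]

theorem famA4 (P : Par τ η0 k l h c Λ) (hs : SmD cf Cs)
    (hW : 0 ≤ WM N X Y) (hC5 : 0 ≤ C5) (hQ : MSq N X Y cf τ C5 h c l m) (w : ℝ) (hw : w ≤ 0) :
    primFamM N X Y (fun q χ => ‖QF (aT cf q χ) 1605 h c m w‖ ^ 2) ≤
      WM N X Y * (D4 C5 Cs * (h ^ 2 * c ^ 2)) := by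
  unfold D4
  refine fam_I4 hs hW hC5 P.τ0.le (by linarith [P.τ1]) 1605 P.h0 P.c1 hw (hQ w ?_)
  have e1 : 1 * l ≤ (2 - τ / 2) * l :=
    mul_le_mul_of_nonneg_right (by linarith [P.τ1]) (by linarith [P.l1])
  linarith [P.cl, P.l1]

theorem famA3 (P : Par τ η0 k l h c Λ) (hs : SmD cf Cs)
    (hW : 0 ≤ WM N X Y) (hC5 : 0 ≤ C5)
    (hQc : ∀ (q : ℕ) (χ : DirichletCharacter ℂ q),
      Continuous (fun u : ℝ => QF (aT cf q χ) 1605 h c m u))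
    (hQ : MSq N X Y cf τ C5 h c l m) :
    primFamM N X Y (fun q χ => ∫ u in (0 : ℝ)..Λ,
      ‖QF (aT cf q χ) 1605 h c m (-u)‖ ^ 2) ≤ Λ * (WM N X Y * (D4 C5 Cs * (h ^ 2 * c ^ 2))) := by
  have hQ2c : Continuous (fun u : ℝ =>
      primFamM N X Y (fun q χ => ‖QF (aT cf q χ) 1605 h c m u‖ ^ 2)) :=
    pf_cont N X Y (fun q χ u => ‖QF (aT cf q χ) 1605 h c m u‖ ^ 2) fun q χ => by
      have := hQc q χ
      fun_prop
  rw [pf_int N X Y (fun q χ u => ‖QF (aT cf q χ) 1605 h c m (-u)‖ ^ 2) 0 Λ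
    (fun q χ => by
      have := hQc q χ
      exact Continuous.intervalIntegrable (by fun_prop) _ _)]
  calc _ ≤ ∫ _u in (0 : ℝ)..Λ, WM N X Y * (D4 C5 Cs * (h ^ 2 * c ^ 2)) := by
        refine intervalIntegral.integral_mono_on (by linarith [P.Λ1]) ?_ (by simp) fun u hu => ?_
        · exact (hQ2c.comp continuous_neg).intervalIntegrable _ _
        · exact famA4 P hs hW hC5 hQ (-u) (by linarith [hu.1])
    _ = _ := by
        rw [intervalIntegral.integral_const, smul_eq_mul]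
        ring

end

/-- the main term of the count -/
lemma count_arith {τ k l g x : ℝ} (_hτ0 : 0 < τ) (hτ1 : τ ≤ 1 / 4) (hk1 : 1 ≤ k) (hl1 : 1 ≤ l)
    (hx0 : l ≤ x) (hx1 : x ≤ (1 + τ) * l)
    (hg : |l * g - k ^ 3 / Real.pi * (2 * Real.sqrt Real.pi)| ≤ 1) :
    |2 * x * g / (2 * Real.sqrt Real.pi) - 2 * k ^ 3 / Real.pi| ≤ 2 * k ^ 3 / Real.pi * τ + 2 := by
  have hpi := Real.pi_pos
  have hpi3 := Real.pi_gt_three
  have hl0 : 0 < l := by linarith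
  have hsp : 1 ≤ Real.sqrt Real.pi := by
    rw [Real.one_le_sqrt]
    linarith
  have hsp0 : 0 < Real.sqrt Real.pi := by linarith
  obtain ⟨z, hz⟩ : ∃ z : ℝ, z = x / l - 1 := ⟨_, rfl⟩
  obtain ⟨y, hy⟩ : ∃ y : ℝ, y = (l * g - k ^ 3 / Real.pi *
    (2 * Real.sqrt Real.pi)) / Real.sqrt Real.pi := ⟨_, rfl⟩
  have hz0 : 0 ≤ z := by
    rw [hz, sub_nonneg, one_le_div hl0]
    exact hx0
  have hz1 : z ≤ τ := by
    rw [hz, sub_le_iff_le_add, div_le_iff₀ hl0]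
    linarith
  have hy1 : |y| ≤ 1 := by
    rw [hy, abs_div, abs_of_pos hsp0, div_le_one hsp0]
    linarith
  have e : 2 * x * g / (2 * Real.sqrt Real.pi) - 2 * k ^ 3 / Real.pi =
      2 * k ^ 3 / Real.pi * z + (1 + z) * y := by
    rw [hz, hy]
    field_simp
    ring
  rw [e]
  refine (abs_add_le _ _).trans (add_le_add ?_ ?_)
  · rw [abs_of_nonneg (by positivity)]
    gcongr
  · rw [abs_mul, abs_of_nonneg (by linarith : 0 ≤ 1 + z)]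
    calc (1 + z) * |y| ≤ (1 + z) * 1 := by gcongr
      _ ≤ 2 := by linarith

lemma amgm {k z : ℝ} (hk : 0 < k) : z ≤ k / 2 + 1 / (2 * k) * z ^ 2 := by
  have : k / 2 + 1 / (2 * k) * z ^ 2 - z = (k - z) ^ 2 / (2 * k) := by
    field_simp
    ring
  have h4 : 0 ≤ (k - z) ^ 2 / (2 * k) := by positivity
  linarith

end Pool.Agent.KS6_85.LZ
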