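import Pool.Agent.KS6_85.LZ.Dens0

/-!
# The average over the family of the error sums
-/

set_option autoImplicit false
set_option maxHeartbeats 1000000

namespace Pool.Agent.KS6_85.LZ

open Finset Filter Topology Complex MeasureTheory
open Pool.Agent.R399.TW Pool.Agent.R399.TM Pool.Agent.KS6_85.SD
open H370 (mult)
open H385 (primFamM primSetM)
open H385.PerChi (zz_spec zz_refl zz_inj zz_re zz_im)
open scoped ComplexConjugate

/-- partial summation -/
lemma abel {ι : Type} (s : Finset ι) (q : ι → ℕ) (f : ι → ℝ) (X : ℕ) (hX : 1 ≤ X) (B : ℝ)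
    (hB : 0 ≤ B) (hq : ∀ i ∈ s, X < q i) : ∀ Y : ℕ, X ≤ Y →
    (∀ Q : ℕ, X ≤ Q → Q ≤ Y → ∑ i ∈ s with q i ≤ Q, f i ≤ B * (Q : ℝ) ^ 2) →
    ∑ i ∈ s with q i ≤ Y, (1 / (q i : ℝ) ^ 2) * f i ≤
      (∑ i ∈ s with q i ≤ Y, f i) / (Y : ℝ) ^ 2 + 2 * B * Real.log ((Y : ℝ) / X) := by
  classical
  intro Y hY
  have hX0 : (0 : ℝ) < X := by exact_mod_cast hX
  induction Y, hY using Nat.le_induction with
  | base =>
    intro _
    have : s.filter (fun i => q i ≤ X) = ∅ := by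
      rw [Finset.filter_eq_empty_iff]
      intro i hi
      have := hq i hi
      omega
    rw [this, Finset.sum_empty, Finset.sum_empty, div_self hX0.ne', Real.log_one]
    simp
  | succ Y hY ih =>
    intro hS
    have hY0 : (0 : ℝ) < Y := by
      have : 0 < Y := by omega
      exact_mod_cast this
    have ih' := ih fun Q h1 h2 => hS Q h1 (by omega)
    have hsplit : ∀ g : ι → ℝ, ∑ i ∈ s with q i ≤ Y + 1, g i =
        (∑ i ∈ s with q i ≤ Y, g i) + ∑ i ∈ s with q i = Y + 1, g i := by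
      intro g
      rw [← Finset.sum_union]
      · refine Finset.sum_congr ?_ fun _ _ => rfl
        ext i
        simp only [Finset.mem_filter, Finset.mem_union]
        constructor
        · rintro ⟨h1, h2⟩
          rcases Nat.lt_or_ge Y (q i) with h3 | h3
          · exact Or.inr ⟨h1, by omega⟩
          · exact Or.inl ⟨h1, h3⟩
        · rintro (⟨h1, h2⟩ | ⟨h1, h2⟩)
          · exact ⟨h1, by omega⟩
          · exact ⟨h1, by omega⟩
      · rw [Finset.disjoint_filter]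
        intro i _ h1 h2
        omega
    rw [hsplit, hsplit f]
    have h1 : ∑ i ∈ s with q i = Y + 1, (1 / (q i : ℝ) ^ 2) * f i =
        (∑ i ∈ s with q i = Y + 1, f i) / ((Y + 1 : ℕ) : ℝ) ^ 2 := by
      rw [Finset.sum_div]
      refine Finset.sum_congr rfl fun i hi => ?_
      rw [(Finset.mem_filter.1 hi).2]
      ring
    rw [h1]
    set S := ∑ i ∈ s with q i ≤ Y, f i with hSd
    have hSY : S ≤ B * (Y : ℝ) ^ 2 := hS Y hY (by omega)
    have h2 : S / (Y : ℝ) ^ 2 ≤ S / ((Y + 1 : ℕ) : ℝ) ^ 2 + 2 * B / ((Y : ℝ) + 1) := by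
      push_cast
      have h3 : S / (Y : ℝ) ^ 2 - S / ((Y : ℝ) + 1) ^ 2 =
          S * ((2 * Y + 1) / ((Y : ℝ) ^ 2 * ((Y : ℝ) + 1) ^ 2)) := by
        field_simp
        ring
      have h4 : S * ((2 * Y + 1) / ((Y : ℝ) ^ 2 * ((Y : ℝ) + 1) ^ 2)) ≤
          (B * (Y : ℝ) ^ 2) * ((2 * Y + 1) / ((Y : ℝ) ^ 2 * ((Y : ℝ) + 1) ^ 2)) :=
        mul_le_mul_of_nonneg_right hSY (by positivity)
      have h5 : (B * (Y : ℝ) ^ 2) * ((2 * Y + 1) / ((Y : ℝ) ^ 2 * ((Y : ℝ) + 1) ^ 2)) ≤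
          2 * B / ((Y : ℝ) + 1) := by
        have e : (B * (Y : ℝ) ^ 2) * ((2 * Y + 1) / ((Y : ℝ) ^ 2 * ((Y : ℝ) + 1) ^ 2)) =
            B * ((2 * Y + 1) / ((Y : ℝ) + 1)) / ((Y : ℝ) + 1) := by
          field_simp
        rw [e]
        refine div_le_div_of_nonneg_right ?_ (by positivity)
        have : (2 * (Y : ℝ) + 1) / ((Y : ℝ) + 1) ≤ 2 := by
          rw [div_le_iff₀ (by positivity)]
          linarith
        nlinarith
      linarith
    have h3 : 1 / ((Y : ℝ) + 1) ≤ Real.log (((Y + 1 : ℕ) : ℝ) / X) - Real.log ((Y : ℝ) / X) := by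
      have e : Real.log (((Y + 1 : ℕ) : ℝ) / X) - Real.log ((Y : ℝ) / X) =
          Real.log (((Y : ℝ) + 1) / Y) := by
        push_cast
        rw [Real.log_div (by positivity) hX0.ne', Real.log_div hY0.ne' hX0.ne',
          Real.log_div (by positivity) hY0.ne']
        ring
      rw [e]
      refine le_trans (le_of_eq ?_) (Real.one_sub_inv_le_log_of_pos (by positivity))
      field_simp
      ring
    have h4 : 2 * B / ((Y : ℝ) + 1) ≤
        2 * B * (Real.log (((Y + 1 : ℕ) : ℝ) / X) - Real.log ((Y : ℝ) / X)) := by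
      calc 2 * B / ((Y : ℝ) + 1) = 2 * B * (1 / ((Y : ℝ) + 1)) := by ring
        _ ≤ _ := mul_le_mul_of_nonneg_left h3 (by positivity)
    rw [add_div]
    linarith

/-- the moment of a box -/
noncomputable def mB (F : ℂ → ℂ) (μ t H : ℝ) : ℝ :=
  ∑ᶠ s ∈ {s : ℂ | s ∈ reg 0 t H ∧ F s = 0},
    (mult F s : ℝ) * Real.exp (μ * (s.re - 1 / 2))

lemma mB_nonneg {F : ℂ → ℂ} (hd : Differentiable ℂ F) (hne : ∀ s : ℂ, 1 < s.re → F s ≠ 0)
    (μ t H : ℝ) : 0 ≤ mB F μ t H := by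
  unfold mB
  rw [finsum_mem_eq_finite_toFinset_sum _ (reg_fin hd hne le_rfl t H)]
  exact Finset.sum_nonneg fun s _ => by positivity

lemma mB_le_mz1 {F : ℂ → ℂ} (hd : Differentiable ℂ F) (hne : ∀ s : ℂ, 1 < s.re → F s ≠ 0)
    {μ t H : ℝ} {Q : ℕ} (hQ : 1 ≤ Q) (hμ : μ ≤ Real.log Q / 80) :
    mB F μ t H ≤ mz1 F Q t H := by
  have hq0 : (0 : ℝ) < Q := by exact_mod_cast hQ
  unfold mB mz1
  rw [finsum_mem_eq_finite_toFinset_sum _ (reg_fin hd hne le_rfl t H),
    finsum_mem_eq_finite_toFinset_sum _ (reg_fin hd hne le_rfl t H)]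
  refine Finset.sum_le_sum fun s hs => ?_
  rw [Set.Finite.mem_toFinset] at hs
  obtain ⟨⟨s1, s2⟩, s3⟩ := hs
  refine mul_le_mul_of_nonneg_left ?_ (Nat.cast_nonneg _)
  rw [Real.rpow_def_of_pos hq0]
  apply Real.exp_le_exp.2
  have : 0 ≤ s.re - 1 / 2 := by linarith
  calc μ * (s.re - 1 / 2) ≤ Real.log Q / 80 * (s.re - 1 / 2) := mul_le_mul_of_nonneg_right hμ this
    _ = _ := by ring

/-- **boxes, over the family** -/
theorem fam_box {m N : ℕ} (hm : m ≤ 3) {L : (q : ℕ) → DirichletCharacter ℂ q → ℂ → ℂ}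
    (h : Fo m N L) (h' : Fm m N L) :
    ∃ C : ℝ, 0 ≤ C ∧ ∀ (X Y : ℕ) (t H μ : ℝ), 1 ≤ X → X ≤ Y → 0 ≤ H → H ≤ 1 →
      μ ≤ Real.log X / 80 → Real.log Y ≤ 2 * Real.log X →
      primFamM N X Y (fun q χ => mB (L q χ) μ t H) ≤
        C * (2 + |t|) ^ (3 * m + 2) * (1 + H * Real.log X) * (Real.log ((Y : ℝ) / X) + 1) := by
  classical
  obtain ⟨C, hC, hd⟩ := dens_mom1 hm h h'
  refine ⟨4 * C, by positivity, ?_⟩
  intro X Y t H μ hX hXY hH0 hH1 hμ hYX
  have hX1 : (1 : ℝ) ≤ X := by exact_mod_cast hX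
  have hlX : 0 ≤ Real.log X := Real.log_nonneg hX1
  have hX0 : (0 : ℝ) < X := by linarith
  have hlYX : 0 ≤ Real.log ((Y : ℝ) / X) := by
    refine Real.log_nonneg ?_
    rw [one_le_div hX0]
    exact_mod_cast hXY
  set B : ℝ := C * (2 + |t|) ^ (3 * m + 2) * (1 + H * (2 * Real.log X)) with hB
  have hB0 : 0 ≤ B := by positivity
  have hmem : ∀ p ∈ primSetM N X Y, Differentiable ℂ (L p.1 p.2) ∧
      ∀ s : ℂ, 1 < s.re → L p.1 p.2 s ≠ 0 := by
    intro p hp
    rw [H385.mem_primSetM] at hp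
    refine fo_mem h (Q := Y) (i := p) (mem_idx.2 ⟨⟨?_, hp.2.1⟩, hp.2.2⟩)
    omega
  have key := abel (primSetM N X Y) (fun p => p.1) (fun p => mB (L p.1 p.2) μ t H) X hX B hB0
    (fun p hp => ((H385.mem_primSetM N X Y p).1 hp).1) Y hXY (fun Q hXQ hQY => by
      have hQ1 : 1 ≤ Q := by omega
      have hQr : (0 : ℝ) < Q := by exact_mod_cast hQ1
      have h1 := hd Q t H hQ1 hH0 hH1
      have hlQ : Real.log X ≤ Real.log Q := Real.log_le_log hX0 (by exact_mod_cast hXQ)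
      have hlQ2 : Real.log Q ≤ 2 * Real.log X :=
        (Real.log_le_log hQr (by exact_mod_cast hQY)).trans hYX
      have h2 : ∑ p ∈ primSetM N X Y with p.1 ≤ Q, mB (L p.1 p.2) μ t H ≤
          ∑ i ∈ idx N Q, mz1 (L i.1 i.2) Q t H := by
        have h3 : ∑ p ∈ primSetM N X Y with p.1 ≤ Q, mB (L p.1 p.2) μ t H ≤
            ∑ p ∈ primSetM N X Y with p.1 ≤ Q, mz1 (L p.1 p.2) Q t H := by
          refine Finset.sum_le_sum fun p hp => ?_
          obtain ⟨h4, h5⟩ := hmem p (Finset.mem_filter.1 hp).1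
          exact mB_le_mz1 h4 h5 hQ1 (by linarith)
        refine h3.trans (Finset.sum_le_sum_of_subset_of_nonneg ?_ ?_)
        · intro p hp
          rw [Finset.mem_filter, H385.mem_primSetM] at hp
          exact mem_idx.2 ⟨⟨by omega, hp.2⟩, hp.1.2.2⟩
        · intro i hi _
          obtain ⟨h4, h5⟩ := fo_mem h hi
          unfold mz1
          rw [finsum_mem_eq_finite_toFinset_sum _ (reg_fin h4 h5 le_rfl t H)]
          exact Finset.sum_nonneg fun s _ => by positivity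
      refine h2.trans (h1.trans ?_)
      rw [hB]
      gcongr)
  have hfil : (primSetM N X Y).filter (fun p => p.1 ≤ Y) = primSetM N X Y := by
    rw [Finset.filter_eq_self]
    intro p hp
    exact ((H385.mem_primSetM N X Y p).1 hp).2.1
  have hY0 : (0 : ℝ) < Y := by
    have : 0 < Y := by omega
    exact_mod_cast this
  have hSY : ∑ p ∈ primSetM N X Y with p.1 ≤ Y, mB (L p.1 p.2) μ t H ≤ B * (Y : ℝ) ^ 2 := by
    have hQ1 : 1 ≤ Y := by omega
    have h1 := hd Y t H hQ1 hH0 hH1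
    have hlQ : Real.log X ≤ Real.log Y := Real.log_le_log hX0 (by exact_mod_cast hXY)
    have h2 : ∑ p ∈ primSetM N X Y with p.1 ≤ Y, mB (L p.1 p.2) μ t H ≤
        ∑ i ∈ idx N Y, mz1 (L i.1 i.2) Y t H := by
      have h3 : ∑ p ∈ primSetM N X Y with p.1 ≤ Y, mB (L p.1 p.2) μ t H ≤
          ∑ p ∈ primSetM N X Y with p.1 ≤ Y, mz1 (L p.1 p.2) Y t H := by
        refine Finset.sum_le_sum fun p hp => ?_
        obtain ⟨h4, h5⟩ := hmem p (Finset.mem_filter.1 hp).1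
        exact mB_le_mz1 h4 h5 hQ1 (by linarith)
      refine h3.trans (Finset.sum_le_sum_of_subset_of_nonneg ?_ ?_)
      · intro p hp
        rw [Finset.mem_filter, H385.mem_primSetM] at hp
        exact mem_idx.2 ⟨⟨by omega, hp.2⟩, hp.1.2.2⟩
      · intro i hi _
        obtain ⟨h4, h5⟩ := fo_mem h hi
        unfold mz1
        rw [finsum_mem_eq_finite_toFinset_sum _ (reg_fin h4 h5 le_rfl t H)]
        exact Finset.sum_nonneg fun s _ => by positivity
    refine h2.trans (h1.trans ?_)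
    rw [hB]
    gcongr
  rw [hfil] at key hSY
  rw [H385.primFamM_eq]
  refine key.trans ?_
  have h5 : (∑ p ∈ primSetM N X Y, mB (L p.1 p.2) μ t H) / (Y : ℝ) ^ 2 ≤ B := by
    rw [div_le_iff₀ (by positivity)]
    exact hSY
  calc _ ≤ B + 2 * B * Real.log ((Y : ℝ) / X) := by linarith
    _ ≤ 2 * B * (Real.log ((Y : ℝ) / X) + 1) := by nlinarith
    _ ≤ 2 * (C * (2 + |t|) ^ (3 * m + 2) * (2 * (1 + H * Real.log X))) *
          (Real.log ((Y : ℝ) / X) + 1) := by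
        rw [hB]
        have : 1 + H * (2 * Real.log X) ≤ 2 * (1 + H * Real.log X) := by
          have : 0 ≤ H * Real.log X := by positivity
          linarith
        gcongr
    _ = _ := by ring

/-! ### covering by boxes -/

/-- the centres of the boxes -/
noncomputable def ctr (m h c : ℝ) (k : ℕ) : Fin 4 → ℝ :=
  ![m + (h + k / c), m + (h - k / c), m - (h + k / c), m - (h - k / c)]

lemma ctr_cover {h c : ℝ} (hc : 0 < c) (m y : ℝ) :
    ∃ j : Fin 4, |y - ctr m h c ⌊c * |(|y - m| - h)|⌋₊ j| ≤ 1 / c := by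
  set x : ℝ := y - m with hx
  set k : ℕ := ⌊c * |(|x| - h)|⌋₊ with hk
  have h1 : (k : ℝ) ≤ c * |(|x| - h)| := Nat.floor_le (by positivity)
  have h2 : c * |(|x| - h)| < k + 1 := Nat.lt_floor_add_one _
  have h3 : (k : ℝ) / c ≤ |(|x| - h)| := by
    rw [div_le_iff₀ hc]
    linarith
  have h4 : |(|x| - h)| ≤ (k : ℝ) / c + 1 / c := by
    rw [← add_div, le_div_iff₀ hc]
    linarith
  have hy : y = x + m := by rw [hx]; ring
  rcases le_total 0 x with hx0 | hx0 <;> rcases le_total 0 (|x| - h) with hxh | hxh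
  · refine ⟨0, ?_⟩
    rw [abs_of_nonneg hxh, abs_of_nonneg hx0] at h3 h4
    show |y - (m + (h + k / c))| ≤ 1 / c
    rw [hy, abs_le]
    constructor <;> linarith
  · refine ⟨1, ?_⟩
    rw [abs_of_nonpos hxh, abs_of_nonneg hx0] at h3 h4
    show |y - (m + (h - k / c))| ≤ 1 / c
    rw [hy, abs_le]
    constructor <;> linarith
  · refine ⟨2, ?_⟩
    rw [abs_of_nonneg hxh, abs_of_nonpos hx0] at h3 h4
    show |y - (m - (h + k / c))| ≤ 1 / c
    rw [hy, abs_le]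
    constructor <;> linarith
  · refine ⟨3, ?_⟩
    rw [abs_of_nonpos hxh, abs_of_nonpos hx0] at h3 h4
    show |y - (m - (h - k / c))| ≤ 1 / c
    rw [hy, abs_le]
    constructor <;> linarith

lemma ctr_le {h c : ℝ} (hh : 0 ≤ h) (hh1 : h ≤ 1) (hc : 1 ≤ c) (m : ℝ) (k : ℕ) (j : Fin 4) :
    2 + |ctr m h c k j| ≤ (3 + |m|) * (1 + k) := by
  have hk : (0 : ℝ) ≤ k := Nat.cast_nonneg k
  have hc0 : 0 < c := by linarith
  have h1 : (k : ℝ) / c ≤ k := by
    rw [div_le_iff₀ hc0]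
    nlinarith
  have h2 : 0 ≤ (k : ℝ) / c := by positivity
  have h3 := abs_nonneg m
  have h4 : |ctr m h c k j| ≤ |m| + 1 + k := by
    have h5 := neg_abs_le m
    have h6 := le_abs_self m
    fin_cases j
    · show |m + (h + k / c)| ≤ _
      rw [abs_le]; constructor <;> linarith
    · show |m + (h - k / c)| ≤ _
      rw [abs_le]; constructor <;> linarith
    · show |m - (h + k / c)| ≤ _
      rw [abs_le]; constructor <;> linarith
    · show |m - (h - k / c)| ≤ _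
      rw [abs_le]; constructor <;> linarith
  nlinarith [mul_nonneg h3 hk]

/-- **the error sum of one L-function** -/
theorem DE_le {A ℒ E H q0 : ℝ} {F : ℂ → ℂ} {a : ℕ → ℂ} (hF : GoodX A ℒ E H q0 F a)
    {V1 V2 m h c μ r R : ℝ} (hc : 1 ≤ c) (hr : 0 ≤ r) (hV1 : m - R ≤ V1) (hV2 : V2 ≤ m + R)
    (hh : 0 ≤ h) {K : ℕ} (hK : c * (R + h) < K) :
    DE F V1 V2 m h c μ r ≤ 2 * (r * mB F μ m h + ∑ k ∈ range K,
      (((1 + (k : ℝ)) ^ 10)⁻¹ * ∑ j : Fin 4, mB F μ (ctr m h c k j) (1 / c))) := by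
  classical
  have hfin := zfin hF V1 V2
  have hc0 : 0 < c := by linarith
  have hne : ∀ s : ℂ, 1 < s.re → F s ≠ 0 := hF.nzr
  rw [DE_sum F hfin]
  -- the symmetric weight
  obtain ⟨g, hg⟩ : ∃ g : ℂ → ℝ, g = fun s => (mult F s : ℝ) * (Real.exp (μ * |s.re - 1 / 2|) *
    (((DX h c m s) ^ 10)⁻¹ + if |s.im - m| ≤ h then r else 0)) := ⟨_, rfl⟩
  have hg0 : ∀ s, 0 ≤ g s := by
    intro s
    have hD := DX_one (h := h) (m := m) hc0.le s
    rw [hg]
    have : (0 : ℝ) ≤ if |s.im - m| ≤ h then r else 0 := by split_ifs <;> positivity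
    positivity
  have hsymm : ∀ s ∈ hfin.toFinset, g (1 - conj s) = g s := by
    intro s hs
    rw [Set.Finite.mem_toFinset] at hs
    rw [hg]
    simp only
    rw [mult_refl hF hs.1 hs.2.1]
    have him : (1 - conj s).im = s.im := by simp
    have hre : (1 - conj s).re = 1 - s.re := by simp
    unfold DX
    rw [him, hre]
    have h2 : |1 - s.re - 1 / 2| = |s.re - 1 / 2| := by
      rw [← abs_neg]
      congr 1
      ring
    rw [h2]
  have hhalf : ∑ s ∈ hfin.toFinset, g s ≤ 2 * ∑ s ∈ hfin.toFinset with 1 / 2 ≤ s.re, g s := by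
    have h1 : ∑ s ∈ hfin.toFinset with ¬ (1 / 2 ≤ s.re), g s ≤
        ∑ s ∈ hfin.toFinset with 1 / 2 ≤ s.re, g s := by
      have h2 : ∑ s ∈ hfin.toFinset with ¬ (1 / 2 ≤ s.re), g s =
          ∑ s ∈ (hfin.toFinset.filter (fun s => ¬ (1 / 2 ≤ s.re))).image (fun s => 1 - conj s),
            g s := by
        rw [Finset.sum_image]
        · refine Finset.sum_congr rfl fun s hs => ?_
          rw [hsymm s (Finset.mem_filter.1 hs).1]
        · intro x _ y _ hxy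
          simp only at hxy
          have h1 : conj x = conj y := by linear_combination -hxy
          have h2 := congrArg conj h1
          simpa using h2
      rw [h2]
      refine Finset.sum_le_sum_of_subset_of_nonneg (fun u hu => ?_) fun s _ _ => hg0 s
      rw [Finset.mem_image] at hu
      obtain ⟨s, hs, rfl⟩ := hu
      rw [Finset.mem_filter] at hs ⊢
      rw [Set.Finite.mem_toFinset] at hs
      refine ⟨?_, ?_⟩
      · rw [Set.Finite.mem_toFinset]
        exact zc_refl hF hs.1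
      · have hre : (1 - conj s).re = 1 - s.re := by simp
        rw [hre]
        have := not_le.1 hs.2
        linarith
    rw [← Finset.sum_filter_add_sum_filter_not hfin.toFinset (fun s => 1 / 2 ≤ s.re) g]
    linarith
  have hrw : ∑ s ∈ hfin.toFinset, (mult F s : ℝ) * (Real.exp (μ * |s.re - 1 / 2|) *
    (((DX h c m s) ^ 10)⁻¹ + if |s.im - m| ≤ h then r else 0)) = ∑ s ∈ hfin.toFinset, g s := by
    rw [hg]
  rw [hrw]
  refine hhalf.trans (mul_le_mul_of_nonneg_left ?_ (by norm_num))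
  set Z := hfin.toFinset.filter (fun s => 1 / 2 ≤ s.re) with hZ
  have hZm : ∀ s ∈ Z, 1 / 2 ≤ s.re ∧ |s.im - m| ≤ R ∧ F s = 0 := by
    intro s hs
    rw [hZ, Finset.mem_filter, Set.Finite.mem_toFinset] at hs
    obtain ⟨⟨s1, s2, s3, s4, s5⟩, s6⟩ := hs
    refine ⟨s6, ?_, s5⟩
    rw [abs_le]
    constructor <;> linarith
  have hbox : ∀ (t H' : ℝ) (S : Finset ℂ), S ⊆ Z → (∀ s ∈ S, |s.im - t| ≤ H') →
      ∑ s ∈ S, (mult F s : ℝ) * Real.exp (μ * (s.re - 1 / 2)) ≤ mB F μ t H' := by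
    intro t H' S hS hSt
    unfold mB
    rw [finsum_mem_eq_finite_toFinset_sum _ (reg_fin hF.diff hne le_rfl t H')]
    refine Finset.sum_le_sum_of_subset_of_nonneg (fun s hs => ?_) fun s _ _ => by positivity
    rw [Set.Finite.mem_toFinset]
    obtain ⟨s1, s2, s3⟩ := hZm s (hS hs)
    exact ⟨⟨by linarith, hSt s hs⟩, s3⟩
  have hsplit : ∑ s ∈ Z, g s = r * (∑ s ∈ Z with |s.im - m| ≤ h,
      (mult F s : ℝ) * Real.exp (μ * (s.re - 1 / 2))) +
      ∑ s ∈ Z, ((DX h c m s) ^ 10)⁻¹ * ((mult F s : ℝ) * Real.exp (μ * (s.re - 1 / 2))) := by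
    have e1 : (∑ s ∈ Z with |s.im - m| ≤ h, (mult F s : ℝ) * Real.exp (μ * (s.re - 1 / 2))) =
        ∑ s ∈ Z, if |s.im - m| ≤ h then (mult F s : ℝ) * Real.exp (μ * (s.re - 1 / 2)) else 0 :=
      Finset.sum_filter _ _
    rw [e1, Finset.mul_sum, ← Finset.sum_add_distrib]
    refine Finset.sum_congr rfl fun s hs => ?_
    obtain ⟨s1, s2, s3⟩ := hZm s hs
    rw [hg]
    simp only
    rw [abs_of_nonneg (by linarith : 0 ≤ s.re - 1 / 2)]
    split_ifs <;> ring
  rw [hsplit]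
  refine add_le_add (mul_le_mul_of_nonneg_left (hbox m h _ (Finset.filter_subset _ _) fun s hs =>
    (Finset.mem_filter.1 hs).2) hr) ?_
  -- the far part
  have hDk : ∀ s ∈ Z, ⌊c * |(|s.im - m| - h)|⌋₊ < K := by
    intro s hs
    obtain ⟨s1, s2, s3⟩ := hZm s hs
    have h1 : c * |(|s.im - m| - h)| ≤ c * (R + h) := by
      refine mul_le_mul_of_nonneg_left ?_ hc0.le
      have := abs_nonneg (s.im - m)
      rw [abs_le]
      constructor <;> linarith
    have h2 : (⌊c * |(|s.im - m| - h)|⌋₊ : ℝ) < K :=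
      lt_of_le_of_lt (Nat.floor_le (by positivity)) (lt_of_le_of_lt h1 hK)
    exact_mod_cast h2
  have h5 : ∀ s ∈ Z, ((DX h c m s) ^ 10)⁻¹ * ((mult F s : ℝ) * Real.exp (μ * (s.re - 1 / 2))) ≤
      ∑ k ∈ range K, ∑ j : Fin 4, if |s.im - ctr m h c k j| ≤ 1 / c then
        ((1 + (k : ℝ)) ^ 10)⁻¹ * ((mult F s : ℝ) * Real.exp (μ * (s.re - 1 / 2))) else 0 := by
    intro s hs
    set k := ⌊c * |(|s.im - m| - h)|⌋₊ with hk
    obtain ⟨j, hj⟩ := ctr_cover (h := h) hc0 m s.im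
    rw [← hk] at hj
    have hnn : ∀ (k : ℕ) (j : Fin 4), (0 : ℝ) ≤ if |s.im - ctr m h c k j| ≤ 1 / c then
        ((1 + (k : ℝ)) ^ 10)⁻¹ * ((mult F s : ℝ) * Real.exp (μ * (s.re - 1 / 2))) else 0 := by
      intro k j
      split_ifs <;> positivity
    calc ((DX h c m s) ^ 10)⁻¹ * ((mult F s : ℝ) * Real.exp (μ * (s.re - 1 / 2))) ≤
          ((1 + (k : ℝ)) ^ 10)⁻¹ * ((mult F s : ℝ) * Real.exp (μ * (s.re - 1 / 2))) := by
          refine mul_le_mul_of_nonneg_right ?_ (by positivity)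
          refine inv_anti₀ (by positivity) (pow_le_pow_left₀ (by positivity) ?_ 10)
          unfold DX
          have : (k : ℝ) ≤ c * |(|s.im - m| - h)| := Nat.floor_le (by positivity)
          linarith
      _ = if |s.im - ctr m h c k j| ≤ 1 / c then
        ((1 + (k : ℝ)) ^ 10)⁻¹ * ((mult F s : ℝ) * Real.exp (μ * (s.re - 1 / 2))) else 0 := by
          rw [if_pos hj]
      _ ≤ ∑ j : Fin 4, if |s.im - ctr m h c k j| ≤ 1 / c then
        ((1 + (k : ℝ)) ^ 10)⁻¹ * ((mult F s : ℝ) * Real.exp (μ * (s.re - 1 / 2))) else 0 :=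
          Finset.single_le_sum (f := fun j : Fin 4 => if |s.im - ctr m h c k j| ≤ 1 / c then
        ((1 + (k : ℝ)) ^ 10)⁻¹ * ((mult F s : ℝ) * Real.exp (μ * (s.re - 1 / 2))) else 0)
            (fun j _ => hnn k j) (Finset.mem_univ j)
      _ ≤ _ := Finset.single_le_sum (f := fun k : ℕ => ∑ j : Fin 4,
          if |s.im - ctr m h c k j| ≤ 1 / c then
        ((1 + (k : ℝ)) ^ 10)⁻¹ * ((mult F s : ℝ) * Real.exp (μ * (s.re - 1 / 2))) else 0)
            (fun k _ => Finset.sum_nonneg fun j _ => hnn k j) (Finset.mem_range.2 (hDk s hs))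
  refine (Finset.sum_le_sum h5).trans ?_
  rw [Finset.sum_comm]
  refine Finset.sum_le_sum fun k _ => ?_
  rw [Finset.sum_comm, Finset.mul_sum]
  refine Finset.sum_le_sum fun j _ => ?_
  rw [← Finset.sum_filter, ← Finset.mul_sum]
  refine mul_le_mul_of_nonneg_left ?_ (by positivity)
  exact hbox _ _ _ (Finset.filter_subset _ _) fun s hs => (Finset.mem_filter.1 hs).2

lemma sum_inv_sq (K : ℕ) : ∑ k ∈ range K, ((1 + (k : ℝ)) ^ 2)⁻¹ ≤ (2 : ℝ) := by
  have h : ∀ K : ℕ, ∑ k ∈ range (K + 1), ((1 + (k : ℝ)) ^ 2)⁻¹ ≤ (2 : ℝ) - 1 / ((K : ℝ) + 1) := by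
    intro K
    induction K with
    | zero => norm_num
    | succ n ih =>
      rw [Finset.sum_range_succ]
      have h1 : ((1 + ((n + 1 : ℕ) : ℝ)) ^ 2)⁻¹ ≤ 1 / ((n : ℝ) + 1) - 1 / (((n + 1 : ℕ) : ℝ) + 1) := by
        push_cast
        rw [div_sub_div _ _ (by positivity) (by positivity), inv_eq_one_div,
          div_le_div_iff₀ (by positivity) (by positivity)]
        nlinarith [Nat.cast_nonneg (α := ℝ) n]
      linarith
  rcases Nat.eq_zero_or_pos K with h0 | h0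
  · rw [h0]
    simp
  · obtain ⟨n, rfl⟩ : ∃ n, K = n + 1 := ⟨K - 1, by omega⟩
    have := h n
    have : (0 : ℝ) ≤ 1 / ((n : ℝ) + 1) := by positivity
    linarith

lemma pf_mul (N X Y : ℕ) (b : ℝ) (f : (q : ℕ) → DirichletCharacter ℂ q → ℝ) :
    primFamM N X Y (fun q χ => b * f q χ) = b * primFamM N X Y f := by
  rw [H385.primFamM_eq, H385.primFamM_eq, Finset.mul_sum]
  exact Finset.sum_congr rfl fun p _ => by ring

lemma pf_add (N X Y : ℕ) (f g : (q : ℕ) → DirichletCharacter ℂ q → ℝ) :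
    primFamM N X Y (fun q χ => f q χ + g q χ) = primFamM N X Y f + primFamM N X Y g := by
  rw [H385.primFamM_eq, H385.primFamM_eq, H385.primFamM_eq, ← Finset.sum_add_distrib]
  exact Finset.sum_congr rfl fun p _ => by ring

lemma pf_sum {ι : Type} (N X Y : ℕ) (S : Finset ι)
    (f : ι → (q : ℕ) → DirichletCharacter ℂ q → ℝ) :
    primFamM N X Y (fun q χ => ∑ i ∈ S, f i q χ) = ∑ i ∈ S, primFamM N X Y (f i) := by
  simp_rw [H385.primFamM_eq]
  rw [Finset.sum_comm]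
  exact Finset.sum_congr rfl fun p _ => by rw [Finset.mul_sum]

/-- **the error sums over the family** -/
theorem fam_DE {N : ℕ} {L : (q : ℕ) → DirichletCharacter ℂ q → ℂ → ℂ}
    (h : Fo 2 N L) (h' : Fm 2 N L) :
    ∃ C : ℝ, 0 < C ∧ ∀ (X Y : ℕ) (m hh c μ r R : ℝ) (V1 V2 : (q : ℕ) → DirichletCharacter ℂ q → ℝ)
      (A : ℝ) (ℒ E H q0 : (q : ℕ) → ℝ) (a : (q : ℕ) → DirichletCharacter ℂ q → ℕ → ℂ),
      1 ≤ X → X ≤ Y → 0 ≤ hh → hh ≤ 1 → 1 ≤ c → μ ≤ Real.log X / 80 →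
      Real.log Y ≤ 2 * Real.log X → 0 ≤ r →
      (∀ (q : ℕ) (χ : DirichletCharacter ℂ q), X < q → q ≤ Y → Nat.Coprime q N →
        χ.IsPrimitive → GoodX A (ℒ q) (E q) (H q) (q0 q) (L q χ) (a q χ) ∧
          m - R ≤ V1 q χ ∧ V2 q χ ≤ m + R) →
      primFamM N X Y (fun q χ => DE (L q χ) (V1 q χ) (V2 q χ) m hh c μ r) ≤
        C * (3 + |m|) ^ 8 * (Real.log ((Y : ℝ) / X) + 1) *
          (r * (1 + hh * Real.log X) + (1 + Real.log X / c)) := by
  classical
  obtain ⟨C, hC, hbox⟩ := fam_box (by norm_num : 2 ≤ 3) h h'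
  refine ⟨16 * C + 1, by positivity, ?_⟩
  intro X Y m hh c μ r R V1 V2 A ℒ E H q0 a hX hXY hh0 hh1 hc hμ hYX hr hgood
  have hX1 : (1 : ℝ) ≤ X := by exact_mod_cast hX
  have hlX : 0 ≤ Real.log X := Real.log_nonneg hX1
  have hX0 : (0 : ℝ) < X := by linarith
  have hc0 : 0 < c := by linarith
  have hlYX : 0 ≤ Real.log ((Y : ℝ) / X) := by
    refine Real.log_nonneg ?_
    rw [one_le_div hX0]
    exact_mod_cast hXY
  obtain ⟨K, hK⟩ := exists_nat_gt (c * (R + hh))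
  have h1 : primFamM N X Y (fun q χ => DE (L q χ) (V1 q χ) (V2 q χ) m hh c μ r) ≤
      primFamM N X Y (fun q χ => 2 * (r * mB (L q χ) μ m hh + ∑ k ∈ range K,
      (((1 + (k : ℝ)) ^ 10)⁻¹ * ∑ j : Fin 4, mB (L q χ) μ (ctr m hh c k j) (1 / c)))) := by
    refine H385.primFamM_mono N X Y _ _ fun q χ hq1 hq2 hq3 hχ => ?_
    obtain ⟨g1, g2, g3⟩ := hgood q χ hq1 hq2 hq3 hχ
    exact DE_le g1 hc hr g2 g3 hh0 hK
  refine h1.trans ?_
  have h2 : primFamM N X Y (fun q χ => 2 * (r * mB (L q χ) μ m hh + ∑ k ∈ range K,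
      (((1 + (k : ℝ)) ^ 10)⁻¹ * ∑ j : Fin 4, mB (L q χ) μ (ctr m hh c k j) (1 / c)))) =
      2 * (r * primFamM N X Y (fun q χ => mB (L q χ) μ m hh) + ∑ k ∈ range K,
        (((1 + (k : ℝ)) ^ 10)⁻¹ * ∑ j : Fin 4,
          primFamM N X Y (fun q χ => mB (L q χ) μ (ctr m hh c k j) (1 / c)))) := by
    rw [pf_mul, pf_add, pf_mul, pf_sum]
    congr 2
    refine Finset.sum_congr rfl fun k _ => ?_
    rw [pf_mul, pf_sum]
  rw [h2]
  have h3 := hbox X Y m hh μ hX hXY hh0 hh1 hμ hYX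
  set 𝓛 := Real.log ((Y : ℝ) / X) + 1 with h𝓛
  have h𝓛0 : 0 < 𝓛 := by linarith
  have hm0 := abs_nonneg m
  have hc1 : 1 / c ≤ 1 := by
    rw [div_le_one hc0]
    exact hc
  have h4 : ∀ k ∈ range K, (((1 + (k : ℝ)) ^ 10)⁻¹ * ∑ j : Fin 4,
          primFamM N X Y (fun q χ => mB (L q χ) μ (ctr m hh c k j) (1 / c))) ≤
      (4 * C * (3 + |m|) ^ 8 * (1 + Real.log X / c) * 𝓛) * ((1 + (k : ℝ)) ^ 2)⁻¹ := by
    intro k _
    have h5 : ∀ j : Fin 4, primFamM N X Y (fun q χ => mB (L q χ) μ (ctr m hh c k j) (1 / c)) ≤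
        C * ((3 + |m|) * (1 + k)) ^ 8 * (1 + Real.log X / c) * 𝓛 := by
      intro j
      refine (hbox X Y (ctr m hh c k j) (1 / c) μ hX hXY (by positivity) hc1 hμ hYX).trans ?_
      have h6 := ctr_le hh0 hh1 hc m k j
      have e : 1 + 1 / c * Real.log X = 1 + Real.log X / c := by ring
      rw [e]
      have h7 : (2 + |ctr m hh c k j|) ^ (3 * 2 + 2) ≤ ((3 + |m|) * (1 + k)) ^ 8 :=
        pow_le_pow_left₀ (by positivity) h6 8
      gcongr
    have h6 : ∑ j : Fin 4, primFamM N X Y (fun q χ => mB (L q χ) μ (ctr m hh c k j) (1 / c)) ≤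
        4 * (C * ((3 + |m|) * (1 + k)) ^ 8 * (1 + Real.log X / c) * 𝓛) := by
      refine (Finset.sum_le_sum fun j _ => h5 j).trans ?_
      rw [Finset.sum_const, Finset.card_univ, Fintype.card_fin]
      simp
    calc _ ≤ ((1 + (k : ℝ)) ^ 10)⁻¹ * (4 * (C * ((3 + |m|) * (1 + k)) ^ 8 *
          (1 + Real.log X / c) * 𝓛)) := by gcongr
      _ = _ := by
          field_simp
  have h5 := Finset.sum_le_sum h4
  rw [← Finset.mul_sum] at h5
  have h6 := sum_inv_sq K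
  have h7 : (4 * C * (3 + |m|) ^ 8 * (1 + Real.log X / c) * 𝓛) *
      ∑ k ∈ range K, ((1 + (k : ℝ)) ^ 2)⁻¹ ≤
      (4 * C * (3 + |m|) ^ 8 * (1 + Real.log X / c) * 𝓛) * 2 :=
    mul_le_mul_of_nonneg_left h6 (by positivity)
  have h8 : r * primFamM N X Y (fun q χ => mB (L q χ) μ m hh) ≤
      r * (C * (3 + |m|) ^ 8 * (1 + hh * Real.log X) * 𝓛) := by
    refine mul_le_mul_of_nonneg_left (h3.trans ?_) hr
    have : (2 + |m|) ^ (3 * 2 + 2) ≤ (3 + |m|) ^ 8 := pow_le_pow_left₀ (by positivity) (by linarith) 8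
    gcongr
  calc _ ≤ 2 * (r * (C * (3 + |m|) ^ 8 * (1 + hh * Real.log X) * 𝓛) +
        (4 * C * (3 + |m|) ^ 8 * (1 + Real.log X / c) * 𝓛) * 2) := by
        refine mul_le_mul_of_nonneg_left (add_le_add h8 (h5.trans h7)) (by norm_num)
    _ = (3 + |m|) ^ 8 * 𝓛 * (2 * C * (r * (1 + hh * Real.log X)) +
          16 * C * (1 + Real.log X / c)) := by ring
    _ ≤ (3 + |m|) ^ 8 * 𝓛 * ((16 * C + 1) * (r * (1 + hh * Real.log X)) +
          (16 * C + 1) * (1 + Real.log X / c)) := by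
        refine mul_le_mul_of_nonneg_left ?_ (by positivity)
        refine add_le_add ?_ ?_
        · exact mul_le_mul_of_nonneg_right (by linarith) (by positivity)
        · exact mul_le_mul_of_nonneg_right (by linarith) (by positivity)
    _ = _ := by ring

end Pool.Agent.KS6_85.LZ
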