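import Pool.Agent.KS6_85.LZ.Win

/-!
# The Fourier transform of the window, smoothed by a Gaussian
-/

set_option autoImplicit false

open Complex Filter Topology Set MeasureTheory

namespace Pool.Agent.KS6_85.LZ

/-- the Gaussian -/
noncomputable def ga (x : ℝ) : ℝ := Real.exp (-x ^ 2 / 4)

lemma ga_pos (x : ℝ) : 0 < ga x := Real.exp_pos _

lemma ga_le (x : ℝ) : ga x ≤ 1 := by
  unfold ga
  rw [Real.exp_le_one_iff]
  nlinarith [sq_nonneg x]

lemma ga_cont : Continuous ga := by
  unfold ga
  fun_prop

lemma ga_even (x : ℝ) : ga (-x) = ga x := by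
  unfold ga
  rw [neg_sq]

lemma ga_int (x : ℝ) : Integrable (fun v : ℝ => ga (x + v)) := by
  have h1 : Integrable (fun v : ℝ => ga v) := by
    have := integrable_exp_neg_mul_sq (b := 1 / 4) (by norm_num)
    refine this.congr (Filter.Eventually.of_forall fun v => ?_)
    unfold ga
    simp only
    congr 1
    ring
  exact h1.comp_add_left x

lemma ga_integral (x : ℝ) : ∫ v : ℝ, ga (x + v) = 2 * Real.sqrt Real.pi := by
  rw [integral_add_left_eq_self (fun v => ga v) x]
  have := integral_gaussian (1 / 4)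
  have e : (fun v : ℝ => ga v) = fun v : ℝ => Real.exp (-(1 / 4) * v ^ 2) := by
    funext v
    unfold ga
    congr 1
    ring
  rw [e, this, show Real.pi / (1 / 4) = 2 ^ 2 * Real.pi by ring,
    Real.sqrt_mul (by positivity), Real.sqrt_sq (by norm_num)]

lemma ga_ii (x : ℝ) {a b : ℝ} (h : a ≤ b) : ∫ v in a..b, ga (x + v) ≤ 2 * Real.sqrt Real.pi := by
  rw [intervalIntegral.integral_of_le h, ← ga_integral x]
  exact setIntegral_le_integral (ga_int x) (Filter.Eventually.of_forall fun v => (ga_pos _).le)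

/-- the smoothed transform -/
noncomputable def Gg (M : ℕ) (h c x : ℝ) : ℝ := ∫ v in (-c)..c, gh M h c v * ga (x + v)

lemma Gg_even (M : ℕ) (h c x : ℝ) : Gg M h c (-x) = Gg M h c x := by
  unfold Gg
  have := intervalIntegral.integral_comp_neg (a := -c) (b := c) (fun v => gh M h c v * ga (x + v))
  rw [neg_neg] at this
  rw [← this]
  refine intervalIntegral.integral_congr fun v _ => ?_
  show gh M h c v * ga (-x + v) = gh M h c (-v) * ga (x + -v)
  rw [gh_even, ← ga_even (x + -v)]
  congr 2
  ring

lemma Gg_cont (M : ℕ) (h c : ℝ) : Continuous (Gg M h c) := by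
  have h1 := gh_cont M h c
  have h2 := ga_cont
  unfold Gg
  exact intervalIntegral.continuous_parametric_intervalIntegral_of_continuous' (by fun_prop) _ _

lemma Gg_abs (M : ℕ) {h : ℝ} (hh : 0 ≤ h) {c : ℝ} (hc : 0 ≤ c) (x : ℝ) :
    |Gg M h c x| ≤ h / Real.pi * ∫ v in (-c)..c, ga (x + v) := by
  have h1 := gh_cont M h c
  have h2 := ga_cont
  unfold Gg
  rw [← intervalIntegral.integral_const_mul]
  refine (intervalIntegral.abs_integral_le_integral_abs (by linarith)).trans ?_
  refine intervalIntegral.integral_mono_on (by linarith)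
    (Continuous.intervalIntegrable (by fun_prop) _ _)
    (Continuous.intervalIntegrable (by fun_prop) _ _) fun v _ => ?_
  rw [abs_mul, abs_of_pos (ga_pos _)]
  exact mul_le_mul_of_nonneg_right (gh_le M hh c v) (ga_pos _).le

lemma Gg_le (M : ℕ) {h : ℝ} (hh : 0 ≤ h) {c : ℝ} (hc : 0 ≤ c) (x : ℝ) :
    |Gg M h c x| ≤ h / Real.pi * (2 * Real.sqrt Real.pi) := by
  have hpi := Real.pi_pos
  refine (Gg_abs M hh hc x).trans ?_
  exact mul_le_mul_of_nonneg_left (ga_ii x (by linarith)) (by positivity)

/-- Cauchy-Schwarz -/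
lemma Gg_sq (M : ℕ) (h : ℝ) {c : ℝ} (hc : 0 < c) (x : ℝ) :
    Gg M h c x ^ 2 ≤ 2 * Real.sqrt Real.pi * ∫ v in (-c)..c, gh M h c v ^ 2 * ga (x + v) := by
  have h1 := gh_cont M h c
  have h2 := ga_cont
  set W : ℝ := ∫ v in (-c)..c, ga (x + v) with hW
  set A : ℝ := ∫ v in (-c)..c, gh M h c v ^ 2 * ga (x + v) with hA
  set B : ℝ := Gg M h c x with hB
  have hW0 : 0 < W := by
    refine intervalIntegral.intervalIntegral_pos_of_pos_on
      (Continuous.intervalIntegrable (by fun_prop) _ _) (fun v _ => ga_pos _) (by linarith)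
  have hA0 : 0 ≤ A := intervalIntegral.integral_nonneg (by linarith) fun v _ =>
    mul_nonneg (sq_nonneg _) (ga_pos _).le
  have hW1 : W ≤ 2 * Real.sqrt Real.pi := ga_ii x (by linarith)
  have key : 0 ≤ A - 2 * (B / W) * B + (B / W) ^ 2 * W := by
    have h3 : A - 2 * (B / W) * B + (B / W) ^ 2 * W =
        ∫ v in (-c)..c, (gh M h c v - B / W) ^ 2 * ga (x + v) := by
      rw [hA, hW]
      conv_lhs => rw [show 2 * (B / W) * B = 2 * (B / W) * ∫ v in (-c)..c, gh M h c v * ga (x + v)
        from rfl]
      rw [← intervalIntegral.integral_const_mul, ← intervalIntegral.integral_const_mul,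
        ← intervalIntegral.integral_sub, ← intervalIntegral.integral_add]
      · refine intervalIntegral.integral_congr fun v _ => ?_
        ring
      all_goals exact Continuous.intervalIntegrable (by fun_prop) _ _
    rw [h3]
    exact intervalIntegral.integral_nonneg (by linarith) fun v _ =>
      mul_nonneg (sq_nonneg _) (ga_pos _).le
  have h4 : B ^ 2 ≤ A * W := by
    have h5 : A - 2 * (B / W) * B + (B / W) ^ 2 * W = A - B ^ 2 / W := by
      field_simp
      ring
    rw [h5] at key
    have h6 : B ^ 2 / W ≤ A := by linarith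
    rwa [div_le_iff₀ hW0] at h6
  refine h4.trans ?_
  rw [mul_comm]
  exact mul_le_mul_of_nonneg_right hW1 hA0

lemma Gg_far (M : ℕ) {h : ℝ} (hh : 0 ≤ h) {c : ℝ} (hc : 0 ≤ c) {x : ℝ} (hx : c ≤ x) :
    |Gg M h c x| ≤ h / Real.pi * (Real.sqrt (8 * Real.pi) * Real.exp (-(x - c) ^ 2 / 8)) := by
  have hpi := Real.pi_pos
  have h2 := ga_cont
  refine (Gg_abs M hh hc x).trans ?_
  refine mul_le_mul_of_nonneg_left ?_ (by positivity)
  have h3 : Integrable (fun v : ℝ => Real.exp (-(1 / 8) * (x + v) ^ 2)) :=
    (integrable_exp_neg_mul_sq (b := 1 / 8) (by norm_num)).comp_add_left x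
  have h4 : ∫ v : ℝ, Real.exp (-(1 / 8) * (x + v) ^ 2) = Real.sqrt (8 * Real.pi) := by
    rw [integral_add_left_eq_self (fun v : ℝ => Real.exp (-(1 / 8) * v ^ 2)) x, integral_gaussian]
    congr 1
    ring
  calc ∫ v in (-c)..c, ga (x + v) ≤ ∫ v in (-c)..c,
        Real.exp (-(x - c) ^ 2 / 8) * Real.exp (-(1 / 8) * (x + v) ^ 2) := by
        refine intervalIntegral.integral_mono_on (by linarith)
          (Continuous.intervalIntegrable (by fun_prop) _ _)
          (Continuous.intervalIntegrable (by fun_prop) _ _) fun v hv => ?_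
        unfold ga
        rw [← Real.exp_add]
        apply Real.exp_le_exp.2
        have h5 : (x - c) ^ 2 ≤ (x + v) ^ 2 :=
          pow_le_pow_left₀ (by linarith) (by linarith [hv.1]) 2
        linarith
    _ = Real.exp (-(x - c) ^ 2 / 8) * ∫ v in (-c)..c, Real.exp (-(1 / 8) * (x + v) ^ 2) :=
        intervalIntegral.integral_const_mul _ _
    _ ≤ Real.exp (-(x - c) ^ 2 / 8) * Real.sqrt (8 * Real.pi) := by
        refine mul_le_mul_of_nonneg_left ?_ (Real.exp_pos _).le
        rw [intervalIntegral.integral_of_le (by linarith), ← h4]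
        exact setIntegral_le_integral h3 (Filter.Eventually.of_forall fun v => (Real.exp_pos _).le)
    _ = _ := mul_comm _ _

/-- the `L²`-norm -/
lemma Gg_l2 (M : ℕ) {h : ℝ} (hh : 0 < h) {c : ℝ} (hc : 0 < c) {L : ℝ} (hL : 0 ≤ L) :
    ∫ u in (0 : ℝ)..L, Gg M h c u ^ 2 ≤ 2 * h := by
  have hpi := Real.pi_pos
  have h1 := gh_cont M h c
  have h2 := ga_cont
  have h3 := Gg_cont M h c
  have e1 : ∫ u in (-L)..L, Gg M h c u ^ 2 = 2 * ∫ u in (0 : ℝ)..L, Gg M h c u ^ 2 := by
    rw [← intervalIntegral.integral_add_adjacent_intervals (b := 0)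
      (Continuous.intervalIntegrable (by fun_prop) _ _)
      (Continuous.intervalIntegrable (by fun_prop) _ _)]
    have h5 : ∫ u in (-L)..0, Gg M h c u ^ 2 = ∫ u in (0 : ℝ)..L, Gg M h c u ^ 2 := by
      have := intervalIntegral.integral_comp_neg (a := (0 : ℝ)) (b := L) (fun u => Gg M h c u ^ 2)
      simp_rw [Gg_even] at this
      rw [neg_zero] at this
      exact this.symm
    rw [h5]
    ring
  have h4 : ∫ u in (-L)..L, Gg M h c u ^ 2 ≤
      ∫ u in (-L)..L, 2 * Real.sqrt Real.pi * ∫ v in (-c)..c, gh M h c v ^ 2 * ga (u + v) := by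
    refine intervalIntegral.integral_mono_on (by linarith)
      (Continuous.intervalIntegrable (by fun_prop) _ _) (Continuous.intervalIntegrable ?_ _ _)
      fun u _ => Gg_sq M h hc u
    exact continuous_const.mul
      (intervalIntegral.continuous_parametric_intervalIntegral_of_continuous' (by fun_prop) _ _)
  rw [intervalIntegral.integral_const_mul, swap_cont (by fun_prop)] at h4
  have h5 : ∫ v in (-c)..c, ∫ u in (-L)..L, gh M h c v ^ 2 * ga (u + v) ≤
      ∫ v in (-c)..c, 2 * Real.sqrt Real.pi * gh M h c v ^ 2 := by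
    refine intervalIntegral.integral_mono_on (by linarith) (Continuous.intervalIntegrable ?_ _ _)
      (Continuous.intervalIntegrable (by fun_prop) _ _) fun v _ => ?_
    · exact intervalIntegral.continuous_parametric_intervalIntegral_of_continuous' (by fun_prop) _ _
    · rw [intervalIntegral.integral_const_mul, mul_comm]
      refine mul_le_mul_of_nonneg_right ?_ (sq_nonneg _)
      have := ga_ii v (a := -L) (b := L) (by linarith)
      simp_rw [add_comm v] at this
      exact this
  rw [intervalIntegral.integral_const_mul] at h5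
  have h6 := gh_sq_le M hh hc.le
  have hs : Real.sqrt Real.pi * Real.sqrt Real.pi = Real.pi := Real.mul_self_sqrt hpi.le
  have h7 : ∫ u in (-L)..L, Gg M h c u ^ 2 ≤ 4 * h := by
    calc _ ≤ _ := h4
      _ ≤ 2 * Real.sqrt Real.pi * (2 * Real.sqrt Real.pi * ∫ v in (-c)..c, gh M h c v ^ 2) :=
          mul_le_mul_of_nonneg_left h5 (by positivity)
      _ ≤ 2 * Real.sqrt Real.pi * (2 * Real.sqrt Real.pi * (h / Real.pi)) := by gcongr
      _ = 4 * (Real.sqrt Real.pi * Real.sqrt Real.pi) * (h / Real.pi) := by ring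
      _ = _ := by
          rw [hs]
          field_simp
  linarith

/-- the value at the origin -/
lemma Gg_zero (M : ℕ) (κ η : ℝ) (hη : 0 < η) :
    Tendsto (fun L : ℝ => L * Gg M (κ / L) (η * L) 0) atTop
      (𝓝 (κ / Real.pi * (2 * Real.sqrt Real.pi))) := by
  have h1 := sn_cont
  have h2 := bf_cont M
  have h3 := ga_cont
  have e : ∀ᶠ L : ℝ in atTop, ∫ v : ℝ, Set.indicator (Ioc (-(η * L)) (η * L))
      (fun v => κ / Real.pi * (sn (κ / L * v) * bf M (v / (η * L))) * ga v) v =
      L * Gg M (κ / L) (η * L) 0 := by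
    filter_upwards [eventually_gt_atTop 0] with L hL
    have hηL : 0 < η * L := by positivity
    rw [integral_indicator measurableSet_Ioc]
    unfold Gg
    rw [intervalIntegral.integral_of_le (by linarith), ← integral_const_mul]
    refine integral_congr_ae (Filter.Eventually.of_forall fun v => ?_)
    simp only
    unfold gh
    rw [zero_add]
    field_simp
  refine Tendsto.congr' e ?_
  have hlim : κ / Real.pi * (2 * Real.sqrt Real.pi) = ∫ v : ℝ, κ / Real.pi * (1 * 1) * ga v := by
    rw [integral_const_mul]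
    have := ga_integral 0
    simp only [zero_add] at this
    rw [this]
    ring
  rw [hlim]
  refine tendsto_integral_filter_of_dominated_convergence (fun v => |κ / Real.pi| * ga v) ?_ ?_ ?_ ?_
  · refine Filter.Eventually.of_forall fun L => ?_
    exact (Continuous.aestronglyMeasurable (by fun_prop)).indicator measurableSet_Ioc
  · refine Filter.Eventually.of_forall fun L => Filter.Eventually.of_forall fun v => ?_
    refine (norm_indicator_le_norm_self _ _).trans ?_
    rw [Real.norm_eq_abs, abs_mul, abs_mul, abs_of_pos (ga_pos v)]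
    refine mul_le_mul_of_nonneg_right ?_ (ga_pos v).le
    have h4 : |sn (κ / L * v) * bf M (v / (η * L))| ≤ 1 := by
      rw [abs_mul, abs_of_nonneg (bf_nonneg M _)]
      exact mul_le_one₀ (sn_le _) (bf_nonneg M _) (bf_le M _)
    calc |κ / Real.pi| * |sn (κ / L * v) * bf M (v / (η * L))| ≤ |κ / Real.pi| * 1 :=
          mul_le_mul_of_nonneg_left h4 (abs_nonneg _)
      _ = _ := mul_one _
  · have := ga_int 0
    simp only [zero_add] at this
    exact this.const_mul _
  · refine Filter.Eventually.of_forall fun v => ?_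
    have t1 : Tendsto (fun L : ℝ => κ / L * v) atTop (𝓝 0) := by
      have := (tendsto_inv_atTop_zero (𝕜 := ℝ)).const_mul (κ * v)
      rw [mul_zero] at this
      refine this.congr fun L => ?_
      ring
    have t2 : Tendsto (fun L : ℝ => v / (η * L)) atTop (𝓝 0) := by
      have := (tendsto_inv_atTop_zero (𝕜 := ℝ)).const_mul (v / η)
      rw [mul_zero] at this
      refine this.congr fun L => ?_
      field_simp
    have t3 := (h1.tendsto 0).comp t1
    have t4 := (h2.tendsto 0).comp t2
    rw [sn_zero] at t3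
    rw [bf_zero] at t4
    have t5 := ((t3.mul t4).const_mul (κ / Real.pi)).mul_const (ga v)
    refine t5.congr' ?_
    filter_upwards [eventually_gt_atTop (|v| / η)] with L hL
    rw [Set.indicator_of_mem]
    · rfl
    · rw [div_lt_iff₀ hη] at hL
      have h5 := abs_lt.1 (show |v| < η * L by linarith)
      exact ⟨h5.1, h5.2.le⟩

end Pool.Agent.KS6_85.LZ
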