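import Pool.Agent.KS6_85.LZ.EFX
import Pool.Agent.KS6_85.LZ.Gau
import Pool.Graph.R_seed8.H385R2.PerChi

/-!
# The explicit formula for the windowed sum over the zeros
-/

set_option autoImplicit false
set_option maxHeartbeats 1000000

open Complex Filter Topology Set MeasureTheory
open scoped ComplexConjugate
open H370 (mult)
open H385 (PP1 zz)
open H385.PerChi (zz_spec zz_refl zz_inj zz_re zz_im)
open W388 (CoefE)

namespace Pool.Agent.KS6_85.LZ

lemma zc_refl {A ℒ E H q0 : ℝ} {F : ℂ → ℂ} {a : ℕ → ℂ} (hF : GoodX A ℒ E H q0 F a) {U1 U2 : ℝ}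
    {s : ℂ} (hs : s ∈ zc F U1 U2) : 1 - conj s ∈ zc F U1 U2 := by
  obtain ⟨h1, h2, h3, h4, h5⟩ := hs
  have him : (1 - conj s).im = s.im := by simp
  have hre : (1 - conj s).re = 1 - s.re := by simp
  refine ⟨by rw [hre]; linarith, by rw [hre]; linarith, by rw [him]; exact h3,
    by rw [him]; exact h4, ?_⟩
  have ha : AnalyticAt ℂ F s := hF.diff.analyticAt s
  have hb : AnalyticAt ℂ F (1 - conj s) := hF.diff.analyticAt _
  have h6 := hF.symm s h1 h2
  have h7 : analyticOrderAt F s ≠ 0 := ha.analyticOrderAt_ne_zero.mpr h5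
  rw [← h6] at h7
  exact hb.analyticOrderAt_ne_zero.mp h7

lemma mult_refl {A ℒ E H q0 : ℝ} {F : ℂ → ℂ} {a : ℕ → ℂ} (hF : GoodX A ℒ E H q0 F a)
    {s : ℂ} (h1 : 0 ≤ s.re) (h2 : s.re ≤ 1) : mult F (1 - conj s) = mult F s := by
  unfold H370.mult analyticOrderNatAt
  rw [hF.symm s h1 h2]

lemma sum_zc {A ℒ E H q0 : ℝ} {F : ℂ → ℂ} {a : ℕ → ℂ} (hF : GoodX A ℒ E H q0 F a) {U1 U2 : ℝ}
    (hfin : (zc F U1 U2).Finite) {M : Type} [AddCommMonoid M] (g : ℂ → M) :
    ∑ s ∈ hfin.toFinset, g (1 - conj s) = ∑ s ∈ hfin.toFinset, g s := by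
  refine Finset.sum_nbij' (fun s => 1 - conj s) (fun s => 1 - conj s) ?_ ?_ ?_ ?_ ?_
  · intro s hs
    rw [Set.Finite.mem_toFinset] at hs ⊢
    exact zc_refl hF hs
  · intro s hs
    rw [Set.Finite.mem_toFinset] at hs ⊢
    exact zc_refl hF hs
  · intro s _; simp
  · intro s _; simp
  · intro s _; rfl

lemma AX_sum (F : ℂ → ℂ) {V1 V2 : ℝ} (hfin : (zc F V1 V2).Finite) (u m : ℝ) :
    AX F V1 V2 u m = ∑ s ∈ hfin.toFinset, (mult F s : ℂ) *
      (cexp (I * u * zz s) * cexp (-(zz s - m) ^ 2)) := by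
  unfold AX
  exact finsum_mem_eq_finite_toFinset_sum _ hfin

lemma AX_conj {A ℒ E H q0 : ℝ} {F : ℂ → ℂ} {a : ℕ → ℂ} (hF : GoodX A ℒ E H q0 F a) (V1 V2 u m : ℝ) :
    AX F V1 V2 (-u) m = conj (AX F V1 V2 u m) := by
  have hfin := zfin hF V1 V2
  rw [AX_sum F hfin, AX_sum F hfin, map_sum, ← sum_zc hF hfin]
  refine Finset.sum_congr rfl fun s hs => ?_
  rw [Set.Finite.mem_toFinset] at hs
  rw [mult_refl hF hs.1 hs.2.1, map_mul, map_mul, Complex.conj_natCast, ← Complex.exp_conj,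
    ← Complex.exp_conj, zz_refl]
  congr 3
  · simp
  · simp

lemma AX_cont {F : ℂ → ℂ} {V1 V2 : ℝ} (hfin : (zc F V1 V2).Finite) (m : ℝ) :
    Continuous (fun u : ℝ => AX F V1 V2 u m) := by
  simp_rw [AX_sum F hfin]
  fun_prop

/-! ### the prime sum at negative arguments -/

lemma term_norm (a : ℕ → ℂ) (u m : ℝ) (n : ℕ) :
    ‖a n * (Real.sqrt n : ℂ)⁻¹ * cexp (I * m * (u - Real.log n)) *
      Real.exp (-(u - Real.log n) ^ 2 / 4)‖ ≤
    ‖a n‖ * ((Real.sqrt n)⁻¹ * Real.exp (-(u - Real.log n) ^ 2 / 4)) :=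
  W388.norm_PP1_term_E a u m n

lemma PP1_neg {A ℒ E H q0 : ℝ} {F : ℂ → ℂ} {a : ℕ → ℂ} (hF : GoodX A ℒ E H q0 F a) {w : ℝ}
    (_hw : 0 ≤ w) (m : ℝ) : ‖PP1 a (-w) m‖ ≤ A * Real.exp 1 * Real.exp (-(3 / 4) * w) := by
  unfold H385.PP1
  have h1 : ∀ n : ℕ, ‖a n * (Real.sqrt n : ℂ)⁻¹ * cexp (I * m * (((-w : ℝ) : ℂ) - Real.log n)) *
      Real.exp (-(-w - Real.log n) ^ 2 / 4)‖ ≤
      ‖a n‖ * (n : ℝ) ^ (-(5 / 4) : ℝ) * (Real.exp 1 * Real.exp (-(3 / 4) * w)) := by
    intro n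
    refine (term_norm a (-w) m n).trans ?_
    rw [mul_assoc]
    refine mul_le_mul_of_nonneg_left ?_ (norm_nonneg _)
    rcases Nat.eq_zero_or_pos n with h | h
    · subst h
      have : (0 : ℝ) ^ (-(5 / 4) : ℝ) = 0 := Real.zero_rpow (by norm_num)
      simp [this]
    · have hn : (0 : ℝ) < n := by exact_mod_cast h
      have h1 : (Real.sqrt n)⁻¹ = Real.exp (-(1 / 2) * Real.log n) := by
        rw [Real.sqrt_eq_rpow, ← Real.rpow_neg hn.le, Real.rpow_def_of_pos hn]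
        congr 1; ring
      have h2 : (n : ℝ) ^ (-(5 / 4) : ℝ) = Real.exp (-(5 / 4) * Real.log n) := by
        rw [Real.rpow_def_of_pos hn]
        congr 1; ring
      rw [h1, h2, ← Real.exp_add, ← Real.exp_add, ← Real.exp_add]
      apply Real.exp_le_exp.mpr
      nlinarith [sq_nonneg ((w + Real.log n) / 2 - 3 / 4)]
  refine (tsum_of_norm_bounded (hF.has.mul_right _).hasSum h1).trans ?_
  rw [tsum_mul_right, mul_assoc A]
  exact mul_le_mul_of_nonneg_right hF.ha (by positivity)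

/-- the main term of the explicit formula -/
noncomputable def MX (a : ℕ → ℂ) (q0 m u : ℝ) : ℂ :=
  (1 / (2 * Real.sqrt Real.pi) : ℝ) * (((q0 : ℝ) : ℂ) * cexp (I * m * u) * Real.exp (-u ^ 2 / 4) -
    PP1 a u m - conj (PP1 a (-u) m))

lemma MX_conj (a : ℕ → ℂ) (q0 m u : ℝ) : MX a q0 m (-u) = conj (MX a q0 m u) := by
  unfold MX
  rw [map_mul, conj_ofReal, map_sub, map_sub, map_mul, map_mul, conj_ofReal, conj_ofReal,
    ← Complex.exp_conj, Complex.conj_conj, neg_neg, neg_sq]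
  have e : conj (I * m * u) = I * m * ((-u : ℝ) : ℂ) := by simp
  rw [e]
  ring

/-- **the explicit formula** for all real arguments -/
theorem AX_full (A : ℝ) (hA : 1 ≤ A) :
    ∃ C : ℝ, 0 < C ∧
    ∀ (ℒ E H q0 : ℝ) (F : ℂ → ℂ) (a : ℕ → ℂ), GoodX A ℒ E H q0 F a →
    ∀ m κ : ℝ, 3 ≤ κ → |m| + κ + 7 ≤ H →
    ∃ V1 V2 : ℝ, m - κ - 1 ≤ V1 ∧ V1 ≤ m - κ ∧ m + κ ≤ V2 ∧ V2 ≤ m + κ + 1 ∧
      ∀ u : ℝ, ‖AX F V1 V2 u m - MX a q0 m u‖ ≤
        C * (E * Real.exp (-(1 / 4) * |u|) + ℒ ^ 2 * Real.exp (|u| - κ ^ 2 / 2)) := by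
  obtain ⟨C, hC, hf⟩ := AX_formula A hA
  refine ⟨C + A * Real.exp 1, by positivity, ?_⟩
  intro ℒ E H q0 F a hF m κ hκ hH
  obtain ⟨V1, V2, v1, v2, v3, v4, hv⟩ := hf ℒ E H q0 F a hF m κ hκ hH
  refine ⟨V1, V2, v1, v2, v3, v4, ?_⟩
  have hpos : ∀ u : ℝ, 0 ≤ u → ‖AX F V1 V2 u m - MX a q0 m u‖ ≤
      (C + A * Real.exp 1) * (E * Real.exp (-(1 / 4) * u) + ℒ ^ 2 * Real.exp (u - κ ^ 2 / 2)) := by
    intro u hu
    have h1 := hv u hu
    have h2 : ‖PP1 a (-u) m‖ ≤ A * Real.exp 1 * Real.exp (-(1 / 4) * u) :=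
      (PP1_neg hF hu m).trans (by gcongr; linarith)
    have hE := hF.hE
    have hs : (0 : ℝ) < Real.sqrt Real.pi := Real.sqrt_pos.2 Real.pi_pos
    have hs1 : (1 : ℝ) / (2 * Real.sqrt Real.pi) ≤ 1 := by
      rw [div_le_one (by positivity)]
      have : (1 : ℝ) ≤ Real.sqrt Real.pi := by
        rw [Real.one_le_sqrt]
        linarith [Real.pi_gt_three]
      linarith
    have e1 : AX F V1 V2 u m - MX a q0 m u =
        (AX F V1 V2 u m - (1 / (2 * Real.sqrt Real.pi) : ℝ) *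
          (((q0 : ℝ) : ℂ) * cexp (I * m * u) * Real.exp (-u ^ 2 / 4) - PP1 a u m)) +
        (1 / (2 * Real.sqrt Real.pi) : ℝ) * conj (PP1 a (-u) m) := by
      unfold MX
      ring
    have h3 : ‖((1 / (2 * Real.sqrt Real.pi) : ℝ) : ℂ) * conj (PP1 a (-u) m)‖ ≤
        A * Real.exp 1 * (E * Real.exp (-(1 / 4) * u)) := by
      rw [norm_mul, Complex.norm_real, Real.norm_of_nonneg (by positivity), RCLike.norm_conj]
      calc 1 / (2 * Real.sqrt Real.pi) * ‖PP1 a (-u) m‖ ≤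
            1 * (A * Real.exp 1 * Real.exp (-(1 / 4) * u)) :=
            mul_le_mul hs1 h2 (norm_nonneg _) zero_le_one
        _ = A * Real.exp 1 * (1 * Real.exp (-(1 / 4) * u)) := by ring
        _ ≤ _ := by gcongr
    rw [e1]
    refine (norm_add_le _ _).trans ((add_le_add h1 h3).trans ?_)
    have h4 : 0 ≤ A * Real.exp 1 * (ℒ ^ 2 * Real.exp (u - κ ^ 2 / 2)) := by positivity
    linarith
  intro u
  rcases le_total 0 u with hu | hu
  · rw [abs_of_nonneg hu]
    exact hpos u hu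
  · rw [abs_of_nonpos hu]
    have h1 := hpos (-u) (by linarith)
    have h2 : AX F V1 V2 u m - MX a q0 m u = conj (AX F V1 V2 (-u) m - MX a q0 m (-u)) := by
      rw [map_sub, ← AX_conj hF, ← MX_conj, neg_neg]
    rw [h2, RCLike.norm_conj]
    exact h1

/-! ### the windowed sums -/

/-- the windowed sum over the zeros -/
noncomputable def SX (F : ℂ → ℂ) (V1 V2 : ℝ) (M : ℕ) (h c m u : ℝ) : ℂ :=
  ∑ᶠ s ∈ zc F V1 V2, (mult F s : ℂ) * (gg M h c (zz s - m) * cexp (-(zz s - m) ^ 2)) *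
    cexp (I * u * zz s)

lemma SX_sum (F : ℂ → ℂ) {V1 V2 : ℝ} (hfin : (zc F V1 V2).Finite) (M : ℕ) (h c m u : ℝ) :
    SX F V1 V2 M h c m u = ∑ s ∈ hfin.toFinset, (mult F s : ℂ) *
      (gg M h c (zz s - m) * cexp (-(zz s - m) ^ 2)) * cexp (I * u * zz s) := by
  unfold SX
  exact finsum_mem_eq_finite_toFinset_sum _ hfin

lemma SX_int {F : ℂ → ℂ} {V1 V2 : ℝ} (hfin : (zc F V1 V2).Finite) (M : ℕ) {h c : ℝ} (hc : 0 < c)
    (m u : ℝ) : SX F V1 V2 M h c m u =
      ∫ v in (-c)..c, ((gh M h c v : ℝ) : ℂ) * cexp (-(I * m * v)) * AX F V1 V2 (u + v) m := by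
  have h1 := gh_cont M h c
  rw [SX_sum F hfin]
  simp_rw [AX_sum F hfin, Finset.mul_sum]
  rw [intervalIntegral.integral_finsetSum (fun s _ => Continuous.intervalIntegrable (by fun_prop) _ _)]
  refine Finset.sum_congr rfl fun s _ => ?_
  rw [gg_rep M hc]
  have e : ∀ v : ℝ, ((gh M h c v : ℝ) : ℂ) * cexp (-(I * m * v)) * ((mult F s : ℂ) *
      (cexp (I * ((u + v : ℝ) : ℂ) * zz s) * cexp (-(zz s - m) ^ 2))) =
      ((mult F s : ℂ) * cexp (-(zz s - m) ^ 2) * cexp (I * u * zz s)) *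
        (((gh M h c v : ℝ) : ℂ) * cexp (I * v * (zz s - m))) := by
    intro v
    have e1 : I * ((u + v : ℝ) : ℂ) * zz s = I * u * zz s + (I * m * v + I * v * (zz s - m)) := by
      push_cast
      ring
    rw [e1, Complex.exp_add, Complex.exp_add]
    have e2 : cexp (-(I * m * v)) * cexp (I * m * v) = 1 := by
      rw [← Complex.exp_add, neg_add_cancel, Complex.exp_zero]
    linear_combination (((gh M h c v : ℝ) : ℂ) * (mult F s : ℂ) * cexp (I * u * zz s) *
      cexp (I * v * (zz s - m)) * cexp (-(zz s - m) ^ 2)) * e2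
  simp_rw [e]
  rw [intervalIntegral.integral_const_mul]
  ring

/-- the windowed sum over the primes -/
noncomputable def QF (a : ℕ → ℂ) (M : ℕ) (h c m w : ℝ) : ℂ :=
  ∫ v in (-c)..c, ((gh M h c v : ℝ) : ℂ) * cexp (-(I * m * v)) * PP1 a (w + v) m

lemma PP1_cont {A : ℝ} {a : ℕ → ℂ} (ha : CoefE A a) (m : ℝ) : Continuous (fun u : ℝ => PP1 a u m) := by
  rw [continuous_iff_continuousAt]
  intro u0
  have h1 : ContinuousOn (fun u : ℝ => PP1 a u m) (Iio (u0 + 1)) := by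
    unfold H385.PP1
    refine continuousOn_tsum (fun n => by fun_prop) (ha.sm.mul_left (Real.exp (u0 + 1 + 1)))
      fun n u hu => ?_
    refine (term_norm a u m n).trans ?_
    have h2 := W388.gauss_pow u n
    have h3 : Real.exp (u + 1) ≤ Real.exp (u0 + 1 + 1) := Real.exp_le_exp.2 (by
      have : u < u0 + 1 := hu
      linarith)
    calc ‖a n‖ * ((Real.sqrt n)⁻¹ * Real.exp (-(u - Real.log n) ^ 2 / 4)) ≤
          ‖a n‖ * (Real.exp (u0 + 1 + 1) * (n : ℝ) ^ (-(3 / 2) : ℝ)) := by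
          refine mul_le_mul_of_nonneg_left (h2.trans ?_) (norm_nonneg _)
          exact mul_le_mul_of_nonneg_right h3 (by positivity)
      _ = _ := by ring
  exact h1.continuousAt (Iio_mem_nhds (by linarith))

/-- the coefficients of the windowed sum over the primes -/
noncomputable def xq (M : ℕ) (h c m w : ℝ) (n : ℕ) : ℂ :=
  (Real.sqrt n : ℂ)⁻¹ * (cexp (I * m * (w - Real.log n)) * (Gg M h c (w - Real.log n) : ℝ))

lemma QF_tsum {A : ℝ} {a : ℕ → ℂ} (ha : CoefE A a) (M : ℕ) {h : ℝ} (hh : 0 ≤ h) {c : ℝ}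
    (hc : 0 ≤ c) (m w : ℝ) : QF a M h c m w = ∑' n : ℕ, a n * xq M h c m w n := by
  have h1 := gh_cont M h c
  have e1 : ∀ v : ℝ, ((gh M h c v : ℝ) : ℂ) * cexp (-(I * m * v)) * PP1 a (w + v) m =
      ∑' n : ℕ, ((gh M h c v : ℝ) : ℂ) * cexp (-(I * m * v)) *
        (a n * (Real.sqrt n : ℂ)⁻¹ * cexp (I * m * (((w + v : ℝ) : ℂ) - Real.log n)) *
          Real.exp (-(w + v - Real.log n) ^ 2 / 4)) := by
    intro v
    rw [tsum_mul_left]
    rfl
  unfold QF
  simp_rw [e1]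
  have hb : ∀ (n : ℕ) (v : ℝ), v ∈ Set.uIoc (-c) c →
      ‖((gh M h c v : ℝ) : ℂ) * cexp (-(I * m * v)) *
        (a n * (Real.sqrt n : ℂ)⁻¹ * cexp (I * m * (((w + v : ℝ) : ℂ) - Real.log n)) *
          Real.exp (-(w + v - Real.log n) ^ 2 / 4))‖ ≤
      h / Real.pi * (Real.exp (w + c + 1) * (‖a n‖ * (n : ℝ) ^ (-(3 / 2) : ℝ))) := by
    intro n v hv
    rw [uIoc_of_le (by linarith)] at hv
    have hpi := Real.pi_pos
    have h2 := term_norm a (w + v) m n
    have h3 := W388.gauss_pow (w + v) n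
    have h4 : ‖cexp (-(I * m * v))‖ = 1 := by
      rw [show -(I * m * v) = ((-(m * v) : ℝ) : ℂ) * I by push_cast; ring,
        Complex.norm_exp_ofReal_mul_I]
    rw [norm_mul, norm_mul, h4, mul_one, Complex.norm_real, Real.norm_eq_abs]
    refine mul_le_mul (gh_le M hh c v) ?_ (norm_nonneg _) (by positivity)
    refine h2.trans ?_
    have h5 : Real.exp (w + v + 1) ≤ Real.exp (w + c + 1) := Real.exp_le_exp.2 (by linarith [hv.2])
    calc ‖a n‖ * ((Real.sqrt n)⁻¹ * Real.exp (-(w + v - Real.log n) ^ 2 / 4)) ≤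
          ‖a n‖ * (Real.exp (w + c + 1) * (n : ℝ) ^ (-(3 / 2) : ℝ)) := by
          refine mul_le_mul_of_nonneg_left (h3.trans ?_) (norm_nonneg _)
          exact mul_le_mul_of_nonneg_right h5 (by positivity)
      _ = _ := by ring
  have hsum : Summable fun n : ℕ =>
      h / Real.pi * (Real.exp (w + c + 1) * (‖a n‖ * (n : ℝ) ^ (-(3 / 2) : ℝ))) :=
    (ha.sm.mul_left _).mul_left _
  have key := intervalIntegral.hasSum_integral_of_dominated_convergence (μ := volume)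
    (a := -c) (b := c)
    (F := fun (n : ℕ) (v : ℝ) => ((gh M h c v : ℝ) : ℂ) * cexp (-(I * m * v)) *
        (a n * (Real.sqrt n : ℂ)⁻¹ * cexp (I * m * (((w + v : ℝ) : ℂ) - Real.log n)) *
          Real.exp (-(w + v - Real.log n) ^ 2 / 4)))
    (f := fun v => ∑' n : ℕ, ((gh M h c v : ℝ) : ℂ) * cexp (-(I * m * v)) *
        (a n * (Real.sqrt n : ℂ)⁻¹ * cexp (I * m * (((w + v : ℝ) : ℂ) - Real.log n)) *
          Real.exp (-(w + v - Real.log n) ^ 2 / 4)))
    (fun n _ => h / Real.pi * (Real.exp (w + c + 1) * (‖a n‖ * (n : ℝ) ^ (-(3 / 2) : ℝ))))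
    (fun n => Continuous.aestronglyMeasurable (by fun_prop))
    (fun n => Eventually.of_forall fun v hv => hb n v hv)
    (Eventually.of_forall fun v _ => hsum) intervalIntegrable_const
    (Eventually.of_forall fun v hv => (Summable.of_norm_bounded hsum fun n => hb n v hv).hasSum)
  rw [← key.tsum_eq]
  refine tsum_congr fun n => ?_
  have e2 : ∀ v : ℝ, ((gh M h c v : ℝ) : ℂ) * cexp (-(I * m * v)) *
        (a n * (Real.sqrt n : ℂ)⁻¹ * cexp (I * m * (((w + v : ℝ) : ℂ) - Real.log n)) *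
          Real.exp (-(w + v - Real.log n) ^ 2 / 4)) =
      (a n * (Real.sqrt n : ℂ)⁻¹ * cexp (I * m * (w - Real.log n))) *
        ((gh M h c v * ga (w - Real.log n + v) : ℝ) : ℂ) := by
    intro v
    have e3 : I * m * (((w + v : ℝ) : ℂ) - Real.log n) = I * m * v + I * m * (w - Real.log n) := by
      push_cast
      ring
    have e4 : cexp (-(I * m * v)) * cexp (I * m * v) = 1 := by
      rw [← Complex.exp_add, neg_add_cancel, Complex.exp_zero]
    have e5 : Real.exp (-(w + v - Real.log n) ^ 2 / 4) = ga (w - Real.log n + v) := by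
      unfold ga
      congr 1
      ring
    rw [e3, Complex.exp_add, e5, Complex.ofReal_mul]
    linear_combination (((gh M h c v : ℝ) : ℂ) * (a n * (Real.sqrt n : ℂ)⁻¹ *
      cexp (I * m * (w - Real.log n))) * (ga (w - Real.log n + v) : ℂ)) * e4
  simp_rw [e2]
  rw [intervalIntegral.integral_const_mul, intervalIntegral.integral_ofReal]
  unfold xq Gg
  ring

lemma int_exp_abs (u : ℝ) {c : ℝ} (hc : 0 ≤ c) :
    ∫ v in (-c)..c, Real.exp (-(1 / 4) * |u + v|) ≤ 32 * Real.pi := by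
  have h1 : ∀ x : ℝ, Real.exp (-(1 / 4) * |x|) ≤ 32 * (1 + x ^ 2)⁻¹ := by
    intro x
    have h2 := Real.quadratic_le_exp_of_nonneg (show 0 ≤ 1 / 4 * |x| by positivity)
    have h3 : |x| ^ 2 = x ^ 2 := sq_abs x
    rw [← div_eq_mul_inv, le_div_iff₀ (by positivity), show -(1 / 4) * |x| = -(1 / 4 * |x|) by ring,
      Real.exp_neg, inv_mul_le_iff₀ (Real.exp_pos _)]
    have := abs_nonneg x
    nlinarith
  have h2 : Integrable (fun v : ℝ => 32 * (1 + (u + v) ^ 2)⁻¹) :=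
    (integrable_inv_one_add_sq.comp_add_left u).const_mul _
  calc ∫ v in (-c)..c, Real.exp (-(1 / 4) * |u + v|) ≤ ∫ v in (-c)..c, 32 * (1 + (u + v) ^ 2)⁻¹ := by
        refine intervalIntegral.integral_mono_on (by linarith)
          (Continuous.intervalIntegrable (by fun_prop) _ _) h2.intervalIntegrable fun v _ => h1 _
    _ ≤ ∫ v : ℝ, 32 * (1 + (u + v) ^ 2)⁻¹ := by
        rw [intervalIntegral.integral_of_le (by linarith)]
        exact setIntegral_le_integral h2 (Filter.Eventually.of_forall fun v => by positivity)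
    _ = 32 * Real.pi := by
        rw [integral_const_mul, integral_add_left_eq_self (fun v : ℝ => (1 + v ^ 2)⁻¹) u,
          integral_univ_inv_one_add_sq]

lemma MX_int {A : ℝ} {a : ℕ → ℂ} (ha : CoefE A a) (M : ℕ) (h c q0 m u : ℝ) :
    ∫ v in (-c)..c, ((gh M h c v : ℝ) : ℂ) * cexp (-(I * m * v)) * MX a q0 m (u + v) =
      (1 / (2 * Real.sqrt Real.pi) : ℝ) * (((q0 : ℝ) : ℂ) * cexp (I * m * u) * (Gg M h c u : ℝ) -
        QF a M h c m u - conj (QF a M h c m (-u))) := by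
  have h1 := gh_cont M h c
  have h2 := PP1_cont ha m
  have h3 := ga_cont
  have e : ∀ v : ℝ, ((gh M h c v : ℝ) : ℂ) * cexp (-(I * m * v)) * MX a q0 m (u + v) =
      ((1 / (2 * Real.sqrt Real.pi) : ℝ) : ℂ) * ((((q0 : ℝ) : ℂ) * cexp (I * m * u)) *
        ((gh M h c v * ga (u + v) : ℝ) : ℂ) -
        ((gh M h c v : ℝ) : ℂ) * cexp (-(I * m * v)) * PP1 a (u + v) m -
        ((gh M h c v : ℝ) : ℂ) * cexp (-(I * m * v)) * conj (PP1 a (-(u + v)) m)) := by
    intro v
    unfold MX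
    have e3 : I * m * ((u + v : ℝ) : ℂ) = I * m * v + I * m * u := by
      push_cast
      ring
    have e4 : cexp (-(I * m * v)) * cexp (I * m * v) = 1 := by
      rw [← Complex.exp_add, neg_add_cancel, Complex.exp_zero]
    rw [e3, Complex.exp_add]
    unfold ga
    push_cast
    linear_combination (((gh M h c v : ℝ) : ℂ) * (1 / (2 * (Real.sqrt Real.pi : ℂ))) * (q0 : ℂ) *
      cexp (I * m * u) * cexp (-((u : ℂ) + v) ^ 2 / 4)) * e4
  simp_rw [e]
  have c1 : Continuous fun v : ℝ => (((q0 : ℝ) : ℂ) * cexp (I * m * u)) *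
        ((gh M h c v * ga (u + v) : ℝ) : ℂ) := by fun_prop
  have c2 : Continuous fun v : ℝ => ((gh M h c v : ℝ) : ℂ) * cexp (-(I * m * v)) *
      PP1 a (u + v) m := by
    have : Continuous fun v : ℝ => PP1 a (u + v) m := h2.comp (by fun_prop)
    fun_prop
  have c3 : Continuous fun v : ℝ => ((gh M h c v : ℝ) : ℂ) * cexp (-(I * m * v)) *
      conj (PP1 a (-(u + v)) m) := by
    have : Continuous fun v : ℝ => PP1 a (-(u + v)) m := h2.comp (by fun_prop)
    have h4 : Continuous fun v : ℝ => conj (PP1 a (-(u + v)) m) :=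
      Complex.continuous_conj.comp this
    fun_prop
  have c12 : Continuous fun v : ℝ => (((q0 : ℝ) : ℂ) * cexp (I * m * u)) *
        ((gh M h c v * ga (u + v) : ℝ) : ℂ) - ((gh M h c v : ℝ) : ℂ) * cexp (-(I * m * v)) *
      PP1 a (u + v) m := c1.sub c2
  rw [intervalIntegral.integral_const_mul, intervalIntegral.integral_sub
    (c12.intervalIntegrable _ _) (c3.intervalIntegrable _ _),
    intervalIntegral.integral_sub (c1.intervalIntegrable _ _) (c2.intervalIntegrable _ _),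
    intervalIntegral.integral_const_mul, intervalIntegral.integral_ofReal]
  congr 2
  -- the last term
  unfold QF
  have h5 := intervalIntegral.integral_comp_neg (a := -c) (b := c) (fun v : ℝ =>
    ((gh M h c v : ℝ) : ℂ) * cexp (-(I * m * v)) * conj (PP1 a (-(u + v)) m))
  rw [neg_neg] at h5
  rw [← h5]
  rcases le_total (-c) c with hc | hc
  · rw [intervalIntegral.integral_of_le hc, intervalIntegral.integral_of_le hc, ← integral_conj]
    refine integral_congr_ae (Filter.Eventually.of_forall fun v => ?_)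
    simp only [gh_even, map_mul, conj_ofReal, ← Complex.exp_conj, map_neg, conj_I]
    congr 2
    · congr 1
      push_cast
      ring
    · congr 2
      ring
  · rw [intervalIntegral.integral_of_ge hc, intervalIntegral.integral_of_ge hc, map_neg,
      ← integral_conj]
    congr 1
    refine integral_congr_ae (Filter.Eventually.of_forall fun v => ?_)
    simp only [gh_even, map_mul, conj_ofReal, ← Complex.exp_conj, map_neg, conj_I]
    congr 2
    · congr 1
      push_cast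
      ring
    · congr 2
      ring

/-- **the explicit formula for the windowed sum** -/
theorem SX_formula (A : ℝ) (hA : 1 ≤ A) :
    ∃ C : ℝ, 0 < C ∧
    ∀ (ℒ E H q0 : ℝ) (F : ℂ → ℂ) (a : ℕ → ℂ), GoodX A ℒ E H q0 F a →
    ∀ m κ : ℝ, 3 ≤ κ → |m| + κ + 7 ≤ H →
    ∃ V1 V2 : ℝ, m - κ - 1 ≤ V1 ∧ V1 ≤ m - κ ∧ m + κ ≤ V2 ∧ V2 ≤ m + κ + 1 ∧
      ∀ (M : ℕ) (h c u : ℝ), 0 ≤ h → 0 < c →
        ‖SX F V1 V2 M h c m u - (1 / (2 * Real.sqrt Real.pi) : ℝ) *
          (((q0 : ℝ) : ℂ) * cexp (I * m * u) * (Gg M h c u : ℝ) -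
          QF a M h c m u - conj (QF a M h c m (-u)))‖ ≤
        C * h * (E + c * (ℒ ^ 2 * Real.exp (|u| + c - κ ^ 2 / 2))) := by
  obtain ⟨C, hC, hf⟩ := AX_full A hA
  refine ⟨32 * C, by positivity, ?_⟩
  intro ℒ E H q0 F a hF m κ hκ hH
  obtain ⟨V1, V2, v1, v2, v3, v4, hv⟩ := hf ℒ E H q0 F a hF m κ hκ hH
  refine ⟨V1, V2, v1, v2, v3, v4, ?_⟩
  intro M h c u hh hc
  have hfin := zfin hF V1 V2
  have hpi := Real.pi_pos
  have hpi3 := Real.pi_gt_three
  have hE := hF.hE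
  have ha := hF.coef
  have c1 := gh_cont M h c
  have c2 := AX_cont hfin m
  have c3 : Continuous fun v : ℝ => MX a q0 m v := by
    have := PP1_cont ha m
    have h4 : Continuous fun v : ℝ => conj (PP1 a (-v) m) :=
      Complex.continuous_conj.comp (this.comp continuous_neg)
    unfold MX
    fun_prop
  have c4 : Continuous fun v : ℝ => AX F V1 V2 (u + v) m := c2.comp (by fun_prop)
  have c5 : Continuous fun v : ℝ => MX a q0 m (u + v) := c3.comp (by fun_prop)
  rw [← MX_int ha, SX_int hfin M hc, ← intervalIntegral.integral_sub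
    (Continuous.intervalIntegrable (by fun_prop) _ _)
    (Continuous.intervalIntegrable (by fun_prop) _ _)]
  have hle : -c ≤ c := by linarith
  set X : ℝ := ℒ ^ 2 * Real.exp (|u| + c - κ ^ 2 / 2) with hX
  have hX0 : 0 ≤ X := by positivity
  have hb : ∀ v ∈ Ioc (-c) c, ‖((gh M h c v : ℝ) : ℂ) * cexp (-(I * m * v)) *
      AX F V1 V2 (u + v) m - ((gh M h c v : ℝ) : ℂ) * cexp (-(I * m * v)) * MX a q0 m (u + v)‖ ≤
      h / Real.pi * (C * (E * Real.exp (-(1 / 4) * |u + v|) + X)) := by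
    intro v hvc
    have h4 : ‖cexp (-(I * m * v))‖ = 1 := by
      rw [show -(I * m * v) = ((-(m * v) : ℝ) : ℂ) * I by push_cast; ring,
        Complex.norm_exp_ofReal_mul_I]
    rw [← mul_sub, norm_mul, norm_mul, h4, mul_one, Complex.norm_real, Real.norm_eq_abs]
    refine mul_le_mul (gh_le M hh c v) ?_ (norm_nonneg _) (by positivity)
    refine (hv (u + v)).trans ?_
    have h5 : |u + v| ≤ |u| + c := by
      have h6 := abs_add_le u v
      have h7 : |v| ≤ c := abs_le.2 ⟨hvc.1.le, hvc.2⟩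
      linarith
    have h6 : Real.exp (|u + v| - κ ^ 2 / 2) ≤ Real.exp (|u| + c - κ ^ 2 / 2) :=
      Real.exp_le_exp.2 (by linarith)
    rw [hX]
    gcongr
  have hint : Continuous fun v : ℝ => h / Real.pi * (C * (E * Real.exp (-(1 / 4) * |u + v|) + X)) := by
    fun_prop
  refine (intervalIntegral.norm_integral_le_of_norm_le hle (Filter.Eventually.of_forall hb)
    (hint.intervalIntegrable _ _)).trans ?_
  rw [intervalIntegral.integral_const_mul, intervalIntegral.integral_const_mul,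
    intervalIntegral.integral_add (Continuous.intervalIntegrable (by fun_prop) _ _)
      (by simp), intervalIntegral.integral_const_mul, intervalIntegral.integral_const, smul_eq_mul]
  have h5 := int_exp_abs u hc.le
  calc h / Real.pi * (C * (E * (∫ v in (-c)..c, Real.exp (-(1 / 4) * |u + v|)) + (c - -c) * X))
      ≤ h / Real.pi * (C * (E * (32 * Real.pi) + (c - -c) * X)) := by gcongr
    _ = 32 * C * h * E + C * h * (2 * c * X) / Real.pi := by
        field_simp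
        ring
    _ ≤ 32 * C * h * E + C * h * (2 * c * X) / 1 := by gcongr; linarith
    _ ≤ _ := by
        have : 0 ≤ C * h * (c * X) := by positivity
        linarith

end Pool.Agent.KS6_85.LZ
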