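import Pool.Agent.KS6_85.LZ.Sh
import Pool.Agent.KS6_85.LZ.EFS
import Pool.Graph.R_seed8.W388.TW.MeanE3
import Pool.Graph.R_seed8.W388.TW.XNonCop

/-!
# The mean square of the windowed sum over the primes, over the family
-/

set_option autoImplicit false
set_option maxHeartbeats 1000000

open Complex Filter Topology Set MeasureTheory
open H385 (primFamM WM cM)
open W388 (SWu Wu Gqc Tlc SelE MeanC CoefE)

namespace Pool.Agent.KS6_85.LZ


/-- coefficients of the logarithmic derivative of the twist -/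
noncomputable def aT (cf : ℕ → ℂ) (q : ℕ) (χ : DirichletCharacter ℂ q) (n : ℕ) : ℂ :=
  χ (n : ZMod q) * cf n * (ArithmeticFunction.vonMangoldt n : ℂ)

lemma aT_le (cf : ℕ → ℂ) (q : ℕ) (χ : DirichletCharacter ℂ q) (n : ℕ) :
    ‖aT cf q χ n‖ ≤ ArithmeticFunction.vonMangoldt n * ‖cf n‖ := by
  have h0 : 0 ≤ ArithmeticFunction.vonMangoldt n := ArithmeticFunction.vonMangoldt_nonneg
  unfold aT
  rw [norm_mul, norm_mul, Complex.norm_real, Real.norm_of_nonneg h0]
  have h1 := χ.norm_le_one (n : ZMod q)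
  calc ‖χ (n : ZMod q)‖ * ‖cf n‖ * ArithmeticFunction.vonMangoldt n ≤ 1 * ‖cf n‖ * ArithmeticFunction.vonMangoldt n := by gcongr
    _ = _ := by ring

theorem aT_coef {cf : ℕ → ℂ}
    (hsm : Summable (fun n : ℕ => ArithmeticFunction.vonMangoldt n * ‖cf n‖ * (n : ℝ) ^ (-(3 / 2) : ℝ)))
    (q : ℕ) (χ : DirichletCharacter ℂ q) :
    CoefE (∑' n : ℕ, ArithmeticFunction.vonMangoldt n * ‖cf n‖ * (n : ℝ) ^ (-(3 / 2) : ℝ)) (aT cf q χ) := by
  have hle : ∀ n : ℕ, ‖aT cf q χ n‖ * (n : ℝ) ^ (-(3 / 2) : ℝ) ≤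
      ArithmeticFunction.vonMangoldt n * ‖cf n‖ * (n : ℝ) ^ (-(3 / 2) : ℝ) := fun n =>
    mul_le_mul_of_nonneg_right (aT_le cf q χ n) (by positivity)
  have hs : Summable (fun n : ℕ => ‖aT cf q χ n‖ * (n : ℝ) ^ (-(3 / 2) : ℝ)) :=
    Summable.of_nonneg_of_le (fun n => by positivity) hle hsm
  refine ⟨?_, hs, hs.tsum_le_tsum hle hsm⟩
  intro n hn
  unfold aT
  interval_cases n <;> simp

lemma cs_int {f : ℝ → ℝ} (hf : Continuous f) {c : ℝ} (hc : 0 < c) :
    (∫ v in (-c)..c, f v) ^ 2 ≤ 2 * c * ∫ v in (-c)..c, f v ^ 2 := by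
  set I : ℝ := ∫ v in (-c)..c, f v with hI
  have h1 : 0 ≤ ∫ v in (-c)..c, (f v - I / (2 * c)) ^ 2 :=
    intervalIntegral.integral_nonneg (by linarith) fun v _ => sq_nonneg _
  have h2 : ∫ v in (-c)..c, (f v - I / (2 * c)) ^ 2 =
      (∫ v in (-c)..c, f v ^ 2) - 2 * (I / (2 * c)) * I + (I / (2 * c)) ^ 2 * (2 * c) := by
    have e : ∀ v : ℝ, (f v - I / (2 * c)) ^ 2 =
        f v ^ 2 - 2 * (I / (2 * c)) * f v + (I / (2 * c)) ^ 2 := fun v => by ring
    simp_rw [e]
    rw [intervalIntegral.integral_add, intervalIntegral.integral_sub,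
      intervalIntegral.integral_const_mul, intervalIntegral.integral_const, smul_eq_mul, ← hI]
    · ring
    all_goals exact Continuous.intervalIntegrable (by fun_prop) _ _
  rw [h2] at h1
  have h3 : (∫ v in (-c)..c, f v ^ 2) - 2 * (I / (2 * c)) * I + (I / (2 * c)) ^ 2 * (2 * c) =
      (∫ v in (-c)..c, f v ^ 2) - I ^ 2 / (2 * c) := by
    field_simp
    ring
  rw [h3] at h1
  have h4 : I ^ 2 / (2 * c) ≤ ∫ v in (-c)..c, f v ^ 2 := by linarith
  rw [div_le_iff₀ (by positivity)] at h4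
  linarith

lemma xq_norm (M : ℕ) {h : ℝ} (hh : 0 ≤ h) {c : ℝ} (hc : 0 ≤ c) (m w : ℝ) (n : ℕ) :
    ‖xq M h c m w n‖ = (Real.sqrt n)⁻¹ * |Gg M h c (w - Real.log n)| := by
  unfold xq
  rw [norm_mul, norm_mul, norm_inv, Complex.norm_real, Complex.norm_real,
    Real.norm_of_nonneg (Real.sqrt_nonneg _), Real.norm_eq_abs]
  have : ‖cexp (I * m * (w - Real.log n))‖ = 1 := by
    rw [show I * m * (w - Real.log n) = ((m * (w - Real.log n) : ℝ) : ℂ) * I by push_cast; ring,
      Complex.norm_exp_ofReal_mul_I]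
  rw [this, one_mul]

/-- a term of the sums -/
noncomputable def tw (cf : ℕ → ℂ) (n : ℕ) (u : ℝ) : ℝ :=
  ArithmeticFunction.vonMangoldt n * ‖cf n‖ / Real.sqrt n * Real.exp (-(u - Real.log n) ^ 2 / 4)

lemma tw_nonneg (cf : ℕ → ℂ) (n : ℕ) (u : ℝ) : 0 ≤ tw cf n u := by
  have : 0 ≤ ArithmeticFunction.vonMangoldt n := ArithmeticFunction.vonMangoldt_nonneg
  unfold tw
  positivity

lemma tw_cont (cf : ℕ → ℂ) (n : ℕ) : Continuous (tw cf n) := by
  unfold tw
  fun_prop

lemma term_le (cf : ℕ → ℂ) (M : ℕ) {h : ℝ} (hh : 0 ≤ h) {c : ℝ} (hc : 0 ≤ c) (m w : ℝ) (n : ℕ) :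
    ArithmeticFunction.vonMangoldt n * ‖cf n * xq M h c m w n‖ ≤ h / Real.pi * ∫ v in (-c)..c, tw cf n (w + v) := by
  have h0 : 0 ≤ ArithmeticFunction.vonMangoldt n := ArithmeticFunction.vonMangoldt_nonneg
  rw [norm_mul, xq_norm M hh hc]
  have h1 := Gg_abs M hh hc (w - Real.log n)
  have e : ∫ v in (-c)..c, tw cf n (w + v) =
      ArithmeticFunction.vonMangoldt n * ‖cf n‖ / Real.sqrt n * ∫ v in (-c)..c, ga (w - Real.log n + v) := by
    rw [← intervalIntegral.integral_const_mul]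
    refine intervalIntegral.integral_congr fun v _ => ?_
    show tw cf n (w + v) = _
    unfold tw ga
    congr 3
    ring
  rw [e]
  calc ArithmeticFunction.vonMangoldt n * (‖cf n‖ * ((Real.sqrt n)⁻¹ * |Gg M h c (w - Real.log n)|)) ≤
        ArithmeticFunction.vonMangoldt n * (‖cf n‖ * ((Real.sqrt n)⁻¹ *
          (h / Real.pi * ∫ v in (-c)..c, ga (w - Real.log n + v)))) := by gcongr
    _ = _ := by
      rw [div_eq_mul_inv (ArithmeticFunction.vonMangoldt n * ‖cf n‖)]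
      ring

lemma xs_summable {cf : ℕ → ℂ}
    (hsm : Summable (fun n : ℕ => ArithmeticFunction.vonMangoldt n * ‖cf n‖ * (n : ℝ) ^ (-(3 / 2) : ℝ)))
    (M : ℕ) {h : ℝ} (hh : 0 ≤ h) {c : ℝ} (hc : 0 ≤ c) (m w : ℝ) :
    Summable (fun n => ArithmeticFunction.vonMangoldt n * ‖cf n * xq M h c m w n‖) := by
  have hpi := Real.pi_pos
  refine Summable.of_nonneg_of_le (fun n => ?_) (fun n => ?_)
    (hsm.mul_left (h / Real.pi * (2 * c * Real.exp (w + c + 1))))
  · exact mul_nonneg ArithmeticFunction.vonMangoldt_nonneg (norm_nonneg _)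
  · refine (term_le cf M hh hc m w n).trans ?_
    have h0 : 0 ≤ ArithmeticFunction.vonMangoldt n := ArithmeticFunction.vonMangoldt_nonneg
    have h1 : ∫ v in (-c)..c, tw cf n (w + v) ≤
        ∫ _v in (-c)..c, Real.exp (w + c + 1) * (ArithmeticFunction.vonMangoldt n * ‖cf n‖ * (n : ℝ) ^ (-(3 / 2) : ℝ)) := by
      refine intervalIntegral.integral_mono_on (by linarith)
        (((tw_cont cf n).comp (by fun_prop)).intervalIntegrable _ _) (by simp) fun v hv => ?_
      have h2 := W388.gauss_pow (w + v) n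
      have h3 : Real.exp (w + v + 1) ≤ Real.exp (w + c + 1) := Real.exp_le_exp.2 (by linarith [hv.2])
      unfold tw
      calc ArithmeticFunction.vonMangoldt n * ‖cf n‖ / Real.sqrt n * Real.exp (-(w + v - Real.log n) ^ 2 / 4) =
            ArithmeticFunction.vonMangoldt n * ‖cf n‖ * ((Real.sqrt n)⁻¹ * Real.exp (-(w + v - Real.log n) ^ 2 / 4)) := by
            rw [div_eq_mul_inv]; ring
        _ ≤ ArithmeticFunction.vonMangoldt n * ‖cf n‖ * (Real.exp (w + c + 1) * (n : ℝ) ^ (-(3 / 2) : ℝ)) := by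
            refine mul_le_mul_of_nonneg_left (h2.trans ?_) (by positivity)
            exact mul_le_mul_of_nonneg_right h3 (by positivity)
        _ = _ := by ring
    rw [intervalIntegral.integral_const, smul_eq_mul] at h1
    calc _ ≤ h / Real.pi * ((c - -c) * (Real.exp (w + c + 1) *
          (ArithmeticFunction.vonMangoldt n * ‖cf n‖ * (n : ℝ) ^ (-(3 / 2) : ℝ)))) := by gcongr
      _ = _ := by ring

/-- the error terms of the large sieve -/
lemma errX {cf : ℕ → ℂ} {ι : Type} (S : Finset ι) (ω : ι → ℝ) (hω : ∀ i ∈ S, 0 ≤ ω i)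
    (p : ι → ℕ → Prop) [∀ i, DecidablePred (p i)] {B : ℝ → ℝ} (hB : Continuous B)
    (M : ℕ) {h c : ℝ} (hh : 0 ≤ h) (hc : 0 < c) (m w : ℝ)
    (hs : ∀ u : ℝ, Summable (fun n => tw cf n u))
    (hsx : Summable (fun n => ArithmeticFunction.vonMangoldt n * ‖cf n * xq M h c m w n‖))
    (hle : ∀ v ∈ Icc (-c) c, ∑ i ∈ S, ω i * (∑' n, if p i n then tw cf n (w + v) else 0) ^ 2 ≤
      B (w + v)) :
    ∑ i ∈ S, ω i * (∑' n, if p i n then ArithmeticFunction.vonMangoldt n * ‖cf n * xq M h c m w n‖ else 0) ^ 2 ≤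
      (h / Real.pi) ^ 2 * (2 * c * ∫ v in (-c)..c, B (w + v)) := by
  have hpi := Real.pi_pos
  have hx0 : ∀ n, 0 ≤ ArithmeticFunction.vonMangoldt n * ‖cf n * xq M h c m w n‖ := fun n =>
    mul_nonneg ArithmeticFunction.vonMangoldt_nonneg (norm_nonneg _)
  -- finite sums
  have key : ∀ s : Finset ℕ, ∑ i ∈ S, ω i *
      (∑ n ∈ s, if p i n then ArithmeticFunction.vonMangoldt n * ‖cf n * xq M h c m w n‖ else 0) ^ 2 ≤
      (h / Real.pi) ^ 2 * (2 * c * ∫ v in (-c)..c, B (w + v)) := by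
    intro s
    have h1 : ∀ i ∈ S, (∑ n ∈ s, if p i n then ArithmeticFunction.vonMangoldt n * ‖cf n * xq M h c m w n‖ else 0) ^ 2 ≤
        (h / Real.pi) ^ 2 * (2 * c * ∫ v in (-c)..c,
          (∑ n ∈ s, if p i n then tw cf n (w + v) else 0) ^ 2) := by
      intro i _
      have hc1 : ∀ n, Continuous fun v : ℝ => if p i n then tw cf n (w + v) else 0 := by
        intro n
        by_cases h : p i n
        · simp only [if_pos h]
          exact (tw_cont cf n).comp (by fun_prop)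
        · simp only [if_neg h]
          exact continuous_const
      have hc2 : Continuous fun v : ℝ => ∑ n ∈ s, if p i n then tw cf n (w + v) else 0 :=
        continuous_finsetSum _ fun n _ => hc1 n
      have h2 : (∑ n ∈ s, if p i n then ArithmeticFunction.vonMangoldt n * ‖cf n * xq M h c m w n‖ else 0) ≤
          h / Real.pi * ∫ v in (-c)..c, ∑ n ∈ s, if p i n then tw cf n (w + v) else 0 := by
        rw [intervalIntegral.integral_finsetSum (fun n _ => (hc1 n).intervalIntegrable _ _),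
          Finset.mul_sum]
        refine Finset.sum_le_sum fun n _ => ?_
        by_cases h : p i n
        · simp only [if_pos h]
          exact term_le cf M hh hc.le m w n
        · simp only [if_neg h]
          simp
      have h3 : 0 ≤ ∑ n ∈ s, if p i n then ArithmeticFunction.vonMangoldt n * ‖cf n * xq M h c m w n‖ else 0 := by
        refine Finset.sum_nonneg fun n _ => ?_
        split_ifs
        · exact hx0 n
        · exact le_rfl
      calc _ ≤ (h / Real.pi * ∫ v in (-c)..c, ∑ n ∈ s, if p i n then tw cf n (w + v) else 0) ^ 2 :=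
            pow_le_pow_left₀ h3 h2 2
        _ = (h / Real.pi) ^ 2 *
            (∫ v in (-c)..c, ∑ n ∈ s, if p i n then tw cf n (w + v) else 0) ^ 2 := by ring
        _ ≤ _ := mul_le_mul_of_nonneg_left (cs_int hc2 hc) (by positivity)
    have hc3 : ∀ i, Continuous fun v : ℝ =>
        (∑ n ∈ s, if p i n then tw cf n (w + v) else 0) ^ 2 := by
      intro i
      refine Continuous.pow (continuous_finsetSum _ fun n _ => ?_) 2
      by_cases h : p i n
      · simp only [if_pos h]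
        exact (tw_cont cf n).comp (by fun_prop)
      · simp only [if_neg h]
        exact continuous_const
    calc _ ≤ ∑ i ∈ S, ω i * ((h / Real.pi) ^ 2 * (2 * c * ∫ v in (-c)..c,
          (∑ n ∈ s, if p i n then tw cf n (w + v) else 0) ^ 2)) :=
          Finset.sum_le_sum fun i hi => mul_le_mul_of_nonneg_left (h1 i hi) (hω i hi)
      _ = (h / Real.pi) ^ 2 * (2 * c * ∫ v in (-c)..c,
          ∑ i ∈ S, ω i * (∑ n ∈ s, if p i n then tw cf n (w + v) else 0) ^ 2) := by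
          rw [intervalIntegral.integral_finsetSum
            (fun i _ => ((hc3 i).const_mul _).intervalIntegrable _ _), Finset.mul_sum,
            Finset.mul_sum]
          refine Finset.sum_congr rfl fun i _ => ?_
          rw [intervalIntegral.integral_const_mul]
          ring
      _ ≤ _ := by
          refine mul_le_mul_of_nonneg_left (mul_le_mul_of_nonneg_left ?_ (by positivity))
            (by positivity)
          refine intervalIntegral.integral_mono_on (by linarith) ?_ ?_ fun v hv => ?_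
          · exact (continuous_finsetSum _ fun i _ => (hc3 i).const_mul _).intervalIntegrable _ _
          · exact (hB.comp (by fun_prop)).intervalIntegrable _ _
          · refine le_trans (Finset.sum_le_sum fun i hi => ?_) (hle v hv)
            refine mul_le_mul_of_nonneg_left ?_ (hω i hi)
            refine pow_le_pow_left₀ (Finset.sum_nonneg fun n _ => ?_) ?_ 2
            · split_ifs
              · exact tw_nonneg _ _ _
              · exact le_rfl
            · refine Summable.sum_le_tsum s (fun n _ => ?_) ?_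
              · split_ifs
                · exact tw_nonneg _ _ _
                · exact le_rfl
              · refine Summable.of_nonneg_of_le (fun n => ?_) (fun n => ?_) (hs (w + v))
                · split_ifs
                  · exact tw_nonneg _ _ _
                  · exact le_rfl
                · split_ifs
                  · exact le_rfl
                  · exact tw_nonneg _ _ _
  -- the limit
  have hsum : ∀ i, Summable fun n => if p i n then ArithmeticFunction.vonMangoldt n * ‖cf n * xq M h c m w n‖ else 0 := by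
    intro i
    refine Summable.of_nonneg_of_le (fun n => ?_) (fun n => ?_) hsx
    · split_ifs
      · exact hx0 n
      · exact le_rfl
    · split_ifs
      · exact le_rfl
      · exact hx0 n
  have hlim : Tendsto (fun s : Finset ℕ => ∑ i ∈ S, ω i *
      (∑ n ∈ s, if p i n then ArithmeticFunction.vonMangoldt n * ‖cf n * xq M h c m w n‖ else 0) ^ 2) atTop
      (𝓝 (∑ i ∈ S, ω i *
      (∑' n, if p i n then ArithmeticFunction.vonMangoldt n * ‖cf n * xq M h c m w n‖ else 0) ^ 2)) := by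
    refine tendsto_finsetSum _ fun i _ => ?_
    exact ((hsum i).hasSum.pow 2).const_mul _
  exact le_of_tendsto' hlim key

theorem msX_point (ℓ : ℕ) (hℓ : Squarefree ℓ) {cf : ℕ → ℂ}
    (hsm : Summable (fun n : ℕ => ArithmeticFunction.vonMangoldt n * ‖cf n‖ * (n : ℝ) ^ (-(3 / 2) : ℝ)))
    (hc1 : Continuous (SWu cf (1 / 4)))
    (hs2 : ∀ u : ℝ, Summable (fun n : ℕ => ArithmeticFunction.vonMangoldt n ^ 2 * ‖cf n‖ ^ 2 / n *
      Real.exp (-(1 / 4 * (u - Real.log n) ^ 2))))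
    (ε1 : ℝ) (h1 : 0 < ε1) (h2 : ε1 ≤ 1) : ∃ (C : ℝ) (P : ℕ), 0 < C ∧ 1 ≤ P ∧
    ∀ (X Y N M : ℕ) (h c m w : ℝ), 1 ≤ X → X ≤ Y → 0 ≤ h → 0 < c →
    primFamM ℓ X Y (fun q χ => ‖QF (aT cf q χ) M h c m w‖ ^ 2) ≤
      ((1 + ε1) * Real.exp (Real.pi * N / (X : ℝ) ^ 2) *
        (cM ℓ * (1 + ε1) * Real.log ((Y : ℝ) / X) + C)) *
        (2 * Real.sqrt Real.pi * ∫ v in (-c)..c, gh M h c v ^ 2 * SWu cf (1 / 4) (w + v)) +
      (C * ∑ q ∈ Finset.Ioc X (P * Y), (1 / (q : ℝ)) *
        (∑' n : ℕ, if Nat.Coprime n q then 0 else ArithmeticFunction.vonMangoldt n * ‖cf n * xq M h c m w n‖) ^ 2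
      + C * (Real.log ((Y : ℝ) / X) + 1) *
        ((∑' n : ℕ, if Nat.Coprime n P then 0 else ArithmeticFunction.vonMangoldt n * ‖cf n * xq M h c m w n‖) ^ 2 +
         (∑' n : ℕ, if N < n then ArithmeticFunction.vonMangoldt n * ‖cf n * xq M h c m w n‖ else 0) ^ 2)) := by
  obtain ⟨C, P, hC, hP, hls⟩ := H385.prim_ls_M ℓ hℓ ε1 h1 h2
  refine ⟨C, P, hC, hP, ?_⟩
  intro X Y N M h c m w hX hXY hh hc
  have h3 := hls X Y N (fun n => cf n * xq M h c m w n) hX hXY (xs_summable hsm M hh hc.le m w)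
  have hlog : 0 ≤ Real.log ((Y : ℝ) / X) := by
    refine Real.log_nonneg ?_
    have : (0 : ℝ) < X := by exact_mod_cast hX
    rw [one_le_div this]
    exact_mod_cast hXY
  have e1 : primFamM ℓ X Y (fun q χ => ‖QF (aT cf q χ) M h c m w‖ ^ 2) =
      primFamM ℓ X Y (fun q χ =>
        ‖∑' n : ℕ, χ (n : ZMod q) * (ArithmeticFunction.vonMangoldt n : ℂ) * (cf n * xq M h c m w n)‖ ^ 2) := by
    congr 1
    funext q χ
    rw [QF_tsum (aT_coef hsm q χ) M hh hc.le]
    congr 2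
    refine tsum_congr fun n => ?_
    unfold aT
    ring
  rw [e1]
  refine h3.trans ?_
  have hcM := H385.cM_pos ℓ hℓ
  have hD : 0 ≤ (1 + ε1) * Real.exp (Real.pi * N / (X : ℝ) ^ 2) *
        (cM ℓ * (1 + ε1) * Real.log ((Y : ℝ) / X) + C) := by positivity
  have h4 : ∑ n ∈ Finset.Icc 1 N, ArithmeticFunction.vonMangoldt n ^ 2 * ‖cf n * xq M h c m w n‖ ^ 2 ≤
      2 * Real.sqrt Real.pi * ∫ v in (-c)..c, gh M h c v ^ 2 * SWu cf (1 / 4) (w + v) := by
    have hg := gh_cont M h c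
    have h5 : ∀ n ∈ Finset.Icc 1 N, ArithmeticFunction.vonMangoldt n ^ 2 * ‖cf n * xq M h c m w n‖ ^ 2 ≤
        2 * Real.sqrt Real.pi * ∫ v in (-c)..c, gh M h c v ^ 2 * (ArithmeticFunction.vonMangoldt n ^ 2 * ‖cf n‖ ^ 2 / n *
          Real.exp (-(1 / 4 * (w + v - Real.log n) ^ 2))) := by
      intro n hn
      have hn1 : 1 ≤ n := (Finset.mem_Icc.mp hn).1
      have hn0 : (0 : ℝ) < n := by exact_mod_cast hn1
      have h6 := Gg_sq M h hc (w - Real.log n)
      have e2 : ∫ v in (-c)..c, gh M h c v ^ 2 * (ArithmeticFunction.vonMangoldt n ^ 2 * ‖cf n‖ ^ 2 / n *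
          Real.exp (-(1 / 4 * (w + v - Real.log n) ^ 2))) =
          ArithmeticFunction.vonMangoldt n ^ 2 * ‖cf n‖ ^ 2 / n * ∫ v in (-c)..c, gh M h c v ^ 2 * ga (w - Real.log n + v) := by
        rw [← intervalIntegral.integral_const_mul]
        refine intervalIntegral.integral_congr fun v _ => ?_
        show gh M h c v ^ 2 * (ArithmeticFunction.vonMangoldt n ^ 2 * ‖cf n‖ ^ 2 / n *
          Real.exp (-(1 / 4 * (w + v - Real.log n) ^ 2))) =
          ArithmeticFunction.vonMangoldt n ^ 2 * ‖cf n‖ ^ 2 / n * (gh M h c v ^ 2 * ga (w - Real.log n + v))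
        have : Real.exp (-(1 / 4 * (w + v - Real.log n) ^ 2)) = ga (w - Real.log n + v) := by
          unfold ga
          congr 1
          ring
        rw [this]
        ring
      rw [e2, norm_mul, xq_norm M hh hc.le, mul_pow, mul_pow, inv_pow, Real.sq_sqrt hn0.le, sq_abs]
      calc ArithmeticFunction.vonMangoldt n ^ 2 * (‖cf n‖ ^ 2 * ((n : ℝ)⁻¹ * Gg M h c (w - Real.log n) ^ 2)) ≤
            ArithmeticFunction.vonMangoldt n ^ 2 * (‖cf n‖ ^ 2 * ((n : ℝ)⁻¹ * (2 * Real.sqrt Real.pi *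
              ∫ v in (-c)..c, gh M h c v ^ 2 * ga (w - Real.log n + v)))) := by gcongr
        _ = _ := by
          rw [div_eq_mul_inv]
          ring
    refine (Finset.sum_le_sum h5).trans ?_
    have hcn : ∀ n : ℕ, Continuous fun v : ℝ => gh M h c v ^ 2 * (ArithmeticFunction.vonMangoldt n ^ 2 * ‖cf n‖ ^ 2 / n *
          Real.exp (-(1 / 4 * (w + v - Real.log n) ^ 2))) := by
      intro n
      fun_prop
    rw [← Finset.mul_sum, ← intervalIntegral.integral_finsetSum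
      (fun n _ => (hcn n).intervalIntegrable _ _)]
    refine mul_le_mul_of_nonneg_left ?_ (by positivity)
    refine intervalIntegral.integral_mono_on (by linarith) ?_ ?_ fun v _ => ?_
    · exact (continuous_finsetSum _ fun n _ => hcn n).intervalIntegrable _ _
    · have : Continuous fun v : ℝ => SWu cf (1 / 4) (w + v) := hc1.comp (by fun_prop)
      exact Continuous.intervalIntegrable (by fun_prop) _ _
    · rw [← Finset.mul_sum]
      refine mul_le_mul_of_nonneg_left ?_ (sq_nonneg _)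
      exact (hs2 (w + v)).sum_le_tsum _ (fun n _ => by positivity)
  have h5 := mul_le_mul_of_nonneg_left h4 hD
  linarith

lemma Tlc_neg {cf : ℕ → ℂ} (hs : ∀ u : ℝ, Summable (fun n => tw cf n u)) (N : ℕ) {u : ℝ}
    (hu : u ≤ 0) : Tlc cf N u ≤ Tlc cf N 0 := by
  have hsum : ∀ u : ℝ, Summable fun n => if N < n then tw cf n u else 0 := by
    intro u
    refine Summable.of_nonneg_of_le (fun n => ?_) (fun n => ?_) (hs u)
    · split_ifs
      · exact tw_nonneg _ _ _
      · exact le_rfl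
    · split_ifs
      · exact le_rfl
      · exact tw_nonneg _ _ _
  show (∑' n : ℕ, if N < n then tw cf n u else 0) ≤ ∑' n : ℕ, if N < n then tw cf n 0 else 0
  refine (hsum u).tsum_le_tsum (fun n => ?_) (hsum 0)
  split_ifs
  · unfold tw
    have h0 : 0 ≤ ArithmeticFunction.vonMangoldt n := ArithmeticFunction.vonMangoldt_nonneg
    refine mul_le_mul_of_nonneg_left (Real.exp_le_exp.2 ?_) (by positivity)
    have h2 : 0 ≤ Real.log n := Real.log_natCast_nonneg n
    nlinarith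
  · exact le_rfl

lemma Tlc_nonneg (cf : ℕ → ℂ) (N : ℕ) (u : ℝ) : 0 ≤ Tlc cf N u := by
  show 0 ≤ ∑' n : ℕ, if N < n then tw cf n u else 0
  refine tsum_nonneg fun n => ?_
  split_ifs
  · exact tw_nonneg _ _ _
  · exact le_rfl

/-- **the mean square over the family** -/
theorem ms_Q (ℓ : ℕ) (hℓ : Squarefree ℓ) {cf : ℕ → ℂ} (hS : SelE cf)
    (hsm : Summable (fun n : ℕ => ArithmeticFunction.vonMangoldt n * ‖cf n‖ * (n : ℝ) ^ (-(3 / 2) : ℝ)))
    (β' : ℝ) (hβ0 : 0 < β') (hβ2 : β' < 2) (ε1 : ℝ) (hε1 : 0 < ε1) (hε1' : ε1 ≤ 1) :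
    ∃ C K L0 : ℝ, 0 < C ∧ 1 ≤ K ∧ 1 ≤ L0 ∧ ∀ X Y : ℕ, Real.exp L0 ≤ X → K * X ≤ Y →
      0 < WM ℓ X Y ∧ Real.log ((Y : ℝ) / X) + 1 ≤ C * WM ℓ X Y ∧
      ∀ (M : ℕ) (h c m w : ℝ), 0 ≤ h → 0 < c → w + c ≤ β' * Real.log X →
        primFamM ℓ X Y (fun q χ => ‖QF (aT cf q χ) M h c m w‖ ^ 2) ≤ WM ℓ X Y *
          ((1 + 11 * ε1) * (2 * Real.sqrt Real.pi *
            ∫ v in (-c)..c, gh M h c v ^ 2 * SWu cf (1 / 4) (w + v)) +
          C * (h ^ 2 * (c * ∫ v in (-c)..c, (Wu cf (w + v) + 1)))) := by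
  obtain ⟨s1, s2, s3, s4, -, -⟩ := Pool.Agent.W261.TW.t_smooth cf hS
  obtain ⟨n1, ⟨Cn, hCn, n2⟩, n3, n4⟩ := W388.XNonCop.t_noncop cf hS
  obtain ⟨C, P, hC, hP, hms⟩ := msX_point ℓ hℓ hsm (s4 (1 / 4) (by norm_num))
    (s2 (1 / 4) (by norm_num)) ε1 hε1 hε1'
  obtain ⟨CP, hCP, hGP⟩ := n3 P hP
  have hlogP : 0 ≤ Real.log P := Real.log_nonneg (by exact_mod_cast hP)
  obtain ⟨C4, hC4, hmass⟩ := H385.prim_mass_M ℓ hℓ
  obtain ⟨L1, hL1⟩ := Filter.eventually_atTop.mp (n4 β' ε1 hβ0 hβ2 hε1)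
  have hc0 := H385.cM_pos ℓ hℓ
  have hpi := Real.pi_pos
  obtain ⟨C11, hC11⟩ : ∃ C11 : ℝ, C11 = 4 / cM ℓ := ⟨_, rfl⟩
  have hC11p : 0 < C11 := by rw [hC11]; positivity
  obtain ⟨E, hE⟩ : ∃ E : ℝ, E = C * Cn * (Real.log P + 1) + C * CP + C := ⟨_, rfl⟩
  have hE0 : 0 < E := by rw [hE]; positivity
  obtain ⟨K, hKdef⟩ : ∃ K : ℝ, K = Real.exp ((3 * C4 + C) / (ε1 * cM ℓ) + 2 * C4 / cM ℓ + 1) :=
    ⟨_, rfl⟩
  have hK1 : 1 ≤ K := by
    rw [hKdef]
    exact Real.one_le_exp (by positivity)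
  refine ⟨max C11 (E * C11), K, max L1 1, lt_of_lt_of_le hC11p (le_max_left _ _), hK1,
    le_max_right _ _, ?_⟩
  intro X Y hX hKX
  have hXpos : (0 : ℝ) < X := lt_of_lt_of_le (Real.exp_pos _) hX
  have hX1 : 1 ≤ X := by exact_mod_cast hXpos
  have hLmax : max L1 1 ≤ Real.log X := by
    rw [Real.le_log_iff_exp_le hXpos]; exact hX
  have hLL1 : L1 ≤ Real.log X := (le_max_left _ _).trans hLmax
  have hL1' : 1 ≤ Real.log X := (le_max_right _ _).trans hLmax
  have hXYr : (X : ℝ) ≤ Y := by nlinarith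
  have hXY : X ≤ Y := by exact_mod_cast hXYr
  have hYpos : (0 : ℝ) < Y := by linarith
  obtain ⟨𝓛, h𝓛⟩ : ∃ 𝓛 : ℝ, 𝓛 = Real.log ((Y : ℝ) / X) := ⟨_, rfl⟩
  have h𝓛K : (3 * C4 + C) / (ε1 * cM ℓ) + 2 * C4 / cM ℓ + 1 ≤ 𝓛 := by
    rw [h𝓛, Real.le_log_iff_exp_le (by positivity), le_div_iff₀ hXpos, ← hKdef]
    exact hKX
  have hpA : 0 ≤ (3 * C4 + C) / (ε1 * cM ℓ) := by positivity
  have hpB : 0 ≤ 2 * C4 / cM ℓ := by positivity
  have h𝓛n : 0 ≤ 𝓛 := by linarith
  have hW0 : |WM ℓ X Y - cM ℓ * 𝓛| ≤ C4 := by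
    have := hmass X Y hX1 hXY
    rw [← h𝓛] at this
    exact this
  obtain ⟨W, hW⟩ : ∃ W : ℝ, W = WM ℓ X Y := ⟨_, rfl⟩
  rw [← hW] at hW0 ⊢
  rw [← h𝓛]
  have hWlow' : cM ℓ * 𝓛 - C4 ≤ W := by linarith [(abs_le.mp hW0).1]
  have hWlow : cM ℓ / 2 * 𝓛 ≤ W := by
    have h2 : C4 ≤ cM ℓ / 2 * 𝓛 := by
      have : 2 * C4 / cM ℓ ≤ 𝓛 := by linarith
      rw [div_le_iff₀ hc0] at this
      linarith
    linarith
  have hWpos : 0 < W := by
    have : 0 < cM ℓ / 2 * 𝓛 := by
      have : 0 < 𝓛 := by linarith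
      positivity
    linarith
  have hC11W : 𝓛 + 1 ≤ C11 * W := by
    have h1 : 𝓛 + 1 ≤ 2 * 𝓛 := by linarith
    refine h1.trans ?_
    have h2 : C11 * (cM ℓ / 2 * 𝓛) = 2 * 𝓛 := by rw [hC11]; field_simp; ring
    rw [← h2]
    exact mul_le_mul_of_nonneg_left hWlow hC11p.le
  refine ⟨hWpos, hC11W.trans (mul_le_mul_of_nonneg_right (le_max_left _ _) hWpos.le), ?_⟩
  intro M h c m w hh hc hwc
  set N : ℕ := ⌊ε1 / 8 * (X : ℝ) ^ 2⌋₊ with hN
  obtain ⟨D1, hD1⟩ : ∃ D1 : ℝ, D1 = (1 + ε1) * Real.exp (Real.pi * N / (X : ℝ) ^ 2) *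
        (cM ℓ * (1 + ε1) * 𝓛 + C) := ⟨_, rfl⟩
  have hexp : Real.exp (Real.pi * N / (X : ℝ) ^ 2) ≤ 1 + ε1 := by
    have h1 : (N : ℝ) ≤ ε1 / 8 * (X : ℝ) ^ 2 := Nat.floor_le (by positivity)
    have h2 : Real.pi * N / (X : ℝ) ^ 2 ≤ ε1 / 2 := by
      rw [div_le_iff₀ (by positivity)]
      have h3 : Real.pi * N ≤ 4 * (ε1 / 8 * (X : ℝ) ^ 2) :=
        mul_le_mul Real.pi_lt_four.le h1 (by positivity) (by norm_num)
      linarith
    refine (Real.exp_le_exp.mpr h2).trans ?_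
    have h4 := Real.exp_bound_div_one_sub_of_interval (x := ε1 / 2) (by positivity) (by linarith)
    refine h4.trans ?_
    rw [div_le_iff₀ (by linarith)]
    nlinarith
  have hD1W : D1 ≤ (1 + 11 * ε1) * W := by
    have h1 : cM ℓ * (1 + ε1) * 𝓛 + C ≤ (1 + 2 * ε1) * W := by
      have h2 : 3 * C4 + C ≤ ε1 * cM ℓ * 𝓛 := by
        have : (3 * C4 + C) / (ε1 * cM ℓ) ≤ 𝓛 := by linarith
        rw [div_le_iff₀ (by positivity)] at this
        linarith
      have h3 : (1 + 2 * ε1) * (cM ℓ * 𝓛 - C4) ≤ (1 + 2 * ε1) * W :=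
        mul_le_mul_of_nonneg_left hWlow' (by linarith)
      have h4 : (1 + 2 * ε1) * (cM ℓ * 𝓛 - C4) = cM ℓ * (1 + ε1) * 𝓛 + ε1 * cM ℓ * 𝓛 -
        (1 + 2 * ε1) * C4 := by ring
      have h5 : (1 + 2 * ε1) * C4 ≤ 3 * C4 := mul_le_mul_of_nonneg_right (by linarith) hC4.le
      linarith
    have h6 : D1 ≤ (1 + ε1) * (1 + ε1) * ((1 + 2 * ε1) * W) := by
      rw [hD1]
      refine mul_le_mul ?_ h1 (by positivity) (by positivity)
      exact mul_le_mul_of_nonneg_left hexp (by linarith)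
    refine h6.trans ?_
    have h7 : (1 + ε1) * (1 + ε1) * (1 + 2 * ε1) ≤ 1 + 11 * ε1 := by
      have g1 : ε1 ^ 2 ≤ ε1 := pow_le_of_le_one hε1.le hε1' two_ne_zero
      have g2 : ε1 ^ 3 ≤ ε1 := pow_le_of_le_one hε1.le hε1' three_ne_zero
      have g3 : (1 + ε1) * (1 + ε1) * (1 + 2 * ε1) = 1 + 4 * ε1 + 5 * ε1 ^ 2 + 2 * ε1 ^ 3 := by ring
      rw [g3]; linarith
    calc _ = ((1 + ε1) * (1 + ε1) * (1 + 2 * ε1)) * W := by ring
      _ ≤ _ := mul_le_mul_of_nonneg_right h7 hWpos.le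
  have hmsx := hms X Y N M h c m w hX1 hXY hh hc
  rw [← h𝓛, ← hD1] at hmsx
  refine hmsx.trans ?_
  have hsx := xs_summable hsm M hh hc.le m w
  have hstw : ∀ u : ℝ, Summable (fun n => tw cf n u) := n1
  have hw0 : ∀ u, 0 ≤ Wu cf u := W388.Wu_nonneg cf
  obtain ⟨J, hJ⟩ : ∃ J : ℝ, J = ∫ v in (-c)..c, (Wu cf (w + v) + 1) := ⟨_, rfl⟩
  have hcw : Continuous fun v : ℝ => Wu cf (w + v) := s3.comp (by fun_prop)
  have hJ0 : 0 ≤ J := by
    rw [hJ]
    exact intervalIntegral.integral_nonneg (by linarith) fun v _ => by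
      have := hw0 (w + v)
      linarith
  have hJW : ∫ v in (-c)..c, Wu cf (w + v) ≤ J := by
    rw [hJ]
    refine intervalIntegral.integral_mono_on (by linarith) (hcw.intervalIntegrable _ _)
      (Continuous.intervalIntegrable (by fun_prop) _ _) fun v _ => by linarith
  have hJ1 : ∫ v in (-c)..c, (1 : ℝ) ≤ J := by
    rw [hJ]
    refine intervalIntegral.integral_mono_on (by linarith) (by simp)
      (Continuous.intervalIntegrable (by fun_prop) _ _) fun v _ => by linarith [hw0 (w + v)]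
  have hcf : (h / Real.pi) ^ 2 * 2 ≤ h ^ 2 := by
    rw [div_pow, div_mul_eq_mul_div, div_le_iff₀ (by positivity)]
    have : 2 ≤ Real.pi ^ 2 := by nlinarith [Real.pi_gt_three]
    exact mul_le_mul_of_nonneg_left this (sq_nonneg h)
  -- the three error terms
  have a1 : ∑ q ∈ Finset.Ioc X (P * Y), (1 / (q : ℝ)) *
        (∑' n : ℕ, if Nat.Coprime n q then 0 else ArithmeticFunction.vonMangoldt n * ‖cf n * xq M h c m w n‖) ^ 2 ≤
        Cn * (𝓛 + Real.log P + 1) * (h ^ 2 * (c * J)) := by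
    have h5 := errX (cf := cf) (Finset.Ioc X (P * Y)) (fun q => 1 / (q : ℝ))
      (fun q _ => by positivity) (fun q n => ¬ Nat.Coprime n q)
      (B := fun u => Cn * (𝓛 + Real.log P + 1) * Wu cf u) (continuous_const.mul s3)
      M hh hc m w hstw hsx (fun v _ => by
        have := n2 X Y P hX1 hXY hP (w + v)
        rw [← h𝓛] at this
        refine le_trans (le_of_eq ?_) this
        refine Finset.sum_congr rfl fun q _ => ?_
        congr 2
        show _ = ∑' n : ℕ, if Nat.Coprime n q then 0 else tw cf n (w + v)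
        refine tsum_congr fun n => ?_
        simp only [ite_not])
    simp only [ite_not] at h5
    refine h5.trans ?_
    rw [intervalIntegral.integral_const_mul]
    have h6 : 0 ≤ Cn * (𝓛 + Real.log P + 1) := by positivity
    calc (h / Real.pi) ^ 2 * (2 * c * (Cn * (𝓛 + Real.log P + 1) *
          ∫ v in (-c)..c, Wu cf (w + v))) ≤
          (h / Real.pi) ^ 2 * (2 * c * (Cn * (𝓛 + Real.log P + 1) * J)) := by gcongr
      _ = Cn * (𝓛 + Real.log P + 1) * (((h / Real.pi) ^ 2 * 2) * (c * J)) := by ring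
      _ ≤ _ := by gcongr
  have a2 : (∑' n : ℕ, if Nat.Coprime n P then 0 else ArithmeticFunction.vonMangoldt n * ‖cf n * xq M h c m w n‖) ^ 2 ≤
        CP * (h ^ 2 * (c * J)) := by
    have h5 := errX (cf := cf) (Finset.univ : Finset Unit) (fun _ => 1)
      (fun q _ => by positivity) (fun _ n => ¬ Nat.Coprime n P)
      (B := fun u => CP * Wu cf u) (continuous_const.mul s3)
      M hh hc m w hstw hsx (fun v _ => by
        have := hGP (w + v)
        rw [Finset.univ_unique, Finset.sum_singleton, one_mul]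
        refine le_trans (le_of_eq ?_) this
        congr 1
        show _ = ∑' n : ℕ, if Nat.Coprime n P then 0 else tw cf n (w + v)
        refine tsum_congr fun n => ?_
        simp only [ite_not])
    rw [Finset.univ_unique, Finset.sum_singleton, one_mul] at h5
    simp only [ite_not] at h5
    refine h5.trans ?_
    rw [intervalIntegral.integral_const_mul]
    calc (h / Real.pi) ^ 2 * (2 * c * (CP * ∫ v in (-c)..c, Wu cf (w + v))) ≤
          (h / Real.pi) ^ 2 * (2 * c * (CP * J)) := by gcongr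
      _ = CP * (((h / Real.pi) ^ 2 * 2) * (c * J)) := by ring
      _ ≤ _ := by gcongr
  have a3 : (∑' n : ℕ, if N < n then ArithmeticFunction.vonMangoldt n * ‖cf n * xq M h c m w n‖ else 0) ^ 2 ≤
        h ^ 2 * (c * J) := by
    have h5 := errX (cf := cf) (Finset.univ : Finset Unit) (fun _ => 1)
      (fun q _ => by positivity) (fun _ n => N < n)
      (B := fun _ => 1) continuous_const
      M hh hc m w hstw hsx (fun v hv => by
        rw [Finset.univ_unique, Finset.sum_singleton, one_mul]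
        have h7 : Tlc cf N (w + v) ≤ 1 := by
          rcases le_total 0 (w + v) with h8 | h8
          · exact hL1 (Real.log X) hLL1 X (w + v) rfl h8 (by linarith [hv.2])
          · refine (Tlc_neg hstw N h8).trans ?_
            exact hL1 (Real.log X) hLL1 X 0 rfl le_rfl (by positivity)
        have h8 := Tlc_nonneg cf N (w + v)
        show Tlc cf N (w + v) ^ 2 ≤ 1
        exact pow_le_one₀ h8 h7)
    rw [Finset.univ_unique, Finset.sum_singleton, one_mul] at h5
    refine h5.trans ?_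
    calc (h / Real.pi) ^ 2 * (2 * c * ∫ v in (-c)..c, (1 : ℝ)) ≤
          (h / Real.pi) ^ 2 * (2 * c * J) := by gcongr
      _ = ((h / Real.pi) ^ 2 * 2) * (c * J) := by ring
      _ ≤ _ := by gcongr
  have hT0 : 0 ≤ h ^ 2 * (c * J) := by positivity
  have hS0 : 0 ≤ 2 * Real.sqrt Real.pi *
      ∫ v in (-c)..c, gh M h c v ^ 2 * SWu cf (1 / 4) (w + v) := by
    refine mul_nonneg (by positivity) (intervalIntegral.integral_nonneg (by linarith) fun v _ => ?_)
    exact mul_nonneg (sq_nonneg _) (W388.SWu_nonneg cf _ _)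
  have a4 : C * ∑ q ∈ Finset.Ioc X (P * Y), (1 / (q : ℝ)) *
        (∑' n : ℕ, if Nat.Coprime n q then 0 else ArithmeticFunction.vonMangoldt n * ‖cf n * xq M h c m w n‖) ^ 2
      + C * (𝓛 + 1) *
        ((∑' n : ℕ, if Nat.Coprime n P then 0 else ArithmeticFunction.vonMangoldt n * ‖cf n * xq M h c m w n‖) ^ 2 +
         (∑' n : ℕ, if N < n then ArithmeticFunction.vonMangoldt n * ‖cf n * xq M h c m w n‖ else 0) ^ 2) ≤
      W * (max C11 (E * C11) * (h ^ 2 * (c * J))) := by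
    calc _ ≤ C * (Cn * (𝓛 + Real.log P + 1) * (h ^ 2 * (c * J))) +
          C * (𝓛 + 1) * (CP * (h ^ 2 * (c * J)) + h ^ 2 * (c * J)) := by gcongr
      _ ≤ C * (Cn * ((Real.log P + 1) * (𝓛 + 1)) * (h ^ 2 * (c * J))) +
          C * (𝓛 + 1) * (CP * (h ^ 2 * (c * J)) + h ^ 2 * (c * J)) := by
          have : 𝓛 + Real.log P + 1 ≤ (Real.log P + 1) * (𝓛 + 1) := by
            nlinarith [mul_nonneg hlogP h𝓛n]
          gcongr
      _ = E * (𝓛 + 1) * (h ^ 2 * (c * J)) := by rw [hE]; ring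
      _ ≤ E * (C11 * W) * (h ^ 2 * (c * J)) := by gcongr
      _ = W * (E * C11 * (h ^ 2 * (c * J))) := by ring
      _ ≤ _ := by
          gcongr
          exact le_max_right _ _
  have a5 := mul_le_mul_of_nonneg_right hD1W hS0
  rw [← hJ]
  calc _ ≤ (1 + 11 * ε1) * W * (2 * Real.sqrt Real.pi *
      ∫ v in (-c)..c, gh M h c v ^ 2 * SWu cf (1 / 4) (w + v)) +
        W * (max C11 (E * C11) * (h ^ 2 * (c * J))) := add_le_add a5 a4
    _ = _ := by ring

end Pool.Agent.KS6_85.LZ
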