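import Pool.Agent.KS6_85.LZ.MT
import Pool.Graph.R_seed8.H385R2.PerChi

/-!
# Bounds for the smoothed sums, with shifts
-/

set_option autoImplicit false
set_option maxHeartbeats 1000000

open Filter Topology Set MeasureTheory
open H385 (Rw)
open W388 (SWu Wu SelE)
open Pool.Agent.W261.TW

namespace Pool.Agent.KS6_85.LZ

/-- bounds for the smoothed sums -/
structure SmD (cf : ℕ → ℂ) (Cs : ℝ) : Prop where
  pos : 0 < Cs
  wc : Continuous (Wu cf)
  sc : Continuous (SWu cf (1 / 4))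
  w0 : ∀ u, 0 ≤ Wu cf u
  s0 : ∀ u, 0 ≤ SWu cf (1 / 4) u
  wle : ∀ u U : ℝ, u ≤ U → 0 ≤ U → Wu cf u ≤ Cs * (U + 1)
  sle : ∀ u U : ℝ, u ≤ U → 0 ≤ U → SWu cf (1 / 4) u ≤ Cs * (U + 1) ^ 2
  wint : ∀ a L : ℝ, 0 ≤ a → 0 ≤ L → ∫ u in (-a)..L, Wu cf u ≤ Cs * (a + L + 1)
  sint : ∀ a L : ℝ, 0 ≤ a → 0 ≤ L → ∫ u in (-a)..L, SWu cf (1 / 4) u ≤ Cs * (a + (L + 1) ^ 2)

lemma EE_le' {v : ℕ → ℝ} {C : ℝ} (hv : Wt v C) {u U : ℝ} (hu : u ≤ U) (hU : 0 ≤ U) :
    EE v u ≤ C * S0 * (U + 1) := by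
  have hC := hv.C_nonneg
  have hS : 0 ≤ S0 := tsum_nonneg fun j => by positivity
  rcases le_total 0 u with h | h
  · exact (EE_le hv h).trans (by gcongr)
  · have h1 : EE v u ≤ EE v 0 := by
      unfold EE
      refine Summable.tsum_le_tsum (fun n => ?_) ((EE_dom hv).1 u) ((EE_dom hv).1 0)
      refine mul_le_mul_of_nonneg_left (Real.exp_le_exp.2 ?_) (hv.nonneg n)
      have h2 : 0 ≤ Real.log n := Real.log_natCast_nonneg n
      rw [abs_of_nonpos (by linarith : u - Real.log n ≤ 0),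
        abs_of_nonpos (by linarith : 0 - Real.log n ≤ 0)]
      linarith
    refine h1.trans ((EE_le hv le_rfl).trans ?_)
    gcongr

theorem smD (cf : ℕ → ℂ) (hc : SelE cf) : ∃ Cs : ℝ, SmD cf Cs := by
  obtain ⟨C, hv⟩ := wt_of cf hc
  have hC := hv.C_nonneg
  have hS : 0 ≤ S0 := tsum_nonneg fun j => by positivity
  have hE1 : 1 ≤ Real.exp 4 := Real.one_le_exp (by norm_num)
  have hE2 : Real.exp 1 ≤ Real.exp 4 := Real.exp_le_exp.2 (by norm_num)
  obtain ⟨Cs, hCs⟩ : ∃ Cs : ℝ, Cs = 2 * Real.exp 4 * (C * S0) + 1 := ⟨_, rfl⟩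
  have hCs0 : 0 < Cs := by rw [hCs]; positivity
  have hK : 2 * Real.exp 4 * (C * S0) ≤ Cs := by linarith
  have hK2 : Real.exp 4 * (C * S0) ≤ Cs := by
    have : 0 ≤ Real.exp 4 * (C * S0) := by positivity
    linarith
  have hwc := (wu_dom cf hv).2
  have hsc := (swu_dom cf hv (by norm_num : (0 : ℝ) < 1 / 4)).2
  have hEc := (EE_dom hv).2
  have hw0 : ∀ u, 0 ≤ Wu cf u := fun u => tsum_nonneg fun n => by
    have := @ArithmeticFunction.vonMangoldt_nonneg n
    positivity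
  have hwle : ∀ u U : ℝ, u ≤ U → 0 ≤ U → Wu cf u ≤ Cs * (U + 1) := by
    intro u U hu hU
    calc Wu cf u ≤ Real.exp 1 * EE (vv cf) u := wu_le cf hv u
      _ ≤ Real.exp 4 * (C * S0 * (U + 1)) :=
        mul_le_mul hE2 (EE_le' hv hu hU) (EE_nonneg hv u) (Real.exp_pos _).le
      _ = Real.exp 4 * (C * S0) * (U + 1) := by ring
      _ ≤ _ := mul_le_mul_of_nonneg_right hK2 (by linarith)
  have hb : ∀ u U : ℝ, u ≤ U → 0 ≤ U → SWu cf (1 / 4) u ≤ Real.exp 4 * (U + 1) * EE (vv cf) u := by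
    intro u U hu hU
    have := swu_le cf hv (by norm_num : (0 : ℝ) < 1 / 4) hu hU
    rwa [show (1 : ℝ) / (1 / 4) = 4 by norm_num] at this
  have hsle : ∀ u U : ℝ, u ≤ U → 0 ≤ U → SWu cf (1 / 4) u ≤ Cs * (U + 1) ^ 2 := by
    intro u U hu hU
    calc SWu cf (1 / 4) u ≤ Real.exp 4 * (U + 1) * EE (vv cf) u := hb u U hu hU
      _ ≤ Real.exp 4 * (U + 1) * (C * S0 * (U + 1)) :=
        mul_le_mul_of_nonneg_left (EE_le' hv hu hU) (by positivity)
      _ = Real.exp 4 * (C * S0) * (U + 1) ^ 2 := by ring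
      _ ≤ _ := mul_le_mul_of_nonneg_right hK2 (by positivity)
  refine ⟨Cs, hCs0, hwc, hsc, hw0, fun u => swu_nonneg cf _ u, hwle, hsle, ?_, ?_⟩
  · intro a L ha hL
    rw [← intervalIntegral.integral_add_adjacent_intervals (b := 0)
      (hwc.intervalIntegrable _ _) (hwc.intervalIntegrable _ _)]
    have h1 : ∫ u in (-a)..0, Wu cf u ≤ Cs * a := by
      calc ∫ u in (-a)..0, Wu cf u ≤ ∫ _u in (-a)..0, Cs := by
            refine intervalIntegral.integral_mono_on (by linarith) (hwc.intervalIntegrable _ _)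
              (by simp) fun u hu => ?_
            have := hwle u 0 hu.2 le_rfl
            linarith
        _ = Cs * a := by
            rw [intervalIntegral.integral_const, smul_eq_mul]
            ring
    have h2 : ∫ u in (0 : ℝ)..L, Wu cf u ≤ Cs * (L + 1) := by
      calc ∫ u in (0 : ℝ)..L, Wu cf u ≤ ∫ u in (0 : ℝ)..L, Real.exp 1 * EE (vv cf) u := by
            apply intervalIntegral.integral_mono_on hL (hwc.intervalIntegrable _ _)
              ((hEc.const_mul _).intervalIntegrable _ _)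
            intro u _
            exact wu_le cf hv u
        _ = Real.exp 1 * ∫ u in (0 : ℝ)..L, EE (vv cf) u := intervalIntegral.integral_const_mul _ _
        _ ≤ Real.exp 1 * (2 * (C * S0 * (L + 1))) :=
            mul_le_mul_of_nonneg_left (int_EE_le hv hL) (Real.exp_pos _).le
        _ ≤ Real.exp 4 * (2 * (C * S0 * (L + 1))) := by gcongr
        _ = 2 * Real.exp 4 * (C * S0) * (L + 1) := by ring
        _ ≤ _ := mul_le_mul_of_nonneg_right hK (by positivity)
    calc _ ≤ Cs * a + Cs * (L + 1) := add_le_add h1 h2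
      _ = _ := by ring
  · intro a L ha hL
    rw [← intervalIntegral.integral_add_adjacent_intervals (b := 0)
      (hsc.intervalIntegrable _ _) (hsc.intervalIntegrable _ _)]
    have h1 : ∫ u in (-a)..0, SWu cf (1 / 4) u ≤ Cs * a := by
      calc ∫ u in (-a)..0, SWu cf (1 / 4) u ≤ ∫ _u in (-a)..0, Cs := by
            refine intervalIntegral.integral_mono_on (by linarith) (hsc.intervalIntegrable _ _)
              (by simp) fun u hu => ?_
            have := hsle u 0 hu.2 le_rfl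
            linarith
        _ = Cs * a := by
            rw [intervalIntegral.integral_const, smul_eq_mul]
            ring
    have h2 : ∫ u in (0 : ℝ)..L, SWu cf (1 / 4) u ≤ Cs * (L + 1) ^ 2 := by
      calc ∫ u in (0 : ℝ)..L, SWu cf (1 / 4) u ≤
            ∫ u in (0 : ℝ)..L, Real.exp 4 * (L + 1) * EE (vv cf) u := by
            apply intervalIntegral.integral_mono_on hL (hsc.intervalIntegrable _ _)
              ((hEc.const_mul _).intervalIntegrable _ _)
            intro u hu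
            exact hb u L hu.2 hL
        _ = Real.exp 4 * (L + 1) * ∫ u in (0 : ℝ)..L, EE (vv cf) u :=
            intervalIntegral.integral_const_mul _ _
        _ ≤ Real.exp 4 * (L + 1) * (2 * (C * S0 * (L + 1))) :=
            mul_le_mul_of_nonneg_left (int_EE_le hv hL) (by positivity)
        _ = 2 * Real.exp 4 * (C * S0) * (L + 1) ^ 2 := by ring
        _ ≤ _ := mul_le_mul_of_nonneg_right hK (by positivity)
    calc _ ≤ Cs * a + Cs * (L + 1) ^ 2 := add_le_add h1 h2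
      _ = _ := by ring

lemma Rw_far {γ : ℝ} {α : ℝ} (h : 1 ≤ α) : Rw γ α = 0 := by
  unfold H385.Rw
  rw [abs_of_nonneg (by linarith)]
  split_ifs with h1
  · have : α = 1 := le_antisymm h1 h
    rw [this]
    simp
  · rfl

/-- the main term with a shift -/
theorem shift_main (cf : ℕ → ℂ) (hc : SelE cf) (γ : ℝ) (h0 : 0 < γ) (hπ : γ < Real.pi) (ε : ℝ)
    (hε : 0 < ε) : ∃ η0 L0 : ℝ, 0 < η0 ∧ η0 ≤ 1 ∧ 1 ≤ L0 ∧ ∀ Λ : ℝ, L0 ≤ Λ →
    ∀ c v : ℝ, c ≤ η0 * Λ → |v| ≤ c →
    ∫ u in (0 : ℝ)..Λ, Rw γ (u / Λ) * SWu cf (1 / 4) (u + v) ≤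
      2 * Real.sqrt Real.pi * Λ ^ 2 * ((∫ α in (0 : ℝ)..1, α * Rw γ α) + ε) := by
  obtain ⟨Cs, hs⟩ := smD cf hc
  obtain ⟨K, hK, hlip⟩ := H385.Rw_lip γ h0 hπ
  obtain ⟨L0, hL0, hmain⟩ := main_term4 cf hc γ h0 hπ (ε / 2) (by positivity)
  have hcR : Continuous (Rw γ) := H385.PerChi.Rw_cont γ h0 hπ
  have hRn := H385.Rw_nonneg γ h0 hπ
  have hR0 : ∀ α : ℝ, 0 ≤ α → Rw γ α ≤ Rw γ 0 := fun α hα =>
    H385.Rw_antitone γ h0 hπ (Set.mem_Ici.2 le_rfl) (Set.mem_Ici.2 hα) hα
  have hRa : ∀ α : ℝ, Rw γ α ≤ Rw γ 0 := fun α => by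
    rcases le_total 0 α with h | h
    · exact hR0 α h
    · rw [← H385.Rw_even]
      exact hR0 (-α) (by linarith)
  have hR00 := hRn 0
  have hCs := hs.pos
  have hsp : 0 < Real.sqrt Real.pi := Real.sqrt_pos.2 Real.pi_pos
  obtain ⟨η0, hη⟩ : ∃ η0 : ℝ, η0 = min 1 (Real.sqrt Real.pi * ε / (2 * (18 * K * Cs))) := ⟨_, rfl⟩
  have hη0 : 0 < η0 := by rw [hη]; positivity
  have hη1 : η0 ≤ 1 := by rw [hη]; exact min_le_left _ _
  have hη2 : 18 * K * Cs * η0 ≤ Real.sqrt Real.pi * ε / 2 := by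
    have h1 : η0 ≤ Real.sqrt Real.pi * ε / (2 * (18 * K * Cs)) := by rw [hη]; exact min_le_right _ _
    rw [le_div_iff₀ (by positivity)] at h1
    linarith
  obtain ⟨L1, hL1⟩ : ∃ L1 : ℝ, L1 = Cs * (Rw γ 0 + K) / (Real.sqrt Real.pi * ε / 2) := ⟨_, rfl⟩
  refine ⟨η0, max (max L0 L1) 1, hη0, hη1, le_max_right _ _, ?_⟩
  intro Λ hΛ c v hcv hv
  have hΛ0 : L0 ≤ Λ := ((le_max_left _ _).trans (le_max_left _ _)).trans hΛ
  have hΛ1 : L1 ≤ Λ := ((le_max_right _ _).trans (le_max_left _ _)).trans hΛ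
  have hΛ2 : 1 ≤ Λ := (le_max_right _ _).trans hΛ
  have hΛp : 0 < Λ := by linarith
  have hc0 : 0 ≤ c := (abs_nonneg v).trans hv
  have hcΛ : c ≤ Λ := hcv.trans (by nlinarith)
  have hvv := abs_le.1 hv
  obtain ⟨g, hg⟩ : ∃ g : ℝ → ℝ, g = SWu cf (1 / 4) := ⟨_, rfl⟩
  have hgc : Continuous g := by rw [hg]; exact hs.sc
  have hg0 : ∀ x, 0 ≤ g x := by rw [hg]; exact hs.s0
  rw [← hg] at hmain ⊢
  have hRc : Continuous fun x : ℝ => Rw γ (x / Λ) := hcR.comp (continuous_id.div_const Λ)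
  have h1 : ∫ u in (0 : ℝ)..Λ, Rw γ (u / Λ) * g (u + v) ≤
      ∫ x in (-c)..(Λ + c), (Rw γ (x / Λ) + K * c / Λ) * g x := by
    have e1 : ∫ u in (0 : ℝ)..Λ, Rw γ (u / Λ) * g (u + v) =
        ∫ x in (0 + v)..(Λ + v), Rw γ ((x - v) / Λ) * g x := by
      have := intervalIntegral.integral_comp_add_right (a := (0 : ℝ)) (b := Λ)
        (fun x : ℝ => Rw γ ((x - v) / Λ) * g x) v
      rw [← this]
      refine intervalIntegral.integral_congr fun u _ => ?_
      show Rw γ (u / Λ) * g (u + v) = Rw γ ((u + v - v) / Λ) * g (u + v)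
      rw [add_sub_cancel_right]
    rw [e1]
    have hi : Continuous fun x : ℝ => (Rw γ (x / Λ) + K * c / Λ) * g x :=
      (hRc.add continuous_const).mul hgc
    calc ∫ x in (0 + v)..(Λ + v), Rw γ ((x - v) / Λ) * g x ≤
          ∫ x in (0 + v)..(Λ + v), (Rw γ (x / Λ) + K * c / Λ) * g x := by
          refine intervalIntegral.integral_mono_on (by linarith) ?_ (hi.intervalIntegrable _ _)
            fun x _ => ?_
          · exact ((hcR.comp (by fun_prop : Continuous fun x : ℝ => (x - v) / Λ)).mul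
              hgc).intervalIntegrable _ _
          · refine mul_le_mul_of_nonneg_right ?_ (hg0 x)
            have h2 := hlip ((x - v) / Λ) (x / Λ)
            have h3 : (x - v) / Λ - x / Λ = -(v / Λ) := by ring
            rw [h3, abs_neg, abs_div, abs_of_pos hΛp] at h2
            have h4 : K * (|v| / Λ) ≤ K * c / Λ := by
              rw [mul_div_assoc]
              gcongr
            linarith [le_abs_self (Rw γ ((x - v) / Λ) - Rw γ (x / Λ))]
      _ ≤ _ := by
          refine intervalIntegral.integral_mono_interval (by linarith) (by linarith) (by linarith)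
            (Filter.Eventually.of_forall fun x => ?_) (hi.intervalIntegrable _ _)
          have := hRn (x / Λ)
          have := hg0 x
          show 0 ≤ (Rw γ (x / Λ) + K * c / Λ) * g x
          positivity
  have hiR : Continuous fun x : ℝ => Rw γ (x / Λ) * g x := hRc.mul hgc
  have h2 : ∫ x in (-c)..(Λ + c), (Rw γ (x / Λ) + K * c / Λ) * g x =
      (∫ x in (-c)..(0 : ℝ), Rw γ (x / Λ) * g x) + (∫ x in (0 : ℝ)..Λ, Rw γ (x / Λ) * g x) +
        (∫ x in Λ..(Λ + c), Rw γ (x / Λ) * g x) + K * c / Λ * ∫ x in (-c)..(Λ + c), g x := by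
    rw [intervalIntegral.integral_add_adjacent_intervals (hiR.intervalIntegrable _ _)
      (hiR.intervalIntegrable _ _), intervalIntegral.integral_add_adjacent_intervals
      (hiR.intervalIntegrable _ _) (hiR.intervalIntegrable _ _),
      ← intervalIntegral.integral_const_mul, ← intervalIntegral.integral_add
      (hiR.intervalIntegrable _ _) ((hgc.const_mul _).intervalIntegrable _ _)]
    refine intervalIntegral.integral_congr fun x _ => ?_
    ring
  have h3 : ∫ x in (-c)..(0 : ℝ), Rw γ (x / Λ) * g x ≤ Cs * Rw γ 0 * c := by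
    calc ∫ x in (-c)..(0 : ℝ), Rw γ (x / Λ) * g x ≤ ∫ _x in (-c)..(0 : ℝ), Rw γ 0 * Cs := by
          refine intervalIntegral.integral_mono_on (by linarith) (hiR.intervalIntegrable _ _)
            (by simp) fun x hx => ?_
          have h4 := hs.sle x 0 hx.2 le_rfl
          rw [← hg] at h4
          exact mul_le_mul (hRa _) (by linarith) (hg0 x) hR00
      _ = _ := by
          rw [intervalIntegral.integral_const, smul_eq_mul]
          ring
  have h4 := hmain Λ hΛ0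
  have h5 : ∫ x in Λ..(Λ + c), Rw γ (x / Λ) * g x = 0 := by
    have : ∫ x in Λ..(Λ + c), Rw γ (x / Λ) * g x = ∫ _x in Λ..(Λ + c), (0 : ℝ) := by
      refine intervalIntegral.integral_congr fun x hx => ?_
      rw [uIcc_of_le (by linarith)] at hx
      show Rw γ (x / Λ) * g x = 0
      rw [Rw_far, zero_mul]
      rw [le_div_iff₀ hΛp, one_mul]
      exact hx.1
    rw [this]
    simp
  have h6 := hs.sint c (Λ + c) hc0 (by linarith)
  rw [← hg] at h6
  have h7 : K * c / Λ * ∫ x in (-c)..(Λ + c), g x ≤ Cs * K * c + Real.sqrt Real.pi * ε / 2 * Λ ^ 2 := by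
    have h8 : (Λ + c + 1) ^ 2 ≤ (3 * Λ) ^ 2 := pow_le_pow_left₀ (by linarith) (by linarith) 2
    have h9 : c / Λ ≤ η0 := by
      rw [div_le_iff₀ hΛp]
      exact hcv
    have h10 : c / Λ ≤ 1 := by
      rw [div_le_iff₀ hΛp]
      linarith
    have h11 : 0 ≤ c / Λ := by positivity
    calc K * c / Λ * ∫ x in (-c)..(Λ + c), g x ≤ K * c / Λ * (Cs * (c + (3 * Λ) ^ 2)) := by
          refine mul_le_mul_of_nonneg_left (h6.trans ?_) (by positivity)
          gcongr
      _ = Cs * K * c * (c / Λ) + 9 * (K * Cs * (c / Λ)) * Λ ^ 2 := by ring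
      _ ≤ Cs * K * c * 1 + 9 * (K * Cs * η0) * Λ ^ 2 := by gcongr
      _ ≤ Cs * K * c + Real.sqrt Real.pi * ε / 2 * Λ ^ 2 := by
          have : 9 * (K * Cs * η0) ≤ Real.sqrt Real.pi * ε / 2 := by
            have : 0 ≤ K * Cs * η0 := by positivity
            linarith
          have := mul_le_mul_of_nonneg_right this (sq_nonneg Λ)
          linarith
  have h8 : Cs * (Rw γ 0 + K) * c ≤ Real.sqrt Real.pi * ε / 2 * Λ ^ 2 := by
    rw [hL1, div_le_iff₀ (by positivity)] at hΛ1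
    calc Cs * (Rw γ 0 + K) * c ≤ (Λ * (Real.sqrt Real.pi * ε / 2)) * Λ :=
          mul_le_mul hΛ1 hcΛ hc0 (by positivity)
      _ = _ := by ring
  rw [h2, h5] at h1
  have h9 : 2 * Real.sqrt Real.pi * Λ ^ 2 * ((∫ α in (0 : ℝ)..1, α * Rw γ α) + ε) =
      2 * Real.sqrt Real.pi * Λ ^ 2 * ((∫ α in (0 : ℝ)..1, α * Rw γ α) + ε / 2) +
        Real.sqrt Real.pi * ε / 2 * Λ ^ 2 + Real.sqrt Real.pi * ε / 2 * Λ ^ 2 := by ring
  rw [h9]
  have h10 : Cs * Rw γ 0 * c + Cs * K * c = Cs * (Rw γ 0 + K) * c := by ring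
  linarith

/-- the secondary term with a shift -/
lemma shift_W {cf : ℕ → ℂ} {Cs : ℝ} (hs : SmD cf Cs) {Λ c v : ℝ} (hΛ : 0 ≤ Λ) (hv : |v| ≤ c) :
    ∫ u in (0 : ℝ)..Λ, Wu cf (u + v) ≤ Cs * (Λ + 2 * c + 1) := by
  have hc0 : 0 ≤ c := (abs_nonneg v).trans hv
  have hvv := abs_le.1 hv
  rw [intervalIntegral.integral_comp_add_right (fun x : ℝ => Wu cf x) v]
  calc ∫ x in (0 + v)..(Λ + v), Wu cf x ≤ ∫ x in (-c)..(Λ + c), Wu cf x := by
        refine intervalIntegral.integral_mono_interval (by linarith) (by linarith) (by linarith)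
          (Filter.Eventually.of_forall fun x => hs.w0 x) (hs.wc.intervalIntegrable _ _)
    _ ≤ Cs * (c + (Λ + c) + 1) := hs.wint c (Λ + c) hc0 (by linarith)
    _ = _ := by ring

lemma shift_S {cf : ℕ → ℂ} {Cs : ℝ} (hs : SmD cf Cs) {Λ c v : ℝ} (hΛ : 0 ≤ Λ) (hv : |v| ≤ c) :
    ∫ u in (0 : ℝ)..Λ, SWu cf (1 / 4) (u + v) ≤ Cs * (c + (Λ + c + 1) ^ 2) := by
  have hc0 : 0 ≤ c := (abs_nonneg v).trans hv
  have hvv := abs_le.1 hv
  rw [intervalIntegral.integral_comp_add_right (fun x : ℝ => SWu cf (1 / 4) x) v]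
  calc ∫ x in (0 + v)..(Λ + v), SWu cf (1 / 4) x ≤ ∫ x in (-c)..(Λ + c), SWu cf (1 / 4) x := by
        refine intervalIntegral.integral_mono_interval (by linarith) (by linarith) (by linarith)
          (Filter.Eventually.of_forall fun x => hs.s0 x) (hs.sc.intervalIntegrable _ _)
    _ ≤ _ := hs.sint c (Λ + c) hc0 (by linarith)

/-- for nonpositive arguments -/
lemma neg_W {cf : ℕ → ℂ} {Cs : ℝ} (hs : SmD cf Cs) {c w : ℝ} (hc : 0 ≤ c) (hw : w ≤ 0) :
    ∫ v in (-c)..c, Wu cf (w + v) ≤ 2 * Cs * (c + 1) := by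
  have hCs := hs.pos
  have e := intervalIntegral.integral_comp_add_left (a := -c) (b := c)
    (fun x : ℝ => Wu cf x) w
  rw [e]
  rcases le_total 0 (w + c) with h | h
  · calc ∫ x in (w + -c)..(w + c), Wu cf x = ∫ x in (-(c - w))..(w + c), Wu cf x := by
          congr 1
          ring
      _ ≤ Cs * ((c - w) + (w + c) + 1) := hs.wint (c - w) (w + c) (by linarith) h
      _ ≤ 2 * Cs * (c + 1) := by nlinarith
  · calc ∫ x in (w + -c)..(w + c), Wu cf x ≤ ∫ _x in (w + -c)..(w + c), Cs := by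
          refine intervalIntegral.integral_mono_on (by linarith) (hs.wc.intervalIntegrable _ _)
            (by simp) fun x hx => ?_
          have := hs.wle x 0 (by linarith [hx.2]) le_rfl
          linarith
      _ = 2 * c * Cs := by
          rw [intervalIntegral.integral_const, smul_eq_mul]
          ring
      _ ≤ 2 * Cs * (c + 1) := by nlinarith

lemma neg_S {cf : ℕ → ℂ} {Cs : ℝ} (hs : SmD cf Cs) {c w : ℝ} (hc : 0 ≤ c) (hw : w ≤ 0) :
    ∫ v in (-c)..c, SWu cf (1 / 4) (w + v) ≤ 3 * Cs * (c + 1) ^ 2 := by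
  have hCs := hs.pos
  have h1 : Continuous fun v : ℝ => SWu cf (1 / 4) (w + v) := hs.sc.comp (by fun_prop)
  have e := intervalIntegral.integral_comp_add_left (a := -c) (b := c)
    (fun x : ℝ => SWu cf (1 / 4) x) w
  rw [e]
  rcases le_total 0 (w + c) with h | h
  · calc ∫ x in (w + -c)..(w + c), SWu cf (1 / 4) x = ∫ x in (-(c - w))..(w + c), SWu cf (1 / 4) x := by
          congr 1
          ring
      _ ≤ Cs * ((c - w) + (w + c + 1) ^ 2) := hs.sint (c - w) (w + c) (by linarith) h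
      _ ≤ Cs * (2 * c + (c + 1) ^ 2) := by
          gcongr
          · linarith
          · linarith
      _ ≤ 3 * Cs * (c + 1) ^ 2 := by nlinarith [mul_nonneg hCs.le hc, mul_nonneg hCs.le (sq_nonneg c)]
  · calc ∫ x in (w + -c)..(w + c), SWu cf (1 / 4) x ≤ ∫ _x in (w + -c)..(w + c), Cs := by
          refine intervalIntegral.integral_mono_on (by linarith) (hs.sc.intervalIntegrable _ _)
            (by simp) fun x hx => ?_
          have := hs.sle x 0 (by linarith [hx.2]) le_rfl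
          linarith
      _ = 2 * c * Cs := by
          rw [intervalIntegral.integral_const, smul_eq_mul]
          ring
      _ ≤ 3 * Cs * (c + 1) ^ 2 := by nlinarith [mul_nonneg hCs.le hc, mul_nonneg hCs.le (sq_nonneg c)]

end Pool.Agent.KS6_85.LZ
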