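import Pool.Agent.KS6_85.LZ.Low

/-!
# Logarithmic density
-/

set_option autoImplicit false
set_option maxHeartbeats 1000000

open Complex Filter Topology Set MeasureTheory
open H385 (primFamM WM)
open H370 (mult)
open W388 (rad rad_squarefree primFamM_rad)

namespace Pool.Agent.KS6_85.LZ

lemma pf_split (N : ℕ) {X Y Z : ℕ} (hXY : X ≤ Y) (hYZ : Y ≤ Z)
    (f : (q : ℕ) → DirichletCharacter ℂ q → ℝ) :
    primFamM N X Z f = primFamM N X Y f + primFamM N Y Z f := by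
  unfold primFamM
  rw [← Finset.sum_union, ← Finset.filter_union, Finset.Ioc_union_Ioc_eq_Ioc hXY hYZ]
  refine Finset.disjoint_filter_filter ?_
  rw [Finset.disjoint_left]
  intro q h1 h2
  rw [Finset.mem_Ioc] at h1 h2
  omega

/-- from blocks to logarithmic density -/
theorem log_density {N : ℕ} (hN : N ≠ 0) {θ δ K η X0 : ℝ} (hθ : 0 ≤ θ) (hδ : 0 < δ) (_hK : 1 ≤ K)
    (hη : 0 < η) : ∃ Q0 : ℕ, 1 ≤ Q0 ∧ ∀ g : (q : ℕ) → DirichletCharacter ℂ q → ℝ,
    (∀ q χ, 0 ≤ g q χ) →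
    (∀ X Y : ℕ, X0 ≤ X → K * X ≤ Y → (Y : ℝ) ≤ (X : ℝ) ^ (1 + η) →
      (θ + δ) * WM N X Y ≤ primFamM N X Y g) →
    ∀ Q : ℕ, Q0 ≤ Q → θ * WM N 1 Q ≤ primFamM N 1 Q g := by
  obtain ⟨C4, hC4, hmass⟩ := H385.prim_mass_M (rad N) (rad_squarefree N)
  have hc0 := H385.cM_pos (rad N) (rad_squarefree N)
  obtain ⟨a, ha⟩ : ∃ a : ℝ, a = 1 / (1 + η) := ⟨_, rfl⟩
  have ha0 : 0 < a := by rw [ha]; positivity
  have ha1 : a < 1 := by
    rw [ha, div_lt_one (by positivity)]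
    linarith
  obtain ⟨K', hK'⟩ : ∃ K' : ℝ, K' = max K 2 := ⟨_, rfl⟩
  have hK2 : 2 ≤ K' := by rw [hK']; exact le_max_right _ _
  have hKK : K ≤ K' := by rw [hK']; exact le_max_left _ _
  have e1 : ∀ᶠ x : ℝ in atTop, max X0 1 ≤ x ^ a := (tendsto_rpow_atTop ha0).eventually_ge_atTop _
  have e2 : ∀ᶠ x : ℝ in atTop, 2 * K' ≤ x ^ (1 - a) :=
    (tendsto_rpow_atTop (by linarith)).eventually_ge_atTop _
  obtain ⟨x1, hx1⟩ := Filter.eventually_atTop.1 (e1.and (e2.and (eventually_ge_atTop 1)))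
  obtain ⟨X1, hX1⟩ : ∃ X1 : ℕ, X1 = max ⌈x1⌉₊ 1 := ⟨_, rfl⟩
  have hX11 : 1 ≤ X1 := by rw [hX1]; exact le_max_right _ _
  have hXx : x1 ≤ X1 := by
    rw [hX1]
    refine (Nat.le_ceil x1).trans ?_
    exact_mod_cast le_max_left _ _
  have hWn : ∀ X Y : ℕ, 0 ≤ WM N X Y := fun X Y => H385.primFamM_nonneg N X Y _ fun _ _ => zero_le_one
  obtain ⟨B, hB⟩ : ∃ B : ℝ, B = (θ + δ) * WM N 1 X1 := ⟨_, rfl⟩
  have hB0 : 0 ≤ B := by
    rw [hB]
    exact mul_nonneg (by linarith) (hWn _ _)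
  obtain ⟨x2, hx2⟩ : ∃ x2 : ℝ, x2 = Real.exp ((B / δ + C4) / H385.cM (rad N)) := ⟨_, rfl⟩
  refine ⟨max ⌈x2⌉₊ 1, le_max_right _ _, ?_⟩
  intro g hg hblk
  have claim : ∀ Q : ℕ, 1 ≤ Q → (θ + δ) * WM N 1 Q - B ≤ primFamM N 1 Q g := by
    intro Q
    induction Q using Nat.strong_induction_on with
    | _ Q ih =>
      intro hQ
      rcases le_total Q X1 with h | h
      · have h1 : WM N 1 X1 = WM N 1 Q + WM N Q X1 := pf_split N hQ h _
        have h2 : 0 ≤ primFamM N 1 Q g := H385.primFamM_nonneg N 1 Q g hg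
        have h3 : (θ + δ) * WM N 1 Q ≤ B := by
          rw [hB]
          exact mul_le_mul_of_nonneg_left (by rw [h1]; linarith [hWn Q X1]) (by linarith)
        linarith
      · have hQr : x1 ≤ Q := hXx.trans (by exact_mod_cast h)
        obtain ⟨f1, f2, f3⟩ := hx1 Q hQr
        have hQ0 : (0 : ℝ) < Q := by linarith
        obtain ⟨X, hX⟩ : ∃ X : ℕ, X = ⌈(Q : ℝ) ^ a⌉₊ := ⟨_, rfl⟩
        have hXge : (Q : ℝ) ^ a ≤ X := by rw [hX]; exact Nat.le_ceil _
        have hXle : (X : ℝ) ≤ (Q : ℝ) ^ a + 1 := by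
          rw [hX]
          exact (Nat.ceil_lt_add_one (by positivity)).le
        have hXge1 : (1 : ℝ) ≤ X := le_trans (le_trans (le_max_right _ _) f1) hXge
        have hX1' : 1 ≤ X := by exact_mod_cast hXge1
        have h1 : (1 : ℝ) ≤ (Q : ℝ) ^ a := (le_max_right _ _).trans f1
        have h2 : K' * X ≤ Q := by
          calc K' * X ≤ K' * (2 * (Q : ℝ) ^ a) := by
                refine mul_le_mul_of_nonneg_left (by linarith) (by linarith)
            _ = (2 * K') * (Q : ℝ) ^ a := by ring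
            _ ≤ (Q : ℝ) ^ (1 - a) * (Q : ℝ) ^ a := mul_le_mul_of_nonneg_right f2 (by positivity)
            _ = Q := by
                rw [← Real.rpow_add hQ0]
                norm_num
        have h3 : (Q : ℝ) ≤ (X : ℝ) ^ (1 + η) := by
          calc (Q : ℝ) = ((Q : ℝ) ^ a) ^ (1 + η) := by
                rw [← Real.rpow_mul hQ0.le, ha]
                have : 1 / (1 + η) * (1 + η) = 1 := by field_simp
                rw [this, Real.rpow_one]
            _ ≤ (X : ℝ) ^ (1 + η) := Real.rpow_le_rpow (by positivity) hXge (by linarith)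
        have h4 : X < Q := by
          have : (X : ℝ) < Q := by
            have : 2 * (X : ℝ) ≤ K' * X := mul_le_mul_of_nonneg_right hK2 (by linarith)
            linarith
          exact_mod_cast this
        have h5 := hblk X Q (le_trans (le_trans (le_max_left _ _) f1) hXge)
          (le_trans (mul_le_mul_of_nonneg_right hKK (by linarith)) h2) h3
        have h6 := ih X h4 hX1'
        have h7 : WM N 1 Q = WM N 1 X + WM N X Q := pf_split N hX1' h4.le _
        have h8 := pf_split N hX1' h4.le g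
        rw [h7, h8]
        linarith
  intro Q hQ
  have hQ1 : 1 ≤ Q := (le_max_right _ _).trans hQ
  have hQx : x2 ≤ Q := by
    refine (Nat.le_ceil x2).trans ?_
    exact_mod_cast (le_max_left _ _).trans hQ
  have h1 := claim Q hQ1
  have h2 := hmass 1 Q le_rfl hQ1
  rw [primFamM_rad hN] at h2
  have h3 := (abs_le.1 h2).1
  have hx2p : 0 < x2 := by rw [hx2]; exact Real.exp_pos _
  have h4 : (B / δ + C4) / H385.cM (rad N) ≤ Real.log Q := by
    have := Real.log_le_log hx2p hQx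
    rw [hx2, Real.log_exp] at this
    exact this
  rw [div_le_iff₀ hc0] at h4
  have h5 : B / δ ≤ WM N 1 Q := by
    unfold WM
    have e : ((Q : ℝ) / ((1 : ℕ) : ℝ)) = Q := by simp
    rw [e] at h3
    linarith
  rw [div_le_iff₀ hδ] at h5
  linarith

lemma NS_mono {A ℒ E H q0 : ℝ} {F : ℂ → ℂ} {a : ℕ → ℂ} (hF : GoodX A ℒ E H q0 F a) (m : ℝ) {h h' : ℝ}
    (hh : h ≤ h') : NS F m h ≤ NS F m h' := by
  unfold NS
  refine Set.ncard_le_ncard ?_ ?_
  · rintro s ⟨h1, h2, h3, h4⟩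
    exact ⟨h1, h2.trans hh, h3, h4⟩
  · refine (zfin hF (m - h' - 1) (m + h')).subset ?_
    rintro s ⟨h1, h2, h3, h4⟩
    have h5 := abs_le.1 h2
    exact ⟨by rw [h1]; norm_num, by rw [h1]; norm_num, by linarith [h5.1], by linarith [h5.2], h3⟩

/-- **logarithmic density** -/
theorem low_log {N : ℕ} {L : (q : ℕ) → DirichletCharacter ℂ q → ℂ → ℂ} {cf : ℕ → ℂ} {A : ℝ}
    (hD : TwD N L cf A) (T : ℝ) (hT : 0 ≤ T) (n : ℕ) : ∃ (κ : ℝ) (Q0 : ℕ), 0 < κ ∧
    ∀ Q : ℕ, Q0 ≤ Q → ∀ t : ℝ, |t| ≤ T →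
      0.6725 * WM N 1 Q ≤ primFamM N 1 Q (fun q χ =>
        if n ≤ NS (L q χ) t (κ / Real.log q) then (1 : ℝ) else 0) := by
  obtain ⟨δ, hδ, hδ1, h1⟩ := low_abs
  obtain ⟨κ0, hκ0, h2⟩ := h1 hD T hT 1 one_pos
  obtain ⟨κ, hκ⟩ : ∃ κ : ℝ, κ = max κ0 (n / δ) := ⟨_, rfl⟩
  have hκ1 : κ0 ≤ κ := by rw [hκ]; exact le_max_left _ _
  have hκ2 : (n : ℝ) ≤ δ * κ := by
    have : n / δ ≤ κ := by rw [hκ]; exact le_max_right _ _
    rw [div_le_iff₀ hδ] at this
    linarith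
  have hκp : 0 < κ := by linarith
  obtain ⟨K, η, X0, hK, hη, hη1, hX0, h3⟩ := h2 κ hκ1
  obtain ⟨Q0, hQ0, h4⟩ := log_density (X0 := X0) (K := K) hD.hN (by norm_num : (0 : ℝ) ≤ 0.6725) hδ
    hK hη
  refine ⟨2 * κ, Q0, by positivity, ?_⟩
  intro Q hQ t ht
  refine h4 _ (fun q χ => by split_ifs <;> norm_num) ?_ Q hQ
  intro X Y hX hKY hYX
  obtain ⟨hW, h5⟩ := h3 X Y hX hKY hYX
  obtain ⟨-, -, h6, -⟩ := h5 t ht
  refine h6.trans (H385.primFamM_mono N X Y _ _ fun q χ q1 q2 q3 q4 => ?_)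
  have hX2 : (2 : ℝ) ≤ X := hX0.trans hX
  have hq2 : 2 ≤ q := by
    have : (2 : ℝ) < q := lt_of_le_of_lt hX2 (by exact_mod_cast q1)
    have : 2 < q := by exact_mod_cast this
    omega
  by_cases hc : δ * κ ≤ (NS (L q χ) t (κ / Real.log X) : ℝ)
  · rw [if_pos hc, if_pos]
    have hXp : (0 : ℝ) < X := by linarith
    have hX1 : (1 : ℝ) ≤ X := by linarith
    have hq0 : (0 : ℝ) < q := by
      have : 0 < q := by omega
      exact_mod_cast this
    have hlX : 0 < Real.log X := Real.log_pos (by linarith)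
    have hlq : 0 < Real.log q := lt_of_lt_of_le hlX (Real.log_le_log hXp (by exact_mod_cast q1.le))
    have hlog : Real.log q ≤ 2 * Real.log X := by
      calc Real.log q ≤ Real.log Y := Real.log_le_log hq0 (by exact_mod_cast q2)
        _ ≤ (1 + η) * Real.log X := by
            rw [← Real.log_rpow hXp]
            refine Real.log_le_log ?_ hYX
            exact lt_of_lt_of_le hq0 (by exact_mod_cast q2)
        _ ≤ 2 * Real.log X := mul_le_mul_of_nonneg_right (by linarith) hlX.le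
    have hle : κ / Real.log X ≤ 2 * κ / Real.log q := by
      rw [div_le_div_iff₀ hlX hlq]
      nlinarith
    have h7 := NS_mono (hD.good q χ hq2 q3 q4 3 le_rfl) t hle
    have h8 : (n : ℝ) ≤ (NS (L q χ) t (2 * κ / Real.log q) : ℝ) := by
      have : (NS (L q χ) t (κ / Real.log X) : ℝ) ≤ (NS (L q χ) t (2 * κ / Real.log q) : ℝ) := by
        exact_mod_cast h7
      linarith
    exact_mod_cast h8
  · rw [if_neg hc]
    split_ifs <;> norm_num

end Pool.Agent.KS6_85.LZ
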