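import Pool.Agent.KS6_85.LZ.FamP

/-!
# The theorem for a family
-/

set_option autoImplicit false
set_option maxHeartbeats 1000000

open Complex Filter Topology Set MeasureTheory
open Pool.Agent.R399.TW (Fm)
open Pool.Agent.R399.TM (Fo)
open H385 (primFamM WM Rw)
open W388 (SWu Wu SelE CoefE rad rad_squarefree primFamM_rad)

namespace Pool.Agent.KS6_85.LZ

/-- the data of the family -/
structure TwD (N : ℕ) (L : (q : ℕ) → DirichletCharacter ℂ q → ℂ → ℂ) (cf : ℕ → ℂ) (A : ℝ) :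
    Prop where
  hN : N ≠ 0
  hA : 1 ≤ A
  fo : Fo 2 N L
  fm : Fm 2 N L
  sel : SelE cf
  sm : Summable (fun n : ℕ => ArithmeticFunction.vonMangoldt n * ‖cf n‖ *
    (n : ℝ) ^ (-(3 / 2) : ℝ))
  good : ∀ (q : ℕ) (χ : DirichletCharacter ℂ q), 2 ≤ q → Nat.Coprime q N → χ.IsPrimitive →
    ∀ H : ℝ, 3 ≤ H → GoodX A (Real.log q + H) H H (2 * Real.log q) (L q χ) (aT cf q χ)

/-- the constant -/
noncomputable def rho (γ τ : ℝ) : ℝ := (1 + τ) ^ 3 * (2 / (2 - τ)) * Rw γ 0 +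
  (1 + τ) * (1 + 11 * τ) * (2 - τ) * ((∫ α in (0 : ℝ)..1, α * Rw γ α) + τ)

/-- the cut-offs -/
theorem cutoffs {N X Y : ℕ} {L : (q : ℕ) → DirichletCharacter ℂ q → ℂ → ℂ} {cf : ℕ → ℂ} {A C3 : ℝ}
    (hD : TwD N L cf A) (hX1 : 1 ≤ X)
    (hfor : ∀ (ℒ E H q0 : ℝ) (F : ℂ → ℂ) (a : ℕ → ℂ), GoodX A ℒ E H q0 F a →
      ∀ m κ : ℝ, 3 ≤ κ → |m| + κ + 7 ≤ H →
      ∃ V1 V2 : ℝ, m - κ - 1 ≤ V1 ∧ V1 ≤ m - κ ∧ m + κ ≤ V2 ∧ V2 ≤ m + κ + 1 ∧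
        ∀ (M : ℕ) (h c u : ℝ), 0 ≤ h → 0 < c →
          ‖SX F V1 V2 M h c m u - (1 / (2 * Real.sqrt Real.pi) : ℝ) *
            (((q0 : ℝ) : ℂ) * cexp (I * m * u) * (Gg M h c u : ℝ) -
            QF a M h c m u - (starRingEnd ℂ) (QF a M h c m (-u)))‖ ≤
          C3 * h * (E + c * (ℒ ^ 2 * Real.exp (|u| + c - κ ^ 2 / 2))))
    (m κh H : ℝ) (hκh3 : 3 ≤ κh) (hH3 : 3 ≤ H) (hmH : |m| + κh + 7 ≤ H) :
    ∃ V1 V2 : (q : ℕ) → DirichletCharacter ℂ q → ℝ,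
    ∀ (q : ℕ) (χ : DirichletCharacter ℂ q),
      X < q → q ≤ Y → Nat.Coprime q N → χ.IsPrimitive →
      (m - κh - 1 ≤ V1 q χ ∧ V1 q χ ≤ m - κh ∧ m + κh ≤ V2 q χ ∧ V2 q χ ≤ m + κh + 1 ∧
      ∀ (M : ℕ) (h c u : ℝ), 0 ≤ h → 0 < c →
        ‖SX (L q χ) (V1 q χ) (V2 q χ) M h c m u - (1 / (2 * Real.sqrt Real.pi) : ℝ) *
          (((2 * Real.log q : ℝ) : ℂ) * cexp (I * m * u) * (Gg M h c u : ℝ) -
          QF (aT cf q χ) M h c m u - (starRingEnd ℂ) (QF (aT cf q χ) M h c m (-u)))‖ ≤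
        C3 * h * (H + c * ((Real.log q + H) ^ 2 * Real.exp (|u| + c - κh ^ 2 / 2)))) := by
  classical
  have hV : ∀ (q : ℕ) (χ : DirichletCharacter ℂ q), ∃ V1 V2 : ℝ,
      X < q → q ≤ Y → Nat.Coprime q N → χ.IsPrimitive →
      (m - κh - 1 ≤ V1 ∧ V1 ≤ m - κh ∧ m + κh ≤ V2 ∧ V2 ≤ m + κh + 1 ∧
      ∀ (M : ℕ) (h c u : ℝ), 0 ≤ h → 0 < c →
        ‖SX (L q χ) V1 V2 M h c m u - (1 / (2 * Real.sqrt Real.pi) : ℝ) *
          (((2 * Real.log q : ℝ) : ℂ) * cexp (I * m * u) * (Gg M h c u : ℝ) -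
          QF (aT cf q χ) M h c m u - (starRingEnd ℂ) (QF (aT cf q χ) M h c m (-u)))‖ ≤
        C3 * h * (H + c * ((Real.log q + H) ^ 2 * Real.exp (|u| + c - κh ^ 2 / 2)))) := by
    intro q χ
    by_cases hq : X < q ∧ q ≤ Y ∧ Nat.Coprime q N ∧ χ.IsPrimitive
    · obtain ⟨q1, q2, q3, q4⟩ := hq
      obtain ⟨V1, V2, v1, v2, v3, v4, v5⟩ := hfor _ _ _ _ _ _
        (hD.good q χ (by omega) q3 q4 H hH3) m κh hκh3 hmH
      exact ⟨V1, V2, fun _ _ _ _ => ⟨v1, v2, v3, v4, v5⟩⟩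
    · exact ⟨0, 0, fun q1 q2 q3 q4 => absurd ⟨q1, q2, q3, q4⟩ hq⟩
  choose V1 V2 hV using hV
  exact ⟨V1, V2, hV⟩

/-- the error of the formula -/
lemma err_le {τ η0 k l h c Λ C3 T κh H lq u : ℝ} (P : Par τ η0 k l h c Λ) {Λ0 : ℝ} {M : ℕ}
    (hC3 : 0 < C3) (hκh : κh = 4 * Real.sqrt l) (hH : H = T + 4 * Real.sqrt l + 7)
    (hb : BigL M C3 T (k ^ 3) (1 / k ^ 2) (2 - τ) Λ0 l) (hl0 : 0 ≤ lq) (hl2 : lq ≤ 2 * l)
    (hu0 : 0 ≤ u) (hu : u ≤ Λ) :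
    C3 * h * (H + c * ((lq + H) ^ 2 * Real.exp (|u| + c - κh ^ 2 / 2))) ≤ 1 := by
  have hll : 0 ≤ l := by linarith [P.l1]
  have hκh2 : κh ^ 2 / 2 = 8 * l := by
    rw [hκh, mul_pow, Real.sq_sqrt hll]
    ring
  have e1 : Real.exp (|u| + c - κh ^ 2 / 2) ≤ Real.exp (-(5 * l)) := by
    apply Real.exp_le_exp.2
    rw [hκh2, abs_of_nonneg hu0]
    linarith [P.Λl, P.cl, P.l1]
  have e2 : c * ((lq + H) ^ 2 * Real.exp (-(5 * l))) ≤ 1 := by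
    rw [P.hc, hH]
    exact hb.b6 lq hl0 hl2
  have hc0 : 0 < c := by linarith [P.c1]
  have hh0 := P.h0
  have e3 : c * ((lq + H) ^ 2 * Real.exp (|u| + c - κh ^ 2 / 2)) ≤ 1 := by
    refine le_trans ?_ e2
    gcongr
  calc C3 * h * (H + c * ((lq + H) ^ 2 * Real.exp (|u| + c - κh ^ 2 / 2))) ≤
        C3 * h * (H + 1) := by gcongr
    _ ≤ 1 := by
        rw [P.hh, hH]
        exact hb.b5

/-- the last step -/
lemma asm_le {W D1 R D4 D5 τ k E J0 γ a b z : ℝ} (hW : 0 ≤ W) (hD : 0 ≤ (D4 + 4) * k ^ 2)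
    (hz : z ≤ a + b)
    (hr : rho γ τ = J0)
    (ha : a ≤ W * (2 * k ^ 3 / Real.pi * J0 + (D1 + R * E) * k ^ 2))
    (hb : b ≤ W * (D5 * k ^ 2)) :
    z ≤ W * (2 * k ^ 3 / Real.pi * rho γ τ + (D1 + R * E + D5 + D4 + 4) * k ^ 2) := by
  rw [hr]
  have h1 : W * (2 * k ^ 3 / Real.pi * J0 + (D1 + R * E) * k ^ 2) + W * (D5 * k ^ 2) ≤
      W * (2 * k ^ 3 / Real.pi * J0 + (D1 + R * E + D5 + D4 + 4) * k ^ 2) := by
    rw [← mul_add]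
    refine mul_le_mul_of_nonneg_left ?_ hW
    linarith
  linarith

theorem fam_main {N : ℕ} {L : (q : ℕ) → DirichletCharacter ℂ q → ℂ → ℂ} {cf : ℕ → ℂ} {A : ℝ}
    (hD : TwD N L cf A) (T : ℝ) (hT : 0 ≤ T) (γ : ℝ) (h0 : 0 < γ) (hπ : γ < Real.pi)
    (τ : ℝ) (hτ0 : 0 < τ) (hτ1 : τ ≤ 1 / 4) :
    ∃ C k0 : ℝ, 0 < C ∧ 1 ≤ k0 ∧ ∀ k : ℝ, k0 ≤ k → ∃ K X0 : ℝ, 1 ≤ K ∧
      ∀ X Y : ℕ, X0 ≤ X → K * X ≤ Y → Real.log Y ≤ (1 + τ) * Real.log X →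
      0 < WM N X Y ∧ ∀ m : ℝ, |m| ≤ T →
        primFamM N X Y (fun q χ => |(NI (L q χ) m (k ^ 3 / Real.log X) : ℝ) -
          2 * k ^ 3 / Real.pi|) ≤ WM N X Y * (2 * k ^ 3 / Real.pi * τ + C * k ^ 2) ∧
        primFamM N X Y (fun q χ => 2 * (NI (L q χ) m (k ^ 3 / Real.log X) : ℝ) -
          NS (L q χ) m (k ^ 3 / Real.log X)) ≤
          WM N X Y * (2 * k ^ 3 / Real.pi * rho γ τ + C * k ^ 2) ∧
        primFamM N X Y (fun q χ => 3 * (NI (L q χ) m (k ^ 3 / Real.log X) : ℝ) -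
          2 * ND (L q χ) m (k ^ 3 / Real.log X)) ≤
          WM N X Y * (2 * k ^ 3 / Real.pi * rho γ τ + C * k ^ 2) := by
  classical
  obtain ⟨C1, hC1, hone⟩ := one_chi 1605 le_rfl γ h0 hπ
  obtain ⟨C3, hC3, hfor⟩ := SX_formula A hD.hA
  obtain ⟨C4, hC4, hDE⟩ := fam_DE hD.fo hD.fm
  obtain ⟨Cs, hs⟩ := smD cf hD.sel
  obtain ⟨η0, L1, hη0, hη1, hL1, hmain⟩ := shift_main cf hD.sel γ h0 hπ τ hτ0
  obtain ⟨C5, K, L2, hC5, hK, hL2, hms⟩ := ms_Q (rad N) (rad_squarefree N) hD.sel hD.sm (2 - τ / 2)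
    (by linarith) (by linarith) τ hτ0 (by linarith)
  have hpi := Real.pi_pos
  have hpi3 := Real.pi_gt_three
  have hCs := hs.pos
  have hRn := H385.Rw_nonneg γ h0 hπ
  have hR00 := hRn 0
  have hJ0 : 0 ≤ ∫ α in (0 : ℝ)..1, α * Rw γ α :=
    intervalIntegral.integral_nonneg (by norm_num) fun α hα => mul_nonneg hα.1 (hRn α)
  obtain ⟨J, hJ⟩ : ∃ J : ℝ, J = (∫ α in (0 : ℝ)..1, α * Rw γ α) + τ := ⟨_, rfl⟩
  have hJp : 0 ≤ J := by rw [hJ]; positivity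
  obtain ⟨D5, hD5⟩ : ∃ D5 : ℝ, D5 = C1 * (3 * (C4 * (3 + T) ^ 8 * C5)) := ⟨_, rfl⟩
  have hD1p : 0 ≤ D1 γ C5 Cs := by unfold D1; positivity
  have hD2p : 0 ≤ 408 * Cs := by positivity
  have hD3p : 0 ≤ D3 C5 Cs := by unfold D3; positivity
  have hD4p : 0 ≤ D4 C5 Cs := by unfold D4; positivity
  have hD5p : 0 ≤ D5 := by rw [hD5]; positivity
  refine ⟨D1 γ C5 Cs + Rw γ 0 / τ * (408 * Cs + D3 C5 Cs + D4 C5 Cs + 13) + D5 + D4 C5 Cs + 4,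
    1 + 2 / τ + 160 + 1 / η0, by positivity, ?_, ?_⟩
  · have : 0 < 2 / τ + 160 + 1 / η0 := by positivity
    linarith
  intro k hk
  have hη2 : 0 < 1 / η0 := by positivity
  have hτ2 : 0 < 2 / τ := by positivity
  have hk1 : 1 ≤ k := by linarith
  have hk0 : 0 < k := by linarith
  have hkk : k ≤ k ^ 2 := by
    rw [sq]
    exact le_mul_of_one_le_left hk0.le hk1
  have hη_a : 1 / k ^ 2 ≤ τ / 2 := by
    have h1 : 2 / τ ≤ k ^ 2 := by linarith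
    rw [div_le_iff₀ (by positivity)]
    rw [div_le_iff₀ hτ0] at h1
    linarith
  have hη_b : 1 / k ^ 2 ≤ 1 / 160 := one_div_le_one_div_of_le (by norm_num) (by linarith)
  have hη_c : 1 / k ^ 2 ≤ η0 := by
    have h1 : 1 / η0 ≤ k ^ 2 := by linarith
    rw [div_le_iff₀ (by positivity)]
    rw [div_le_iff₀ hη0] at h1
    linarith
  obtain ⟨L3, hL3⟩ := Filter.eventually_atTop.1 (bigL 1605 C3 T (k ^ 3) (1 / k ^ 2) (2 - τ)
    (max L1 L2) hC3.le hT (by positivity) (by positivity) (by linarith) (by linarith))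
  refine ⟨K, Real.exp (max L3 1), hK, ?_⟩
  intro X Y hX hKY hYX
  have hX0 : (0 : ℝ) < X := lt_of_lt_of_le (Real.exp_pos _) hX
  have hlogX : max L3 1 ≤ Real.log X := (Real.le_log_iff_exp_le hX0).2 hX
  obtain ⟨l, hl⟩ : ∃ l : ℝ, l = Real.log X := ⟨_, rfl⟩
  rw [← hl] at hlogX hYX
  have hb := hL3 l (le_trans (le_max_left _ _) hlogX)
  have hl1 : 1 ≤ l := hb.b1
  have hl0 : 0 < l := by linarith
  have hlL1 : L1 ≤ l := le_trans (le_max_left _ _) hb.b0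
  have hlL2 : L2 ≤ l := le_trans (le_max_right _ _) hb.b0
  have hX1 : 1 ≤ X := by exact_mod_cast hX0
  have hXY : X ≤ Y := by
    have : (X : ℝ) ≤ Y := le_trans (le_mul_of_one_le_left hX0.le hK) hKY
    exact_mod_cast this
  obtain ⟨hW, hlogW, hQ⟩ := hms X Y (by
    rw [← Real.le_log_iff_exp_le hX0, ← hl]; exact hlL2) hKY
  have hWr : WM (rad N) X Y = WM N X Y := primFamM_rad hD.hN X Y _
  rw [hWr] at hW hlogW
  refine ⟨hW, ?_⟩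
  intro m hm
  rw [← hl]
  have P := mkPar hτ0 hτ1 hη0 hk1 hη_a hη_b hη_c hl1 hb.b2 hb.b3
  obtain ⟨h, hh⟩ : ∃ h : ℝ, h = k ^ 3 / l := ⟨_, rfl⟩
  obtain ⟨c, hc⟩ : ∃ c : ℝ, c = 1 / k ^ 2 * l := ⟨_, rfl⟩
  obtain ⟨Λ, hΛ⟩ : ∃ Λ : ℝ, Λ = (2 - τ) * l := ⟨_, rfl⟩
  obtain ⟨κh, hκh⟩ : ∃ κh : ℝ, κh = 4 * Real.sqrt l := ⟨_, rfl⟩
  obtain ⟨H, hH⟩ : ∃ H : ℝ, H = T + 4 * Real.sqrt l + 7 := ⟨_, rfl⟩
  rw [← hh, ← hc, ← hΛ] at P
  have hc0 : 0 < c := by linarith [P.c1]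
  have hκh3 : 3 ≤ κh := by rw [hκh]; exact hb.b4
  have hsl := Real.sqrt_nonneg l
  have hH3 : 3 ≤ H := by linarith
  have hmH : |m| + κh + 7 ≤ H := by linarith
  obtain ⟨V1, V2, hV⟩ := cutoffs (Y := Y) hD hX1 hfor m κh H hκh3 hH3 hmH
  -- the family mean square
  have hQ' : MSq N X Y cf τ C5 h c l m := by
    intro w hw
    have := hQ 1605 h c m w P.h0.le hc0 (by rw [← hl]; exact hw)
    rw [primFamM_rad hD.hN, hWr] at this
    exact this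
  have hQc : ∀ (q : ℕ) (χ : DirichletCharacter ℂ q),
      Continuous (fun u : ℝ => QF (aT cf q χ) 1605 h c m u) := fun q χ =>
    QF_cont (aT_coef hD.sm q χ) 1605 h c m
  have A1 := famA1 P hs h0 hπ hW.le hC5.le hQc hJp hQ' (fun v hv => by
    rw [hJ]
    exact hmain Λ (by linarith [P.lΛ]) c v P.cη hv)
  have A2 := famA2 P hs hW.le hC5.le hQc hQ'
  have A4 := famA4 P hs hW.le hC5.le hQ' 0 le_rfl
  have A3 := famA3 P hs hW.le hC5.le hQc hQ'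
  have hk2 : 1 ≤ k ^ 2 := one_le_pow₀ hk1
  have hYX2 : Real.log Y ≤ 2 * l :=
    le_trans hYX (mul_le_mul_of_nonneg_right (by linarith) hl0.le)
  -- the errors
  have A5 : C1 * primFamM N X Y (fun q χ => DE (L q χ) (V1 q χ) (V2 q χ) m h c (c + Λ / 320)
      (h ^ 2 + 1 / Λ ^ 2)) ≤ WM N X Y * (D5 * k ^ 2) := by
    have g1 := hDE X Y m h c (c + Λ / 320) (h ^ 2 + 1 / Λ ^ 2) (κh + 1) V1 V2 A
      (fun q => Real.log q + H) (fun _ => H) (fun _ => H) (fun q => 2 * Real.log q)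
      (fun q χ => aT cf q χ) hX1 hXY P.h0.le (by linarith [P.h2]) P.c1
      (by rw [← hl]; linarith [P.cl, P.Λl]) (by rw [← hl]; exact hYX2) (by positivity)
      (fun q χ q1 q2 q3 q4 => by
        obtain ⟨v1, v2, v3, v4, v5⟩ := hV q χ q1 q2 q3 q4
        exact ⟨hD.good q χ (by omega) q3 q4 H hH3, by linarith, by linarith⟩)
    have g2 : (h ^ 2 + 1 / Λ ^ 2) * (1 + h * Real.log X) + (1 + Real.log X / c) ≤ 3 * k ^ 2 := by
      have e1 : h * Real.log X = k ^ 3 := by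
        rw [← hl, hh]
        field_simp
      have e2 : Real.log X / c = k ^ 2 := by
        rw [← hl, hc]
        field_simp
      rw [e1, e2]
      have e3 := hb.b8
      rw [← hh, ← hΛ] at e3
      linarith
    have g3 : (3 + |m|) ^ 8 ≤ (3 + T) ^ 8 := pow_le_pow_left₀ (by positivity) (by linarith) 8
    have g4 : 0 ≤ Real.log ((Y : ℝ) / X) + 1 := by
      have : 0 ≤ Real.log ((Y : ℝ) / X) := by
        refine Real.log_nonneg ?_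
        rw [one_le_div hX0]
        exact_mod_cast hXY
      linarith
    have hh0 := P.h0
    have g5 : 0 ≤ (h ^ 2 + 1 / Λ ^ 2) * (1 + h * Real.log X) + (1 + Real.log X / c) := by
      rw [← hl]
      positivity
    calc _ ≤ C1 * (C4 * (3 + |m|) ^ 8 * (Real.log ((Y : ℝ) / X) + 1) *
          ((h ^ 2 + 1 / Λ ^ 2) * (1 + h * Real.log X) + (1 + Real.log X / c))) :=
          mul_le_mul_of_nonneg_left g1 hC1.le
      _ ≤ C1 * (C4 * (3 + T) ^ 8 * (C5 * WM N X Y) * (3 * k ^ 2)) := by gcongr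
      _ = _ := by rw [hD5]; ring
  -- one character
  have hlog : ∀ q : ℕ, X < q → q ≤ Y → l ≤ Real.log q ∧ Real.log q ≤ (1 + τ) * l ∧
      0 ≤ Real.log q := by
    intro q q1 q2
    have hq0 : (0 : ℝ) < q := by
      have : 0 < q := by omega
      exact_mod_cast this
    refine ⟨?_, le_trans (Real.log_le_log hq0 (by exact_mod_cast q2)) hYX,
      Real.log_natCast_nonneg q⟩
    rw [hl]
    exact Real.log_le_log hX0 (by exact_mod_cast q1.le)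
  have hchi : ∀ (q : ℕ) (χ : DirichletCharacter ℂ q), X < q → q ≤ Y → Nat.Coprime q N →
      χ.IsPrimitive → _ := fun q χ q1 q2 q3 q4 => by
    obtain ⟨v1, v2, v3, v4, v5⟩ := hV q χ q1 q2 q3 q4
    obtain ⟨l1, l2, l3⟩ := hlog q q1 q2
    have l4 : Real.log q ≤ 2 * l :=
      le_trans l2 (mul_le_mul_of_nonneg_right (by linarith) hl0.le)
    exact hone A _ _ _ _ (L q χ) (aT cf q χ) (hD.good q χ (by omega) q3 q4 H hH3) (V1 q χ)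
      (V2 q χ) m h c Λ τ (2 * (1 + τ) * l) 1 P.h0 P.h2 hc0 P.cΛ hτ0 (by linarith)
      (by linarith) zero_le_one (by linarith [P.h2]) (by linarith [P.h2])
      (fun u hu0 hu => (v5 1605 h c u P.h0.le hc0).trans
        (err_le P hC3 hκh hH hb l3 l4 hu0 hu))
  -- arithmetic
  have hG : (2 * (1 + τ) * l) ^ 2 * G2 h c ^ 2 ≤ 1 := by
    refine le_trans ?_ hb.b7
    rw [← hh, ← hc]
    refine mul_le_mul_of_nonneg_right ?_ (sq_nonneg _)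
    refine pow_le_pow_left₀ (by positivity) ?_ 2
    exact mul_le_mul_of_nonneg_right (by linarith) hl0.le
  have hnum := BS_num (W := WM N X Y) (R0 := Rw γ 0) (k := k) (L := l) (J := J) (G := G2 h c)
    (A1 := primFamM N X Y (fun q χ => ∫ u in (0 : ℝ)..Λ, Rw γ (u / Λ) *
      ‖QF (aT cf q χ) 1605 h c m u‖ ^ 2))
    (A2 := primFamM N X Y (fun q χ => ∫ u in (0 : ℝ)..(2 * c),
      ‖QF (aT cf q χ) 1605 h c m u‖ ^ 2))
    (A3 := primFamM N X Y (fun q χ => ∫ u in (0 : ℝ)..Λ,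
      ‖QF (aT cf q χ) 1605 h c m (-u)‖ ^ 2))
    (D1 := D1 γ C5 Cs) (D2 := 408 * Cs) (D3 := D3 C5 Cs) (D4 := D4 C5 Cs) hW.le hR00 hτ0 hτ1 hk1
    hl1 hD1p hD2p hD3p hD4p hG (by rw [← hh, ← hc, ← hΛ]; exact A1)
    (by rw [← hh, ← hc]; exact A2) (by rw [← hh, ← hc, ← hΛ]; exact A3)
  rw [← hh, ← hΛ, ← pf_BS N X Y γ Λ τ (2 * (1 + τ) * l) h c 1
    (fun q χ => ∫ u in (0 : ℝ)..Λ, Rw γ (u / Λ) * ‖QF (aT cf q χ) 1605 h c m u‖ ^ 2)
    (fun q χ => ∫ u in (0 : ℝ)..(2 * c), ‖QF (aT cf q χ) 1605 h c m u‖ ^ 2)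
    (fun q χ => ∫ u in (0 : ℝ)..Λ, ‖QF (aT cf q χ) 1605 h c m (-u)‖ ^ 2)] at hnum
  have hr : rho γ τ = (1 + τ) ^ 3 * (2 / (2 - τ)) * Rw γ 0 +
      (1 + τ) * (1 + 11 * τ) * (2 - τ) * J := by
    unfold rho
    rw [hJ]
  have hD44 : 0 ≤ (D4 C5 Cs + 4) * k ^ 2 := by positivity
  rw [← hh]
  refine ⟨?_, ?_, ?_⟩
  · -- the number of zeros
    have hGg := hb.b9
    rw [← hh, ← hc] at hGg
    obtain ⟨cst, hcst⟩ : ∃ x : ℝ, x = 2 * k ^ 3 / Real.pi * τ + 3 + k / 2 := ⟨_, rfl⟩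
    have g1 : ∀ (q : ℕ) (χ : DirichletCharacter ℂ q), X < q → q ≤ Y → Nat.Coprime q N →
        χ.IsPrimitive → |(NI (L q χ) m h : ℝ) - 2 * k ^ 3 / Real.pi| ≤
        cst + (1 / (2 * k) * ‖QF (aT cf q χ) 1605 h c m 0‖ ^ 2 +
        C1 * DE (L q χ) (V1 q χ) (V2 q χ) m h c (c + Λ / 320) (h ^ 2 + 1 / Λ ^ 2)) := by
      intro q χ q1 q2 q3 q4
      obtain ⟨l1, l2, l3⟩ := hlog q q1 q2
      have h1 := (hchi q χ q1 q2 q3 q4).2.2
      have h2 := count_arith hτ0 hτ1 hk1 hl1 l1 l2 hGg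
      have h3 := amgm (z := ‖QF (aT cf q χ) 1605 h c m 0‖) hk0
      have h4 := abs_sub_le (NI (L q χ) m h : ℝ)
        (2 * Real.log q * Gg 1605 h c 0 / (2 * Real.sqrt Real.pi)) (2 * k ^ 3 / Real.pi)
      rw [hcst]
      linarith only [h1, h2, h3, h4]
    refine (H385.primFamM_mono N X Y _ _ g1).trans ?_
    rw [pf_add, pf_add, pf_mul, pf_mul, pf_one]
    have p1 : h ^ 2 * c ^ 2 = k ^ 2 := by
      rw [hh, hc]
      field_simp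
    rw [p1] at A4
    have g3 : 1 / (2 * k) * primFamM N X Y (fun q χ => ‖QF (aT cf q χ) 1605 h c m 0‖ ^ 2) ≤
        WM N X Y * (D4 C5 Cs * k ^ 2) := by
      calc _ ≤ 1 / (2 * k) * (WM N X Y * (D4 C5 Cs * k ^ 2)) :=
            mul_le_mul_of_nonneg_left A4 (by positivity)
        _ ≤ 1 * (WM N X Y * (D4 C5 Cs * k ^ 2)) := by
            refine mul_le_mul_of_nonneg_right ?_ (by positivity)
            rw [div_le_one (by positivity)]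
            linarith only [hk1]
        _ = _ := one_mul _
    have g4 : cst * WM N X Y + (WM N X Y * (D4 C5 Cs * k ^ 2) +
        WM N X Y * (D5 * k ^ 2)) ≤ WM N X Y * (2 * k ^ 3 / Real.pi * τ +
        (D1 γ C5 Cs + Rw γ 0 / τ * (408 * Cs + D3 C5 Cs + D4 C5 Cs + 13) + D5 + D4 C5 Cs + 4) *
          k ^ 2) := by
      have e : cst * WM N X Y + (WM N X Y * (D4 C5 Cs * k ^ 2) +
        WM N X Y * (D5 * k ^ 2)) = WM N X Y * (2 * k ^ 3 / Real.pi * τ +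
        (3 + k / 2 + D4 C5 Cs * k ^ 2 + D5 * k ^ 2)) := by rw [hcst]; ring
      rw [e]
      refine mul_le_mul_of_nonneg_left ?_ hW.le
      have e2 : 0 ≤ (D1 γ C5 Cs + Rw γ 0 / τ * (408 * Cs + D3 C5 Cs + D4 C5 Cs + 13)) * k ^ 2 := by
        positivity
      linarith only [e2, hkk, hk2, hk1]
    exact (add_le_add le_rfl (add_le_add g3 A5)).trans g4
  · refine asm_le hW.le hD44 ?_ hr hnum A5
    refine (H385.primFamM_mono N X Y _ _ fun q χ q1 q2 q3 q4 => (hchi q χ q1 q2 q3 q4).1).trans ?_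
    rw [pf_add, pf_mul]
  · refine asm_le hW.le hD44 ?_ hr hnum A5
    refine (H385.primFamM_mono N X Y _ _ fun q χ q1 q2 q3 q4 => (hchi q χ q1 q2 q3 q4).2.1).trans ?_
    rw [pf_add, pf_mul]

end Pool.Agent.KS6_85.LZ
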