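import Pool.Agent.KS6_85.LZ.Per2

/-!
# The inequalities for one L-function: numbers of zeros
-/

set_option autoImplicit false
set_option maxHeartbeats 1000000

open Complex Filter Topology Set MeasureTheory
open scoped ComplexConjugate
open H370 (mult)
open H385 (zz Rw)
open H385.PerChi (kk)

namespace Pool.Agent.KS6_85.LZ

/-- the bound for the quadratic form -/
noncomputable def BS (γ Λ θ qm h c E0 I1 I2 I3 : ℝ) : ℝ :=
  (2 / Λ) * ((1 + θ) * (1 / (4 * Real.pi)) * (Rw γ 0 * qm ^ 2 * (2 * h) + I1) +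
        (6 / θ) * Rw γ 0 * ((1 / (4 * Real.pi)) * (I2 + qm ^ 2 * Λ * G2 h c ^ 2 + I3) + Λ * E0 ^ 2))

theorem one_chi (M : ℕ) (hM : 1605 ≤ M) (γ : ℝ) (h0 : 0 < γ) (hπ : γ < Real.pi) : ∃ C : ℝ, 0 < C ∧
    ∀ (A ℒ E H q0 : ℝ) (F : ℂ → ℂ) (a : ℕ → ℂ), GoodX A ℒ E H q0 F a →
    ∀ (V1 V2 m h c Λ θ qm E0 : ℝ), 0 < h → h ≤ 1 / 2 → 0 < c → 2 * c ≤ Λ → 0 < θ → θ ≤ 1 →
    q0 ≤ qm → 0 ≤ E0 → V1 < m - h → m + h ≤ V2 →
    (∀ u : ℝ, 0 ≤ u → u ≤ Λ → ‖SX F V1 V2 M h c m u - (1 / (2 * Real.sqrt Real.pi) : ℝ) *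
          (((q0 : ℝ) : ℂ) * cexp (I * m * u) * (Gg M h c u : ℝ) -
          QF a M h c m u - conj (QF a M h c m (-u)))‖ ≤ E0) →
    (2 * (NI F m h : ℝ) - NS F m h ≤ BS γ Λ θ qm h c E0
      (∫ u in (0 : ℝ)..Λ, Rw γ (u / Λ) * ‖QF a M h c m u‖ ^ 2)
      (∫ u in (0 : ℝ)..(2 * c), ‖QF a M h c m u‖ ^ 2)
      (∫ u in (0 : ℝ)..Λ, ‖QF a M h c m (-u)‖ ^ 2) +
      C * DE F V1 V2 m h c (c + Λ / 320) (h ^ 2 + 1 / Λ ^ 2)) ∧
    (3 * (NI F m h : ℝ) - 2 * ND F m h ≤ BS γ Λ θ qm h c E0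
      (∫ u in (0 : ℝ)..Λ, Rw γ (u / Λ) * ‖QF a M h c m u‖ ^ 2)
      (∫ u in (0 : ℝ)..(2 * c), ‖QF a M h c m u‖ ^ 2)
      (∫ u in (0 : ℝ)..Λ, ‖QF a M h c m (-u)‖ ^ 2) +
      C * DE F V1 V2 m h c (c + Λ / 320) (h ^ 2 + 1 / Λ ^ 2)) ∧
    |(NI F m h : ℝ) - q0 * Gg M h c 0 / (2 * Real.sqrt Real.pi)| ≤ ‖QF a M h c m 0‖ + E0 +
      C * DE F V1 V2 m h c (c + Λ / 320) (h ^ 2 + 1 / Λ ^ 2) := by
  classical
  obtain ⟨C1, hC1, hchi⟩ := per_chi M hM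
  obtain ⟨C2, hC2, hcnt⟩ := per_count M hM
  refine ⟨C1 + C2, by positivity, ?_⟩
  intro A ℒ E H q0 F a hF V1 V2 m h c Λ θ qm E0 hh hh2 hc hcΛ hθ0 hθ1 hqm hE0 hV1 hV2 hfor
  have hΛ : 0 < Λ := by linarith
  have hfin := zfin hF V1 V2
  have hpi := Real.pi_pos
  have hDE : 0 ≤ DE F V1 V2 m h c (c + Λ / 320) (h ^ 2 + 1 / Λ ^ 2) := by
    rw [DE_sum F hfin]
    refine Finset.sum_nonneg fun s _ => ?_
    have : 0 ≤ (if |s.im - m| ≤ h then h ^ 2 + 1 / Λ ^ 2 else 0) := by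
      split_ifs <;> positivity
    have h2 : 0 ≤ (DX h c m s ^ 10)⁻¹ := by
      have := DX_one (h := h) (m := m) hc.le s
      positivity
    positivity
  have hS := per_S γ h0 hπ hF (V1 := V1) (V2 := V2) (m := m) M hh hc hcΛ hθ0 hθ1 hqm hE0 hfor
  have hN1 := NI_eq hfin hV1 hV2
  have hN2 := NS_eq hfin hV1 hV2
  have hN3 := ND_eq hfin hV1 hV2
  have hle : C1 * DE F V1 V2 m h c (c + Λ / 320) (h ^ 2 + 1 / Λ ^ 2) ≤
      (C1 + C2) * DE F V1 V2 m h c (c + Λ / 320) (h ^ 2 + 1 / Λ ^ 2) :=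
    mul_le_mul_of_nonneg_right (by linarith) hDE
  have hle2 : C2 * DE F V1 V2 m h c (c + Λ / 320) (h ^ 2 + 1 / Λ ^ 2) ≤
      (C1 + C2) * DE F V1 V2 m h c (c + Λ / 320) (h ^ 2 + 1 / Λ ^ 2) :=
    mul_le_mul_of_nonneg_right (by linarith) hDE
  refine ⟨?_, ?_, ?_⟩
  · have h1 := hchi γ h0 hπ A ℒ E H q0 F a hF (fun s => 2 * (mult F s : ℝ) -
      (if (s.re = 1 / 2 ∧ mult F s = 1) then (1 : ℝ) else 0)) (fun s hs => by
        have hs' : (1 : ℝ) ≤ (mult F s : ℝ) := by exact_mod_cast hs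
        show 2 * (mult F s : ℝ) - _ ≤ _
        unfold kk
        by_cases hr : s.re = 1 / 2
        · by_cases hm1 : mult F s = 1
          · rw [if_pos ⟨hr, hm1⟩, if_pos hr, if_pos hm1, hm1]
            norm_num
          · have : (2 : ℝ) ≤ (mult F s : ℝ) := by
              have : 2 ≤ mult F s := by omega
              exact_mod_cast this
            rw [if_neg (fun h => hm1 h.2), if_pos hr, if_neg hm1]
            linarith
        · rw [if_neg (fun h => hr h.1), if_neg hr]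
          linarith) h c m Λ V1 V2 hh.le hh2 hc hΛ hfin
    rw [Finset.sum_sub_distrib, ← Finset.mul_sum, ← hN1, ← hN2] at h1
    unfold BS
    linarith
  · have h1 := hchi γ h0 hπ A ℒ E H q0 F a hF (fun s => 3 * (mult F s : ℝ) - 2 * 1)
      (fun s hs => by
        have hs' : (1 : ℝ) ≤ (mult F s : ℝ) := by exact_mod_cast hs
        show 3 * (mult F s : ℝ) - _ ≤ _
        unfold kk
        by_cases hr : s.re = 1 / 2
        · by_cases hm1 : mult F s = 1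
          · rw [if_pos hr, if_pos hm1, hm1]
            norm_num
          · have : (2 : ℝ) ≤ (mult F s : ℝ) := by
              have : 2 ≤ mult F s := by omega
              exact_mod_cast this
            rw [if_pos hr, if_neg hm1]
            linarith
        · rw [if_neg hr]
          linarith) h c m Λ V1 V2 hh.le hh2 hc hΛ hfin
    rw [Finset.sum_sub_distrib, ← Finset.mul_sum, ← Finset.mul_sum, ← hN1, ← hN3] at h1
    unfold BS
    linarith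
  · have h1 := hcnt A ℒ E H q0 F a hF h c m Λ V1 V2 hh.le hh2 hc hΛ hfin
    have h2 := per_zero hF (V1 := V1) (V2 := V2) (m := m) M (by
      have := hfor 0 le_rfl hΛ.le
      exact this)
    rw [← hN1] at h1
    have h3 := abs_sub_le (NI F m h : ℝ) (SX F V1 V2 M h c m 0).re
      (q0 * Gg M h c 0 / (2 * Real.sqrt Real.pi))
    linarith

end Pool.Agent.KS6_85.LZ
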