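import Pool.Agent.KS6_85.LZ.Fam
import Pool.Agent.KS6_85.LZ.One

/-!
# The averages over the family: arithmetic of the constants
-/

set_option autoImplicit false
set_option maxHeartbeats 1000000

open Complex Filter Topology Set MeasureTheory
open H385 (primFamM WM Rw)

namespace Pool.Agent.KS6_85.LZ

lemma pf_one (N X Y : ℕ) (b : ℝ) : primFamM N X Y (fun _ _ => b) = b * WM N X Y := by
  have := pf_mul N X Y b (fun _ _ => 1)
  simp only [mul_one] at this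
  exact this

lemma pf_BS (N X Y : ℕ) (γ Λ θ qm h c E0 : ℝ)
    (I1 I2 I3 : (q : ℕ) → DirichletCharacter ℂ q → ℝ) :
    primFamM N X Y (fun q χ => BS γ Λ θ qm h c E0 (I1 q χ) (I2 q χ) (I3 q χ)) =
      (2 / Λ) * ((1 + θ) * (1 / (4 * Real.pi)) * (Rw γ 0 * qm ^ 2 * (2 * h) * WM N X Y +
        primFamM N X Y I1) + (6 / θ) * Rw γ 0 * ((1 / (4 * Real.pi)) * (primFamM N X Y I2 +
        qm ^ 2 * Λ * G2 h c ^ 2 * WM N X Y + primFamM N X Y I3) + Λ * E0 ^ 2 * WM N X Y)) := by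
  have e : (fun (q : ℕ) (χ : DirichletCharacter ℂ q) =>
      BS γ Λ θ qm h c E0 (I1 q χ) (I2 q χ) (I3 q χ)) = fun q χ =>
      (2 / Λ) * ((1 + θ) * (1 / (4 * Real.pi)) * (Rw γ 0 * qm ^ 2 * (2 * h)) +
        (6 / θ) * Rw γ 0 * ((1 / (4 * Real.pi)) * (qm ^ 2 * Λ * G2 h c ^ 2) + Λ * E0 ^ 2)) +
      ((2 / Λ) * ((1 + θ) * (1 / (4 * Real.pi))) * I1 q χ +
       ((2 / Λ) * ((6 / θ) * Rw γ 0 * (1 / (4 * Real.pi))) * I2 q χ +
        (2 / Λ) * ((6 / θ) * Rw γ 0 * (1 / (4 * Real.pi))) * I3 q χ)) := by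
    funext q χ
    unfold BS
    ring
  rw [e, pf_add, pf_add, pf_add, pf_one, pf_mul, pf_mul, pf_mul]
  ring

/-- the arithmetic of the constants -/
lemma BS_num {W R0 τ k L A1 A2 A3 D1 D2 D3 D4 J G : ℝ} (hW : 0 ≤ W) (hR0 : 0 ≤ R0)
    (hτ : 0 < τ) (hτ1 : τ ≤ 1 / 4) (hk : 1 ≤ k) (hL : 1 ≤ L) (hD1 : 0 ≤ D1) (hD2 : 0 ≤ D2)
    (hD3 : 0 ≤ D3) (_hD4 : 0 ≤ D4) (hG : (2 * (1 + τ) * L) ^ 2 * G ^ 2 ≤ 1)
    (h1 : A1 ≤ W * ((1 + 11 * τ) * (4 * (k ^ 3 / L) * ((2 - τ) * L) ^ 2 * J) +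
      D1 * ((k ^ 3 / L) ^ 2 * (1 / k ^ 2 * L) ^ 2 * ((2 - τ) * L))))
    (h2 : A2 ≤ W * (D2 * ((k ^ 3 / L) * (1 / k ^ 2 * L) ^ 2) +
      D3 * ((k ^ 3 / L) ^ 2 * (1 / k ^ 2 * L) ^ 3)))
    (h3 : A3 ≤ ((2 - τ) * L) * (W * (D4 * ((k ^ 3 / L) ^ 2 * (1 / k ^ 2 * L) ^ 2)))) :
    (2 / ((2 - τ) * L)) * ((1 + τ) * (1 / (4 * Real.pi)) *
      (R0 * (2 * (1 + τ) * L) ^ 2 * (2 * (k ^ 3 / L)) * W + A1) +
      (6 / τ) * R0 * ((1 / (4 * Real.pi)) * (A2 +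
        (2 * (1 + τ) * L) ^ 2 * ((2 - τ) * L) * G ^ 2 * W + A3) + ((2 - τ) * L) * 1 ^ 2 * W)) ≤
    W * (2 * k ^ 3 / Real.pi * ((1 + τ) ^ 3 * (2 / (2 - τ)) * R0 +
      (1 + τ) * (1 + 11 * τ) * (2 - τ) * J) +
      (D1 + R0 / τ * (D2 + D3 + D4 + 13)) * k ^ 2) := by
  have hpi := Real.pi_pos
  have hpi3 := Real.pi_gt_three
  have hL0 : 0 < L := by linarith
  have hk0 : 0 < k := by linarith
  have hβ : 0 < 2 - τ := by linarith
  have hβ1 : 1 ≤ 2 - τ := by linarith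
  -- powers
  have p1 : (k ^ 3 / L) ^ 2 * (1 / k ^ 2 * L) ^ 2 = k ^ 2 := by
    field_simp
  have p2 : (k ^ 3 / L) * (1 / k ^ 2 * L) ^ 2 ≤ L := by
    have e : (k ^ 3 / L) * (1 / k ^ 2 * L) ^ 2 = L / k := by
      field_simp
    rw [e]
    exact div_le_self hL0.le hk
  have p3 : (k ^ 3 / L) ^ 2 * (1 / k ^ 2 * L) ^ 3 = L := by
    field_simp
  rw [p1] at h1 h3
  rw [p3] at h2
  have hk2 : 1 ≤ k ^ 2 := one_le_pow₀ hk
  -- the terms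
  have t1 : (2 / ((2 - τ) * L)) * ((1 + τ) * (1 / (4 * Real.pi)) *
      (R0 * (2 * (1 + τ) * L) ^ 2 * (2 * (k ^ 3 / L)) * W)) =
      W * (2 * k ^ 3 / Real.pi * ((1 + τ) ^ 3 * (2 / (2 - τ)) * R0)) := by
    field_simp
    ring
  have t2 : (2 / ((2 - τ) * L)) * ((1 + τ) * (1 / (4 * Real.pi)) * A1) ≤
      W * (2 * k ^ 3 / Real.pi * ((1 + τ) * (1 + 11 * τ) * (2 - τ) * J) + D1 * k ^ 2) := by
    have g1 : (2 / ((2 - τ) * L)) * ((1 + τ) * (1 / (4 * Real.pi)) * A1) ≤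
        (2 / ((2 - τ) * L)) * ((1 + τ) * (1 / (4 * Real.pi)) *
          (W * ((1 + 11 * τ) * (4 * (k ^ 3 / L) * ((2 - τ) * L) ^ 2 * J) +
          D1 * (k ^ 2 * ((2 - τ) * L))))) := by
      gcongr
    refine g1.trans ?_
    have g2 : (2 / ((2 - τ) * L)) * ((1 + τ) * (1 / (4 * Real.pi)) *
          (W * ((1 + 11 * τ) * (4 * (k ^ 3 / L) * ((2 - τ) * L) ^ 2 * J) +
          D1 * (k ^ 2 * ((2 - τ) * L))))) =
        W * (2 * k ^ 3 / Real.pi * ((1 + τ) * (1 + 11 * τ) * (2 - τ) * J)) +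
        W * ((1 + τ) / (2 * Real.pi) * (D1 * k ^ 2)) := by
      field_simp
      ring
    rw [g2, ← mul_add]
    refine mul_le_mul_of_nonneg_left (add_le_add le_rfl ?_) hW
    have g3 : (1 + τ) / (2 * Real.pi) ≤ 1 := by
      rw [div_le_one (by positivity)]
      linarith
    have g4 : 0 ≤ D1 * k ^ 2 := by positivity
    calc (1 + τ) / (2 * Real.pi) * (D1 * k ^ 2) ≤ 1 * (D1 * k ^ 2) := by gcongr
      _ = _ := one_mul _
  have c3 : 3 / (Real.pi * τ) ≤ 1 / τ := by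
    rw [div_le_div_iff₀ (by positivity) hτ]
    nlinarith
  have t3 : (2 / ((2 - τ) * L)) * ((6 / τ) * R0 * ((1 / (4 * Real.pi)) * A2)) ≤
      W * (R0 / τ * (D2 + D3) * k ^ 2) := by
    have g1 : A2 ≤ W * ((D2 + D3) * L) := by
      refine h2.trans (mul_le_mul_of_nonneg_left ?_ hW)
      have := mul_le_mul_of_nonneg_left p2 hD2
      linarith
    have g2 : (2 / ((2 - τ) * L)) * ((6 / τ) * R0 * ((1 / (4 * Real.pi)) * A2)) ≤
        (2 / ((2 - τ) * L)) * ((6 / τ) * R0 * ((1 / (4 * Real.pi)) * (W * ((D2 + D3) * L)))) := by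
      gcongr
    refine g2.trans ?_
    have g3 : (2 / ((2 - τ) * L)) * ((6 / τ) * R0 * ((1 / (4 * Real.pi)) * (W * ((D2 + D3) * L)))) =
        W * ((3 / (Real.pi * τ)) * (R0 * (D2 + D3)) * (1 / (2 - τ))) := by
      field_simp
      ring
    rw [g3]
    refine mul_le_mul_of_nonneg_left ?_ hW
    have g4 : 1 / (2 - τ) ≤ k ^ 2 := by
      refine le_trans ?_ hk2
      rw [div_le_one hβ]
      exact hβ1
    calc (3 / (Real.pi * τ)) * (R0 * (D2 + D3)) * (1 / (2 - τ)) ≤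
          (1 / τ) * (R0 * (D2 + D3)) * k ^ 2 := by gcongr
      _ = _ := by ring
  have t4 : (2 / ((2 - τ) * L)) * ((6 / τ) * R0 * ((1 / (4 * Real.pi)) *
      ((2 * (1 + τ) * L) ^ 2 * ((2 - τ) * L) * G ^ 2 * W))) ≤ W * (R0 / τ * 1 * k ^ 2) := by
    have g3 : (2 / ((2 - τ) * L)) * ((6 / τ) * R0 * ((1 / (4 * Real.pi)) *
      ((2 * (1 + τ) * L) ^ 2 * ((2 - τ) * L) * G ^ 2 * W))) =
        W * ((3 / (Real.pi * τ)) * R0 * ((2 * (1 + τ) * L) ^ 2 * G ^ 2)) := by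
      field_simp
      ring
    rw [g3]
    refine mul_le_mul_of_nonneg_left ?_ hW
    calc (3 / (Real.pi * τ)) * R0 * ((2 * (1 + τ) * L) ^ 2 * G ^ 2) ≤ (1 / τ) * R0 * 1 := by
          gcongr
      _ ≤ (1 / τ) * R0 * k ^ 2 := by gcongr
      _ = _ := by ring
  have t5 : (2 / ((2 - τ) * L)) * ((6 / τ) * R0 * ((1 / (4 * Real.pi)) * A3)) ≤
      W * (R0 / τ * D4 * k ^ 2) := by
    have g2 : (2 / ((2 - τ) * L)) * ((6 / τ) * R0 * ((1 / (4 * Real.pi)) * A3)) ≤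
        (2 / ((2 - τ) * L)) * ((6 / τ) * R0 * ((1 / (4 * Real.pi)) *
          (((2 - τ) * L) * (W * (D4 * k ^ 2))))) := by
      gcongr
    refine g2.trans ?_
    have g3 : (2 / ((2 - τ) * L)) * ((6 / τ) * R0 * ((1 / (4 * Real.pi)) *
          (((2 - τ) * L) * (W * (D4 * k ^ 2))))) = W * ((3 / (Real.pi * τ)) * R0 * (D4 * k ^ 2)) := by
      field_simp
      ring
    rw [g3]
    refine mul_le_mul_of_nonneg_left ?_ hW
    calc (3 / (Real.pi * τ)) * R0 * (D4 * k ^ 2) ≤ (1 / τ) * R0 * (D4 * k ^ 2) := by gcongr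
      _ = _ := by ring
  have t6 : (2 / ((2 - τ) * L)) * ((6 / τ) * R0 * (((2 - τ) * L) * 1 ^ 2 * W)) ≤
      W * (R0 / τ * 12 * k ^ 2) := by
    have g3 : (2 / ((2 - τ) * L)) * ((6 / τ) * R0 * (((2 - τ) * L) * 1 ^ 2 * W)) =
        W * (R0 / τ * 12) := by
      field_simp
      ring
    rw [g3]
    refine mul_le_mul_of_nonneg_left ?_ hW
    have : 0 ≤ R0 / τ * 12 := by positivity
    calc R0 / τ * 12 = R0 / τ * 12 * 1 := by ring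
      _ ≤ _ := by gcongr
  calc _ = (2 / ((2 - τ) * L)) * ((1 + τ) * (1 / (4 * Real.pi)) *
      (R0 * (2 * (1 + τ) * L) ^ 2 * (2 * (k ^ 3 / L)) * W)) +
      (2 / ((2 - τ) * L)) * ((1 + τ) * (1 / (4 * Real.pi)) * A1) +
      (2 / ((2 - τ) * L)) * ((6 / τ) * R0 * ((1 / (4 * Real.pi)) * A2)) +
      (2 / ((2 - τ) * L)) * ((6 / τ) * R0 * ((1 / (4 * Real.pi)) *
      ((2 * (1 + τ) * L) ^ 2 * ((2 - τ) * L) * G ^ 2 * W))) +
      (2 / ((2 - τ) * L)) * ((6 / τ) * R0 * ((1 / (4 * Real.pi)) * A3)) +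
      (2 / ((2 - τ) * L)) * ((6 / τ) * R0 * (((2 - τ) * L) * 1 ^ 2 * W)) := by ring
    _ ≤ W * (2 * k ^ 3 / Real.pi * ((1 + τ) ^ 3 * (2 / (2 - τ)) * R0)) +
        W * (2 * k ^ 3 / Real.pi * ((1 + τ) * (1 + 11 * τ) * (2 - τ) * J) + D1 * k ^ 2) +
        W * (R0 / τ * (D2 + D3) * k ^ 2) + W * (R0 / τ * 1 * k ^ 2) + W * (R0 / τ * D4 * k ^ 2) +
        W * (R0 / τ * 12 * k ^ 2) := by
        rw [t1]
        gcongr
    _ = _ := by ring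

end Pool.Agent.KS6_85.LZ
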