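import Pool.Agent.KS6_85.LZ.Per

/-!
# The inequalities for one L-function, in terms of the sums over the primes
-/

set_option autoImplicit false
set_option maxHeartbeats 1000000

open Complex Filter Topology Set MeasureTheory
open scoped ComplexConjugate
open H370 (mult)
open H385 (zz Rw)
open H385.PerChi (zz_spec zz_refl zz_inj zz_re zz_im kk)

namespace Pool.Agent.KS6_85.LZ

/-! ### numbers of zeros in the window -/

/-- the zeros in the window -/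
def wz (F : ℂ → ℂ) (m h : ℝ) : Set ℂ :=
  {s : ℂ | 0 ≤ s.re ∧ s.re ≤ 1 ∧ |s.im - m| ≤ h ∧ F s = 0}

/-- number of zeros, with multiplicity -/
noncomputable def NI (F : ℂ → ℂ) (m h : ℝ) : ℕ := ∑ᶠ s ∈ wz F m h, mult F s

/-- number of simple zeros on the line -/
noncomputable def NS (F : ℂ → ℂ) (m h : ℝ) : ℕ :=
  {s : ℂ | s.re = 1 / 2 ∧ |s.im - m| ≤ h ∧ F s = 0 ∧ mult F s = 1}.ncard

/-- number of distinct zeros -/
noncomputable def ND (F : ℂ → ℂ) (m h : ℝ) : ℕ := (wz F m h).ncard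

section

variable {F : ℂ → ℂ} {V1 V2 m h : ℝ} (hfin : (zc F V1 V2).Finite) (h1 : V1 < m - h)
  (h2 : m + h ≤ V2)

include h1 h2 in
lemma wz_mem (s : ℂ) : s ∈ hfin.toFinset.filter (fun s => |s.im - m| ≤ h) ↔ s ∈ wz F m h := by
  rw [Finset.mem_filter, Set.Finite.mem_toFinset]
  constructor
  · rintro ⟨⟨s1, s2, s3, s4, s5⟩, s6⟩
    exact ⟨s1, s2, s6, s5⟩
  · rintro ⟨s1, s2, s3, s4⟩
    have h5 := abs_le.1 s3
    exact ⟨⟨s1, s2, by linarith [h5.1], by linarith [h5.2], s4⟩, s3⟩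

include h1 h2 in
lemma NI_eq : (NI F m h : ℝ) = ∑ s ∈ hfin.toFinset with |s.im - m| ≤ h, (mult F s : ℝ) := by
  unfold NI
  have hf : (wz F m h).Finite := (Finset.finite_toSet
    (hfin.toFinset.filter (fun s => |s.im - m| ≤ h))).subset fun s hs => by
      rw [Finset.mem_coe]
      exact (wz_mem hfin h1 h2 s).2 hs
  rw [finsum_mem_eq_finite_toFinset_sum _ hf]
  push_cast
  refine Finset.sum_congr ?_ fun _ _ => rfl
  ext s
  rw [Set.Finite.mem_toFinset, wz_mem hfin h1 h2]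

include h1 h2 in
lemma NS_eq : (NS F m h : ℝ) = ∑ s ∈ hfin.toFinset with |s.im - m| ≤ h,
    if (s.re = 1 / 2 ∧ mult F s = 1) then (1 : ℝ) else 0 := by
  classical
  unfold NS
  rw [← Finset.sum_filter, Finset.sum_const, nsmul_eq_mul, mul_one]
  congr 1
  rw [← Set.ncard_coe_finset]
  congr 1
  ext s
  rw [Finset.mem_coe, Finset.mem_filter, wz_mem hfin h1 h2]
  constructor
  · rintro ⟨s1, s2, s3, s4⟩
    exact ⟨⟨by rw [s1]; norm_num, by rw [s1]; norm_num, s2, s3⟩, s1, s4⟩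
  · rintro ⟨⟨s1, s2, s3, s4⟩, s5, s6⟩
    exact ⟨s5, s3, s4, s6⟩

include h1 h2 in
lemma ND_eq : (ND F m h : ℝ) = ∑ s ∈ hfin.toFinset with |s.im - m| ≤ h, (1 : ℝ) := by
  classical
  unfold ND
  rw [Finset.sum_const, nsmul_eq_mul, mul_one]
  congr 1
  rw [← Set.ncard_coe_finset]
  congr 1
  ext s
  rw [Finset.mem_coe, wz_mem hfin h1 h2]

end

/-! ### the square of the sum over the zeros -/

lemma sq_add (θ : ℝ) (hθ : 0 < θ) (x y : ℂ) :
    ‖x + y‖ ^ 2 ≤ (1 + θ) * ‖x‖ ^ 2 + (1 + 1 / θ) * ‖y‖ ^ 2 := by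
  have h1 : ‖x + y‖ ^ 2 ≤ (‖x‖ + ‖y‖) ^ 2 := pow_le_pow_left₀ (norm_nonneg _) (norm_add_le x y) 2
  have h2 : (1 + θ) * ‖x‖ ^ 2 + (1 + 1 / θ) * ‖y‖ ^ 2 - (‖x‖ + ‖y‖) ^ 2 =
      (θ * ‖x‖ - ‖y‖) ^ 2 / θ := by
    field_simp
    ring
  have h3 : 0 ≤ (θ * ‖x‖ - ‖y‖) ^ 2 / θ := by positivity
  linarith

lemma sq_three (x y z : ℂ) : ‖x + y + z‖ ^ 2 ≤ 3 * (‖x‖ ^ 2 + ‖y‖ ^ 2 + ‖z‖ ^ 2) := by
  have h1 : ‖x + y + z‖ ^ 2 ≤ (‖x‖ + ‖y‖ + ‖z‖) ^ 2 :=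
    pow_le_pow_left₀ (norm_nonneg _) (norm_add₃_le) 2
  nlinarith [sq_nonneg (‖x‖ - ‖y‖), sq_nonneg (‖y‖ - ‖z‖), sq_nonneg (‖x‖ - ‖z‖)]

/-- the decomposition -/
lemma sq_split {θ : ℝ} (h0 : 0 < θ) (h1 : θ ≤ 1) (a : ℝ) (X Q P Er : ℂ) (S : ℂ)
    (hS : S = (a : ℂ) * (X - Q - P) + Er) :
    ‖S‖ ^ 2 ≤ (1 + θ) * (a ^ 2 * ‖X‖ ^ 2) +
      (6 / θ) * (a ^ 2 * ‖Q‖ ^ 2 + a ^ 2 * ‖P‖ ^ 2 + ‖Er‖ ^ 2) := by
  have e : S = (a : ℂ) * X + (-(a : ℂ) * Q + -(a : ℂ) * P + Er) := by rw [hS]; ring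
  have h2 := sq_add θ h0 ((a : ℂ) * X) (-(a : ℂ) * Q + -(a : ℂ) * P + Er)
  have h3 := sq_three (-(a : ℂ) * Q) (-(a : ℂ) * P) Er
  rw [← e] at h2
  simp only [norm_mul, norm_neg, Complex.norm_real, Real.norm_eq_abs, mul_pow, sq_abs] at h2 h3
  have h4 : (1 + 1 / θ) * 3 ≤ 6 / θ := by
    rw [le_div_iff₀ h0]
    field_simp
    linarith
  have h5 : 0 ≤ a ^ 2 * ‖Q‖ ^ 2 + a ^ 2 * ‖P‖ ^ 2 + ‖Er‖ ^ 2 := by positivity
  calc ‖S‖ ^ 2 ≤ _ := h2
    _ ≤ (1 + θ) * (a ^ 2 * ‖X‖ ^ 2) +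
      (1 + 1 / θ) * (3 * (a ^ 2 * ‖Q‖ ^ 2 + a ^ 2 * ‖P‖ ^ 2 + ‖Er‖ ^ 2)) := by gcongr
    _ = (1 + θ) * (a ^ 2 * ‖X‖ ^ 2) +
      ((1 + 1 / θ) * 3) * (a ^ 2 * ‖Q‖ ^ 2 + a ^ 2 * ‖P‖ ^ 2 + ‖Er‖ ^ 2) := by ring
    _ ≤ _ := by gcongr

/-- the far bound of the window transform -/
noncomputable def G2 (h c : ℝ) : ℝ :=
  h / Real.pi * (Real.sqrt (8 * Real.pi) * Real.exp (-c ^ 2 / 8))

lemma G2_nonneg {h : ℝ} (hh : 0 ≤ h) (c : ℝ) : 0 ≤ G2 h c := by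
  have := Real.pi_pos
  unfold G2
  positivity

lemma Gg_G2 (M : ℕ) {h c : ℝ} (hh : 0 ≤ h) (hc : 0 ≤ c) {u : ℝ} (hu : 2 * c ≤ u) :
    Gg M h c u ^ 2 ≤ G2 h c ^ 2 := by
  have hpi := Real.pi_pos
  rw [← sq_abs]
  refine pow_le_pow_left₀ (abs_nonneg _) ((Gg_far M hh hc (by linarith : c ≤ u)).trans ?_) 2
  unfold G2
  have : Real.exp (-(u - c) ^ 2 / 8) ≤ Real.exp (-c ^ 2 / 8) := by
    apply Real.exp_le_exp.2
    have : c ^ 2 ≤ (u - c) ^ 2 := pow_le_pow_left₀ hc (by linarith) 2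
    linarith
  gcongr

lemma QF_cont {A : ℝ} {a : ℕ → ℂ} (ha : W388.CoefE A a) (M : ℕ) (h c m : ℝ) :
    Continuous (fun w : ℝ => QF a M h c m w) := by
  have h1 := gh_cont M h c
  have h2 := PP1_cont ha m
  unfold QF
  refine intervalIntegral.continuous_parametric_intervalIntegral_of_continuous' ?_ _ _
  have h3 : Continuous fun p : ℝ × ℝ => H385.PP1 a (p.1 + p.2) m := h2.comp (by fun_prop)
  have h4 : Continuous fun p : ℝ × ℝ => ((gh M h c p.2 : ℝ) : ℂ) * cexp (-(I * m * p.2)) := by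
    fun_prop
  exact h4.mul h3

lemma SX_cont {F : ℂ → ℂ} {V1 V2 : ℝ} (hfin : (zc F V1 V2).Finite) (M : ℕ) (h c m : ℝ) :
    Continuous (fun u : ℝ => SX F V1 V2 M h c m u) := by
  simp_rw [SX_sum F hfin]
  fun_prop

/-- **the bound for the quadratic form** -/
theorem per_S (γ : ℝ) (hγ0 : 0 < γ) (hγπ : γ < Real.pi)
    {A ℒ E H q0 : ℝ} {F : ℂ → ℂ} {a : ℕ → ℂ} (hF : GoodX A ℒ E H q0 F a)
    {V1 V2 m h c Λ θ qm E0 : ℝ} (M : ℕ) (hh : 0 < h) (hc : 0 < c) (hcΛ : 2 * c ≤ Λ)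
    (hθ0 : 0 < θ) (hθ1 : θ ≤ 1) (hqm : q0 ≤ qm) (hE0 : 0 ≤ E0)
    (hfor : ∀ u : ℝ, 0 ≤ u → u ≤ Λ → ‖SX F V1 V2 M h c m u - (1 / (2 * Real.sqrt Real.pi) : ℝ) *
          (((q0 : ℝ) : ℂ) * cexp (I * m * u) * (Gg M h c u : ℝ) -
          QF a M h c m u - conj (QF a M h c m (-u)))‖ ≤ E0) :
    (2 / Λ) * ∫ u in (0 : ℝ)..Λ, Rw γ (u / Λ) * ‖SX F V1 V2 M h c m u‖ ^ 2 ≤
      (2 / Λ) * ((1 + θ) * (1 / (4 * Real.pi)) * (Rw γ 0 * qm ^ 2 * (2 * h) +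
        ∫ u in (0 : ℝ)..Λ, Rw γ (u / Λ) * ‖QF a M h c m u‖ ^ 2) +
        (6 / θ) * Rw γ 0 * ((1 / (4 * Real.pi)) * ((∫ u in (0 : ℝ)..(2 * c), ‖QF a M h c m u‖ ^ 2) +
          qm ^ 2 * Λ * G2 h c ^ 2 + ∫ u in (0 : ℝ)..Λ, ‖QF a M h c m (-u)‖ ^ 2) + Λ * E0 ^ 2)) := by
  have hpi := Real.pi_pos
  have hΛ : 0 < Λ := by linarith
  have hfin := zfin hF V1 V2
  have ha := hF.coef
  have hq0 := hF.hq0
  have hRc : Continuous (Rw γ) := H385.PerChi.Rw_cont γ hγ0 hγπ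
  have hRn := H385.Rw_nonneg γ hγ0 hγπ
  have hR0 : ∀ u : ℝ, 0 ≤ u → Rw γ (u / Λ) ≤ Rw γ 0 := fun u hu =>
    H385.Rw_antitone γ hγ0 hγπ (Set.mem_Ici.2 le_rfl) (Set.mem_Ici.2 (by positivity))
      (by positivity)
  have hR00 := hRn 0
  obtain ⟨α, hα⟩ : ∃ α : ℝ, α = 1 / (2 * Real.sqrt Real.pi) := ⟨_, rfl⟩
  have hα2 : α ^ 2 = 1 / (4 * Real.pi) := by
    rw [hα, div_pow, mul_pow, Real.sq_sqrt hpi.le]
    norm_num
  rw [← hα2]
  rw [← hα] at hfor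
  have c1 : Continuous fun u : ℝ => Rw γ (u / Λ) := hRc.comp (continuous_id.div_const Λ)
  have c2 := SX_cont hfin M h c m
  have c3 := QF_cont ha M h c m
  have c4 : Continuous fun u : ℝ => QF a M h c m (-u) := c3.comp continuous_neg
  have c5 := Gg_cont M h c
  -- the pointwise bounds
  obtain ⟨Q, hQ⟩ : ∃ Q : ℝ → ℝ, Q = fun u => ‖QF a M h c m u‖ ^ 2 := ⟨_, rfl⟩
  obtain ⟨P, hP⟩ : ∃ P : ℝ → ℝ, P = fun u => ‖QF a M h c m (-u)‖ ^ 2 := ⟨_, rfl⟩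
  have hQc : Continuous Q := by rw [hQ]; fun_prop
  have hPc : Continuous P := by rw [hP]; fun_prop
  have hQ0 : ∀ u, 0 ≤ Q u := fun u => by rw [hQ]; positivity
  have hP0 : ∀ u, 0 ≤ P u := fun u => by rw [hP]; positivity
  have hX : ∀ u : ℝ, ‖((q0 : ℝ) : ℂ) * cexp (I * m * u) * (Gg M h c u : ℝ)‖ ^ 2 ≤
      qm ^ 2 * Gg M h c u ^ 2 := by
    intro u
    have h4 : ‖cexp (I * m * u)‖ = 1 := by
      rw [show I * m * u = ((m * u : ℝ) : ℂ) * I by push_cast; ring, Complex.norm_exp_ofReal_mul_I]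
    rw [norm_mul, norm_mul, h4, mul_one, Complex.norm_real, Complex.norm_real, Real.norm_eq_abs,
      Real.norm_eq_abs, mul_pow, sq_abs, sq_abs]
    exact mul_le_mul_of_nonneg_right (pow_le_pow_left₀ hq0 hqm 2) (sq_nonneg _)
  have hdec : ∀ u : ℝ, SX F V1 V2 M h c m u = (α : ℂ) *
      (((q0 : ℝ) : ℂ) * cexp (I * m * u) * (Gg M h c u : ℝ) -
          QF a M h c m u - conj (QF a M h c m (-u))) +
      (SX F V1 V2 M h c m u - (α : ℂ) *
      (((q0 : ℝ) : ℂ) * cexp (I * m * u) * (Gg M h c u : ℝ) -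
          QF a M h c m u - conj (QF a M h c m (-u)))) := fun u => by ring
  have b1 : ∀ u : ℝ, 0 ≤ u → u ≤ Λ → ‖SX F V1 V2 M h c m u‖ ^ 2 ≤
      (1 + θ) * (α ^ 2 * (qm ^ 2 * Gg M h c u ^ 2)) +
        (6 / θ) * (α ^ 2 * Q u + α ^ 2 * P u + E0 ^ 2) := by
    intro u hu0 huΛ
    refine (sq_split hθ0 hθ1 α _ _ _ _ _ (hdec u)).trans ?_
    have h5 := hX u
    have h6 := hfor u hu0 huΛ
    rw [RCLike.norm_conj]
    have h7 : Q u = ‖QF a M h c m u‖ ^ 2 := by rw [hQ]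
    have h8 : P u = ‖QF a M h c m (-u)‖ ^ 2 := by rw [hP]
    rw [← h7, ← h8]
    gcongr
  have b2 : ∀ u : ℝ, 2 * c ≤ u → u ≤ Λ → ‖SX F V1 V2 M h c m u‖ ^ 2 ≤
      (1 + θ) * (α ^ 2 * Q u) +
        (6 / θ) * (α ^ 2 * (qm ^ 2 * G2 h c ^ 2) + α ^ 2 * P u + E0 ^ 2) := by
    intro u hu0 huΛ
    have e : SX F V1 V2 M h c m u = ((-α : ℝ) : ℂ) *
      (QF a M h c m u - (((q0 : ℝ) : ℂ) * cexp (I * m * u) * (Gg M h c u : ℝ)) -
        (-conj (QF a M h c m (-u)))) +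
      (SX F V1 V2 M h c m u - (α : ℂ) *
      (((q0 : ℝ) : ℂ) * cexp (I * m * u) * (Gg M h c u : ℝ) -
          QF a M h c m u - conj (QF a M h c m (-u)))) := by
      push_cast
      ring
    refine (sq_split hθ0 hθ1 (-α) _ _ _ _ _ e).trans ?_
    have h5 := hX u
    have h6 := hfor u (by linarith) huΛ
    have h9 := Gg_G2 M hh.le hc.le hu0
    rw [norm_neg, RCLike.norm_conj, neg_sq]
    have h7 : Q u = ‖QF a M h c m u‖ ^ 2 := by rw [hQ]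
    have h8 : P u = ‖QF a M h c m (-u)‖ ^ 2 := by rw [hP]
    rw [← h7, ← h8]
    have h10 : ‖((q0 : ℝ) : ℂ) * cexp (I * m * u) * (Gg M h c u : ℝ)‖ ^ 2 ≤
        qm ^ 2 * G2 h c ^ 2 := h5.trans (mul_le_mul_of_nonneg_left h9 (sq_nonneg _))
    gcongr
  -- the integrals
  refine mul_le_mul_of_nonneg_left ?_ (by positivity)
  have cS : Continuous fun u : ℝ => Rw γ (u / Λ) * ‖SX F V1 V2 M h c m u‖ ^ 2 := by fun_prop
  rw [← intervalIntegral.integral_add_adjacent_intervals (b := 2 * c) (cS.intervalIntegrable _ _)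
    (cS.intervalIntegrable _ _)]
  have i1 : ∫ u in (0 : ℝ)..(2 * c), Rw γ (u / Λ) * ‖SX F V1 V2 M h c m u‖ ^ 2 ≤
      Rw γ 0 * ((1 + θ) * α ^ 2 * qm ^ 2) * (2 * h) + (6 / θ) * Rw γ 0 *
        (α ^ 2 * (∫ u in (0 : ℝ)..(2 * c), Q u) + α ^ 2 * (∫ u in (0 : ℝ)..(2 * c), P u) +
          2 * c * E0 ^ 2) := by
    calc _ ≤ ∫ u in (0 : ℝ)..(2 * c), (Rw γ 0 * ((1 + θ) * α ^ 2 * qm ^ 2) * Gg M h c u ^ 2 +
          (6 / θ) * Rw γ 0 * (α ^ 2 * Q u + α ^ 2 * P u + E0 ^ 2)) := by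
          refine intervalIntegral.integral_mono_on (by linarith) (cS.intervalIntegrable _ _)
            (Continuous.intervalIntegrable (by fun_prop) _ _) fun u hu => ?_
          have h5 := b1 u hu.1 (by linarith [hu.2])
          have h6 := hR0 u hu.1
          have h7 := hRn (u / Λ)
          have h8 := hQ0 u
          have h9 := hP0 u
          calc Rw γ (u / Λ) * ‖SX F V1 V2 M h c m u‖ ^ 2 ≤ Rw γ 0 *
                ((1 + θ) * (α ^ 2 * (qm ^ 2 * Gg M h c u ^ 2)) +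
                (6 / θ) * (α ^ 2 * Q u + α ^ 2 * P u + E0 ^ 2)) :=
                mul_le_mul h6 h5 (sq_nonneg _) hR00
            _ = _ := by ring
      _ = Rw γ 0 * ((1 + θ) * α ^ 2 * qm ^ 2) * (∫ u in (0 : ℝ)..(2 * c), Gg M h c u ^ 2) +
          (6 / θ) * Rw γ 0 *
        (α ^ 2 * (∫ u in (0 : ℝ)..(2 * c), Q u) + α ^ 2 * (∫ u in (0 : ℝ)..(2 * c), P u) +
          2 * c * E0 ^ 2) := by
          rw [intervalIntegral.integral_add (Continuous.intervalIntegrable (by fun_prop) _ _)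
            (Continuous.intervalIntegrable (by fun_prop) _ _),
            intervalIntegral.integral_const_mul, intervalIntegral.integral_const_mul,
            intervalIntegral.integral_add (Continuous.intervalIntegrable (by fun_prop) _ _)
            (Continuous.intervalIntegrable (by fun_prop) _ _),
            intervalIntegral.integral_add (Continuous.intervalIntegrable (by fun_prop) _ _)
            (Continuous.intervalIntegrable (by fun_prop) _ _),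
            intervalIntegral.integral_const_mul, intervalIntegral.integral_const_mul,
            intervalIntegral.integral_const, smul_eq_mul, sub_zero]
      _ ≤ _ := by
          have h5 := Gg_l2 M hh hc (show 0 ≤ 2 * c by linarith)
          gcongr
  have i2 : ∫ u in (2 * c)..Λ, Rw γ (u / Λ) * ‖SX F V1 V2 M h c m u‖ ^ 2 ≤
      (1 + θ) * α ^ 2 * (∫ u in (2 * c)..Λ, Rw γ (u / Λ) * Q u) + (6 / θ) * Rw γ 0 *
        (α ^ 2 * (qm ^ 2 * G2 h c ^ 2 * (Λ - 2 * c)) + α ^ 2 * (∫ u in (2 * c)..Λ, P u) +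
          (Λ - 2 * c) * E0 ^ 2) := by
    calc _ ≤ ∫ u in (2 * c)..Λ, ((1 + θ) * α ^ 2 * (Rw γ (u / Λ) * Q u) +
          (6 / θ) * Rw γ 0 * (α ^ 2 * (qm ^ 2 * G2 h c ^ 2) + α ^ 2 * P u + E0 ^ 2)) := by
          refine intervalIntegral.integral_mono_on (by linarith) (cS.intervalIntegrable _ _)
            (Continuous.intervalIntegrable (by fun_prop) _ _) fun u hu => ?_
          have h5 := b2 u hu.1 hu.2
          have h6 := hR0 u (by linarith [hu.1])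
          have h7 := hRn (u / Λ)
          have h8 := hQ0 u
          have h9 := hP0 u
          have h10 : 0 ≤ (6 / θ) * (α ^ 2 * (qm ^ 2 * G2 h c ^ 2) + α ^ 2 * P u + E0 ^ 2) := by
            positivity
          calc Rw γ (u / Λ) * ‖SX F V1 V2 M h c m u‖ ^ 2 ≤ Rw γ (u / Λ) *
                ((1 + θ) * (α ^ 2 * Q u) +
                (6 / θ) * (α ^ 2 * (qm ^ 2 * G2 h c ^ 2) + α ^ 2 * P u + E0 ^ 2)) :=
                mul_le_mul_of_nonneg_left h5 h7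
            _ = (1 + θ) * α ^ 2 * (Rw γ (u / Λ) * Q u) + Rw γ (u / Λ) *
                ((6 / θ) * (α ^ 2 * (qm ^ 2 * G2 h c ^ 2) + α ^ 2 * P u + E0 ^ 2)) := by ring
            _ ≤ (1 + θ) * α ^ 2 * (Rw γ (u / Λ) * Q u) + Rw γ 0 *
                ((6 / θ) * (α ^ 2 * (qm ^ 2 * G2 h c ^ 2) + α ^ 2 * P u + E0 ^ 2)) := by gcongr
            _ = _ := by ring
      _ = _ := by
          rw [intervalIntegral.integral_add (Continuous.intervalIntegrable (by fun_prop) _ _)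
            (Continuous.intervalIntegrable (by fun_prop) _ _),
            intervalIntegral.integral_const_mul, intervalIntegral.integral_const_mul,
            intervalIntegral.integral_add (Continuous.intervalIntegrable (by fun_prop) _ _)
            (Continuous.intervalIntegrable (by fun_prop) _ _),
            intervalIntegral.integral_add (Continuous.intervalIntegrable (by fun_prop) _ _)
            (Continuous.intervalIntegrable (by fun_prop) _ _),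
            intervalIntegral.integral_const_mul (α ^ 2) P, intervalIntegral.integral_const,
            intervalIntegral.integral_const, smul_eq_mul, smul_eq_mul]
          ring
  have i3 : ∫ u in (2 * c)..Λ, Rw γ (u / Λ) * Q u ≤ ∫ u in (0 : ℝ)..Λ, Rw γ (u / Λ) * Q u := by
    refine intervalIntegral.integral_mono_interval (by linarith) hcΛ le_rfl
      (Filter.Eventually.of_forall fun u => mul_nonneg (hRn _) (hQ0 u))
      (Continuous.intervalIntegrable (by fun_prop) _ _)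
  have i4 : (∫ u in (0 : ℝ)..(2 * c), P u) + ∫ u in (2 * c)..Λ, P u = ∫ u in (0 : ℝ)..Λ, P u :=
    intervalIntegral.integral_add_adjacent_intervals (hPc.intervalIntegrable _ _)
      (hPc.intervalIntegrable _ _)
  have e1 : ∫ u in (0 : ℝ)..Λ, Rw γ (u / Λ) * ‖QF a M h c m u‖ ^ 2 =
      ∫ u in (0 : ℝ)..Λ, Rw γ (u / Λ) * Q u := by rw [hQ]
  have e2 : ∫ u in (0 : ℝ)..(2 * c), ‖QF a M h c m u‖ ^ 2 = ∫ u in (0 : ℝ)..(2 * c), Q u := by
    rw [hQ]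
  have e3 : ∫ u in (0 : ℝ)..Λ, ‖QF a M h c m (-u)‖ ^ 2 = ∫ u in (0 : ℝ)..Λ, P u := by rw [hP]
  rw [e1, e2, e3, ← i4]
  have h6 : (1 + θ) * α ^ 2 * (∫ u in (2 * c)..Λ, Rw γ (u / Λ) * Q u) ≤
      (1 + θ) * α ^ 2 * (∫ u in (0 : ℝ)..Λ, Rw γ (u / Λ) * Q u) :=
    mul_le_mul_of_nonneg_left i3 (by positivity)
  have h7 : (6 / θ) * Rw γ 0 * (α ^ 2 * (qm ^ 2 * G2 h c ^ 2 * (Λ - 2 * c))) ≤
      (6 / θ) * Rw γ 0 * (α ^ 2 * (qm ^ 2 * Λ * G2 h c ^ 2)) := by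
    refine mul_le_mul_of_nonneg_left (mul_le_mul_of_nonneg_left ?_ (by positivity)) (by positivity)
    have : 0 ≤ qm ^ 2 * G2 h c ^ 2 := by positivity
    nlinarith
  linarith

/-- **the value at the origin** -/
theorem per_zero {A ℒ E H q0 : ℝ} {F : ℂ → ℂ} {a : ℕ → ℂ} (_hF : GoodX A ℒ E H q0 F a)
    {V1 V2 m h c E0 : ℝ} (M : ℕ)
    (hfor : ‖SX F V1 V2 M h c m 0 - (1 / (2 * Real.sqrt Real.pi) : ℝ) *
          (((q0 : ℝ) : ℂ) * cexp (I * m * (0 : ℝ)) * (Gg M h c 0 : ℝ) -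
          QF a M h c m 0 - conj (QF a M h c m (-0)))‖ ≤ E0) :
    |(SX F V1 V2 M h c m 0).re - q0 * Gg M h c 0 / (2 * Real.sqrt Real.pi)| ≤
      ‖QF a M h c m 0‖ + E0 := by
  have hpi := Real.pi_pos
  have hsp : 1 ≤ Real.sqrt Real.pi := by
    rw [Real.one_le_sqrt]
    linarith [Real.pi_gt_three]
  rw [neg_zero, ofReal_zero, mul_zero, Complex.exp_zero, mul_one] at hfor
  obtain ⟨Er, hEr⟩ : ∃ Er : ℂ, Er = SX F V1 V2 M h c m 0 - (1 / (2 * Real.sqrt Real.pi) : ℝ) *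
          (((q0 : ℝ) : ℂ) * (Gg M h c 0 : ℝ) - QF a M h c m 0 - conj (QF a M h c m 0)) := ⟨_, rfl⟩
  rw [← hEr] at hfor
  have h1 : (SX F V1 V2 M h c m 0).re = (1 / (2 * Real.sqrt Real.pi)) *
      (q0 * Gg M h c 0 - 2 * (QF a M h c m 0).re) + Er.re := by
    have h2 : SX F V1 V2 M h c m 0 = ((1 / (2 * Real.sqrt Real.pi) : ℝ) : ℂ) *
          (((q0 : ℝ) : ℂ) * (Gg M h c 0 : ℝ) - QF a M h c m 0 - conj (QF a M h c m 0)) + Er := by
      rw [hEr]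
      ring
    rw [h2, Complex.add_re, Complex.re_ofReal_mul, Complex.sub_re, Complex.sub_re,
      ← Complex.ofReal_mul, Complex.ofReal_re, Complex.conj_re]
    ring
  rw [h1]
  have e : (1 / (2 * Real.sqrt Real.pi)) * (q0 * Gg M h c 0 - 2 * (QF a M h c m 0).re) + Er.re -
      q0 * Gg M h c 0 / (2 * Real.sqrt Real.pi) =
      -((QF a M h c m 0).re / Real.sqrt Real.pi) + Er.re := by
    field_simp
    ring
  rw [e]
  refine (abs_add_le _ _).trans (add_le_add ?_ ((Complex.abs_re_le_norm _).trans hfor))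
  rw [abs_neg, abs_div, abs_of_pos (by linarith : 0 < Real.sqrt Real.pi)]
  rw [div_le_iff₀ (by linarith)]
  have h3 := Complex.abs_re_le_norm (QF a M h c m 0)
  have h4 := norm_nonneg (QF a M h c m 0)
  nlinarith

end Pool.Agent.KS6_85.LZ
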