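import Pool.Agent.KS6_85.LZ.MS
import Pool.Agent.KS6_85.LZ.Per2
import Pool.Agent.KS6_85.LZ.Dens

/-!
# The averages over the family
-/

set_option autoImplicit false
set_option maxHeartbeats 1000000

open Complex Filter Topology Set MeasureTheory
open H385 (primFamM WM Rw)
open W388 (SWu Wu SelE CoefE)

namespace Pool.Agent.KS6_85.LZ

/-- exchange of the family sum and an integral -/
lemma pf_int (N X Y : ℕ) (f : (q : ℕ) → DirichletCharacter ℂ q → ℝ → ℝ) (a b : ℝ)
    (hf : ∀ q χ, IntervalIntegrable (f q χ) volume a b) :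
    primFamM N X Y (fun q χ => ∫ u in a..b, f q χ u) =
      ∫ u in a..b, primFamM N X Y (fun q χ => f q χ u) := by
  simp_rw [H385.primFamM_eq]
  rw [intervalIntegral.integral_finsetSum]
  · refine Finset.sum_congr rfl fun p _ => ?_
    rw [intervalIntegral.integral_const_mul]
  · intro p _
    exact (hf p.1 p.2).const_mul _

lemma pf_cont (N X Y : ℕ) (f : (q : ℕ) → DirichletCharacter ℂ q → ℝ → ℝ)
    (hf : ∀ q χ, Continuous (f q χ)) :
    Continuous (fun u => primFamM N X Y (fun q χ => f q χ u)) := by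
  simp_rw [H385.primFamM_eq]
  refine continuous_finsetSum _ fun p _ => ?_
  exact continuous_const.mul (hf p.1 p.2)

/-- the weighted integral of the mean square -/
theorem wt_int {cf : ℕ → ℂ} {Cs : ℝ} (hs : SmD cf Cs) {ρ q2 : ℝ → ℝ} (hρ : Continuous ρ)
    (hρ0 : ∀ u, 0 ≤ ρ u) (hq2 : Continuous q2) {W C ε1 h c U A1 B1 : ℝ} (hW : 0 ≤ W) (hC : 0 ≤ C)
    (hε1 : 0 ≤ ε1) (M : ℕ) (hh : 0 < h) (hc : 0 < c) (hU : 0 ≤ U)
    (hq : ∀ u, 0 ≤ u → u ≤ U → q2 u ≤ W *
          ((1 + 11 * ε1) * (2 * Real.sqrt Real.pi *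
            ∫ v in (-c)..c, gh M h c v ^ 2 * SWu cf (1 / 4) (u + v)) +
          C * (h ^ 2 * (c * ∫ v in (-c)..c, (Wu cf (u + v) + 1)))))
    (hA0 : 0 ≤ A1)
    (hA : ∀ v, |v| ≤ c → ∫ u in (0 : ℝ)..U, ρ u * SWu cf (1 / 4) (u + v) ≤ A1)
    (hB : ∀ v, |v| ≤ c → ∫ u in (0 : ℝ)..U, ρ u * (Wu cf (u + v) + 1) ≤ B1) :
    ∫ u in (0 : ℝ)..U, ρ u * q2 u ≤ W * ((1 + 11 * ε1) *
      (2 * Real.sqrt Real.pi * (h / Real.pi * A1)) + C * (h ^ 2 * (c * (2 * c * B1)))) := by
  have hpi := Real.pi_pos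
  have cg := gh_cont M h c
  have cs := hs.sc
  have cw := hs.wc
  have c1 : Continuous fun p : ℝ × ℝ => gh M h c p.2 ^ 2 * SWu cf (1 / 4) (p.1 + p.2) := by fun_prop
  have c2 : Continuous fun p : ℝ × ℝ => Wu cf (p.1 + p.2) + 1 := by fun_prop
  have i1 : Continuous fun u : ℝ => ∫ v in (-c)..c, gh M h c v ^ 2 * SWu cf (1 / 4) (u + v) :=
    intervalIntegral.continuous_parametric_intervalIntegral_of_continuous' c1 _ _
  have i2 : Continuous fun u : ℝ => ∫ v in (-c)..c, (Wu cf (u + v) + 1) :=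
    intervalIntegral.continuous_parametric_intervalIntegral_of_continuous' c2 _ _
  have h1 : ∫ u in (0 : ℝ)..U, ρ u * q2 u ≤ ∫ u in (0 : ℝ)..U, (W * (1 + 11 * ε1) *
        (2 * Real.sqrt Real.pi)) * (ρ u * ∫ v in (-c)..c, gh M h c v ^ 2 * SWu cf (1 / 4) (u + v)) +
        (W * C * h ^ 2 * c) * (ρ u * ∫ v in (-c)..c, (Wu cf (u + v) + 1)) := by
    refine intervalIntegral.integral_mono_on hU ((hρ.mul hq2).intervalIntegrable _ _)
      (Continuous.intervalIntegrable (by fun_prop) _ _) fun u hu => ?_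
    refine (mul_le_mul_of_nonneg_left (hq u hu.1 hu.2) (hρ0 u)).trans (le_of_eq ?_)
    ring
  have h2 : ∫ u in (0 : ℝ)..U, ρ u * ∫ v in (-c)..c, gh M h c v ^ 2 * SWu cf (1 / 4) (u + v) =
      ∫ v in (-c)..c, gh M h c v ^ 2 * ∫ u in (0 : ℝ)..U, ρ u * SWu cf (1 / 4) (u + v) := by
    have e1 : ∫ u in (0 : ℝ)..U, ρ u * ∫ v in (-c)..c, gh M h c v ^ 2 * SWu cf (1 / 4) (u + v) =
        ∫ u in (0 : ℝ)..U, ∫ v in (-c)..c, gh M h c v ^ 2 * (ρ u * SWu cf (1 / 4) (u + v)) := by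
      refine intervalIntegral.integral_congr fun u _ => ?_
      show ρ u * _ = _
      rw [← intervalIntegral.integral_const_mul]
      refine intervalIntegral.integral_congr fun v _ => ?_
      show ρ u * (gh M h c v ^ 2 * SWu cf (1 / 4) (u + v)) = gh M h c v ^ 2 * (ρ u * SWu cf (1 / 4) (u + v))
      ring
    rw [e1, swap_cont (F := fun u v => gh M h c v ^ 2 * (ρ u * SWu cf (1 / 4) (u + v)))
      (by unfold Function.uncurry; fun_prop)]
    refine intervalIntegral.integral_congr fun v _ => ?_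
    show _ = gh M h c v ^ 2 * _
    rw [← intervalIntegral.integral_const_mul]
  have h3 : ∫ u in (0 : ℝ)..U, ρ u * ∫ v in (-c)..c, (Wu cf (u + v) + 1) =
      ∫ v in (-c)..c, ∫ u in (0 : ℝ)..U, ρ u * (Wu cf (u + v) + 1) := by
    have e1 : ∫ u in (0 : ℝ)..U, ρ u * ∫ v in (-c)..c, (Wu cf (u + v) + 1) =
        ∫ u in (0 : ℝ)..U, ∫ v in (-c)..c, ρ u * (Wu cf (u + v) + 1) := by
      refine intervalIntegral.integral_congr fun u _ => ?_
      show ρ u * _ = _
      rw [← intervalIntegral.integral_const_mul]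
    rw [e1, swap_cont (F := fun u v => ρ u * (Wu cf (u + v) + 1))
      (by unfold Function.uncurry; fun_prop)]
  have c3 : Continuous fun p : ℝ × ℝ => ρ p.2 * SWu cf (1 / 4) (p.2 + p.1) := by fun_prop
  have c4 : Continuous fun p : ℝ × ℝ => ρ p.2 * (Wu cf (p.2 + p.1) + 1) := by fun_prop
  have i3 : Continuous fun v : ℝ => ∫ u in (0 : ℝ)..U, ρ u * SWu cf (1 / 4) (u + v) :=
    intervalIntegral.continuous_parametric_intervalIntegral_of_continuous' c3 _ _
  have i4 : Continuous fun v : ℝ => ∫ u in (0 : ℝ)..U, ρ u * (Wu cf (u + v) + 1) :=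
    intervalIntegral.continuous_parametric_intervalIntegral_of_continuous' c4 _ _
  have h4 : ∫ v in (-c)..c, gh M h c v ^ 2 * ∫ u in (0 : ℝ)..U, ρ u * SWu cf (1 / 4) (u + v) ≤
      h / Real.pi * A1 := by
    calc _ ≤ ∫ v in (-c)..c, gh M h c v ^ 2 * A1 := by
          refine intervalIntegral.integral_mono_on (by linarith)
            (Continuous.intervalIntegrable (by fun_prop) _ _)
            (Continuous.intervalIntegrable (by fun_prop) _ _) fun v hv => ?_
          exact mul_le_mul_of_nonneg_left (hA v (abs_le.2 ⟨hv.1, hv.2⟩)) (sq_nonneg _)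
      _ = (∫ v in (-c)..c, gh M h c v ^ 2) * A1 := intervalIntegral.integral_mul_const _ _
      _ ≤ _ := mul_le_mul_of_nonneg_right (gh_sq_le M hh hc.le) hA0
  have h5 : ∫ v in (-c)..c, ∫ u in (0 : ℝ)..U, ρ u * (Wu cf (u + v) + 1) ≤ 2 * c * B1 := by
    calc _ ≤ ∫ _v in (-c)..c, B1 := by
          refine intervalIntegral.integral_mono_on (by linarith)
            (i4.intervalIntegrable _ _) (by simp) fun v hv => ?_
          exact hB v (abs_le.2 ⟨hv.1, hv.2⟩)
      _ = 2 * c * B1 := by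
          rw [intervalIntegral.integral_const, smul_eq_mul]
          ring
  refine h1.trans ?_
  rw [intervalIntegral.integral_add (Continuous.intervalIntegrable (by fun_prop) _ _)
    (Continuous.intervalIntegrable (by fun_prop) _ _), intervalIntegral.integral_const_mul,
    intervalIntegral.integral_const_mul, h2, h3]
  have h6 := mul_le_mul_of_nonneg_left h4 (by positivity : 0 ≤ W * (1 + 11 * ε1) *
    (2 * Real.sqrt Real.pi))
  have h7 := mul_le_mul_of_nonneg_left h5 (by positivity : 0 ≤ W * C * h ^ 2 * c)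
  refine (add_le_add h6 h7).trans (le_of_eq ?_)
  ring

/-- the main average -/
theorem fam_I1 {cf : ℕ → ℂ} {Cs : ℝ} (hs : SmD cf Cs) (γ : ℝ) (h0 : 0 < γ) (hπ : γ < Real.pi)
    {q2 : ℝ → ℝ} (hq2 : Continuous q2) {W C ε1 h c Λ J : ℝ} (hW : 0 ≤ W) (hC : 0 ≤ C)
    (hε1 : 0 ≤ ε1) (M : ℕ) (hh : 0 < h) (hc : 0 < c) (hcΛ : 2 * c ≤ Λ) (hΛ1 : 1 ≤ Λ) (hJ0 : 0 ≤ J)
    (hq : ∀ u, 0 ≤ u → u ≤ Λ → q2 u ≤ W *
          ((1 + 11 * ε1) * (2 * Real.sqrt Real.pi *
            ∫ v in (-c)..c, gh M h c v ^ 2 * SWu cf (1 / 4) (u + v)) +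
          C * (h ^ 2 * (c * ∫ v in (-c)..c, (Wu cf (u + v) + 1)))))
    (hJ : ∀ v, |v| ≤ c → ∫ u in (0 : ℝ)..Λ, Rw γ (u / Λ) * SWu cf (1 / 4) (u + v) ≤
      2 * Real.sqrt Real.pi * Λ ^ 2 * J) :
    ∫ u in (0 : ℝ)..Λ, Rw γ (u / Λ) * q2 u ≤ W * ((1 + 11 * ε1) * (4 * h * Λ ^ 2 * J) +
      C * (Rw γ 0 * (6 * Cs + 2)) * (h ^ 2 * c ^ 2 * Λ)) := by
  have hpi := Real.pi_pos
  have hCs := hs.pos
  have hΛ : 0 < Λ := by linarith
  have hRc : Continuous (Rw γ) := H385.PerChi.Rw_cont γ h0 hπ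
  have hRn := H385.Rw_nonneg γ h0 hπ
  have hR00 := hRn 0
  have hR0 : ∀ u : ℝ, 0 ≤ u → Rw γ (u / Λ) ≤ Rw γ 0 := fun u hu =>
    H385.Rw_antitone γ h0 hπ (Set.mem_Ici.2 le_rfl) (Set.mem_Ici.2 (by positivity))
      (by positivity)
  have cw := hs.wc
  have h1 := wt_int hs (ρ := fun u => Rw γ (u / Λ)) (by fun_prop) (fun u => hRn _) hq2 hW hC hε1 M
    hh hc hΛ.le hq (by positivity) hJ (B1 := Rw γ 0 * ((3 * Cs + 1) * Λ)) (fun v hv => by
      have g1 := shift_W hs hΛ.le hv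
      calc ∫ u in (0 : ℝ)..Λ, Rw γ (u / Λ) * (Wu cf (u + v) + 1) ≤
            ∫ u in (0 : ℝ)..Λ, Rw γ 0 * (Wu cf (u + v) + 1) := by
            refine intervalIntegral.integral_mono_on hΛ.le
              (Continuous.intervalIntegrable (by fun_prop) _ _)
              (Continuous.intervalIntegrable (by fun_prop) _ _) fun u hu => ?_
            exact mul_le_mul_of_nonneg_right (hR0 u hu.1) (by linarith [hs.w0 (u + v)])
        _ = Rw γ 0 * ((∫ u in (0 : ℝ)..Λ, Wu cf (u + v)) + Λ) := by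
            rw [intervalIntegral.integral_const_mul, intervalIntegral.integral_add
              (Continuous.intervalIntegrable (by fun_prop) _ _) (by simp)]
            simp
        _ ≤ _ := by
            refine mul_le_mul_of_nonneg_left ?_ hR00
            nlinarith)
  refine h1.trans (mul_le_mul_of_nonneg_left (add_le_add ?_ ?_) hW)
  · refine mul_le_mul_of_nonneg_left (le_of_eq ?_) (by positivity)
    have e : Real.sqrt Real.pi * Real.sqrt Real.pi = Real.pi := Real.mul_self_sqrt hpi.le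
    have e2 : 2 * Real.sqrt Real.pi * (h / Real.pi * (2 * Real.sqrt Real.pi * Λ ^ 2 * J)) =
        4 * (Real.sqrt Real.pi * Real.sqrt Real.pi) * (h / Real.pi * Λ ^ 2 * J) := by ring
    rw [e2, e]
    field_simp
  · refine le_of_eq ?_
    ring

/-- the short average -/
theorem fam_I2 {cf : ℕ → ℂ} {Cs : ℝ} (hs : SmD cf Cs)
    {q2 : ℝ → ℝ} (hq2 : Continuous q2) {W C ε1 h c : ℝ} (hW : 0 ≤ W) (hC : 0 ≤ C)
    (hε1 : 0 ≤ ε1) (hε2 : ε1 ≤ 1) (M : ℕ) (hh : 0 < h) (hc : 1 ≤ c)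
    (hq : ∀ u, 0 ≤ u → u ≤ 2 * c → q2 u ≤ W *
          ((1 + 11 * ε1) * (2 * Real.sqrt Real.pi *
            ∫ v in (-c)..c, gh M h c v ^ 2 * SWu cf (1 / 4) (u + v)) +
          C * (h ^ 2 * (c * ∫ v in (-c)..c, (Wu cf (u + v) + 1))))) :
    ∫ u in (0 : ℝ)..(2 * c), q2 u ≤ W * (408 * Cs * (h * c ^ 2) +
      C * (10 * Cs + 4) * (h ^ 2 * c ^ 3)) := by
  have hpi := Real.pi_pos
  have hpi3 := Real.pi_gt_three
  have hCs := hs.pos
  have hc0 : 0 < c := by linarith
  have cw := hs.wc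
  have h1 := wt_int hs (ρ := fun _ => 1) (by fun_prop) (fun u => zero_le_one) hq2 hW hC hε1 M
    hh hc0 (by linarith : 0 ≤ 2 * c) hq (A1 := 17 * Cs * c ^ 2) (by positivity) (fun v hv => by
      simp only [one_mul]
      refine (shift_S hs (by linarith : 0 ≤ 2 * c) hv).trans ?_
      have : c + (2 * c + c + 1) ^ 2 ≤ 17 * c ^ 2 := by nlinarith
      calc _ ≤ Cs * (17 * c ^ 2) := by gcongr
        _ = _ := by ring) (B1 := (5 * Cs + 2) * c) (fun v hv => by
      simp only [one_mul]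
      rw [intervalIntegral.integral_add (Continuous.intervalIntegrable (by fun_prop) _ _) (by simp)]
      have g1 := shift_W hs (by linarith : 0 ≤ 2 * c) hv
      rw [intervalIntegral.integral_const, smul_eq_mul]
      nlinarith)
  simp only [one_mul] at h1
  refine h1.trans (mul_le_mul_of_nonneg_left (add_le_add ?_ ?_) hW)
  · have e1 : 2 * Real.sqrt Real.pi ≤ 2 * Real.pi := by
      have : Real.sqrt Real.pi ≤ Real.pi := by
        rw [Real.sqrt_le_left (by linarith)]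
        nlinarith
      linarith
    have e2 : 0 ≤ h / Real.pi * (17 * Cs * c ^ 2) := by positivity
    calc (1 + 11 * ε1) * (2 * Real.sqrt Real.pi * (h / Real.pi * (17 * Cs * c ^ 2))) ≤
          12 * (2 * Real.pi * (h / Real.pi * (17 * Cs * c ^ 2))) := by
          gcongr
          linarith
      _ = _ := by
          field_simp
          ring
  · refine le_of_eq ?_
    ring

/-- the average for nonpositive arguments -/
theorem fam_I4 {cf : ℕ → ℂ} {Cs : ℝ} (hs : SmD cf Cs)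
    {q : ℝ} {W C ε1 h c w : ℝ} (hW : 0 ≤ W) (hC : 0 ≤ C)
    (_hε1 : 0 ≤ ε1) (hε2 : ε1 ≤ 1) (M : ℕ) (hh : 0 < h) (hc : 1 ≤ c) (hw : w ≤ 0)
    (hq : q ≤ W * ((1 + 11 * ε1) * (2 * Real.sqrt Real.pi *
            ∫ v in (-c)..c, gh M h c v ^ 2 * SWu cf (1 / 4) (w + v)) +
          C * (h ^ 2 * (c * ∫ v in (-c)..c, (Wu cf (w + v) + 1))))) :
    q ≤ W * ((144 * Cs + C * (4 * Cs + 2)) * (h ^ 2 * c ^ 2)) := by
  have hpi := Real.pi_pos
  have hpi3 := Real.pi_gt_three
  have hCs := hs.pos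
  have hc0 : 0 < c := by linarith
  have cg := gh_cont M h c
  have cw := hs.wc
  have csc := hs.sc
  have h1 := neg_S hs hc0.le hw
  have h2 := neg_W hs hc0.le hw
  have h3 : ∫ v in (-c)..c, gh M h c v ^ 2 * SWu cf (1 / 4) (w + v) ≤
      (h / Real.pi) ^ 2 * (3 * Cs * (c + 1) ^ 2) := by
    calc _ ≤ ∫ v in (-c)..c, (h / Real.pi) ^ 2 * SWu cf (1 / 4) (w + v) := by
          refine intervalIntegral.integral_mono_on (by linarith)
            (Continuous.intervalIntegrable (by fun_prop) _ _)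
            (Continuous.intervalIntegrable (by fun_prop) _ _) fun v _ => ?_
          refine mul_le_mul_of_nonneg_right ?_ (hs.s0 _)
          rw [← sq_abs]
          exact pow_le_pow_left₀ (abs_nonneg _) (gh_le M hh.le c v) 2
      _ = (h / Real.pi) ^ 2 * ∫ v in (-c)..c, SWu cf (1 / 4) (w + v) :=
          intervalIntegral.integral_const_mul _ _
      _ ≤ _ := mul_le_mul_of_nonneg_left h1 (by positivity)
  have h4 : ∫ v in (-c)..c, (Wu cf (w + v) + 1) ≤ (4 * Cs + 2) * c := by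
    rw [intervalIntegral.integral_add (Continuous.intervalIntegrable (by fun_prop) _ _) (by simp),
      intervalIntegral.integral_const, smul_eq_mul]
    nlinarith
  have h4' : 0 ≤ ∫ v in (-c)..c, gh M h c v ^ 2 * SWu cf (1 / 4) (w + v) :=
    intervalIntegral.integral_nonneg (by linarith) fun v _ => mul_nonneg (sq_nonneg _) (hs.s0 _)
  refine hq.trans (mul_le_mul_of_nonneg_left ?_ hW)
  have e1 : 2 * Real.sqrt Real.pi * (h / Real.pi) ^ 2 ≤ h ^ 2 := by
    have e3 : Real.sqrt Real.pi ≤ Real.pi := by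
      rw [Real.sqrt_le_left (by linarith)]
      nlinarith
    rw [div_pow, mul_div_assoc', div_le_iff₀ (by positivity)]
    have : 2 * Real.sqrt Real.pi ≤ Real.pi ^ 2 := by nlinarith
    nlinarith [sq_nonneg h]
  have e2 : (c + 1) ^ 2 ≤ 4 * c ^ 2 := by nlinarith
  calc (1 + 11 * ε1) * (2 * Real.sqrt Real.pi *
            ∫ v in (-c)..c, gh M h c v ^ 2 * SWu cf (1 / 4) (w + v)) +
          C * (h ^ 2 * (c * ∫ v in (-c)..c, (Wu cf (w + v) + 1))) ≤
        12 * (2 * Real.sqrt Real.pi * ((h / Real.pi) ^ 2 * (3 * Cs * (4 * c ^ 2)))) +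
          C * (h ^ 2 * (c * ((4 * Cs + 2) * c))) := by
        refine add_le_add ?_ ?_
        · refine mul_le_mul (by linarith) ?_ (by positivity) (by norm_num)
          refine mul_le_mul_of_nonneg_left (h3.trans ?_) (by positivity)
          gcongr
        · gcongr
    _ = 12 * ((2 * Real.sqrt Real.pi * (h / Real.pi) ^ 2) * (3 * Cs * (4 * c ^ 2))) +
          C * (h ^ 2 * (c * ((4 * Cs + 2) * c))) := by ring
    _ ≤ 12 * (h ^ 2 * (3 * Cs * (4 * c ^ 2))) +
          C * (h ^ 2 * (c * ((4 * Cs + 2) * c))) := by gcongr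
    _ = _ := by ring

end Pool.Agent.KS6_85.LZ
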