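import Pool.Graph.R_seed8.W388.TW.CoefE
import Pool.Graph.R_seed8.H385R2.LocalD

/-!
# Zeros near a fixed height

Definitions: analytic input about an entire L-function at the heights `|Im s| ≤ H`; the zeros in the
closed strip `0 ≤ Re s ≤ 1` (a zero on the edges is not excluded).
-/

set_option autoImplicit false

open Complex Filter Topology Set MeasureTheory
open H370 (mult)

namespace Pool.Agent.KS6_85.LZ

/-- the zeros in the closed strip -/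
def zc (F : ℂ → ℂ) (T1 T2 : ℝ) : Set ℂ :=
  {s | 0 ≤ s.re ∧ s.re ≤ 1 ∧ T1 < s.im ∧ s.im ≤ T2 ∧ F s = 0}

/-- their number, with multiplicity -/
noncomputable def NX (F : ℂ → ℂ) (T1 T2 : ℝ) : ℕ := ∑ᶠ s ∈ zc F T1 T2, mult F s

/-- analytic input about an entire L-function at the heights `|Im s| ≤ H`: `q0` is the
logarithm of the conductor, `ℒ` is an upper bound for it, `E` bounds the archimedean part of the
logarithmic derivative; `a` is the coefficient sequence of `-F'/F`. A factor `((s + 3) / s) ^ k` is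
allowed (a trivial zero at `0` is moved). -/
structure GoodX (A ℒ E H q0 : ℝ) (F : ℂ → ℂ) (a : ℕ → ℂ) : Prop where
  hA : 1 ≤ A
  hL : 1 ≤ ℒ
  hE : 1 ≤ E
  hEL : E ≤ ℒ
  hq0 : 0 ≤ q0
  hq1 : q0 ≤ A * ℒ
  diff : Differentiable ℂ F
  growth : ∀ s : ℂ, (1 / 16 : ℝ) ≤ s.re → s.re ≤ 4 → |s.im| ≤ H → ‖F s‖ ≤ Real.exp (A * ℒ)
  lower : ∀ t : ℝ, A⁻¹ ≤ ‖F (⟨2, t⟩ : ℂ)‖
  nzr : ∀ s : ℂ, 1 < s.re → F s ≠ 0
  nzl : ∀ s : ℂ, -1 / 4 ≤ s.re → s.re < 0 → F s ≠ 0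
  symm : ∀ s : ℂ, 0 ≤ s.re → s.re ≤ 1 →
    analyticOrderAt F (1 - (starRingEnd ℂ) s) = analyticOrderAt F s
  ha1 : ∀ n : ℕ, n ≤ 1 → a n = 0
  has : Summable (fun n : ℕ => ‖a n‖ * (n : ℝ) ^ (-(5 / 4) : ℝ))
  ha : ∑' n : ℕ, ‖a n‖ * (n : ℝ) ^ (-(5 / 4) : ℝ) ≤ A
  ld : ∃ k : ℝ, 0 ≤ k ∧ k ≤ A ∧ ∀ s : ℂ, 1 < s.re → deriv F s / F s =
    (k : ℂ) * (1 / (s + 3) - 1 / s) - ∑' n : ℕ, a n * (n : ℂ) ^ (-s)
  left : ∀ s : ℂ, -1 / 4 ≤ s.re → s.re ≤ 1 / 2 → |s.im| ≤ H → F s ≠ 0 →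
    ‖deriv F s / F s + ((q0 : ℝ) : ℂ) +
      (starRingEnd ℂ) (deriv F (1 - (starRingEnd ℂ) s) / F (1 - (starRingEnd ℂ) s))‖ ≤ A * E

end Pool.Agent.KS6_85.LZ
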