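import Pool.Graph.R_pool_sql_team_seeded_620a6dc7.A856.BH.TraceW2
import Pool.Graph.R_seed8.H385R2.Quad
import Pool.Graph.R_seed8.H385R2.WinE
import Pool.Graph.R_seed8.H385R2.PerChi

/-!
# The trace inequality for the kernel without Gaussian damping
-/

set_option autoImplicit false

open Complex Filter Topology Set MeasureTheory
open scoped BigOperators ComplexConjugate
open H385 (kapw Rw gw)

namespace Pool.Agent.KS6_85.LZ

/-- the kernel -/
noncomputable def ph (γ Λ : ℝ) (z : ℂ) : ℂ := kapw γ (Λ * z)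

namespace Ker

noncomputable def kf (γ Λ : ℝ) (z : ℂ) (x : ℝ) : ℂ :=
  (Real.sqrt (gw γ x) : ℂ) * cexp (I * z * (Λ * x))

/-- the measure -/
noncomputable def mu : Measure ℝ := volume.restrict (Set.Ioc (-1 / 2 : ℝ) (1 / 2))

lemma kf_cont (γ Λ : ℝ) (z : ℂ) : Continuous (kf γ Λ z) := by
  unfold kf
  have := H385.WinAux.cont γ
  fun_prop

lemma kf_memLp (γ Λ : ℝ) (z : ℂ) : MemLp (kf γ Λ z) 2 mu := by
  rw [memLp_two_iff_integrable_sq_norm (kf_cont γ Λ z).aestronglyMeasurable]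
  have := kf_cont γ Λ z
  exact Continuous.integrableOn_Ioc (by fun_prop)

lemma kf_inner (γ : ℝ) (h0 : 0 < γ) (hπ : γ < Real.pi) (Λ : ℝ) (z w : ℂ) :
    ∫ p, (starRingEnd ℂ) (kf γ Λ z p) * kf γ Λ w p ∂mu = ph γ Λ (w - (starRingEnd ℂ) z) := by
  unfold ph kapw mu
  rw [intervalIntegral.integral_of_le (by norm_num)]
  apply setIntegral_congr_fun measurableSet_Ioc
  intro x hx
  simp only [kf, map_mul, Complex.conj_ofReal, ← Complex.exp_conj, Complex.conj_I]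
  have h1 := H385.gw_nonneg γ h0 hπ x hx.1.le hx.2
  have h2 : (Real.sqrt (gw γ x) : ℂ) * (Real.sqrt (gw γ x) : ℂ) = (gw γ x : ℂ) := by
    rw [← Complex.ofReal_mul, Real.mul_self_sqrt h1]
  have e : cexp (-I * (starRingEnd ℂ) z * (Λ * x)) * cexp (I * w * (Λ * x)) =
      cexp (I * (Λ * (w - (starRingEnd ℂ) z)) * x) := by
    rw [← Complex.exp_add]
    congr 1
    ring
  rw [← e, ← h2]
  ring

end Ker

theorem gram0 (γ : ℝ) (h0 : 0 < γ) (hπ : γ < Real.pi) (Λ : ℝ) :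
    ∃ (E : Type) (_ : NormedAddCommGroup E) (_ : InnerProductSpace ℂ E)
    (k : ℂ → E), ∀ z w, inner ℂ (k z) (k w) = ph γ Λ (w - (starRingEnd ℂ) z) := by
  refine ⟨Lp ℂ 2 Ker.mu, inferInstance, inferInstance,
    fun z => (Ker.kf_memLp γ Λ z).toLp _, fun z w => ?_⟩
  rw [L2.inner_def, ← Ker.kf_inner γ h0 hπ]
  apply integral_congr_ae
  filter_upwards [(Ker.kf_memLp γ Λ z).coeFn_toLp, (Ker.kf_memLp γ Λ w).coeFn_toLp] with p h1 h2
  rw [h1, h2, RCLike.inner_apply, mul_comm]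

namespace Quad

section

variable (Z : Finset ℂ) (hZ : ∀ z ∈ Z, (starRingEnd ℂ) z ∈ Z) (a : ℂ → ℂ)
    (hac : ∀ z ∈ Z, a ((starRingEnd ℂ) z) = (starRingEnd ℂ) (a z))

/-- square of the weighted zero sum -/
noncomputable def GG (u : ℝ) : ℝ := ‖∑ z ∈ Z, a z * cexp (I * u * z)‖ ^ 2

include hZ hac in
lemma GG_eq (u : ℝ) : ((GG Z a u : ℝ) : ℂ) =
    ∑ z ∈ Z, ∑ w ∈ Z, a z * a w * cexp (I * u * (z - w)) := by
  unfold GG
  rw [← Complex.normSq_eq_norm_sq, ← Complex.mul_conj, map_sum, Finset.sum_mul_sum]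
  refine Finset.sum_congr rfl fun s _ => ?_
  have h1 : ∀ s' ∈ Z, a s * cexp (I * u * s) * conj (a s' * cexp (I * u * s')) =
      (fun w => a s * a w * cexp (I * u * (s - w))) (conj s') := by
    intro s' hs'
    simp only
    rw [hac s' hs', map_mul, ← Complex.exp_conj]
    have e1 : conj (I * u * s') = -(I * u * conj s') := by simp
    rw [e1, show I * u * (s - conj s') = I * u * s + -(I * u * conj s') by ring, Complex.exp_add]
    ring
  rw [Finset.sum_congr rfl h1]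
  exact H385.Quad.sum_conj Z hZ (fun w => a s * a w * cexp (I * u * (s - w)))

include hZ hac in
lemma GG_even (u : ℝ) : GG Z a (-u) = GG Z a u := by
  apply Complex.ofReal_injective
  rw [GG_eq Z hZ a hac, GG_eq Z hZ a hac, Finset.sum_comm]
  refine Finset.sum_congr rfl fun s _ => Finset.sum_congr rfl fun s' _ => ?_
  have e1 : I * ((-u : ℝ) : ℂ) * (s' - s) = I * u * (s - s') := by push_cast; ring
  rw [e1]; ring

lemma GG_cont : Continuous (fun u : ℝ => GG Z a u) := by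
  unfold GG
  fun_prop

end

end Quad

open Quad in
theorem quad0 (γ Λ : ℝ) (h0 : 0 < γ) (hπ : γ < Real.pi) (hΛ : 0 < Λ)
    (Z : Finset ℂ) (hZ : ∀ z ∈ Z, (starRingEnd ℂ) z ∈ Z) (a : ℂ → ℂ)
    (hac : ∀ z ∈ Z, a ((starRingEnd ℂ) z) = (starRingEnd ℂ) (a z)) :
    (∑ z ∈ Z, ∑ w ∈ Z, a z * a w * (ph γ Λ (z - w)) ^ 2).re =
      (2 / Λ) * ∫ u in (0 : ℝ)..Λ, Rw γ (u / Λ) * ‖∑ z ∈ Z, a z * cexp (I * u * z)‖ ^ 2 := by
  have hsq := H385.kapw_sq γ h0 hπ
  have hcont : Continuous (Rw γ) := H385.PerChi.Rw_cont γ h0 hπ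
  have hev := H385.Rw_even γ
  have h1 : ∀ s s' : ℂ, (ph γ Λ (s - s')) ^ 2 = ∫ α in (-1 : ℝ)..1, (Rw γ α : ℂ) *
      cexp (I * ((Λ * α : ℝ) : ℂ) * (s - s')) := by
    intro s s'
    unfold ph
    rw [hsq]
    refine intervalIntegral.integral_congr fun α _ => ?_
    have e1 : I * (Λ * (s - s')) * (α : ℂ) = I * ((Λ * α : ℝ) : ℂ) * (s - s') := by
      push_cast; ring
    simp only [e1]
  have h2 : ∑ s ∈ Z, ∑ s' ∈ Z, a s * a s' * (ph γ Λ (s - s')) ^ 2 =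
      ∫ α in (-1 : ℝ)..1, ((Rw γ α * GG Z a (Λ * α) : ℝ) : ℂ) := by
    have h3 : ∀ α : ℝ, ((Rw γ α * GG Z a (Λ * α) : ℝ) : ℂ) =
        ∑ s ∈ Z, ∑ s' ∈ Z, a s * a s' * ((Rw γ α : ℂ) *
      cexp (I * ((Λ * α : ℝ) : ℂ) * (s - s'))) := by
      intro α
      rw [Complex.ofReal_mul, GG_eq Z hZ a hac, Finset.mul_sum]
      refine Finset.sum_congr rfl fun s _ => ?_
      rw [Finset.mul_sum]
      refine Finset.sum_congr rfl fun s' _ => ?_
      ring
    simp_rw [h3]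
    have hc : ∀ s s' : ℂ, Continuous fun α : ℝ => a s * a s' * ((Rw γ α : ℂ) *
      cexp (I * ((Λ * α : ℝ) : ℂ) * (s - s'))) := by
      intro s s'
      have := hcont
      fun_prop
    rw [intervalIntegral.integral_finsetSum]
    swap
    · intro s _
      exact (continuous_finsetSum _ fun s' _ => hc s s').intervalIntegrable _ _
    refine Finset.sum_congr rfl fun s _ => ?_
    rw [intervalIntegral.integral_finsetSum]
    swap
    · intro s' _
      exact (hc s s').intervalIntegrable _ _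
    refine Finset.sum_congr rfl fun s' _ => ?_
    rw [h1, intervalIntegral.integral_const_mul]
  rw [h2, intervalIntegral.integral_ofReal, Complex.ofReal_re]
  set G : ℝ → ℝ := fun α => Rw γ α * GG Z a (Λ * α) with hG
  have hGc : Continuous G := hcont.mul ((GG_cont Z a).comp (by fun_prop))
  have hGe : ∀ α, G (-α) = G α := by
    intro α
    simp only [hG]
    rw [hev, mul_neg, GG_even Z hZ a hac]
  have h4 : ∫ α in (-1 : ℝ)..1, G α = 2 * ∫ α in (0 : ℝ)..1, G α := by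
    rw [← intervalIntegral.integral_add_adjacent_intervals (b := 0)
      (hGc.intervalIntegrable _ _) (hGc.intervalIntegrable _ _)]
    have h5 : ∫ α in (-1 : ℝ)..0, G α = ∫ α in (0 : ℝ)..1, G α := by
      have := intervalIntegral.integral_comp_neg (a := (0 : ℝ)) (b := 1) G
      simp_rw [hGe] at this
      rw [neg_zero] at this
      exact this.symm
    rw [h5]; ring
  have h6 : ∫ α in (0 : ℝ)..1, G α = Λ⁻¹ * ∫ u in (0 : ℝ)..Λ, Rw γ (u / Λ) * GG Z a u := by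
    have h7 := intervalIntegral.integral_comp_mul_left (a := (0 : ℝ)) (b := 1)
      (fun u => Rw γ (u / Λ) * GG Z a u) (c := Λ) hΛ.ne'
    rw [mul_zero, mul_one, smul_eq_mul] at h7
    rw [← h7]
    refine intervalIntegral.integral_congr fun α _ => ?_
    show Rw γ α * GG Z a (Λ * α) = Rw γ (Λ * α / Λ) * GG Z a (Λ * α)
    rw [mul_div_cancel_left₀ _ hΛ.ne']
  rw [h4, h6]
  unfold GG
  ring

/-- **the trace inequality** -/
theorem trace0 (γ Λ : ℝ) (h0 : 0 < γ) (hπ : γ < Real.pi) (hΛ : 0 < Λ)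
    (Z : Finset ℂ) (hZ : ∀ z ∈ Z, (starRingEnd ℂ) z ∈ Z) (a : ℂ → ℂ)
    (hac : ∀ z ∈ Z, a ((starRingEnd ℂ) z) = (starRingEnd ℂ) (a z))
    (S : Finset ℂ) (hSZ : S ⊆ Z) (hSr : ∀ z ∈ S, z.im = 0 ∧ 0 ≤ (a z).re ∧ (a z).re ≤ 1)
    (G : Finset ℂ) (hGZ : G ⊆ Z) (hGS : Disjoint S G) (hG : ∀ z ∈ G, (starRingEnd ℂ) z ∈ G) :
    4 * (∑ z ∈ Z \ G, a z).re - 3 * (S.card : ℝ)
      - 4 * (((((Z \ G) \ S).filter (fun z => z.im = 0)).card : ℝ)
          + (((Z \ G).filter (fun z => 0 < z.im)).card : ℝ))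
      - 4 * ∑ z ∈ G, ‖a z‖ * (1 + ‖ph γ Λ (z - (starRingEnd ℂ) z)‖)
      ≤ (2 / Λ) * ∫ u in (0 : ℝ)..Λ, Rw γ (u / Λ) * ‖∑ z ∈ Z, a z * cexp (I * u * z)‖ ^ 2 := by
  obtain ⟨E, i1, i2, k, hk⟩ := gram0 γ h0 hπ Λ
  rw [← quad0 γ Λ h0 hπ hΛ Z hZ a hac]
  refine Pool.Agent.A856.BH.trace_w2 (ph γ Λ) k hk (fun z => ?_) ?_ Z hZ a hac S hSZ hSr G hGZ hGS hG
  · unfold ph
    rw [mul_neg, H385.kapw_even]
  · unfold ph
    rw [mul_zero, H385.kapw_zero γ h0 hπ]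

end Pool.Agent.KS6_85.LZ
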