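import Pool.Agent.KS6_85.LZ.EFS
import Pool.Agent.KS6_85.LZ.Ker
import Pool.Graph.R_pool_sql_team_seeded_620a6dc7.A856.BH.PerB

/-!
# The inequality for one L-function
-/

set_option autoImplicit false
set_option maxHeartbeats 1000000

open Complex Filter Topology Set MeasureTheory
open scoped ComplexConjugate
open H370 (mult)
open H385 (zz Rw)
open H385.PerChi (zz_spec zz_refl zz_inj zz_re zz_im kk)

namespace Pool.Agent.KS6_85.LZ

/-- the weight of a zero -/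
noncomputable def bX (M : ℕ) (h c m : ℝ) (z : ℂ) : ℂ :=
  gg M h c (z - m) * cexp (-(z - m) ^ 2)

noncomputable def aX (F : ℂ → ℂ) (M : ℕ) (h c m : ℝ) (z : ℂ) : ℂ :=
  (mult F (1 / 2 + I * z) : ℂ) * bX M h c m z

lemma aX_zz (F : ℂ → ℂ) (M : ℕ) (h c m : ℝ) (s : ℂ) :
    aX F M h c m (zz s) = (mult F s : ℂ) * bX M h c m (zz s) := by
  unfold aX; rw [zz_spec]

lemma bX_conj (M : ℕ) (h c m : ℝ) (z : ℂ) :
    bX M h c m (conj z) = conj (bX M h c m z) := by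
  unfold bX
  rw [map_mul, ← Complex.exp_conj, ← gg_conj]
  congr 2
  · simp
  · simp

/-- the distance to the ends of the window -/
noncomputable def DX (h c m : ℝ) (s : ℂ) : ℝ := 1 + c * |(|s.im - m| - h)|

lemma DX_one {h c m : ℝ} (hc : 0 ≤ c) (s : ℂ) : 1 ≤ DX h c m s := by
  unfold DX
  have := abs_nonneg (|s.im - m| - h)
  nlinarith [mul_nonneg hc this]

lemma zsub_re (s : ℂ) (m : ℝ) : (zz s - m).re = s.im - m := by
  rw [Complex.sub_re, zz_re, ofReal_re]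

lemma zsub_im (s : ℂ) (m : ℝ) : (zz s - m).im = -(s.re - 1 / 2) := by
  rw [Complex.sub_im, zz_im, ofReal_im, sub_zero]

lemma exp_norm (s : ℂ) (m : ℝ) (h : |s.re - 1 / 2| ≤ 1 / 2) :
    ‖cexp (-(zz s - m) ^ 2)‖ ≤ 2 := by
  rw [Complex.norm_exp]
  have e : (-(zz s - m) ^ 2).re = (s.re - 1 / 2) ^ 2 - (s.im - m) ^ 2 := by
    rw [neg_re, sq, mul_re, zsub_re, zsub_im]
    ring
  rw [e]
  have h1 : (s.re - 1 / 2) ^ 2 ≤ 1 / 4 := by
    rw [← sq_abs]
    nlinarith [abs_nonneg (s.re - 1 / 2)]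
  have h2 : Real.exp ((s.re - 1 / 2) ^ 2 - (s.im - m) ^ 2) ≤ Real.exp (1 / 4) :=
    Real.exp_le_exp.2 (by nlinarith [sq_nonneg (s.im - m)])
  refine h2.trans ?_
  have := Real.exp_bound_div_one_sub_of_interval (x := 1 / 4) (by norm_num) (by norm_num)
  refine this.trans (by norm_num)

lemma bX_out (M : ℕ) {h c m : ℝ} (hh : 0 ≤ h) (hc : 0 < c) (s : ℂ) (hs : |s.re - 1 / 2| ≤ 1 / 2)
    (hx : h ≤ |s.im - m|) : ‖bX M h c m (zz s)‖ ≤
      2 * (CK M * Real.pi) * Real.exp (c * |s.re - 1 / 2|) * ((DX h c m s) ^ (2 * M))⁻¹ := by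
  unfold bX
  have h1 := gg_out M hh hc (z := zz s - m) (by rw [zsub_re]; exact hx)
  rw [zsub_re, zsub_im, abs_neg] at h1
  have h2 := exp_norm s m hs
  rw [norm_mul]
  calc _ ≤ (CK M * Real.pi * Real.exp (c * |s.re - 1 / 2|) *
      ((1 + c * |(|s.im - m| - h)|) ^ (2 * M))⁻¹) * 2 :=
        mul_le_mul h1 h2 (norm_nonneg _) ((norm_nonneg _).trans h1)
    _ = _ := by unfold DX; ring

lemma bX_in (M : ℕ) {h c m : ℝ} (hh : h ≤ 1 / 2) (hc : 0 < c) (s : ℂ) (hs : |s.re - 1 / 2| ≤ 1 / 2)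
    (hx : |s.im - m| ≤ h) : ‖bX M h c m (zz s) - 1‖ ≤
      2 * (CK M * Real.pi) * Real.exp (c * |s.re - 1 / 2|) * ((DX h c m s) ^ (2 * M))⁻¹ +
        2 * (h ^ 2 + (s.re - 1 / 2) ^ 2) := by
  have e : bX M h c m (zz s) - 1 = (gg M h c (zz s - m) - 1) * cexp (-(zz s - m) ^ 2) +
      (cexp (-(zz s - m) ^ 2) - 1) := by
    unfold bX
    ring
  rw [e]
  refine (norm_add_le _ _).trans (add_le_add ?_ ?_)
  · have h1 := gg_in M (h := h) hc (z := zz s - m) (by rw [zsub_re]; exact hx)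
    rw [zsub_re, zsub_im, abs_neg] at h1
    have h2 := exp_norm s m hs
    rw [norm_mul]
    calc _ ≤ (CK M * Real.pi * Real.exp (c * |s.re - 1 / 2|) *
        ((1 + c * |(|s.im - m| - h)|) ^ (2 * M))⁻¹) * 2 :=
          mul_le_mul h1 h2 (norm_nonneg _) ((norm_nonneg _).trans h1)
      _ = _ := by unfold DX; ring
  · have h3 : ‖-(zz s - m) ^ 2‖ = (s.im - m) ^ 2 + (s.re - 1 / 2) ^ 2 := by
      rw [norm_neg, norm_pow, ← Complex.normSq_eq_norm_sq, Complex.normSq_apply, zsub_re, zsub_im]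
      ring
    have hsq : (s.im - m) ^ 2 ≤ h ^ 2 := by
      rw [← sq_abs (s.im - m)]
      exact pow_le_pow_left₀ (abs_nonneg _) hx 2
    have h0 : 0 ≤ h := (abs_nonneg _).trans hx
    have h4 : (s.re - 1 / 2) ^ 2 ≤ 1 / 4 := by
      rw [← sq_abs]
      nlinarith [abs_nonneg (s.re - 1 / 2)]
    have h5 : ‖-(zz s - m) ^ 2‖ ≤ 1 := by
      rw [h3]
      nlinarith
    refine (Complex.norm_exp_sub_one_le h5).trans ?_
    rw [h3]
    linarith

/-- the left hand side of the trace inequality -/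
lemma lhs_calc (F : ℂ → ℂ) (M : ℕ) (h c m : ℝ) (Zf Z S : Finset ℂ) (hZdef : Z = Zf.image zz)
    (hZ : ∀ z ∈ Z, (starRingEnd ℂ) z ∈ Z)
    (hS : S = Z.filter (fun z => z.im = 0 ∧ mult F (1 / 2 + I * z) = 1)) :
    4 * (∑ z ∈ Z, aX F M h c m z).re - 3 * (S.card : ℝ)
      - 4 * ((((Z \ S).filter (fun z => z.im = 0)).card : ℝ)
          + ((Z.filter (fun z => 0 < z.im)).card : ℝ)) =
    ∑ s ∈ Zf, (4 * (mult F s : ℝ) * (bX M h c m (zz s)).re - kk F s) := by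
  classical
  have hinj : Set.InjOn zz (Zf : Set ℂ) := fun s _ s' _ h => zz_inj h
  have c1 : (∑ z ∈ Z, aX F M h c m z).re = ∑ s ∈ Zf, (mult F s : ℝ) * (bX M h c m (zz s)).re := by
    rw [hZdef, Finset.sum_image hinj, Complex.re_sum]
    refine Finset.sum_congr rfl fun s _ => ?_
    rw [aX_zz, ← Complex.ofReal_natCast, Complex.re_ofReal_mul]
  have him0 : ∀ s, (zz s).im = 0 ↔ s.re = 1 / 2 := by
    intro s; rw [zz_im]; constructor <;> intro h <;> linarith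
  have c2 : (S.card : ℝ) = ∑ s ∈ Zf, if (s.re = 1 / 2 ∧ mult F s = 1) then 1 else 0 := by
    rw [hS, Finset.card_filter, Nat.cast_sum, hZdef, Finset.sum_image hinj]
    refine Finset.sum_congr rfl fun s _ => ?_
    simp only [him0, zz_spec, Nat.cast_ite, Nat.cast_one, Nat.cast_zero]
  have c3 : (((Z \ S).filter (fun z => z.im = 0)).card : ℝ) =
      ∑ s ∈ Zf, if (s.re = 1 / 2 ∧ mult F s ≠ 1) then 1 else 0 := by
    have : (Z \ S).filter (fun z => z.im = 0) =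
        Z.filter (fun z => z.im = 0 ∧ mult F (1 / 2 + I * z) ≠ 1) := by
      ext z
      simp only [hS, Finset.mem_filter, Finset.mem_sdiff]
      tauto
    rw [this, Finset.card_filter, Nat.cast_sum, hZdef, Finset.sum_image hinj]
    refine Finset.sum_congr rfl fun s _ => ?_
    simp only [him0, zz_spec, Nat.cast_ite, Nat.cast_one, Nat.cast_zero]
  have c4 : 2 * ((Z.filter (fun z => 0 < z.im)).card : ℝ) =
      ∑ s ∈ Zf, if s.re = 1 / 2 then 0 else 1 := by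
    have e1 : (Z.filter (fun z => z.im < 0)).card = (Z.filter (fun z => 0 < z.im)).card := by
      refine Finset.card_nbij' (fun z => (starRingEnd ℂ) z) (fun z => (starRingEnd ℂ) z) ?_ ?_ ?_ ?_
      · intro z hz
        simp only [Finset.coe_filter, Set.mem_ofPred_eq] at hz ⊢
        refine ⟨hZ z hz.1, ?_⟩
        rw [Complex.conj_im]; linarith [hz.2]
      · intro z hz
        simp only [Finset.coe_filter, Set.mem_ofPred_eq] at hz ⊢
        refine ⟨hZ z hz.1, ?_⟩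
        rw [Complex.conj_im]; linarith [hz.2]
      · intro z _; simp
      · intro z _; simp
    have e2 : (Z.filter (fun z => ¬ z.im = 0)).card =
        (Z.filter (fun z => z.im < 0)).card + (Z.filter (fun z => 0 < z.im)).card := by
      rw [← Finset.card_union_of_disjoint]
      · congr 1
        ext z
        simp only [Finset.mem_filter, Finset.mem_union]
        constructor
        · rintro ⟨h1, h2⟩
          rcases lt_or_gt_of_ne h2 with h | h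
          · exact Or.inl ⟨h1, h⟩
          · exact Or.inr ⟨h1, h⟩
        · rintro (⟨h1, h2⟩ | ⟨h1, h2⟩)
          · exact ⟨h1, ne_of_lt h2⟩
          · exact ⟨h1, ne_of_gt h2⟩
      · rw [Finset.disjoint_filter]
        intro z _ h1 h2
        linarith
    have e3 : 2 * ((Z.filter (fun z => 0 < z.im)).card : ℝ) =
        ((Z.filter (fun z => ¬ z.im = 0)).card : ℝ) := by
      rw [e2, e1]; push_cast; ring
    rw [e3, Finset.card_filter, Nat.cast_sum, hZdef, Finset.sum_image hinj]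
    refine Finset.sum_congr rfl fun s _ => ?_
    simp only [him0, Nat.cast_ite, Nat.cast_one, Nat.cast_zero, ite_not]
  have c5 : ∑ s ∈ Zf, (4 * (mult F s : ℝ) * (bX M h c m (zz s)).re - kk F s) =
      4 * (∑ s ∈ Zf, (mult F s : ℝ) * (bX M h c m (zz s)).re) -
      3 * (∑ s ∈ Zf, if (s.re = 1 / 2 ∧ mult F s = 1) then (1 : ℝ) else 0) -
      (4 * (∑ s ∈ Zf, if (s.re = 1 / 2 ∧ mult F s ≠ 1) then (1 : ℝ) else 0) +
        2 * (∑ s ∈ Zf, if s.re = 1 / 2 then (0 : ℝ) else 1)) := by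
    rw [Finset.mul_sum, Finset.mul_sum, Finset.mul_sum, Finset.mul_sum, ← Finset.sum_sub_distrib,
      ← Finset.sum_add_distrib, ← Finset.sum_sub_distrib]
    refine Finset.sum_congr rfl fun s _ => ?_
    unfold H385.PerChi.kk
    by_cases h1 : s.re = 1 / 2
    · by_cases h2 : mult F s = 1
      · rw [if_pos h1, if_pos h2, if_pos ⟨h1, h2⟩, if_neg (fun h => h.2 h2), if_pos h1]; ring
      · rw [if_pos h1, if_neg h2, if_neg (fun h => h2 h.2), if_pos ⟨h1, h2⟩, if_pos h1]; ring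
    · rw [if_neg h1, if_neg (fun h => h1 h.1), if_neg (fun h => h1 h.1), if_neg h1]; ring
  rw [c5, c1, c2, c3, ← c4]
  ring

/-- harmless zeros -/
def harm (h c m Λ : ℝ) (s : ℂ) : Prop :=
  h < |s.im - m| ∧ Real.exp (Λ * |s.re - 1 / 2|) ≤ (DX h c m s) ^ 3200

lemma ph_bound (γ : ℝ) (h0 : 0 < γ) (hπ : γ < Real.pi) {Λ : ℝ} (hΛ : 0 ≤ Λ) (z : ℂ) :
    ‖ph γ Λ (z - (starRingEnd ℂ) z)‖ ≤ Real.exp (Λ * |z.im|) := by
  unfold ph
  rw [Complex.sub_conj]
  have h1 : (Λ : ℂ) * (((2 * z.im : ℝ) : ℂ) * I) = ((Λ * (2 * z.im) : ℝ) : ℂ) * I := by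
    push_cast
    ring
  rw [h1]
  have h2 := Pool.Agent.A856.BH.PerB.kapw_bound γ h0 hπ (Λ * (2 * z.im))
  have h3 : |Λ * (2 * z.im)| / 2 = Λ * |z.im| := by
    rw [abs_mul, abs_mul, abs_of_nonneg hΛ, abs_of_nonneg (by norm_num : (0 : ℝ) ≤ 2)]
    ring
  rwa [h3] at h2

theorem trace_part (γ : ℝ) (h0 : 0 < γ) (hπ : γ < Real.pi)
    {A ℒ E H q0 : ℝ} {F : ℂ → ℂ} {a : ℕ → ℂ} (hF : GoodX A ℒ E H q0 F a) (M : ℕ)
    {h c m Λ V1 V2 : ℝ} (hh : 0 ≤ h) (hc : 0 < c) (hΛ : 0 < Λ) (hfin : (zc F V1 V2).Finite)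
    (Gf : Finset ℂ) (hGf : Gf ⊆ hfin.toFinset)
    (hGm : ∀ s ∈ hfin.toFinset, (s ∈ Gf ↔ harm h c m Λ s)) :
    ∑ s ∈ hfin.toFinset \ Gf, (4 * (mult F s : ℝ) * (bX M h c m (zz s)).re - kk F s) ≤
      (2 / Λ) * (∫ u in (0 : ℝ)..Λ, Rw γ (u / Λ) * ‖SX F V1 V2 M h c m u‖ ^ 2) +
        4 * ∑ s ∈ Gf, (mult F s : ℝ) * (‖bX M h c m (zz s)‖ *
          (1 + Real.exp (Λ * |s.re - 1 / 2|))) := by
  classical
  obtain ⟨Zf, hZf⟩ : ∃ Zf, Zf = hfin.toFinset := ⟨_, rfl⟩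
  rw [← hZf] at hGf hGm ⊢
  have hmem : ∀ {s}, s ∈ Zf ↔ s ∈ zc F V1 V2 := by
    intro s; rw [hZf, Set.Finite.mem_toFinset]
  obtain ⟨Z, hZdef⟩ : ∃ Z, Z = Zf.image zz := ⟨_, rfl⟩
  obtain ⟨G, hGdef⟩ : ∃ G, G = Gf.image zz := ⟨_, rfl⟩
  have hinj : Set.InjOn zz (Zf : Set ℂ) := fun s _ s' _ h => zz_inj h
  have hinjG : Set.InjOn zz (Gf : Set ℂ) := fun s _ s' _ h => zz_inj h
  have hZ : ∀ z ∈ Z, (starRingEnd ℂ) z ∈ Z := by
    intro z hz
    rw [hZdef] at hz ⊢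
    obtain ⟨s, hs, rfl⟩ := Finset.mem_image.mp hz
    rw [← zz_refl]
    exact Finset.mem_image_of_mem _ (hmem.2 (zc_refl hF (hmem.1 hs)))
  have hG : ∀ z ∈ G, (starRingEnd ℂ) z ∈ G := by
    intro z hz
    rw [hGdef] at hz ⊢
    obtain ⟨s, hs, rfl⟩ := Finset.mem_image.mp hz
    rw [← zz_refl]
    have hsZ := hGf hs
    have hsZ' : (1 - conj s) ∈ Zf := hmem.2 (zc_refl hF (hmem.1 hsZ))
    apply Finset.mem_image_of_mem
    rw [hGm _ hsZ']
    have h1 := (hGm s hsZ).1 hs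
    unfold harm DX at h1 ⊢
    have him : (1 - conj s).im = s.im := by simp
    have hre : (1 - conj s).re = 1 - s.re := by simp
    rw [him, hre]
    have h2 : |1 - s.re - 1 / 2| = |s.re - 1 / 2| := by
      rw [← abs_neg]
      congr 1
      ring
    rw [h2]
    exact h1
  have hGZ : G ⊆ Z := by
    rw [hGdef, hZdef]
    exact Finset.image_subset_image hGf
  have hZG : Z \ G = (Zf \ Gf).image zz := by
    rw [hZdef, hGdef]
    ext z
    simp only [Finset.mem_sdiff, Finset.mem_image]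
    constructor
    · rintro ⟨⟨s, hs, rfl⟩, h2⟩
      exact ⟨s, ⟨hs, fun h3 => h2 ⟨s, h3, rfl⟩⟩, rfl⟩
    · rintro ⟨s, ⟨hs, h3⟩, rfl⟩
      refine ⟨⟨s, hs, rfl⟩, ?_⟩
      rintro ⟨s', hs', h4⟩
      rw [zz_inj h4] at hs'
      exact h3 hs'
  have hac : ∀ z ∈ Z, aX F M h c m ((starRingEnd ℂ) z) = (starRingEnd ℂ) (aX F M h c m z) := by
    intro z hz
    rw [hZdef] at hz
    obtain ⟨s, hs, rfl⟩ := Finset.mem_image.mp hz
    obtain ⟨h1, h2, h3, h4, h5⟩ := hmem.1 hs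
    rw [← zz_refl, aX_zz, aX_zz, map_mul, Complex.conj_natCast, ← bX_conj, zz_refl,
      mult_refl hF h1 h2]
  obtain ⟨S, hS⟩ : ∃ S : Finset ℂ,
      S = (Z \ G).filter (fun z => z.im = 0 ∧ mult F (1 / 2 + I * z) = 1) := ⟨_, rfl⟩
  have hSZG : S ⊆ Z \ G := by
    rw [hS]
    exact Finset.filter_subset _ _
  have hSZ : S ⊆ Z := hSZG.trans Finset.sdiff_subset
  have hSG : Disjoint S G := by
    rw [Finset.disjoint_left]
    intro z hz hz2
    exact (Finset.mem_sdiff.mp (hSZG hz)).2 hz2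
  have hSr : ∀ z ∈ S, z.im = 0 ∧ 0 ≤ (aX F M h c m z).re ∧ (aX F M h c m z).re ≤ 1 := by
    intro z hz
    rw [hS] at hz
    obtain ⟨hz1, hz2, hz3⟩ := Finset.mem_filter.mp hz
    have hzr : z = ((z.re : ℝ) : ℂ) := by
      apply Complex.ext
      · simp
      · simp [hz2]
    refine ⟨hz2, ?_⟩
    unfold aX bX
    rw [hz3, Nat.cast_one, one_mul, hzr, ← ofReal_sub]
    obtain ⟨r, hr0, hr1, hr2⟩ := gg_real M hh hc (z.re - m)
    have e1 : cexp (-((z.re - m : ℝ) : ℂ) ^ 2) = ((Real.exp (-(z.re - m) ^ 2) : ℝ) : ℂ) := by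
      push_cast
      rfl
    rw [hr2, e1, ← ofReal_mul, ofReal_re]
    have h5 : Real.exp (-(z.re - m) ^ 2) ≤ 1 := Real.exp_le_one_iff.2 (by nlinarith [sq_nonneg (z.re - m)])
    have h6 := Real.exp_pos (-(z.re - m) ^ 2)
    exact ⟨mul_nonneg hr0 h6.le, mul_le_one₀ hr1 h6.le h5⟩
  have hmain := trace0 γ Λ h0 hπ hΛ Z hZ (aX F M h c m) hac S hSZ hSr G hGZ hSG hG
  have hBB : ∀ u : ℝ, ∑ z ∈ Z, aX F M h c m z * cexp (I * u * z) = SX F V1 V2 M h c m u := by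
    intro u
    rw [SX_sum F hfin, ← hZf, hZdef, Finset.sum_image hinj]
    refine Finset.sum_congr rfl fun s _ => ?_
    rw [aX_zz]
    rfl
  simp_rw [hBB] at hmain
  have hZGc : ∀ z ∈ Z \ G, (starRingEnd ℂ) z ∈ Z \ G := by
    intro z hz
    rw [Finset.mem_sdiff] at hz ⊢
    refine ⟨hZ z hz.1, fun h => hz.2 ?_⟩
    have := hG _ h
    rwa [Complex.conj_conj] at this
  rw [lhs_calc F M h c m (Zf \ Gf) (Z \ G) S hZG hZGc hS] at hmain
  have hharm : ∑ z ∈ G, ‖aX F M h c m z‖ * (1 + ‖ph γ Λ (z - (starRingEnd ℂ) z)‖) ≤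
      ∑ s ∈ Gf, (mult F s : ℝ) * (‖bX M h c m (zz s)‖ *
          (1 + Real.exp (Λ * |s.re - 1 / 2|))) := by
    rw [hGdef, Finset.sum_image hinjG]
    refine Finset.sum_le_sum fun s _ => ?_
    have h1 := ph_bound γ h0 hπ hΛ.le (zz s)
    rw [zz_im, abs_neg] at h1
    rw [aX_zz, norm_mul, Complex.norm_natCast, mul_assoc]
    gcongr
  linarith

/-- the sum over the zeros which bounds all errors -/
noncomputable def DE (F : ℂ → ℂ) (V1 V2 m h c μ r : ℝ) : ℝ :=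
  ∑ᶠ s ∈ zc F V1 V2, (mult F s : ℝ) * (Real.exp (μ * |s.re - 1 / 2|) *
    (((DX h c m s) ^ 10)⁻¹ + if |s.im - m| ≤ h then r else 0))

lemma DE_sum (F : ℂ → ℂ) {V1 V2 : ℝ} (hfin : (zc F V1 V2).Finite) (m h c μ r : ℝ) :
    DE F V1 V2 m h c μ r = ∑ s ∈ hfin.toFinset, (mult F s : ℝ) * (Real.exp (μ * |s.re - 1 / 2|) *
    (((DX h c m s) ^ 10)⁻¹ + if |s.im - m| ≤ h then r else 0)) := by
  unfold DE
  exact finsum_mem_eq_finite_toFinset_sum _ hfin

lemma sq_small {Λ δ : ℝ} (hΛ : 0 < Λ) (hδ : 0 ≤ δ) :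
    δ ^ 2 ≤ 204800 * ((1 / Λ ^ 2) * Real.exp (Λ / 320 * δ)) := by
  have h1 : (Λ / 320 * δ) ^ 2 / 2 ≤ Real.exp (Λ / 320 * δ) := by
    have := Real.quadratic_le_exp_of_nonneg (show 0 ≤ Λ / 320 * δ by positivity)
    have : 0 ≤ Λ / 320 * δ := by positivity
    linarith
  have h2 : δ ^ 2 = 204800 * ((1 / Λ ^ 2) * ((Λ / 320 * δ) ^ 2 / 2)) := by
    field_simp
    ring
  calc δ ^ 2 = 204800 * ((1 / Λ ^ 2) * ((Λ / 320 * δ) ^ 2 / 2)) := h2
    _ ≤ _ := by gcongr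

section terms

variable {M : ℕ} {h c m Λ : ℝ} {s : ℂ}

lemma pow_inv_le {D : ℝ} (hD : 1 ≤ D) {i j : ℕ} (h : i ≤ j) : (D ^ j)⁻¹ ≤ (D ^ i)⁻¹ :=
  inv_anti₀ (by positivity) (pow_le_pow_right₀ hD h)

lemma CKpi (M : ℕ) : 0 < CK M * Real.pi := mul_pos (CK_pos M) Real.pi_pos

/-- zeros which are left out -/
lemma term_harm (hM : 1605 ≤ M) (hh : 0 ≤ h) (hc : 0 < c) (hΛ : 0 < Λ)
    (hs : |s.re - 1 / 2| ≤ 1 / 2) (hx : harm h c m Λ s) :
    ‖bX M h c m (zz s)‖ * (1 + Real.exp (Λ * |s.re - 1 / 2|)) ≤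
      4 * (CK M * Real.pi) * (Real.exp ((c + Λ / 320) * |s.re - 1 / 2|) *
        ((DX h c m s) ^ 10)⁻¹) := by
  have h1 := bX_out M hh hc s hs hx.1.le
  have hD := DX_one (h := h) (m := m) hc.le s
  have hδ := abs_nonneg (s.re - 1 / 2)
  have h2 : 1 + Real.exp (Λ * |s.re - 1 / 2|) ≤ 2 * (DX h c m s) ^ 3200 := by
    have : 1 ≤ Real.exp (Λ * |s.re - 1 / 2|) := Real.one_le_exp (by positivity)
    linarith [hx.2]
  have hK := CKpi M
  have h3 : Real.exp (c * |s.re - 1 / 2|) ≤ Real.exp ((c + Λ / 320) * |s.re - 1 / 2|) := by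
    apply Real.exp_le_exp.2
    apply mul_le_mul_of_nonneg_right _ hδ
    linarith [div_nonneg hΛ.le (by norm_num : (0 : ℝ) ≤ 320)]
  have h4 : ((DX h c m s) ^ (2 * M))⁻¹ * (DX h c m s) ^ 3200 ≤ ((DX h c m s) ^ 10)⁻¹ := by
    rw [inv_mul_le_iff₀ (by positivity), ← div_eq_mul_inv, le_div_iff₀ (by positivity), ← pow_add]
    exact pow_le_pow_right₀ hD (by omega)
  calc _ ≤ (2 * (CK M * Real.pi) * Real.exp (c * |s.re - 1 / 2|) * ((DX h c m s) ^ (2 * M))⁻¹) *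
        (2 * (DX h c m s) ^ 3200) := mul_le_mul h1 h2 (by positivity) ((norm_nonneg _).trans h1)
    _ = 4 * (CK M * Real.pi) * (Real.exp (c * |s.re - 1 / 2|) *
        (((DX h c m s) ^ (2 * M))⁻¹ * (DX h c m s) ^ 3200)) := by ring
    _ ≤ _ := by gcongr

/-- other zeros outside the window -/
lemma term_out (hh : 0 ≤ h) (hc : 0 < c) (hΛ : 0 < Λ)
    (hs : |s.re - 1 / 2| ≤ 1 / 2) (hx : h < |s.im - m|) (hx2 : ¬ harm h c m Λ s) :
    4 * ‖bX M h c m (zz s)‖ + 4 ≤ (8 * (CK M * Real.pi) + 4) *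
      (Real.exp ((c + Λ / 320) * |s.re - 1 / 2|) * ((DX h c m s) ^ 10)⁻¹) := by
  have h1 := bX_out M hh hc s hs hx.le
  have hD := DX_one (h := h) (m := m) hc.le s
  have hδ := abs_nonneg (s.re - 1 / 2)
  have hK := CKpi M
  have h2 : (DX h c m s) ^ 3200 < Real.exp (Λ * |s.re - 1 / 2|) := by
    by_contra h5
    exact hx2 ⟨hx, not_lt.1 h5⟩
  have h3 : (DX h c m s) ^ 10 ≤ Real.exp (Λ / 320 * |s.re - 1 / 2|) := by
    have h4 : ((DX h c m s) ^ 10) ^ 320 < (Real.exp (Λ / 320 * |s.re - 1 / 2|)) ^ 320 := by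
      rw [← pow_mul, ← Real.exp_nat_mul]
      have e : ((320 : ℕ) : ℝ) * (Λ / 320 * |s.re - 1 / 2|) = Λ * |s.re - 1 / 2| := by
        push_cast
        ring
      rw [e]
      exact h2
    exact (lt_of_pow_lt_pow_left₀ 320 (Real.exp_pos _).le h4).le
  have h4 : Real.exp (c * |s.re - 1 / 2|) ≤ Real.exp ((c + Λ / 320) * |s.re - 1 / 2|) *
      ((DX h c m s) ^ 10)⁻¹ := by
    rw [← div_eq_mul_inv, le_div_iff₀ (by positivity), add_mul, Real.exp_add]
    gcongr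
  have h5 : ((DX h c m s) ^ (2 * M))⁻¹ ≤ 1 := inv_le_one_of_one_le₀ (one_le_pow₀ hD)
  have h6 : 1 ≤ Real.exp (c * |s.re - 1 / 2|) := Real.one_le_exp (by positivity)
  calc 4 * ‖bX M h c m (zz s)‖ + 4 ≤
        4 * (2 * (CK M * Real.pi) * Real.exp (c * |s.re - 1 / 2|) * 1) +
          4 * Real.exp (c * |s.re - 1 / 2|) := by
        refine add_le_add ?_ (by linarith)
        refine mul_le_mul_of_nonneg_left (h1.trans ?_) (by norm_num)
        gcongr
    _ = (8 * (CK M * Real.pi) + 4) * Real.exp (c * |s.re - 1 / 2|) := by ring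
    _ ≤ _ := mul_le_mul_of_nonneg_left h4 (by positivity)

/-- zeros in the window -/
lemma term_in (hM : 1605 ≤ M) (hh : h ≤ 1 / 2) (hc : 0 < c) (hΛ : 0 < Λ)
    (hs : |s.re - 1 / 2| ≤ 1 / 2) (hx : |s.im - m| ≤ h) :
    ‖bX M h c m (zz s) - 1‖ ≤ (2 * (CK M * Real.pi) + 409600) *
      (Real.exp ((c + Λ / 320) * |s.re - 1 / 2|) *
        (((DX h c m s) ^ 10)⁻¹ + (h ^ 2 + 1 / Λ ^ 2))) := by
  have h1 := bX_in M hh hc s hs hx
  have hD := DX_one (h := h) (m := m) hc.le s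
  have hδ := abs_nonneg (s.re - 1 / 2)
  have hK := CKpi M
  set X := Real.exp ((c + Λ / 320) * |s.re - 1 / 2|) with hX
  have hX1 : 1 ≤ X := Real.one_le_exp (by positivity)
  have h3 : Real.exp (c * |s.re - 1 / 2|) ≤ X := by
    apply Real.exp_le_exp.2
    apply mul_le_mul_of_nonneg_right _ hδ
    linarith [div_nonneg hΛ.le (by norm_num : (0 : ℝ) ≤ 320)]
  have h3' : Real.exp (Λ / 320 * |s.re - 1 / 2|) ≤ X := by
    apply Real.exp_le_exp.2
    apply mul_le_mul_of_nonneg_right _ hδ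
    linarith
  have h4 : ((DX h c m s) ^ (2 * M))⁻¹ ≤ ((DX h c m s) ^ 10)⁻¹ := pow_inv_le hD (by omega)
  have h5 := sq_small hΛ hδ
  rw [sq_abs] at h5
  have h6 : (s.re - 1 / 2) ^ 2 ≤ 204800 * ((1 / Λ ^ 2) * X) := h5.trans (by gcongr)
  have h7 : h ^ 2 ≤ h ^ 2 * X := le_mul_of_one_le_right (sq_nonneg _) hX1
  have h8 : 2 * (CK M * Real.pi) * Real.exp (c * |s.re - 1 / 2|) * ((DX h c m s) ^ (2 * M))⁻¹ ≤
      2 * (CK M * Real.pi) * X * ((DX h c m s) ^ 10)⁻¹ := by gcongr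
  have h9 : 0 ≤ 2 * (CK M * Real.pi) * X * (h ^ 2 + 1 / Λ ^ 2) := by positivity
  have h10 : 0 ≤ X * ((DX h c m s) ^ 10)⁻¹ := by positivity
  have h11 : 0 ≤ h ^ 2 * X := by positivity
  have e : (2 * (CK M * Real.pi) + 409600) *
      (X * (((DX h c m s) ^ 10)⁻¹ + (h ^ 2 + 1 / Λ ^ 2))) =
      2 * (CK M * Real.pi) * X * ((DX h c m s) ^ 10)⁻¹ +
      2 * (CK M * Real.pi) * X * (h ^ 2 + 1 / Λ ^ 2) + 409600 * (X * ((DX h c m s) ^ 10)⁻¹) +
      409600 * (h ^ 2 * X) + 409600 * ((1 / Λ ^ 2) * X) := by ring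
  rw [e]
  linarith

end terms

lemma kk_le (F : ℂ → ℂ) (s : ℂ) : kk F s ≤ 4 := by
  unfold H385.PerChi.kk
  split_ifs <;> norm_num

/-- **the inequality for one L-function** -/
theorem per_chi (M : ℕ) (hM : 1605 ≤ M) : ∃ C : ℝ, 0 < C ∧
    ∀ (γ : ℝ), 0 < γ → γ < Real.pi →
    ∀ (A ℒ E H q0 : ℝ) (F : ℂ → ℂ) (a : ℕ → ℂ), GoodX A ℒ E H q0 F a →
    ∀ (w : ℂ → ℝ), (∀ s, 1 ≤ mult F s → w s ≤ 4 * (mult F s : ℝ) - kk F s) →
    ∀ (h c m Λ V1 V2 : ℝ), 0 ≤ h → h ≤ 1 / 2 → 0 < c → 0 < Λ →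
    ∀ hfin : (zc F V1 V2).Finite,
      ∑ s ∈ hfin.toFinset with |s.im - m| ≤ h, w s ≤
        (2 / Λ) * (∫ u in (0 : ℝ)..Λ, Rw γ (u / Λ) * ‖SX F V1 V2 M h c m u‖ ^ 2) +
        C * DE F V1 V2 m h c (c + Λ / 320) (h ^ 2 + 1 / Λ ^ 2) := by
  have hK := CKpi M
  refine ⟨16 * (CK M * Real.pi) + 4 * 409600 + 4, by positivity, ?_⟩
  intro γ h0 hπ A ℒ E H q0 F a hF w hw h c m Λ V1 V2 hh hh2 hc hΛ hfin
  classical
  obtain ⟨Gf, hGdef⟩ : ∃ Gf : Finset ℂ, Gf = hfin.toFinset.filter (fun s => harm h c m Λ s) :=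
    ⟨_, rfl⟩
  have hGf : Gf ⊆ hfin.toFinset := by
    rw [hGdef]
    exact Finset.filter_subset _ _
  have hGm : ∀ s ∈ hfin.toFinset, (s ∈ Gf ↔ harm h c m Λ s) := by
    intro s hs
    rw [hGdef, Finset.mem_filter]
    exact ⟨fun h => h.2, fun h => ⟨hs, h⟩⟩
  have h1 := trace_part γ h0 hπ hF M (h := h) (c := c) (m := m) hh hc hΛ hfin Gf hGf hGm
  obtain ⟨C, hCdef⟩ : ∃ C : ℝ, C = 16 * (CK M * Real.pi) + 4 * 409600 + 4 := ⟨_, rfl⟩
  rw [← hCdef]
  obtain ⟨e, he⟩ : ∃ e : ℂ → ℝ, e = fun s => Real.exp ((c + Λ / 320) * |s.re - 1 / 2|) *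
    (((DX h c m s) ^ 10)⁻¹ + if |s.im - m| ≤ h then (h ^ 2 + 1 / Λ ^ 2) else 0) := ⟨_, rfl⟩
  have he0 : ∀ s, Real.exp ((c + Λ / 320) * |s.re - 1 / 2|) * ((DX h c m s) ^ 10)⁻¹ ≤ e s := by
    intro s
    have hD := DX_one (h := h) (m := m) hc.le s
    rw [he]
    refine mul_le_mul_of_nonneg_left ?_ (Real.exp_pos _).le
    have : (0 : ℝ) ≤ if |s.im - m| ≤ h then (h ^ 2 + 1 / Λ ^ 2) else 0 := by
      split_ifs
      · positivity
      · exact le_rfl
    linarith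
  rw [DE_sum F hfin]
  have h2 : ∀ s ∈ hfin.toFinset, |s.re - 1 / 2| ≤ 1 / 2 ∧ 1 ≤ mult F s := by
    intro s hs
    rw [Set.Finite.mem_toFinset] at hs
    refine ⟨abs_le.2 ⟨by linarith [hs.1], by linarith [hs.2.1]⟩, ?_⟩
    exact mult_posB hF hs.2.2.2.2
  -- bound of the sum over `G`
  have h3 : 4 * ∑ s ∈ Gf, (mult F s : ℝ) * (‖bX M h c m (zz s)‖ *
          (1 + Real.exp (Λ * |s.re - 1 / 2|))) ≤ ∑ s ∈ Gf, C * ((mult F s : ℝ) * e s) := by
    rw [Finset.mul_sum]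
    refine Finset.sum_le_sum fun s hs => ?_
    have hsZ := hGf hs
    have h4 := term_harm hM hh hc hΛ (h2 s hsZ).1 ((hGm s hsZ).1 hs)
    have h5 := he0 s
    have h6 : 0 ≤ (mult F s : ℝ) := Nat.cast_nonneg _
    have h7 : 0 ≤ e s := le_trans (by
      have hD := DX_one (h := h) (m := m) hc.le s
      positivity) h5
    calc 4 * ((mult F s : ℝ) * (‖bX M h c m (zz s)‖ * (1 + Real.exp (Λ * |s.re - 1 / 2|)))) ≤
          4 * ((mult F s : ℝ) * (4 * (CK M * Real.pi) * e s)) := by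
          refine mul_le_mul_of_nonneg_left (mul_le_mul_of_nonneg_left (h4.trans ?_) h6) (by norm_num)
          exact mul_le_mul_of_nonneg_left h5 (by positivity)
      _ = (16 * (CK M * Real.pi)) * ((mult F s : ℝ) * e s) := by ring
      _ ≤ _ := by
        refine mul_le_mul_of_nonneg_right ?_ (mul_nonneg h6 h7)
        rw [hCdef]
        linarith
  -- the other zeros
  have h4 : ∀ s ∈ hfin.toFinset \ Gf, (if |s.im - m| ≤ h then w s else 0) ≤
      (4 * (mult F s : ℝ) * (bX M h c m (zz s)).re - kk F s) + C * ((mult F s : ℝ) * e s) := by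
    intro s hs
    obtain ⟨hs1, hs2⟩ := Finset.mem_sdiff.1 hs
    obtain ⟨hs3, hs4⟩ := h2 s hs1
    have h6 : (1 : ℝ) ≤ (mult F s : ℝ) := by exact_mod_cast hs4
    have hnot : ¬ harm h c m Λ s := fun h => hs2 ((hGm s hs1).2 h)
    have hD := DX_one (h := h) (m := m) hc.le s
    by_cases hx : |s.im - m| ≤ h
    · rw [if_pos hx]
      have h7 := term_in hM hh2 hc hΛ hs3 hx
      have h8 : e s = Real.exp ((c + Λ / 320) * |s.re - 1 / 2|) *
        (((DX h c m s) ^ 10)⁻¹ + (h ^ 2 + 1 / Λ ^ 2)) := by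
        rw [he]
        simp only
        rw [if_pos hx]
      rw [← h8] at h7
      have h9 : 0 ≤ e s := by rw [h8]; positivity
      have h10 : 1 - (bX M h c m (zz s)).re ≤ ‖bX M h c m (zz s) - 1‖ := by
        have h11 := Complex.abs_re_le_norm (bX M h c m (zz s) - 1)
        rw [Complex.sub_re, one_re] at h11
        linarith [neg_abs_le ((bX M h c m (zz s)).re - 1)]
      have h12 := hw s hs4
      have h13 : 4 * (mult F s : ℝ) * (1 - (bX M h c m (zz s)).re) ≤ C * ((mult F s : ℝ) * e s) := by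
        calc 4 * (mult F s : ℝ) * (1 - (bX M h c m (zz s)).re) ≤
              4 * (mult F s : ℝ) * ((2 * (CK M * Real.pi) + 409600) * e s) :=
              mul_le_mul_of_nonneg_left (h10.trans h7) (by linarith)
          _ = (8 * (CK M * Real.pi) + 4 * 409600) * ((mult F s : ℝ) * e s) := by ring
          _ ≤ _ := by
            refine mul_le_mul_of_nonneg_right ?_ (by positivity)
            rw [hCdef]
            linarith
      linarith
    · rw [if_neg hx]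
      have h7 := term_out (M := M) hh hc hΛ hs3 (not_le.1 hx) hnot
      have h8 := he0 s
      have h9 : 0 ≤ e s := le_trans (by positivity) h8
      have h10 : -‖bX M h c m (zz s)‖ ≤ (bX M h c m (zz s)).re := by
        have h11 := Complex.abs_re_le_norm (bX M h c m (zz s))
        linarith [neg_abs_le ((bX M h c m (zz s)).re)]
      have h12 := kk_le F s
      have h13 : (mult F s : ℝ) * (4 * ‖bX M h c m (zz s)‖ + 4) ≤ C * ((mult F s : ℝ) * e s) := by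
        calc (mult F s : ℝ) * (4 * ‖bX M h c m (zz s)‖ + 4) ≤
              (mult F s : ℝ) * ((8 * (CK M * Real.pi) + 4) * e s) := by
              refine mul_le_mul_of_nonneg_left (h7.trans ?_) (by linarith)
              exact mul_le_mul_of_nonneg_left h8 (by positivity)
          _ = (8 * (CK M * Real.pi) + 4) * ((mult F s : ℝ) * e s) := by ring
          _ ≤ _ := by
            refine mul_le_mul_of_nonneg_right ?_ (by positivity)
            rw [hCdef]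
            linarith
      have h14 : (mult F s : ℝ) * -‖bX M h c m (zz s)‖ ≤ (mult F s : ℝ) * (bX M h c m (zz s)).re :=
        mul_le_mul_of_nonneg_left h10 (by linarith)
      nlinarith
  have h5 : ∑ s ∈ hfin.toFinset with |s.im - m| ≤ h, w s =
      ∑ s ∈ hfin.toFinset \ Gf, if |s.im - m| ≤ h then w s else 0 := by
    rw [Finset.sum_filter]
    symm
    refine Finset.sum_subset Finset.sdiff_subset fun s hs hs2 => ?_
    have hsG : s ∈ Gf := by
      by_contra h6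
      exact hs2 (Finset.mem_sdiff.2 ⟨hs, h6⟩)
    have h7 := ((hGm s hs).1 hsG).1
    rw [if_neg (not_le.2 h7)]
  rw [h5]
  have h6 := Finset.sum_le_sum h4
  rw [Finset.sum_add_distrib] at h6
  have h7 : C * ∑ s ∈ hfin.toFinset, (mult F s : ℝ) * (Real.exp ((c + Λ / 320) * |s.re - 1 / 2|) *
    (((DX h c m s) ^ 10)⁻¹ + if |s.im - m| ≤ h then (h ^ 2 + 1 / Λ ^ 2) else 0)) =
      ∑ s ∈ hfin.toFinset \ Gf, C * ((mult F s : ℝ) * e s) + ∑ s ∈ Gf, C * ((mult F s : ℝ) * e s) := by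
    rw [Finset.sum_sdiff hGf, Finset.mul_sum]
    rw [he]
  rw [h7]
  linarith

/-- **the number of zeros in the window** -/
theorem per_count (M : ℕ) (hM : 1605 ≤ M) : ∃ C : ℝ, 0 < C ∧
    ∀ (A ℒ E H q0 : ℝ) (F : ℂ → ℂ) (a : ℕ → ℂ), GoodX A ℒ E H q0 F a →
    ∀ (h c m Λ V1 V2 : ℝ), 0 ≤ h → h ≤ 1 / 2 → 0 < c → 0 < Λ →
    ∀ hfin : (zc F V1 V2).Finite,
      |(∑ s ∈ hfin.toFinset with |s.im - m| ≤ h, (mult F s : ℝ)) - (SX F V1 V2 M h c m 0).re| ≤
        C * DE F V1 V2 m h c (c + Λ / 320) (h ^ 2 + 1 / Λ ^ 2) := by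
  have hK := CKpi M
  refine ⟨2 * (CK M * Real.pi) + 409600, by positivity, ?_⟩
  intro A ℒ E H q0 F a hF h c m Λ V1 V2 hh hh2 hc hΛ hfin
  have h1 : (SX F V1 V2 M h c m 0).re = ∑ s ∈ hfin.toFinset, (mult F s : ℝ) * (bX M h c m (zz s)).re := by
    rw [SX_sum F hfin, Complex.re_sum]
    refine Finset.sum_congr rfl fun s _ => ?_
    rw [ofReal_zero, mul_zero, zero_mul, Complex.exp_zero, mul_one, ← Complex.ofReal_natCast,
      Complex.re_ofReal_mul]
    rfl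
  rw [h1, Finset.sum_filter, ← Finset.sum_sub_distrib, DE_sum F hfin, Finset.mul_sum]
  refine (Finset.abs_sum_le_sum_abs _ _).trans (Finset.sum_le_sum fun s hs => ?_)
  rw [Set.Finite.mem_toFinset] at hs
  have hs3 : |s.re - 1 / 2| ≤ 1 / 2 := abs_le.2 ⟨by linarith [hs.1], by linarith [hs.2.1]⟩
  have hm0 : 0 ≤ (mult F s : ℝ) := Nat.cast_nonneg _
  have hD := DX_one (h := h) (m := m) hc.le s
  have hδ := abs_nonneg (s.re - 1 / 2)
  by_cases hx : |s.im - m| ≤ h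
  · rw [if_pos hx, if_pos hx]
    have h7 := term_in hM hh2 hc hΛ hs3 hx
    have h10 : |1 - (bX M h c m (zz s)).re| ≤ ‖bX M h c m (zz s) - 1‖ := by
      have h11 := Complex.abs_re_le_norm (bX M h c m (zz s) - 1)
      rw [Complex.sub_re, one_re] at h11
      rwa [abs_sub_comm]
    calc |(mult F s : ℝ) - (mult F s : ℝ) * (bX M h c m (zz s)).re| =
          (mult F s : ℝ) * |1 - (bX M h c m (zz s)).re| := by
          rw [← abs_of_nonneg hm0, ← abs_mul, abs_of_nonneg hm0]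
          congr 1
          ring
      _ ≤ (mult F s : ℝ) * ((2 * (CK M * Real.pi) + 409600) *
      (Real.exp ((c + Λ / 320) * |s.re - 1 / 2|) *
        (((DX h c m s) ^ 10)⁻¹ + (h ^ 2 + 1 / Λ ^ 2)))) :=
          mul_le_mul_of_nonneg_left (h10.trans h7) hm0
      _ = _ := by ring
  · rw [if_neg hx, if_neg hx, add_zero, zero_sub, abs_neg, abs_mul, abs_of_nonneg hm0]
    have h7 := bX_out M hh hc s hs3 (not_le.1 hx).le
    have h8 : ((DX h c m s) ^ (2 * M))⁻¹ ≤ ((DX h c m s) ^ 10)⁻¹ := pow_inv_le hD (by omega)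
    have h9 : Real.exp (c * |s.re - 1 / 2|) ≤ Real.exp ((c + Λ / 320) * |s.re - 1 / 2|) := by
      apply Real.exp_le_exp.2
      apply mul_le_mul_of_nonneg_right _ hδ
      linarith [div_nonneg hΛ.le (by norm_num : (0 : ℝ) ≤ 320)]
    have h10 := Complex.abs_re_le_norm (bX M h c m (zz s))
    calc (mult F s : ℝ) * |(bX M h c m (zz s)).re| ≤
          (mult F s : ℝ) * (2 * (CK M * Real.pi) * Real.exp ((c + Λ / 320) * |s.re - 1 / 2|) *
            ((DX h c m s) ^ 10)⁻¹) := by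
          refine mul_le_mul_of_nonneg_left (h10.trans (h7.trans ?_)) hm0
          gcongr
      _ = (2 * (CK M * Real.pi)) * ((mult F s : ℝ) *
        (Real.exp ((c + Λ / 320) * |s.re - 1 / 2|) * ((DX h c m s) ^ 10)⁻¹)) := by ring
      _ ≤ _ := by
          refine mul_le_mul_of_nonneg_right ?_ (by positivity)
          linarith

end Pool.Agent.KS6_85.LZ
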