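import Pool.Agent.KS6_85.SD.Mom
import Pool.Agent.KS6_85.LZ.Per
import Pool.Graph.R_seed8.H385R2.PrimSetM

/-!
# The average over the family of the sums over the zeros
-/

set_option autoImplicit false
set_option maxHeartbeats 1000000

namespace Pool.Agent.KS6_85.LZ

open Finset Filter Topology Complex MeasureTheory
open Pool.Agent.R399.TW Pool.Agent.R399.TM Pool.Agent.KS6_85.SD
open scoped ComplexConjugate

/-- the sum of `Q ^ ((Re s - 1/2) / 80)` over the zeros to the right, with the edge -/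
noncomputable def mz1 (F : ℂ → ℂ) (Q : ℕ) (t H : ℝ) : ℝ :=
  ∑ᶠ s ∈ {s : ℂ | s ∈ reg 0 t H ∧ F s = 0},
    (analyticOrderNatAt F s : ℝ) * (Q : ℝ) ^ ((s.re - 1 / 2) / 80)

lemma reg_fin {F : ℂ → ℂ} (hd : Differentiable ℂ F) (hne : ∀ s : ℂ, 1 < s.re → F s ≠ 0)
    {δ : ℝ} (hδ : 0 ≤ δ) (t H : ℝ) : {s : ℂ | s ∈ reg δ t H ∧ F s = 0}.Finite := by
  refine (fin_zeros hd (two_ne hne) (S := Metric.closedBall (pt (1 / 2) t) (1 + H))
    (w := pt (1 / 2) t)
    (R := 1 + H) fun s hs => by rwa [Metric.mem_closedBall, dist_eq_norm] at hs).subset ?_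
  rintro s ⟨⟨hs1, hs3⟩, hs2⟩
  refine ⟨?_, hs2⟩
  rw [Metric.mem_closedBall, dist_eq_norm]
  have hre : s.re ≤ 1 := by
    by_contra hcon
    exact hne s (not_le.1 hcon) hs2
  refine (Complex.norm_le_abs_re_add_abs_im _).trans ?_
  rw [Complex.sub_re, Complex.sub_im, pt_re, pt_im]
  have : |s.re - 1 / 2| ≤ 1 := by
    rw [abs_le]
    constructor <;> linarith
  linarith

/-- **exponential moments** -/
theorem dens_mom1 {m N : ℕ} (hm : m ≤ 3) {L : (q : ℕ) → DirichletCharacter ℂ q → ℂ → ℂ}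
    (h : Fo m N L) (h' : Fm m N L)
    :
    ∃ C : ℝ, 0 ≤ C ∧ ∀ (Q : ℕ) (t H : ℝ), 1 ≤ Q → 0 ≤ H → H ≤ 1 →
      ∑ i ∈ idx N Q, mz1 (L i.1 i.2) Q t H ≤
        C * (2 + |t|) ^ (3 * m + 2) * (1 + H * Real.log Q) * (Q : ℝ) ^ 2 := by
  classical
  obtain ⟨C, hC, hd⟩ := dens hm h h'
  refine ⟨164 * C, by positivity, ?_⟩
  intro Q t H hQ hH0 hH1
  have hq1 : (1 : ℝ) ≤ Q := by exact_mod_cast hQ
  have hq0 : (0 : ℝ) < Q := by linarith
  have hlq : 0 ≤ Real.log Q := Real.log_nonneg hq1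
  set lq : ℝ := Real.log Q with hlqd
  rcases hlq.eq_or_lt with hz | hlq0
  · -- `Q = 1`
    have hQ1 : Q = 1 := by
      have h1 : (Q : ℝ) = 1 := by
        rcases (Real.log_eq_zero.1 hz.symm) with h | h | h
        · linarith
        · exact h
        · linarith
      exact_mod_cast h1
    have hidx : idx N Q = ∅ := by
      rw [Finset.eq_empty_iff_forall_notMem]
      intro i hi
      rw [mem_idx] at hi
      omega
    rw [hidx, Finset.sum_empty]
    positivity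
  set X : ℝ := C * (2 + |t|) ^ (3 * m + 2) * (1 + H * lq) * (Q : ℝ) ^ 2 with hX
  have hX0 : 0 ≤ X := by positivity
  set K : ℕ := ⌊lq / 2⌋₊ with hK
  have hKl : (K : ℝ) ≤ lq / 2 := Nat.floor_le (by positivity)
  -- the bound for a single distance
  have hdk : ∀ k : ℕ, k ≤ K → ∑ i ∈ idx N Q, (nz (L i.1 i.2) (reg ((k : ℝ) / lq) t H) : ℝ) ≤
      X * Real.exp (-(k : ℝ) / 40) := by
    intro k hk
    have h1 : (k : ℝ) ≤ lq / 2 := le_trans (by exact_mod_cast hk) hKl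
    have h2 : (k : ℝ) / lq ≤ 1 / 2 := by
      rw [div_le_iff₀ hlq0]
      linarith
    refine (hd Q t H ((k : ℝ) / lq) hQ hH0 hH1 (by positivity) h2).trans (le_of_eq ?_)
    rw [hX, show (2 : ℝ) - (k : ℝ) / lq / 40 = ((2 : ℕ) : ℝ) + -((k : ℝ) / lq / 40) by
      push_cast; ring, Real.rpow_add hq0, Real.rpow_natCast, Real.rpow_def_of_pos hq0, ← hlqd]
    have h3 : lq * -((k : ℝ) / lq / 40) = -(k : ℝ) / 40 := by
      field_simp
    rw [h3]
    ring
  -- a single member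
  have hmem : ∀ i ∈ idx N Q, mz1 (L i.1 i.2) Q t H ≤
      2 * ((nz (L i.1 i.2) (reg ((0 : ℕ) / lq) t H) : ℝ) + ∑ k ∈ Icc 1 K, Real.exp ((k : ℝ) / 80) *
        (nz (L i.1 i.2) (reg ((k : ℝ) / lq) t H) : ℝ)) := by
    intro i hi
    obtain ⟨hdi, hne⟩ := fo_mem h hi
    have hfin : ∀ δ : ℝ, 0 ≤ δ → {s : ℂ | s ∈ reg δ t H ∧ L i.1 i.2 s = 0}.Finite :=
      fun δ hδ => reg_fin hdi hne hδ t H
    unfold mz1
    rw [finsum_mem_eq_finite_toFinset_sum _ (hfin 0 le_rfl)]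
    set Z := (hfin 0 le_rfl).toFinset with hZ
    have hnzk : ∀ k : ℕ, (nz (L i.1 i.2) (reg ((k : ℝ) / lq) t H) : ℝ) =
        ∑ s ∈ Z, if (k : ℝ) ≤ (s.re - 1 / 2) * lq then (analyticOrderNatAt (L i.1 i.2) s : ℝ)
          else 0 := by
      intro k
      rw [nz_eq (hfin _ (by positivity)), ← Finset.sum_filter]
      push_cast
      refine Finset.sum_congr ?_ fun _ _ => rfl
      ext s
      rw [Finset.mem_filter, hZ, Set.Finite.mem_toFinset, Set.Finite.mem_toFinset]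
      unfold reg
      simp only [Set.mem_ofPred_eq]
      constructor
      · rintro ⟨⟨s1, s2⟩, s3⟩
        have h9 : 0 ≤ (k : ℝ) / lq := by positivity
        refine ⟨⟨⟨by linarith, s2⟩, s3⟩, ?_⟩
        rw [← div_le_iff₀ hlq0]
        linarith
      · rintro ⟨⟨⟨s1, s2⟩, s3⟩, s4⟩
        rw [← div_le_iff₀ hlq0] at s4
        exact ⟨⟨by linarith, s2⟩, s3⟩
    rw [hnzk 0]
    have h1 : ∀ k ∈ Icc 1 K, Real.exp ((k : ℝ) / 80) *
        (nz (L i.1 i.2) (reg ((k : ℝ) / lq) t H) : ℝ) =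
        ∑ s ∈ Z, Real.exp ((k : ℝ) / 80) * (if (k : ℝ) ≤ (s.re - 1 / 2) * lq then
          (analyticOrderNatAt (L i.1 i.2) s : ℝ) else 0) := by
      intro k _
      rw [hnzk k, Finset.mul_sum]
    rw [Finset.sum_congr rfl h1, Finset.sum_comm, ← Finset.sum_add_distrib, Finset.mul_sum]
    refine Finset.sum_le_sum fun s hs => ?_
    rw [hZ, Set.Finite.mem_toFinset] at hs
    obtain ⟨⟨s1, s2⟩, s5⟩ := hs
    have s6 : s.re ≤ 1 := by
      by_contra hcon
      exact hne s (not_le.1 hcon) s5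
    set x : ℝ := (s.re - 1 / 2) * lq with hx
    have hx0 : 0 ≤ x := by
      have : 0 ≤ s.re - 1 / 2 := by linarith
      positivity
    have hx1 : x ≤ lq / 2 := by
      have : (s.re - 1 / 2) ≤ 1 / 2 := by linarith
      calc x ≤ 1 / 2 * lq := by rw [hx]; gcongr
        _ = _ := by ring
    have e1 : (Q : ℝ) ^ ((s.re - 1 / 2) / 80) = Real.exp (x / 80) := by
      rw [Real.rpow_def_of_pos hq0, ← hlqd, hx]
      congr 1
      ring
    rw [e1, if_pos (by push_cast; exact hx0)]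
    have h2 := exp_le_steps x
    have hfl : ⌊x⌋₊ ≤ K := Nat.floor_le_floor hx1
    have h3 : ∑ k ∈ Icc 1 K, Real.exp ((k : ℝ) / 80) * (if (k : ℝ) ≤ x then
        (analyticOrderNatAt (L i.1 i.2) s : ℝ) else 0) =
        (analyticOrderNatAt (L i.1 i.2) s : ℝ) * ∑ k ∈ Icc 1 ⌊x⌋₊, Real.exp ((k : ℝ) / 80) := by
      rw [Finset.mul_sum]
      have h4 : Icc 1 ⌊x⌋₊ = (Icc 1 K).filter (fun k : ℕ => (k : ℝ) ≤ x) := by
        ext k
        rw [Finset.mem_filter, Finset.mem_Icc, Finset.mem_Icc]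
        constructor
        · rintro ⟨k1, k2⟩
          exact ⟨⟨k1, k2.trans hfl⟩, (Nat.le_floor_iff hx0).1 k2⟩
        · rintro ⟨⟨k1, k2⟩, k3⟩
          exact ⟨k1, (Nat.le_floor_iff hx0).2 k3⟩
      rw [h4, Finset.sum_filter]
      refine Finset.sum_congr rfl fun k _ => ?_
      split_ifs <;> ring
    rw [h3]
    have h5 : (0 : ℝ) ≤ (analyticOrderNatAt (L i.1 i.2) s : ℝ) := Nat.cast_nonneg _
    calc (analyticOrderNatAt (L i.1 i.2) s : ℝ) * Real.exp (x / 80)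
        ≤ (analyticOrderNatAt (L i.1 i.2) s : ℝ) *
          (2 * (1 + ∑ k ∈ Icc 1 ⌊x⌋₊, Real.exp ((k : ℝ) / 80))) := by gcongr
      _ = _ := by ring
  refine (Finset.sum_le_sum hmem).trans ?_
  rw [← Finset.mul_sum, Finset.sum_add_distrib, Finset.sum_comm]
  have h1 := hdk 0 (Nat.zero_le K)
  have h2 : ∑ k ∈ Icc 1 K, ∑ i ∈ idx N Q, Real.exp ((k : ℝ) / 80) *
      (nz (L i.1 i.2) (reg ((k : ℝ) / lq) t H) : ℝ) ≤ 81 * X := by
    have h3 : ∀ k ∈ Icc 1 K, ∑ i ∈ idx N Q, Real.exp ((k : ℝ) / 80) *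
        (nz (L i.1 i.2) (reg ((k : ℝ) / lq) t H) : ℝ) ≤ X * Real.exp (-(1 / 80)) ^ k := by
      intro k hk
      rw [Finset.mem_Icc] at hk
      rw [← Finset.mul_sum]
      calc Real.exp ((k : ℝ) / 80) *
            ∑ i ∈ idx N Q, (nz (L i.1 i.2) (reg ((k : ℝ) / lq) t H) : ℝ)
          ≤ Real.exp ((k : ℝ) / 80) * (X * Real.exp (-(k : ℝ) / 40)) := by
            gcongr
            exact hdk k hk.2
        _ = X * (Real.exp ((k : ℝ) / 80) * Real.exp (-(k : ℝ) / 40)) := by ring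
        _ = _ := by
            rw [← Real.exp_add, ← Real.exp_nat_mul]
            congr 2
            ring
    refine (Finset.sum_le_sum h3).trans ?_
    rw [← Finset.mul_sum]
    set y : ℝ := Real.exp (-(1 / 80)) with hy
    have hy0 : 0 < y := Real.exp_pos _
    have hy1 : y < 1 := by
      rw [hy, ← Real.exp_zero]
      exact Real.exp_lt_exp.2 (by norm_num)
    have h6 : ∑ k ∈ Icc 1 K, y ^ k ≤ (1 - y)⁻¹ :=
      sum_le_hasSum (Icc 1 K) (fun n _ => by positivity) (hasSum_geometric_of_lt_one hy0.le hy1)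
    have h7 : (1 - y)⁻¹ ≤ 81 := by
      have h8 := Real.add_one_le_exp (1 / 80 : ℝ)
      have h9 : y * Real.exp (1 / 80) = 1 := by
        rw [hy, ← Real.exp_add, neg_add_cancel, Real.exp_zero]
      have h10 : y ≤ 80 / 81 := by nlinarith
      rw [inv_le_comm₀ (by linarith) (by norm_num)]
      linarith
    calc X * ∑ k ∈ Icc 1 K, y ^ k ≤ X * 81 := by
          gcongr
          exact h6.trans h7
      _ = _ := by ring
  have h3 : X * Real.exp (-((0 : ℕ) : ℝ) / 40) = X := by simp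
  rw [h3] at h1
  calc 2 * (_ + _) ≤ 2 * (X + 81 * X) := by gcongr
    _ = _ := by rw [hX]; ring



end Pool.Agent.KS6_85.LZ
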