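import Pool.Agent.KS6_85.LZ.Defs
import Pool.Agent.KS6_85.LZ.MS
import Pool.Agent.KS6_85.SD.Two
import Pool.Graph.R_pool_sql_team_seeded_620a6dc7.A856.BH.GoodLH

/-!
# The analytic input for the twists of a newform of weight 2
-/

set_option autoImplicit false
set_option maxHeartbeats 1000000

namespace Pool.Agent.KS6_85.LZ

open Finset Filter Topology Complex MeasureTheory
open Pool.Agent.R399.TW Pool.Agent.R399.TM Pool.Agent.KS6_85.SD
open Pool.Agent.Y767.CA (GGc FEc cj Gd GGc_ne conj_GGc summable_lin fe_asym)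
open ArithmeticFunction (vonMangoldt)
open UpperHalfPlane MatrixGroups CongruenceSubgroup
open W388 (cS HeckeSeq RSLim lamf IsNewf GG FE2 SelE)
open H370.DL (refl analyticAt_refl logDeriv_refl order_refl)
open Pool.Agent.H304R2.EC (LX)
open Pool.Agent.A856.BH.GoodLHAux (re1 re2 im1 im2 LX_ne logDeriv_LX' ev_strip LX_an psi_bd)
open scoped ComplexConjugate

/-- the convexity bound -/
theorem mem_growth {c : ℕ → ℂ} (m : ℕ) {R₀ V : ℝ} (hR₀ : 0 ≤ R₀) (hV : 0 ≤ V) (hL : Lin c) :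
    ∃ C : ℝ, 1 ≤ C ∧ ∀ (Q : ℕ) (ψ : ℕ → ℂ) (F : ℂ → ℂ), 1 ≤ Q →
      Mem c (R₀ * (Q : ℝ) ^ m) V m ψ F →
      ∀ s : ℂ, -1 / 2 ≤ s.re → ‖F s‖ ≤ C * (Q : ℝ) ^ m * (1 + |s.im|) ^ m := by
  have hB := Bs_nn c (3 / 2)
  set K : ℝ := Real.exp 4 * Real.exp ((m : ℝ) ^ 2) with hK
  have hK1 : 1 ≤ K := by
    rw [hK]
    exact one_le_mul_of_one_le_of_one_le (Real.one_le_exp (by norm_num))
      (Real.one_le_exp (by positivity))
  set A₁ : ℝ := Bs c (3 / 2) with hA₁
  refine ⟨K * ((1 + R₀ * V ^ m * A₁) * (1 + A₁)), ?_, ?_⟩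
  · refine one_le_mul_of_one_le_of_one_le hK1 (one_le_mul_of_one_le_of_one_le ?_ ?_)
    · have : 0 ≤ R₀ * V ^ m * A₁ := by positivity
      linarith
    · linarith
  intro Q ψ F hQ hM
  have hq1 : (1 : ℝ) ≤ Q := by exact_mod_cast hQ
  set A₀ : ℝ := R₀ * (Q : ℝ) ^ m * V ^ m * A₁ with hA₀
  have hA₀0 : 0 ≤ A₀ := by positivity
  have hpw : ∀ x p : ℝ, 0 ≤ x → 0 ≤ p → p ≤ 1 → x ^ p ≤ 1 + x := by
    intro x p hx hp0 hp1
    calc x ^ p ≤ (1 + x) ^ p := Real.rpow_le_rpow hx (by linarith) hp0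
      _ ≤ (1 + x) ^ (1 : ℝ) := Real.rpow_le_rpow_of_exponent_le (by linarith) hp1
      _ = 1 + x := Real.rpow_one _
  -- the upper bound
  have hup : ∀ s : ℂ, -1 / 2 ≤ s.re → ‖F s‖ ≤ K * (1 + |s.im|) ^ m * ((1 + A₀) * (1 + A₁)) := by
    intro s hs
    have h1t : (1 : ℝ) ≤ (1 + |s.im|) ^ m := one_le_pow₀ (by linarith [abs_nonneg s.im])
    rcases le_total s.re (3 / 2) with h3 | h3
    · have key := three ({()} : Finset Unit) (fun _ => F) (a := -1 / 2) (b := 3 / 2) (A₀ := A₀)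
        (A₁ := A₁) (n := m) (s := s) (by norm_num) (by norm_num) (by norm_num)
        (fun _ _ => hM.diff) (fun _ _ => ?_) hA₀0 hB (fun t => ?_) (fun t => ?_) hs h3
      · rw [Finset.sum_singleton] at key
        set θ : ℝ := (s.re - -1 / 2) / (3 / 2 - -1 / 2) with hθ
        have hθ0 : 0 ≤ θ := div_nonneg (by linarith) (by norm_num)
        have hθ1 : θ ≤ 1 := by
          rw [hθ, div_le_one (by norm_num)]
          linarith
        have h4 := abs_le_of_sq_le_sq' key (by positivity)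
        refine h4.2.trans ?_
        have h5 := hpw A₀ (1 - θ) hA₀0 (by linarith) (by linarith)
        have h6 := hpw A₁ θ hB hθ0 hθ1
        gcongr
      · obtain ⟨A', C', h'⟩ := hM.gr
        exact ⟨A', C', fun z hz => h' z ⟨hz.1, hz.2.trans (by norm_num)⟩⟩
      · rw [Finset.sum_singleton]
        have h5 := left_F hL hM t
        have h6 : R₀ * (Q : ℝ) ^ m * (V * (1 + |t|)) ^ m * Bs c (3 / 2) = A₀ * (1 + |t|) ^ m := by
          rw [hA₀, mul_pow V]
          ring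
        rw [h6] at h5
        gcongr
      · rw [Finset.sum_singleton]
        have h5 : ‖F (pt (3 / 2) t)‖ ≤ A₁ := by
          rw [hM.ser _ (by rw [pt_re]; norm_num)]
          exact ls_le hL hM.le (norm_E_le c) (by norm_num) (by rw [pt_re])
        have h6 : (1 : ℝ) ≤ (1 + |t|) ^ m := one_le_pow₀ (by linarith [abs_nonneg t])
        have h7 : ‖F (pt (3 / 2) t)‖ ≤ A₁ * (1 + |t|) ^ m :=
          h5.trans (le_mul_of_one_le_right hB h6)
        gcongr
    · have h5 : ‖F s‖ ≤ A₁ := by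
        rw [hM.ser _ (by linarith)]
        exact ls_le hL hM.le (norm_E_le c) (by norm_num) h3
      have h6 : A₁ ≤ (1 + A₀) * (1 + A₁) := by nlinarith
      have h7 : (1 : ℝ) ≤ K * (1 + |s.im|) ^ m := one_le_mul_of_one_le_of_one_le hK1 h1t
      have h8 : 0 ≤ (1 + A₀) * (1 + A₁) := by positivity
      exact h5.trans (h6.trans (le_mul_of_one_le_left h8 h7))
  intro s hs
  refine (hup s hs).trans ?_
  have hQm : (1 : ℝ) ≤ (Q : ℝ) ^ m := one_le_pow₀ hq1
  have h5 : 1 + A₀ ≤ (1 + R₀ * V ^ m * A₁) * (Q : ℝ) ^ m := by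
    rw [hA₀]
    have : 0 ≤ R₀ * V ^ m * A₁ := by positivity
    nlinarith
  calc K * (1 + |s.im|) ^ m * ((1 + A₀) * (1 + A₁)) ≤
        K * (1 + |s.im|) ^ m * (((1 + R₀ * V ^ m * A₁) * (Q : ℝ) ^ m) * (1 + A₁)) := by gcongr
    _ = _ := by ring

/-- the functional equation -/
theorem fe_refl {N q : ℝ} (hN : 0 < N) (hq : 0 < q) {F : ℂ → ℂ} (h : FE2 2 N q F) :
    ∃ w : ℂ, ‖w‖ = 1 ∧ ∀ z : ℂ, -1 / 2 < z.re → z.re < 1 →
      F z = LX w (Real.sqrt N * q / (2 * Real.pi)) z * refl F z := by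
  have hpi := Real.pi_pos
  obtain ⟨w, hw, hfe⟩ := h.fe
  refine ⟨w, hw, ?_⟩
  have hw0 : w ≠ 0 := fun h => by rw [h, norm_zero] at hw; exact zero_ne_one hw
  set κ : ℝ := Real.sqrt N * q / (2 * Real.pi) with hκ
  have hκ0 : 0 < κ := by positivity
  have hκc : (κ : ℂ) ≠ 0 := ofReal_ne_zero.mpr hκ0.ne'
  have hGG : ∀ s : ℂ, GG 2 N q s = (κ : ℂ) ^ s * Complex.Gamma (s + 1 / 2) := by
    intro s
    unfold W388.GG
    congr 2
    push_cast
    ring
  have hconj : ∀ z : ℂ, conj (GG 2 N q (1 - conj z)) =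
      (κ : ℂ) ^ (1 - z) * Complex.Gamma (3 / 2 - z) := by
    intro z
    rw [hGG, map_mul, ← Complex.Gamma_conj]
    congr 1
    · have e : (κ : ℂ) ^ (1 - z) = (κ : ℂ) ^ (conj (1 - conj z)) := by
        congr 1
        simp
      rw [e, Complex.cpow_conj _ _ (by
        rw [Complex.arg_ofReal_of_nonneg hκ0.le]
        exact Real.pi_pos.ne), Complex.conj_ofReal]
    · congr 1
      simp only [map_add, map_sub, map_one, Complex.conj_conj, map_div₀, Complex.conj_ofNat]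
      ring
  have hne : ∀ z : ℂ, -1 / 2 < z.re → GG 2 N q z ≠ 0 := by
    intro z hz
    rw [hGG]
    refine mul_ne_zero (Complex.cpow_ne_zero_iff.2 (Or.inl hκc)) ?_
    exact Complex.Gamma_ne_zero_of_re_pos (by rw [re2]; linarith)
  have key : ∀ z : ℂ, -1 / 2 < z.re → z.re < 1 → z.im ≠ 0 → F z = LX w κ z * refl F z := by
    intro z h1 h2 h3
    have h4 := hfe z h3
    rw [map_mul, hconj] at h4
    have h5 : F z = (GG 2 N q z)⁻¹ * (w * ((κ : ℂ) ^ (1 - z) * Complex.Gamma (3 / 2 - z) *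
        conj (F (1 - conj z)))) := by
      rw [← h4, ← mul_assoc, inv_mul_cancel₀ (hne z h1), one_mul]
    rw [h5, hGG]
    have h6 : (κ : ℂ) ^ (1 - 2 * z) = (κ : ℂ) ^ (1 - z) * ((κ : ℂ) ^ z)⁻¹ := by
      rw [← Complex.cpow_neg, ← Complex.cpow_add _ _ hκc]
      congr 1
      ring
    unfold LX H370.DL.refl
    rw [h6, mul_inv, div_eq_mul_inv]
    ring
  intro z h1 h2
  by_cases h3 : z.im = 0
  · have hcl : Continuous fun t : ℝ => z + (t : ℂ) * Complex.I := by fun_prop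
    have t0 : Tendsto (fun t : ℝ => z + (t : ℂ) * Complex.I) (𝓝[≠] 0) (𝓝 z) := by
      have := hcl.tendsto 0
      simp only [ofReal_zero, zero_mul, add_zero] at this
      exact this.mono_left nhdsWithin_le_nhds
    have t1 : Tendsto (fun t : ℝ => F (z + (t : ℂ) * Complex.I)) (𝓝[≠] 0) (𝓝 (F z)) :=
      (h.diff.continuous.tendsto z).comp t0
    have ha : AnalyticAt ℂ F (1 - conj z) := h.diff.analyticAt _
    have t2 : Tendsto (fun t : ℝ => LX w κ (z + (t : ℂ) * Complex.I) *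
        refl F (z + (t : ℂ) * Complex.I)) (𝓝[≠] 0) (𝓝 (LX w κ z * refl F z)) :=
      ((LX_an w κ hκ0 h1 h2).continuousAt.tendsto.comp t0).mul
        ((analyticAt_refl ha).continuousAt.tendsto.comp t0)
    refine tendsto_nhds_unique t1 (t2.congr' ?_)
    filter_upwards [self_mem_nhdsWithin] with t ht
    have ht0 : t ≠ 0 := ht
    refine (key _ ?_ ?_ ?_).symm
    · simp; linarith
    · simp; linarith
    · simp [h3, ht0]
  · exact key z h1 h2 h3

/-- the logarithmic derivative of the functional equation -/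
theorem left_bd {N : ℝ} (hN : 0 < N) : ∃ C : ℝ, 0 ≤ C ∧ ∀ (q : ℝ) (F : ℂ → ℂ), 0 < q →
    FE2 2 N q F → ∀ s : ℂ, -1 / 4 ≤ s.re → s.re ≤ 1 / 2 → F s ≠ 0 →
    ‖deriv F s / F s + ((2 * Real.log q : ℝ) : ℂ) +
      conj (deriv F (1 - conj s) / F (1 - conj s))‖ ≤ C + 2 * Real.log (1 + |s.im|) := by
  obtain ⟨C, hC0, hC⟩ := psi_bd
  have hpi := Real.pi_pos
  have hsN : 0 < Real.sqrt N := Real.sqrt_pos.2 hN
  refine ⟨2 * |Real.log (Real.sqrt N / (2 * Real.pi))| + 2 * C, by positivity, ?_⟩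
  intro q F hq h s h1 h2 h4
  obtain ⟨w, hw, hfe⟩ := fe_refl hN hq h
  have hw0 : w ≠ 0 := fun h => by rw [h, norm_zero] at hw; exact zero_ne_one hw
  set κ' : ℝ := Real.sqrt N * q / (2 * Real.pi) with hκd
  have hκ : 0 < κ' := by positivity
  have ha : AnalyticAt ℂ F (1 - conj s) := h.diff.analyticAt _
  have g1 : -1 / 2 < s.re := by linarith
  have g2 : s.re < 1 := by linarith
  have e1 : F =ᶠ[𝓝 s] fun z => LX w κ' z * refl F z := by
    filter_upwards [ev_strip g1 g2] with z hz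
    exact hfe z hz.1 hz.2
  have hr : refl F s ≠ 0 := by
    intro h
    apply h4
    rw [hfe s g1 g2, h, mul_zero]
  have e2 : logDeriv F s = logDeriv (LX w κ') s + logDeriv (refl F) s := by
    rw [(logDeriv_congr_nhds e1).eq_of_nhds]
    exact logDeriv_mul s (LX_ne hw0 hκ g1 g2) hr (LX_an w κ' hκ g1 g2).differentiableAt
      (analyticAt_refl ha).differentiableAt
  rw [logDeriv_refl ha.differentiableAt, logDeriv_LX' w hw0 κ' hκ g1 g2] at e2
  change ‖logDeriv F s + ((2 * Real.log q : ℝ) : ℂ) + conj (logDeriv F (1 - conj s))‖ ≤ _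
  rw [e2]
  have b1 := hC (3 / 2 - s) (by rw [re1]; linarith) (by rw [re1]; linarith)
  have b2 := hC (s + 1 / 2) (by rw [re2]; linarith) (by rw [re2]; linarith)
  rw [im1, abs_neg] at b1
  rw [im2] at b2
  have hlogκ : Real.log κ' = Real.log (Real.sqrt N / (2 * Real.pi)) + Real.log q := by
    rw [← Real.log_mul (by positivity) hq.ne']
    congr 1
    rw [hκd]
    ring
  have e3 : -(2 * Real.log κ' : ℂ) - logDeriv Complex.Gamma (3 / 2 - s) -
      logDeriv Complex.Gamma (s + 1 / 2) +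
      -(starRingEnd ℂ) (logDeriv F (1 - (starRingEnd ℂ) s)) +
        ((2 * Real.log q : ℝ) : ℂ) +
      (starRingEnd ℂ) (logDeriv F (1 - (starRingEnd ℂ) s)) =
      ((-(2 * Real.log (Real.sqrt N / (2 * Real.pi))) : ℝ) : ℂ) -
        logDeriv Complex.Gamma (3 / 2 - s) - logDeriv Complex.Gamma (s + 1 / 2) := by
    rw [hlogκ]
    push_cast
    ring
  rw [e3]
  have n0 : ‖((-(2 * Real.log (Real.sqrt N / (2 * Real.pi))) : ℝ) : ℂ)‖ =
      2 * |Real.log (Real.sqrt N / (2 * Real.pi))| := by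
    rw [Complex.norm_real, Real.norm_eq_abs, abs_neg, abs_mul, abs_of_pos (by norm_num : (0:ℝ) < 2)]
  have n1 := norm_sub_le (((-(2 * Real.log (Real.sqrt N / (2 * Real.pi))) : ℝ) : ℂ) -
    logDeriv Complex.Gamma (3 / 2 - s)) (logDeriv Complex.Gamma (s + 1 / 2))
  have n2 := norm_sub_le ((-(2 * Real.log (Real.sqrt N / (2 * Real.pi))) : ℝ) : ℂ)
    (logDeriv Complex.Gamma (3 / 2 - s))
  linarith

/-- symmetry of the zeros, with the edges -/
theorem symm_all {N q : ℝ} (hN : 0 < N) (hq : 0 < q) {F : ℂ → ℂ} (h : FE2 2 N q F) (s : ℂ)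
    (h1 : 0 ≤ s.re) (h2 : s.re ≤ 1) :
    analyticOrderAt F (1 - conj s) = analyticOrderAt F s := by
  have hpi := Real.pi_pos
  have hsN : 0 < Real.sqrt N := Real.sqrt_pos.2 hN
  obtain ⟨w, hw, hfe⟩ := fe_refl hN hq h
  have hw0 : w ≠ 0 := fun h => by rw [h, norm_zero] at hw; exact zero_ne_one hw
  set κ' : ℝ := Real.sqrt N * q / (2 * Real.pi) with hκd
  have hκ : 0 < κ' := by positivity
  have key : ∀ s : ℂ, 0 ≤ s.re → s.re < 1 →
      analyticOrderAt F (1 - conj s) = analyticOrderAt F s := by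
    intro s h1 h2
    have g1 : -1 / 2 < s.re := by linarith
    have ha : AnalyticAt ℂ F (1 - conj s) := h.diff.analyticAt _
    have h1 : F =ᶠ[𝓝 s] (LX w κ') * refl F := by
      filter_upwards [ev_strip g1 h2] with z hz
      exact hfe z hz.1 hz.2
    have hX : AnalyticAt ℂ (LX w κ') s := LX_an w _ hκ g1 h2
    rw [analyticOrderAt_congr h1, analyticOrderAt_mul hX (analyticAt_refl ha),
      hX.analyticOrderAt_eq_zero.mpr (LX_ne hw0 hκ g1 h2), zero_add, order_refl ha]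
  rcases lt_or_eq_of_le h2 with h3 | h3
  · exact key s h1 h3
  · have h4 := key (1 - conj s) (by simp [h3]) (by simp [h3])
    have e : 1 - conj (1 - conj s) = s := by simp
    rw [e] at h4
    exact h4.symm

/-- no zeros to the left -/
theorem nz_left {N q : ℝ} (hN : 0 < N) (hq : 0 < q) {F : ℂ → ℂ} (h : FE2 2 N q F)
    (hne : ∀ s : ℂ, 1 < s.re → F s ≠ 0) (s : ℂ) (h1 : -1 / 4 ≤ s.re) (h2 : s.re < 0) :
    F s ≠ 0 := by
  have hpi := Real.pi_pos
  have hsN : 0 < Real.sqrt N := Real.sqrt_pos.2 hN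
  obtain ⟨w, hw, hfe⟩ := fe_refl hN hq h
  have hw0 : w ≠ 0 := fun h => by rw [h, norm_zero] at hw; exact zero_ne_one hw
  set κ' : ℝ := Real.sqrt N * q / (2 * Real.pi) with hκd
  have hκ : 0 < κ' := by positivity
  rw [hfe s (by linarith) (by linarith)]
  refine mul_ne_zero (LX_ne hw0 hκ (by linarith) (by linarith)) ?_
  unfold H370.DL.refl
  rw [Ne, map_eq_zero]
  exact hne _ (by simp; linarith)

/-- **the twists of a newform of weight 2** -/
theorem newf_X {N : ℕ} [NeZero N]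
    {f : CuspForm (Gamma0 N : Subgroup (GL (Fin 2) ℝ)) 2} {ε : ℝ} (hf : IsNewf N 2 f ε) :
    ∃ (L : (q : ℕ) → DirichletCharacter ℂ q → ℂ → ℂ) (A : ℝ), 1 ≤ A ∧ Fo 2 N L ∧ Fm 2 N L ∧
      SelE (cc N (lamf f)) ∧
      Summable (fun n : ℕ => vonMangoldt n * ‖cc N (lamf f) n‖ * (n : ℝ) ^ (-(3 / 2) : ℝ)) ∧
      (∀ (q : ℕ) (χ : DirichletCharacter ℂ q), 1 ≤ q → Nat.Coprime q N → χ.IsPrimitive →
        Differentiable ℂ (L q χ) ∧
        (∀ s : ℂ, 1 < s.re →
          HasProd (fun p : Nat.Primes =>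
            (1 - χ ((p : ℕ) : ZMod q) * (lamf f p : ℂ) * ((p : ℕ) : ℂ) ^ (-s) +
              (if (p : ℕ) ∣ N then 0 else
                χ ((p : ℕ) : ZMod q) ^ 2 * ((p : ℕ) : ℂ) ^ (-2 * s)))⁻¹) (L q χ s))) ∧
      ∀ (q : ℕ) (χ : DirichletCharacter ℂ q), 2 ≤ q → Nat.Coprime q N → χ.IsPrimitive →
        ∀ H : ℝ, 3 ≤ H → GoodX A (Real.log q + H) H H (2 * Real.log q) (L q χ)
          (aT (cc N (lamf f)) q χ) := by
  have hN : 0 < N := Nat.pos_of_ne_zero (NeZero.ne N)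
  have hN0 : (0 : ℝ) < N := by exact_mod_cast hN
  have hk : (1 : ℤ) ≤ 2 := by norm_num
  have hH := W388.heckeSeq_lamf hf
  have hR := W388.p_rs N 2 hk f ε hf
  obtain ⟨A1, hA1, d1, d2, d3⟩ := W388.p_dir N hN (lamf f) hH hR
  have hsum : ∀ (q : ℕ) [NeZero q] (χ : DirichletCharacter ℂ q) (s : ℂ), 1 < s.re →
      Summable (fun n : ℕ => ‖χ (n : ZMod q) * (lamf f n : ℂ) * (n : ℂ) ^ (-s)‖) := by
    intro q _ χ s hs
    exact (d3 q χ (fun s => ∑' n : ℕ, χ (n : ZMod q) * (lamf f n : ℂ) * (n : ℂ) ^ (-s))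
      (fun _ _ => rfl)).1 s hs
  classical
  have hex : ∀ (q : ℕ) (χ : DirichletCharacter ℂ q), ∃ F : ℂ → ℂ,
      (1 ≤ q → Nat.Coprime q N → χ.IsPrimitive → FE2 2 N q F ∧ ∀ s : ℂ, 1 < s.re →
      F s = ∑' n : ℕ, χ (n : ZMod q) * (lamf f n : ℂ) * (n : ℂ) ^ (-s)) := by
    intro q χ
    by_cases h : 1 ≤ q ∧ Nat.Coprime q N ∧ χ.IsPrimitive
    · obtain ⟨h1, h2, h3⟩ := h
      have : NeZero q := ⟨by omega⟩
      obtain ⟨F, hF⟩ := W388.exists_twist Pool.Agent.W440.TW.t_twist Pool.Agent.W108.TW.t_mellin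
        hk hf hsum q χ h3 h2
      exact ⟨F, fun _ _ _ => hF⟩
    · exact ⟨fun _ => 0, fun h1 h2 h3 => absurd ⟨h1, h2, h3⟩ h⟩
  choose F hF using hex
  set c : ℕ → ℂ := cc N (lamf f) with hc
  have hLin : Lin c := lin_cc hH hR
  obtain ⟨C, hC⟩ := sqb_cc hH hR
  have hk0 : (0 : ℝ) ≤ (((2 : ℤ) : ℝ) - 1) / 2 := by norm_num
  set V : ℝ := (((2 : ℤ) : ℝ) - 1) / 2 + 4 with hV
  have hμ0 : ∀ i, 0 ≤ (muk 2 i).re := fun i => by
    obtain ⟨x, hx, h1, h2⟩ := muk_eq 2 i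
    rw [hx, Complex.ofReal_re]
    linarith
  have hfec : ∀ (q : ℕ) (χ : DirichletCharacter ℂ q), 1 ≤ q → Nat.Coprime q N → χ.IsPrimitive →
      FEc ((N : ℝ) * (q : ℝ) ^ 2) (muk 2) (F q χ) := by
    intro q χ hq hqN hχ
    have hq0 : (0 : ℝ) < q := by exact_mod_cast hq
    exact fec_of_fe2k hN0 hq0 (hF q χ hq hqN hχ).1
  have hmem : ∀ (q : ℕ) (χ : DirichletCharacter ℂ q), 2 ≤ q → Nat.Coprime q N → χ.IsPrimitive →
      Mem c ((N : ℝ) * (q : ℝ) ^ 2) (3 * (1 + V)) 2 (chs χ) (F q χ) := by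
    intro q χ hq hqN hχ
    have hq0 : (0 : ℝ) < q := by
      have : 0 < q := by omega
      exact_mod_cast this
    obtain ⟨hfe2, hser⟩ := hF q χ (by omega) hqN hχ
    have hser2 : ∀ s : ℂ, 1 < s.re → F q χ s = LSeries (Pool.Agent.R399.TW.tw (chs χ) (Pool.Agent.R399.TW.E c)) s := by
      intro s hs
      rw [hser s hs]
      unfold LSeries
      refine tsum_congr fun n => ?_
      rcases Nat.eq_zero_or_pos n with rfl | hn
      · rw [hH.zero]
        simp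
      · rw [LSeries.term_of_ne_zero hn.ne', Complex.cpow_neg, ← div_eq_mul_inv]
        unfold Pool.Agent.R399.TW.tw chs
        rw [hc, ← E_cc hH n]
    have h3 := mem_of_fec (κ := Fin 2) (R := (N : ℝ) * (q : ℝ) ^ 2) (V := V) (by positivity)
      (μ := muk 2) (fun i => by linarith [hμ0 i])
      (fun i => by
        obtain ⟨x, hx, h1, h2⟩ := muk_eq 2 i
        rw [hx, Complex.norm_real, Real.norm_of_nonneg (by linarith), hV]
        linarith) (by rw [hV]; linarith) (hfec q χ (by omega) hqN hχ)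
      (c := c) (ψ := chs χ) hLin (chs_mul χ) (chs_one χ) (chs_le χ) hser2
    rw [Fintype.card_fin] at h3
    exact h3
  have hsm : ∀ σ : ℝ, 1 < σ → Summable (fun n : ℕ => vonMangoldt n * ‖c n‖ * (n : ℝ) ^ (-σ)) :=
    fun σ hσ => hLin σ hσ
  obtain ⟨Cg, hCg1, hCg⟩ := mem_growth 2 hN0.le (V := 3 * (1 + V)) (by rw [hV]; linarith) hLin
  obtain ⟨Cl, hCl0, hCl⟩ := left_bd hN0
  obtain ⟨B, hB⟩ : ∃ B : ℝ, B = ∑' n : ℕ, vonMangoldt n * ‖c n‖ * (n : ℝ) ^ (-(5 / 4) : ℝ) :=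
    ⟨_, rfl⟩
  have hlCg : 0 ≤ Real.log Cg := Real.log_nonneg hCg1
  have hB0 : 0 ≤ B := by
    rw [hB]
    refine tsum_nonneg fun n => ?_
    have : 0 ≤ vonMangoldt n := ArithmeticFunction.vonMangoldt_nonneg
    positivity
  obtain ⟨A, hA⟩ : ∃ A : ℝ, A = A1 + B + Real.log Cg + Cl + 4 := ⟨_, rfl⟩
  refine ⟨F, A, by rw [hA]; linarith, ?_, ?_, ?_, hsm (3 / 2) (by norm_num), ?_, ?_⟩
  · refine ⟨c, N, 3 * (1 + V), C, hN0.le, by rw [hV]; linarith, hLin, hC, ?_⟩
    intro q χ hq hqN hχ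
    exact ⟨(hF q χ (by omega) hqN hχ).1.diff, F q χ, hmem q χ hq hqN hχ, fun _ => 1,
      differentiable_const _, fun s => by rw [mul_one]⟩
  · refine ⟨c, N, 3 * (1 + V), C, hN0.le, by rw [hV]; linarith, hLin, hC, ?_⟩
    intro q χ hq hqN hχ
    have hq0 : (0 : ℝ) < q := by
      have : 0 < q := by omega
      exact_mod_cast this
    exact ⟨F q χ, hmem q χ hq hqN hχ, fun s _ h => h,
      fun s h0 h1 hs => refl_zero (by positivity) hμ0 (hfec q χ (by omega) hqN hχ) h0 h1 hs⟩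
  · exact (W388.p_sel N hN (lamf f) hH hR).1
  · intro q χ hq hqN hχ
    have : NeZero q := ⟨by omega⟩
    obtain ⟨hfe2, hser⟩ := hF q χ hq hqN hχ
    exact ⟨hfe2.diff, (d3 q χ (F q χ) hser).2.2.2.2.2⟩
  · intro q χ hq hqN hχ H hH3
    have : NeZero q := ⟨by omega⟩
    have hq1 : 1 ≤ q := by omega
    have hq0 : (0 : ℝ) < q := by exact_mod_cast hq1
    have hqr : (1 : ℝ) ≤ q := by exact_mod_cast hq1
    have hlq : 0 ≤ Real.log q := Real.log_nonneg hqr
    obtain ⟨hfe2, hser⟩ := hF q χ hq1 hqN hχ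
    obtain ⟨e1, e2, e3, e4, e5, e6⟩ := d3 q χ (F q χ) hser
    have hle : ∀ n : ℕ, ‖aT c q χ n‖ * (n : ℝ) ^ (-(5 / 4) : ℝ) ≤
        vonMangoldt n * ‖c n‖ * (n : ℝ) ^ (-(5 / 4) : ℝ) := fun n =>
      mul_le_mul_of_nonneg_right (aT_le c q χ n) (by positivity)
    have hs54 := hsm (5 / 4) (by norm_num)
    have hsa : Summable (fun n : ℕ => ‖aT c q χ n‖ * (n : ℝ) ^ (-(5 / 4) : ℝ)) :=
      Summable.of_nonneg_of_le (fun n => by positivity) hle hs54
    have hAge : A1 ≤ A ∧ B ≤ A ∧ 4 ≤ A ∧ Real.log Cg + 4 ≤ A ∧ Cl + 2 ≤ A := by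
      rw [hA]
      refine ⟨?_, ?_, ?_, ?_, ?_⟩ <;> linarith
    obtain ⟨a1, a2, a3, a4, a5⟩ := hAge
    refine ⟨by linarith, by linarith, by linarith, by linarith, by linarith, ?_, hfe2.diff, ?_,
      ?_, e2, nz_left hN0 hq0 hfe2 e2, symm_all hN0 hq0 hfe2, ?_, hsa, ?_,
      ⟨0, le_rfl, by linarith, fun s hs => by
        have h : deriv (F q χ) s / F q χ s = -∑' n : ℕ, aT c q χ n * (n : ℂ) ^ (-s) := e3 s hs
        rw [h]
        simp⟩, ?_⟩
    · nlinarith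
    · -- growth
      intro s s1 s2 s3
      have h1 := hCg q (chs χ) (F q χ) hq1 (hmem q χ hq hqN hχ) s (by linarith)
      refine h1.trans ?_
      have h2 : Cg = Real.exp (Real.log Cg) := (Real.exp_log (by linarith)).symm
      have h3 : (q : ℝ) ^ 2 = Real.exp (2 * Real.log q) := by
        rw [mul_comm, Real.exp_mul, Real.exp_log hq0]
        norm_num
      have h4 : 1 + |s.im| ≤ Real.exp H := by
        have := Real.add_one_le_exp H
        linarith
      calc Cg * (q : ℝ) ^ 2 * (1 + |s.im|) ^ 2 ≤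
            Real.exp (Real.log Cg) * Real.exp (2 * Real.log q) * (Real.exp H) ^ 2 := by
            rw [← h2, ← h3]
            gcongr
        _ = Real.exp (Real.log Cg + 2 * Real.log q + 2 * H) := by
            rw [Real.exp_add, Real.exp_add, ← Real.exp_nat_mul]
            push_cast
            ring
        _ ≤ _ := by
            apply Real.exp_le_exp.2
            have : Real.log Cg ≤ Real.log Cg * H := by nlinarith
            nlinarith [mul_nonneg hlCg hlq]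
    · -- lower bound
      intro t
      have h1 := e5 (⟨2, t⟩ : ℂ) (by norm_num)
      refine le_trans ?_ h1
      exact inv_anti₀ (by linarith) a1
    · intro n hn
      unfold aT
      interval_cases n <;> simp
    · exact (hsa.tsum_le_tsum hle hs54).trans (by rw [← hB]; exact a2)
    · -- the left side
      intro s s1 s2 s3 s4
      have h1 := hCl q (F q χ) hq0 hfe2 s s1 s2 s4
      refine h1.trans ?_
      have h2 : Real.log (1 + |s.im|) ≤ H := by
        have h3 := Real.log_le_sub_one_of_pos (show 0 < 1 + |s.im| by positivity)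
        linarith
      nlinarith

end Pool.Agent.KS6_85.LZ
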