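import Pool.Agent.KS6_85.LZ.Defs

/-!
Zeros in the closed strip: local statements (adaptation of `A856/BH/LocB.lean` of the library).
-/

set_option autoImplicit false

open Complex Filter Topology Set MeasureTheory Metric
open H370 (mult)

namespace Pool.Agent.KS6_85.LZ

open H370.Loc H385.LocU

section aux

variable {A ℒ E H q0 : ℝ} {F : ℂ → ℂ} {a : ℕ → ℂ}

lemma F2ne (hF : GoodX A ℒ E H q0 F a) (t : ℝ) : F ⟨2, t⟩ ≠ 0 := by
  have h3 := hF.lower t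
  have hA := hF.hA
  have : 0 < A⁻¹ := by positivity
  exact norm_pos_iff.1 (this.trans_le h3)

lemma anB (hF : GoodX A ℒ E H q0 F a) (s : ℂ) : AnalyticAt ℂ F s :=
  hF.diff.analyticAt s

/-- data in the ball of radius 1.9 about `2 + it` -/
lemma ball_data_B (hF : GoodX A ℒ E H q0 F a) {t : ℝ} (ht : |t| + 2 ≤ H) :
    ∃ M : ℝ, 1 ≤ M ∧ AnalyticOnNhd ℂ F (closedBall (⟨2, t⟩ : ℂ) 1.9) ∧ F ⟨2, t⟩ ≠ 0 ∧
      (∀ z ∈ closedBall (⟨2, t⟩ : ℂ) 1.9, ‖F z‖ ≤ M) ∧ ‖F ⟨2, t⟩‖ ≤ M ∧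
      0 ≤ Real.log (M / ‖F ⟨2, t⟩‖) ∧ Real.log (M / ‖F ⟨2, t⟩‖) ≤ (2 * A) * ℒ := by
  have hA := hF.hA
  have hL := hF.hL
  have hA0 : 0 < A := by linarith
  have hball : ∀ z ∈ closedBall (⟨2, t⟩ : ℂ) 1.9, (1 / 16 : ℝ) ≤ z.re ∧ z.re ≤ 4 ∧ |z.im| ≤ H := by
    intro z hz
    rw [mem_closedBall, dist_eq_norm] at hz
    have h1 := (Complex.abs_re_le_norm (z - ⟨2, t⟩)).trans hz
    have h2 := (Complex.abs_im_le_norm (z - ⟨2, t⟩)).trans hz
    simp only [sub_re, sub_im] at h1 h2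
    have h3 : |z.im| ≤ |t| + 1.9 := by
      have h4 : |z.im| ≤ |t| + |z.im - t| := by
        have := abs_add_le t (z.im - t)
        rwa [add_sub_cancel] at this
      linarith
    rw [abs_le] at h1
    refine ⟨by norm_num at h1 ⊢; linarith [h1.1], by norm_num at h1 ⊢; linarith [h1.2],
      by norm_num at h3 ⊢; linarith⟩
  have hc0 : A⁻¹ ≤ ‖F ⟨2, t⟩‖ := hF.lower t
  have hAi : 0 < A⁻¹ := by positivity
  have hFc : 0 < ‖F ⟨2, t⟩‖ := hAi.trans_le hc0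
  have hAL : 0 ≤ A * ℒ := by positivity
  have hM1 : 1 ≤ Real.exp (A * ℒ) := Real.one_le_exp hAL
  have hb : ∀ z ∈ closedBall (⟨2, t⟩ : ℂ) 1.9, ‖F z‖ ≤ Real.exp (A * ℒ) := by
    intro z hz
    obtain ⟨h1, h2, h3⟩ := hball z hz
    exact hF.growth z h1 h2 h3
  have hMc : ‖F ⟨2, t⟩‖ ≤ Real.exp (A * ℒ) := hb _ (mem_closedBall_self (by norm_num))
  refine ⟨Real.exp (A * ℒ), hM1, fun z _ => anB hF z, norm_pos_iff.1 hFc, hb, hMc, ?_, ?_⟩
  · exact Real.log_nonneg (by rw [le_div_iff₀ hFc]; linarith)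
  · rw [Real.log_div (Real.exp_ne_zero _) hFc.ne', Real.log_exp]
    have h1 : -Real.log ‖F ⟨2, t⟩‖ ≤ Real.log A := by
      have h2 := Real.log_le_log hAi hc0
      rw [Real.log_inv] at h2
      linarith
    have h2 : Real.log A ≤ A := (Real.log_le_sub_one_of_pos hA0).trans (by linarith)
    have h3 : A ≤ A * ℒ := by nlinarith
    linarith

end aux

theorem zfin {A ℒ E H q0 : ℝ} {F : ℂ → ℂ} {a : ℕ → ℂ} (hF : GoodX A ℒ E H q0 F a) (T1 T2 : ℝ) :
    (zc F T1 T2).Finite := by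
  by_contra hinf
  have hinf : (zc F T1 T2).Infinite := hinf
  have hcomp : IsCompact (Icc (0 : ℝ) 1 ×ℂ Icc T1 T2) := isCompact_Icc.reProdIm isCompact_Icc
  have hsub : zc F T1 T2 ⊆ Icc (0 : ℝ) 1 ×ℂ Icc T1 T2 := by
    rintro s ⟨h1, h2, h3, h4, -⟩
    exact ⟨⟨h1, h2⟩, ⟨h3.le, h4⟩⟩
  obtain ⟨x, hx, hacc⟩ := hinf.exists_accPt_of_subset_isCompact hcomp hsub
  have hfreq : ∃ᶠ z in 𝓝[≠] x, F z = 0 := by
    rw [accPt_iff_frequently_nhdsNE] at hacc
    exact hacc.mono fun z hz => hz.2.2.2.2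
  have hz := AnalyticOnNhd.eqOn_zero_of_preconnected_of_frequently_eq_zero
    (f := F) (U := Set.univ) (fun s _ => anB hF s) isPreconnected_univ (mem_univ x) hfreq
  exact F2ne hF 1 (hz (mem_univ _))

theorem mult_posB {A ℒ E H q0 : ℝ} {F : ℂ → ℂ} {a : ℕ → ℂ} (hF : GoodX A ℒ E H q0 F a) {s : ℂ}
    (h0 : F s = 0) : 1 ≤ mult F s :=
  (mult_pos (f := F) (K := Set.univ) isPreconnected_univ (fun s _ => anB hF s) (c := ⟨2, 1⟩)
    (mem_univ _) (F2ne hF 1) (mem_univ s)).2 h0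

/-- bound by Jensen's inequality with the constant made explicit -/
lemma zcountB' {A ℒ E H q0 : ℝ} {F : ℂ → ℂ} {a : ℕ → ℂ} (hF : GoodX A ℒ E H q0 F a) {t : ℝ}
    (ht : |t| + 2 ≤ H) :
    (NX F (t - 1) (t + 1) : ℝ) ≤ (2 * (2 * A) / Real.log (1.9 / 1.81)) * ℒ := by
  classical
  have hlog : 0 < Real.log (1.9 / 1.81) := Real.log_pos (by norm_num)
  obtain ⟨M, hM1, han, hF0, hb, -, -, hlogM⟩ := ball_data_B hF ht
  have hfin := zfin hF (t - 1) (t + 1)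
  have hNN : NX F (t - 1) (t + 1) = ∑ s ∈ hfin.toFinset, mult F s := by
    unfold NX
    exact finsum_mem_eq_finite_toFinset_sum _ hfin
  have key : ∀ S : Finset ℂ, (∀ z ∈ S, 1 / 2 ≤ z.re ∧ z.re ≤ 1 ∧ |z.im - t| ≤ 1) →
      ∑ z ∈ S, (mult F z : ℝ) ≤ (2 * A) / Real.log (1.9 / 1.81) * ℒ := by
    intro S hS
    refine (jensen_mult (c := ⟨2, t⟩) (r := 1.81) (R := 1.9) (by norm_num) (by norm_num) hM1 han
      hF0 hb S ?_).trans ?_
    · intro z hz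
      obtain ⟨h1, h2, h3⟩ := hS z hz
      rw [mem_closedBall, dist_eq_norm]
      apply abs_le_of_sq_le_sq' _ (by norm_num) |>.2
      rw [← Complex.normSq_eq_norm_sq, Complex.normSq_apply]
      simp only [sub_re, sub_im]
      rw [abs_le] at h3
      nlinarith
    · rw [div_mul_eq_mul_div]
      exact div_le_div_of_nonneg_right hlogM hlog.le
  rw [hNN]
  push_cast
  rw [← Finset.sum_filter_add_sum_filter_not _ (fun s : ℂ => 1 / 2 ≤ s.re)]
  have h1 := key (hfin.toFinset.filter (fun s : ℂ => 1 / 2 ≤ s.re)) (by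
    intro z hz
    simp only [Finset.mem_filter, Set.Finite.mem_toFinset] at hz
    obtain ⟨⟨a1, a2, a3, a4, -⟩, h⟩ := hz
    exact ⟨h, a2, abs_le.2 ⟨by linarith, by linarith⟩⟩)
  have h2 := key ((hfin.toFinset.filter (fun s : ℂ => ¬ 1 / 2 ≤ s.re)).image
      (fun s : ℂ => 1 - (starRingEnd ℂ) s)) (by
    intro z hz
    simp only [Finset.mem_image, Finset.mem_filter, Set.Finite.mem_toFinset] at hz
    obtain ⟨s, ⟨⟨a1, a2, a3, a4, -⟩, h⟩, rfl⟩ := hz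
    rw [reflect_re, reflect_im]
    push Not at h
    exact ⟨by linarith, by linarith, abs_le.2 ⟨by linarith, by linarith⟩⟩)
  rw [Finset.sum_image (fun a _ b _ hab => reflect_inj hab)] at h2
  have h3 : ∑ s ∈ hfin.toFinset.filter (fun s : ℂ => ¬ 1 / 2 ≤ s.re),
      (mult F (1 - (starRingEnd ℂ) s) : ℝ) =
      ∑ s ∈ hfin.toFinset.filter (fun s : ℂ => ¬ 1 / 2 ≤ s.re), (mult F s : ℝ) := by
    refine Finset.sum_congr rfl fun s hs => ?_
    simp only [Finset.mem_filter, Set.Finite.mem_toFinset] at hs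
    obtain ⟨⟨a1, a2, a3, a4, -⟩, h⟩ := hs
    have h5 := hF.symm s a1 a2
    unfold H370.mult analyticOrderNatAt
    rw [h5]
  rw [h3] at h2
  calc _ ≤ (2 * A) / Real.log (1.9 / 1.81) * ℒ + (2 * A) / Real.log (1.9 / 1.81) * ℒ :=
        add_le_add h1 h2
    _ = _ := by ring

theorem zcountB (A : ℝ) (hA : 1 ≤ A) : ∃ C : ℝ, 0 < C ∧
    ∀ (ℒ E H q0 : ℝ) (F : ℂ → ℂ) (a : ℕ → ℂ), GoodX A ℒ E H q0 F a → ∀ t : ℝ, |t| + 2 ≤ H →
      (NX F (t - 1) (t + 1) : ℝ) ≤ C * ℒ := by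
  have hlog : 0 < Real.log (1.9 / 1.81) := Real.log_pos (by norm_num)
  exact ⟨2 * (2 * A) / Real.log (1.9 / 1.81), by positivity,
    fun ℒ E H q0 F a hF t ht => zcountB' hF ht⟩

/-- `NN` is subadditive under splitting of the interval -/
lemma NX_le_add {A ℒ E H q0 : ℝ} {F : ℂ → ℂ} {a : ℕ → ℂ} (hF : GoodX A ℒ E H q0 F a)
    (T1 T2 T3 T4 : ℝ) (h23 : T3 ≤ T2) :
    NX F T1 T4 ≤ NX F T1 T2 + NX F T3 T4 := by
  classical
  have f1 := zfin hF T1 T4
  have f2 := zfin hF T1 T2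
  have f3 := zfin hF T3 T4
  unfold NX
  rw [finsum_mem_eq_finite_toFinset_sum _ f1, finsum_mem_eq_finite_toFinset_sum _ f2,
    finsum_mem_eq_finite_toFinset_sum _ f3]
  refine le_trans (Finset.sum_le_sum_of_subset (t := f2.toFinset ∪ f3.toFinset) ?_) ?_
  · intro s hs
    simp only [Finset.mem_union, Set.Finite.mem_toFinset] at hs ⊢
    obtain ⟨a1, a2, a3, a4, a5⟩ := hs
    by_cases h : s.im ≤ T2
    · exact Or.inl ⟨a1, a2, a3, h, a5⟩
    · push Not at h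
      exact Or.inr ⟨a1, a2, by linarith, a4, a5⟩
  · have := Finset.sum_union_inter (s₁ := f2.toFinset) (s₂ := f3.toFinset) (f := mult F)
    omega

/-- `NN` is monotone in the interval -/
lemma NX_mono {A ℒ E H q0 : ℝ} {F : ℂ → ℂ} {a : ℕ → ℂ} (hF : GoodX A ℒ E H q0 F a)
    {T1 T2 T3 T4 : ℝ} (h13 : T3 ≤ T1) (h24 : T2 ≤ T4) :
    NX F T1 T2 ≤ NX F T3 T4 := by
  have f1 := zfin hF T1 T2
  have f2 := zfin hF T3 T4
  unfold NX
  rw [finsum_mem_eq_finite_toFinset_sum _ f1, finsum_mem_eq_finite_toFinset_sum _ f2]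
  refine Finset.sum_le_sum_of_subset ?_
  intro s hs
  simp only [Set.Finite.mem_toFinset] at hs ⊢
  obtain ⟨a1, a2, a3, a4, a5⟩ := hs
  exact ⟨a1, a2, by linarith, by linarith, a5⟩

/-- the number of distinct zeros is at most the number of zeros with multiplicity -/
lemma card_le_NX {A ℒ E H q0 : ℝ} {F : ℂ → ℂ} {a : ℕ → ℂ} (hF : GoodX A ℒ E H q0 F a)
    (T1 T2 : ℝ) : (zfin hF T1 T2).toFinset.card ≤ NX F T1 T2 := by
  have hfin := zfin hF T1 T2
  have hNN : NX F T1 T2 = ∑ s ∈ hfin.toFinset, mult F s := by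
    unfold NX
    exact finsum_mem_eq_finite_toFinset_sum _ hfin
  rw [hNN, Finset.card_eq_sum_ones]
  refine Finset.sum_le_sum fun s hs => ?_
  rw [Set.Finite.mem_toFinset] at hs
  exact mult_posB hF hs.2.2.2.2

theorem good_heightB (A : ℝ) (hA : 1 ≤ A) : ∃ C : ℝ, 0 < C ∧
    ∀ (ℒ E H q0 : ℝ) (F : ℂ → ℂ) (a : ℕ → ℂ), GoodX A ℒ E H q0 F a → ∀ T : ℝ, |T| + 5 ≤ H →
      ∃ U ∈ Set.Icc T (T + 1), ∀ σ ∈ Set.Icc (-1 / 4 : ℝ) (3 / 2),
        F (⟨σ, U⟩ : ℂ) ≠ 0 ∧ ‖deriv F (⟨σ, U⟩ : ℂ) / F (⟨σ, U⟩ : ℂ)‖ ≤ C * ℒ ^ 2 := by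
  classical
  obtain ⟨C0, hC0, hcount⟩ := zcountB A hA
  set K : ℝ := 2 * A with hKdef
  have hK : 0 < K := by positivity
  set q : ℝ := Real.log (1.9 / 1.8) with hq
  have hq0 : 0 < q := Real.log_pos (by norm_num)
  set ℓ : ℝ := Real.log (1.8 / (1.9 - 1.8)) with hℓ
  have hℓ0 : 0 < ℓ := Real.log_pos (by norm_num)
  -- the bound on the right
  set D : ℝ := K / q * (2 * (2 * C0 + 1)) +
    2 * (K + K / q * ℓ + 1) * 1.7 / (1.8 - 1.7) / (1.7 - 1.5) with hD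
  have hD0 : 0 < D := by
    have : (0 : ℝ) < 1.8 - 1.7 := by norm_num
    have : (0 : ℝ) < 1.7 - 1.5 := by norm_num
    positivity
  refine ⟨D + 2 * A + 2, by positivity, fun ℒ E H q1 F a hF T hT => ?_⟩
  have hL := hF.hL
  have hleft := hF.left
  have hlL2 : ℒ ≤ ℒ ^ 2 := by nlinarith
  -- zeros in the window
  have hfin := zfin hF (T - 1) (T + 2)
  set Γ : Finset ℝ := hfin.toFinset.image (fun s : ℂ => s.im) with hΓ
  obtain ⟨U, hU, hUΓ⟩ := pigeon Γ T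
  have hU1 : T ≤ U := hU.1
  have hU2 : U ≤ T + 1 := hU.2
  have hUabs : |U| ≤ |T| + 1 := by
    have f1 := neg_abs_le T
    have f2 := le_abs_self T
    rw [abs_le]
    constructor <;> linarith
  -- cardinality
  have hcard : (Γ.card : ℝ) ≤ 2 * C0 * ℒ := by
    have h1 : Γ.card ≤ hfin.toFinset.card := Finset.card_image_le
    have h2 : hfin.toFinset.card ≤ NX F (T - 1) (T + 1) + NX F ((T + 1) - 1) ((T + 1) + 1) := by
      refine le_trans ?_ (add_le_add (card_le_NX hF (T - 1) (T + 1))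
        (card_le_NX hF ((T + 1) - 1) ((T + 1) + 1)))
      refine le_trans (Finset.card_le_card ?_) (Finset.card_union_le _ _)
      intro s hs
      simp only [Finset.mem_union, Set.Finite.mem_toFinset] at hs ⊢
      obtain ⟨a1, a2, a3, a4, a5⟩ := hs
      by_cases h : s.im ≤ T + 1
      · exact Or.inl ⟨a1, a2, a3, h, a5⟩
      · push Not at h
        exact Or.inr ⟨a1, a2, by linarith, by linarith, a5⟩
    have h3 := hcount ℒ E H q1 F a hF T (by linarith)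
    have h4 := hcount ℒ E H q1 F a hF (T + 1) (by
      have := abs_add_le T 1
      rw [abs_one] at this
      linarith)
    have h6 : (Γ.card : ℝ) ≤ (NX F (T - 1) (T + 1) : ℝ) + NX F ((T + 1) - 1) ((T + 1) + 1) := by
      exact_mod_cast h1.trans h2
    linarith
  -- right half
  have hright : ∀ σ ∈ Set.Icc (1 / 2 : ℝ) (3 / 2), F (⟨σ, U⟩ : ℂ) ≠ 0 ∧
      ‖deriv F (⟨σ, U⟩ : ℂ) / F (⟨σ, U⟩ : ℂ)‖ ≤ D * ℒ ^ 2 := by
    intro σ hσ
    obtain ⟨M, hM1, han, hF0, hb, hMc, hL0, hLM⟩ := ball_data_B hF (t := U) (by linarith)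
    set L := Real.log (M / ‖F ⟨2, U⟩‖) with hL'
    have hδ : (0 : ℝ) < 1 / (2 * ((Γ.card : ℝ) + 1)) := by positivity
    have hland := landau (f := F) (c := ⟨2, U⟩) (r := 1.8) (r1 := 1.7) (r2 := 1.5) (R := 1.9)
      (M := M) (by norm_num) (by norm_num) (by norm_num) (by norm_num) (by norm_num) hM1 hMc han
      hF0 hb ⟨σ, U⟩ (by
        rw [mem_closedBall, dist_eq_norm]
        apply abs_le_of_sq_le_sq' _ (by norm_num) |>.2
        rw [← Complex.normSq_eq_norm_sq, Complex.normSq_apply]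
        simp only [sub_re, sub_im]
        have := hσ.1
        have := hσ.2
        nlinarith) (1 / (2 * ((Γ.card : ℝ) + 1))) hδ (by
        intro ρ hρ hFρ
        have h1 : |U - ρ.im| ≤ ‖(⟨σ, U⟩ : ℂ) - ρ‖ := by
          have := Complex.abs_im_le_norm ((⟨σ, U⟩ : ℂ) - ρ)
          simpa using this
        refine le_trans ?_ h1
        rw [mem_closedBall, dist_eq_norm] at hρ
        have h2 := (Complex.abs_re_le_norm (ρ - ⟨2, U⟩)).trans hρ
        simp only [sub_re] at h2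
        rw [abs_le] at h2
        have hre0 : 0 < ρ.re := by norm_num at h2 ⊢; linarith [h2.1]
        have hre1 : ρ.re ≤ 1 := by
          by_contra hcon
          push Not at hcon
          exact hF.nzr ρ hcon hFρ
        by_cases hw : T - 1 < ρ.im ∧ ρ.im ≤ T + 2
        · refine hUΓ ρ.im ?_
          rw [hΓ, Finset.mem_image]
          exact ⟨ρ, by rw [Set.Finite.mem_toFinset]; exact ⟨hre0.le, hre1, hw.1, hw.2, hFρ⟩, rfl⟩
        · have h5 : 1 ≤ |U - ρ.im| := by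
            rw [not_and_or] at hw
            push Not at hw
            rcases hw with hw | hw
            · rw [le_abs]; left; linarith
            · rw [le_abs]; right; linarith
          refine le_trans ?_ h5
          rw [div_le_one (by positivity)]
          have : (0 : ℝ) ≤ Γ.card := by positivity
          linarith)
    refine ⟨hland.1, hland.2.trans ?_⟩
    rw [← hL', ← hq, ← hℓ]
    have hL2 : L ≤ K * ℒ := hLM
    have e1 : L / q / (1 / (2 * ((Γ.card : ℝ) + 1))) = L / q * (2 * ((Γ.card : ℝ) + 1)) := by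
      rw [div_div_eq_mul_div, div_one]
    rw [e1]
    have e2 : 2 * ((Γ.card : ℝ) + 1) ≤ 2 * (2 * C0 + 1) * ℒ := by nlinarith
    have e3 : L / q ≤ K / q * ℒ := by
      rw [div_mul_eq_mul_div]
      exact div_le_div_of_nonneg_right hL2 hq0.le
    have e4 : L / q * (2 * ((Γ.card : ℝ) + 1)) ≤
        (K / q * ℒ) * (2 * (2 * C0 + 1) * ℒ) :=
      mul_le_mul e3 e2 (by positivity) (by positivity)
    have e5 : L + L / q * ℓ + 1 ≤ (K + K / q * ℓ + 1) * ℒ ^ 2 := by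
      have f2 : L / q * ℓ ≤ K / q * ℒ * ℓ := mul_le_mul_of_nonneg_right e3 hℓ0.le
      have f3 : (0 : ℝ) ≤ K / q * ℓ := by positivity
      have f4 : K * ℒ ≤ K * ℒ ^ 2 :=
        mul_le_mul_of_nonneg_left hlL2 (by positivity)
      have f5 : K / q * ℓ * ℒ ≤ K / q * ℓ * ℒ ^ 2 :=
        mul_le_mul_of_nonneg_left hlL2 f3
      nlinarith
    have e6 : 2 * (L + L / q * ℓ + 1) * 1.7 / (1.8 - 1.7) / (1.7 - 1.5) ≤
        2 * ((K + K / q * ℓ + 1) * ℒ ^ 2) * 1.7 / (1.8 - 1.7) /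
          (1.7 - 1.5) := by
      have g1 : (0 : ℝ) < 1.8 - 1.7 := by norm_num
      have g2 : (0 : ℝ) < 1.7 - 1.5 := by norm_num
      gcongr
    calc _ ≤ (K / q * ℒ) * (2 * (2 * C0 + 1) * ℒ) +
        2 * ((K + K / q * ℓ + 1) * ℒ ^ 2) * 1.7 / (1.8 - 1.7) /
          (1.7 - 1.5) := add_le_add e4 e6
      _ = D * ℒ ^ 2 := by rw [hD]; ring
  refine ⟨U, hU, fun σ hσ => ?_⟩
  have hbig : D * ℒ ^ 2 ≤ (D + 2 * A + 2) * ℒ ^ 2 := by
    have h2 : 0 ≤ ℒ ^ 2 := by positivity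
    exact mul_le_mul_of_nonneg_right (by linarith) h2
  by_cases hs : 1 / 2 ≤ σ
  · have := hright σ ⟨hs, hσ.2⟩
    exact ⟨this.1, this.2.trans hbig⟩
  · push Not at hs
    have hrf : (1 : ℂ) - (starRingEnd ℂ) (⟨σ, U⟩ : ℂ) = ⟨1 - σ, U⟩ := by
      apply Complex.ext <;> simp
    obtain ⟨g1, g2⟩ := hright (1 - σ) ⟨by linarith, by linarith [hσ.1]⟩
    have hne : F (⟨σ, U⟩ : ℂ) ≠ 0 := by
      by_cases h0 : σ < 0
      · exact hF.nzl ⟨σ, U⟩ hσ.1 h0
      · push Not at h0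
        have hsym := hF.symm ⟨σ, U⟩ h0 (by simp only; linarith)
        rw [hrf] at hsym
        rw [(anB hF (⟨1 - σ, U⟩ : ℂ)).analyticOrderAt_eq_zero.2 g1] at hsym
        exact (anB hF (⟨σ, U⟩ : ℂ)).analyticOrderAt_eq_zero.1 hsym.symm
    refine ⟨hne, ?_⟩
    have h3 := hleft ⟨σ, U⟩ hσ.1 hs.le (by simp only; linarith) hne
    rw [hrf] at h3
    set a := deriv F (⟨σ, U⟩ : ℂ) / F (⟨σ, U⟩ : ℂ) with ha
    set b := deriv F (⟨1 - σ, U⟩ : ℂ) / F (⟨1 - σ, U⟩ : ℂ) with hb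
    have hq1 := hF.hq0
    have hq2 := hF.hq1
    have h4 : ‖a‖ ≤ A * E + q1 + ‖b‖ := by
      have h5 : a = (a + ((q1 : ℝ) : ℂ) + (starRingEnd ℂ) b) -
          ((q1 : ℝ) : ℂ) - (starRingEnd ℂ) b := by ring
      rw [h5]
      refine (norm_sub_le _ _).trans ?_
      rw [RCLike.norm_conj]
      refine add_le_add ((norm_sub_le _ _).trans (add_le_add h3 ?_)) le_rfl
      rw [Complex.norm_real, Real.norm_eq_abs, abs_of_nonneg hq1]
    refine h4.trans ?_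
    have h6 : A * E ≤ A * ℒ ^ 2 := mul_le_mul_of_nonneg_left (hF.hEL.trans hlL2) (by linarith)
    have h9 : ‖b‖ ≤ D * ℒ ^ 2 := g2
    have h10 : A * ℒ ≤ A * ℒ ^ 2 := mul_le_mul_of_nonneg_left hlL2 (by linarith)
    nlinarith

end Pool.Agent.KS6_85.LZ
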