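import Pool.Agent.KS6_85.LZ.FamM
import Pool.Agent.KS6_85.LZ.Good
import Pool.Graph.R_seed8.H385R2.WinE

/-!
# The final theorem for a family
-/

set_option autoImplicit false
set_option maxHeartbeats 1000000

open Complex Filter Topology Set MeasureTheory
open H385 (primFamM WM Rw)
open H370 (mult)

namespace Pool.Agent.KS6_85.LZ

lemma NS_le_NI {A ℒ E H q0 : ℝ} {F : ℂ → ℂ} {a : ℕ → ℂ} (hF : GoodX A ℒ E H q0 F a) (m h : ℝ) :
    (NS F m h : ℝ) ≤ NI F m h := by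
  have hfin := zfin hF (m - h - 1) (m + h)
  rw [NI_eq hfin (by linarith) le_rfl, NS_eq hfin (by linarith) le_rfl]
  refine Finset.sum_le_sum fun s _ => ?_
  split_ifs with h1
  · rw [h1.2]
    norm_num
  · exact Nat.cast_nonneg _

lemma rho_cont (γ : ℝ) : ContinuousAt (rho γ) 0 := by
  unfold rho
  have : ContinuousAt (fun τ : ℝ => 2 / (2 - τ)) 0 := by
    refine ContinuousAt.div (by fun_prop) (by fun_prop) (by norm_num)
  fun_prop

lemma cube_root {κ : ℝ} (h : 0 ≤ κ) : (κ ^ (1 / 3 : ℝ)) ^ 3 = κ := by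
  rw [← Real.rpow_natCast, ← Real.rpow_mul h]
  norm_num

/-- **the final theorem for a family** -/
theorem low_abs : ∃ δ : ℝ, 0 < δ ∧ δ ≤ 1 ∧
    ∀ {N : ℕ} {L : (q : ℕ) → DirichletCharacter ℂ q → ℂ → ℂ} {cf : ℕ → ℂ} {A : ℝ},
    TwD N L cf A → ∀ T : ℝ, 0 ≤ T → ∀ ε : ℝ, 0 < ε →
    ∃ κ0 : ℝ, 1 ≤ κ0 ∧ ∀ κ : ℝ, κ0 ≤ κ → ∃ K η X0 : ℝ, 1 ≤ K ∧ 0 < η ∧ η ≤ 1 ∧ 2 ≤ X0 ∧
      ∀ X Y : ℕ, X0 ≤ X → K * X ≤ Y → (Y : ℝ) ≤ (X : ℝ) ^ (1 + η) →
      0 < WM N X Y ∧ ∀ t : ℝ, |t| ≤ T →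
        primFamM N X Y (fun q χ => |(NI (L q χ) t (κ / Real.log X) : ℝ) -
          2 * κ / Real.pi|) ≤ ε * (2 * κ / Real.pi) * WM N X Y ∧
        (0.6725 + δ) * (2 * κ / Real.pi) * WM N X Y ≤
          primFamM N X Y (fun q χ => (NS (L q χ) t (κ / Real.log X) : ℝ)) ∧
        (0.6725 + δ) * WM N X Y ≤
          primFamM N X Y (fun q χ => if δ * κ ≤ (NS (L q χ) t (κ / Real.log X) : ℝ) then
            (1 : ℝ) else 0) ∧
        (0.83625 + δ) * (2 * κ / Real.pi) * WM N X Y ≤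
          primFamM N X Y (fun q χ => (ND (L q χ) t (κ / Real.log X) : ℝ)) := by
  have hpi := Real.pi_pos
  have hpi3 := Real.pi_gt_three
  have hpi4 := Real.pi_le_four
  have hconst := H385.Rw_const_d2
  have hγ0 : (0 : ℝ) < 1.414 := by norm_num
  have hγπ : (1.414 : ℝ) < Real.pi := by linarith
  have hrho0 : rho 1.414 0 < 1.3275 := by
    unfold rho
    norm_num at hconst ⊢
    exact hconst
  obtain ⟨g0, hg0⟩ : ∃ g0 : ℝ, g0 = 1.3275 - rho 1.414 0 := ⟨_, rfl⟩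
  have hg0p : 0 < g0 := by rw [hg0]; linarith
  obtain ⟨δ, hδ⟩ : ∃ δ : ℝ, δ = min (g0 / 16) 1 := ⟨_, rfl⟩
  have hδ0 : 0 < δ := by rw [hδ]; positivity
  have hδ1 : δ ≤ 1 := by rw [hδ]; exact min_le_right _ _
  have hδg : 16 * δ ≤ g0 := by
    have : δ ≤ g0 / 16 := by rw [hδ]; exact min_le_left _ _
    linarith
  refine ⟨δ, hδ0, hδ1, ?_⟩
  intro N L cf A hD T hT ε hε
  obtain ⟨τ, hτ0, hτ1, hτ2, hτ3, hτ4⟩ : ∃ τ : ℝ, 0 < τ ∧ τ ≤ 1 / 4 ∧ τ ≤ δ / 4 ∧ τ ≤ ε / 2 ∧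
      rho 1.414 τ ≤ rho 1.414 0 + δ := by
    have h1 : ∀ᶠ τ : ℝ in 𝓝 0, rho 1.414 τ ≤ rho 1.414 0 + δ :=
      ((rho_cont 1.414).eventually (ge_mem_nhds (by linarith : rho 1.414 0 < rho 1.414 0 + δ)))
    obtain ⟨r, hr, h2⟩ := Metric.eventually_nhds_iff.1 h1
    refine ⟨min (min (1 / 4) (δ / 4)) (min (ε / 2) (r / 2)), by positivity,
      (min_le_left _ _).trans (min_le_left _ _), (min_le_left _ _).trans (min_le_right _ _),
      (min_le_right _ _).trans (min_le_left _ _), h2 ?_⟩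
    rw [Real.dist_eq, sub_zero, abs_of_pos (by positivity)]
    have : min (min (1 / 4) (δ / 4)) (min (ε / 2) (r / 2)) ≤ r / 2 :=
      (min_le_right _ _).trans (min_le_right _ _)
    linarith
  obtain ⟨C, k0, hC, hk0, hmain⟩ := fam_main hD T hT 1.414 hγ0 hγπ τ hτ0 hτ1
  obtain ⟨k1, hk1⟩ : ∃ k1 : ℝ, k1 = k0 + 8 * C / δ + 4 * C / ε := ⟨_, rfl⟩
  have hp1 : 0 < 8 * C / δ := by positivity
  have hp2 : 0 < 4 * C / ε := by positivity
  have hk11 : 1 ≤ k1 := by linarith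
  refine ⟨k1 ^ 3, one_le_pow₀ hk11, ?_⟩
  intro κ hκ
  have hκ0 : 0 < κ := lt_of_lt_of_le (by positivity) hκ
  obtain ⟨k, hk⟩ : ∃ k : ℝ, k = κ ^ (1 / 3 : ℝ) := ⟨_, rfl⟩
  have hk3 : k ^ 3 = κ := by rw [hk]; exact cube_root hκ0.le
  have hkp : 0 < k := by rw [hk]; positivity
  have hkk : k1 ≤ k := by
    by_contra hlt
    push Not at hlt
    have : k ^ 3 < k1 ^ 3 := pow_lt_pow_left₀ hlt hkp.le (by norm_num)
    linarith
  obtain ⟨K, X0, hK, hX⟩ := hmain k (by linarith)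
  refine ⟨K, τ, max X0 2, hK, hτ0, by linarith, le_max_right _ _, ?_⟩
  intro X Y hX1 hKY hYX
  have hX2 : (2 : ℝ) ≤ X := (le_max_right _ _).trans hX1
  have hXp : (0 : ℝ) < X := by linarith
  have hYp : (0 : ℝ) < Y := by
    have : (0 : ℝ) < K * X := by positivity
    linarith
  have hlogY : Real.log Y ≤ (1 + τ) * Real.log X := by
    rw [← Real.log_rpow hXp]
    exact Real.log_le_log hYp hYX
  obtain ⟨hW, hall⟩ := hX X Y ((le_max_left _ _).trans hX1) hKY hlogY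
  refine ⟨hW, ?_⟩
  intro t ht
  obtain ⟨h1, h2, h3⟩ := hall t ht
  rw [hk3] at h1 h2 h3
  obtain ⟨h, hh⟩ : ∃ h : ℝ, h = κ / Real.log X := ⟨_, rfl⟩
  rw [← hh] at h1 h2 h3 ⊢
  obtain ⟨g, hg⟩ : ∃ g : ℝ, g = 2 * κ / Real.pi := ⟨_, rfl⟩
  rw [← hg] at h1 h2 h3 ⊢
  have hgp : 0 < g := by rw [hg]; positivity
  obtain ⟨W, hWd⟩ : ∃ W : ℝ, W = WM N X Y := ⟨_, rfl⟩
  rw [← hWd] at hW h1 h2 h3 ⊢
  -- the error term
  have herr : C * k ^ 2 ≤ δ / 4 * g ∧ C * k ^ 2 ≤ ε / 2 * g := by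
    have e1 : k ^ 2 * k = κ := by rw [← hk3]; ring
    have e2 : g * Real.pi = 2 * κ := by
      rw [hg]
      field_simp
    have e3 : κ ≤ 2 * g := by nlinarith
    have f1 : 8 * C / δ ≤ k := by linarith
    have f2 : 4 * C / ε ≤ k := by linarith
    rw [div_le_iff₀ hδ0] at f1
    rw [div_le_iff₀ hε] at f2
    have f3 : 8 * C * k ^ 2 ≤ (k * δ) * k ^ 2 := mul_le_mul_of_nonneg_right f1 (sq_nonneg _)
    have f4 : 4 * C * k ^ 2 ≤ (k * ε) * k ^ 2 := mul_le_mul_of_nonneg_right f2 (sq_nonneg _)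
    have f5 : (k * δ) * k ^ 2 = δ * κ := by rw [← e1]; ring
    have f6 : (k * ε) * k ^ 2 = ε * κ := by rw [← e1]; ring
    have f7 : δ * κ ≤ δ * (2 * g) := mul_le_mul_of_nonneg_left e3 hδ0.le
    have f8 : ε * κ ≤ ε * (2 * g) := mul_le_mul_of_nonneg_left e3 hε.le
    constructor <;> linarith
  obtain ⟨he1, he2⟩ := herr
  have hWg : 0 < W * g := by positivity
  -- linear relations
  obtain ⟨a, ha⟩ : ∃ a : ℝ, a = primFamM N X Y (fun q χ => (NI (L q χ) t h : ℝ)) := ⟨_, rfl⟩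
  obtain ⟨s, hs⟩ : ∃ a : ℝ, a = primFamM N X Y (fun q χ => (NS (L q χ) t h : ℝ)) := ⟨_, rfl⟩
  obtain ⟨d, hd⟩ : ∃ a : ℝ, a = primFamM N X Y (fun q χ => (ND (L q χ) t h : ℝ)) := ⟨_, rfl⟩
  obtain ⟨e, he⟩ : ∃ a : ℝ, a = primFamM N X Y (fun q χ => |(NI (L q χ) t h : ℝ) - g|) := ⟨_, rfl⟩
  obtain ⟨o, ho⟩ : ∃ a : ℝ, a = primFamM N X Y (fun q χ =>
    if δ * κ ≤ (NS (L q χ) t h : ℝ) then (1 : ℝ) else 0) := ⟨_, rfl⟩
  have l1 : primFamM N X Y (fun q χ => 2 * (NI (L q χ) t h : ℝ) - NS (L q χ) t h) = 2 * a - s := by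
    have := H385.primFamM_lin N X Y 2 1 (fun q χ => (NI (L q χ) t h : ℝ))
      (fun q χ => (NS (L q χ) t h : ℝ))
    simp only [one_mul] at this
    rw [this, ha, hs]
  have l2 : primFamM N X Y (fun q χ => 3 * (NI (L q χ) t h : ℝ) - 2 * ND (L q χ) t h) =
      3 * a - 2 * d := by
    rw [H385.primFamM_lin N X Y 3 2 (fun q χ => (NI (L q χ) t h : ℝ))
      (fun q χ => (ND (L q χ) t h : ℝ)), ha, hd]
  have l3 : g * W ≤ a + e := by
    have := H385.primFamM_mono N X Y (fun _ _ => g)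
      (fun q χ => (NI (L q χ) t h : ℝ) + |(NI (L q χ) t h : ℝ) - g|) (fun q χ _ _ _ _ => by
        have := neg_abs_le ((NI (L q χ) t h : ℝ) - g)
        linarith)
    rw [pf_add, pf_one, ← ha, ← he, ← hWd] at this
    exact this
  have l4 : s ≤ δ * κ * W + (g * o + e) := by
    have := H385.primFamM_mono N X Y (fun q χ => (NS (L q χ) t h : ℝ))
      (fun q χ => δ * κ + (g * (if δ * κ ≤ (NS (L q χ) t h : ℝ) then (1 : ℝ) else 0) +
        |(NI (L q χ) t h : ℝ) - g|)) (fun q χ q1 q2 q3 q4 => by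
        have hq2 : 2 ≤ q := by
          have : (2 : ℝ) < q := lt_of_le_of_lt hX2 (by exact_mod_cast q1)
          have : 2 < q := by exact_mod_cast this
          omega
        have g1 := NS_le_NI (hD.good q χ hq2 q3 q4 3 le_rfl) t h
        have g2 := le_abs_self ((NI (L q χ) t h : ℝ) - g)
        have g3 := abs_nonneg ((NI (L q χ) t h : ℝ) - g)
        have g4 : 0 ≤ δ * κ := by positivity
        split_ifs with hc
        · linarith
        · push Not at hc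
          linarith)
    rw [pf_add, pf_add, pf_one, pf_mul, ← hs, ← he, ← ho, ← hWd] at this
    exact this
  rw [l1] at h2
  rw [l2] at h3
  rw [← he] at h1
  rw [← he, ← hs, ← hd, ← ho]
  have n1 : e ≤ (δ / 2) * (W * g) := by
    have : W * (g * τ + C * k ^ 2) ≤ W * (g * (δ / 4) + δ / 4 * g) :=
      mul_le_mul_of_nonneg_left (add_le_add (mul_le_mul_of_nonneg_left hτ2 hgp.le) he1) hW.le
    linarith
  have n2 : 2 * a - s ≤ (rho 1.414 0 + 2 * δ) * (W * g) := by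
    have : W * (g * rho 1.414 τ + C * k ^ 2) ≤ W * (g * (rho 1.414 0 + δ) + δ / 4 * g) :=
      mul_le_mul_of_nonneg_left (add_le_add (mul_le_mul_of_nonneg_left hτ4 hgp.le) he1) hW.le
    have h5 : 0 ≤ δ * (W * g) := by positivity
    linarith
  have n3 : 3 * a - 2 * d ≤ (rho 1.414 0 + 2 * δ) * (W * g) := by
    have : W * (g * rho 1.414 τ + C * k ^ 2) ≤ W * (g * (rho 1.414 0 + δ) + δ / 4 * g) :=
      mul_le_mul_of_nonneg_left (add_le_add (mul_le_mul_of_nonneg_left hτ4 hgp.le) he1) hW.le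
    have h5 : 0 ≤ δ * (W * g) := by positivity
    linarith
  have n4 : (1 - δ / 2) * (W * g) ≤ a := by linarith
  have n0 : rho 1.414 0 ≤ 1.3275 - 16 * δ := by linarith
  have n5 : rho 1.414 0 * (W * g) ≤ (1.3275 - 16 * δ) * (W * g) :=
    mul_le_mul_of_nonneg_right n0 hWg.le
  have n6 : 0 ≤ δ * (W * g) := by positivity
  have n7 : (0.6725 + 12 * δ) * (W * g) ≤ s := by
    norm_num at n5 ⊢
    linarith
  refine ⟨?_, ?_, ?_, ?_⟩
  · have : W * (g * τ + C * k ^ 2) ≤ W * (g * (ε / 2) + ε / 2 * g) :=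
      mul_le_mul_of_nonneg_left (add_le_add (mul_le_mul_of_nonneg_left hτ3 hgp.le) he2) hW.le
    linarith
  · linarith
  · have e2 : κ ≤ 2 * g := by
      have e2 : g * Real.pi = 2 * κ := by
        rw [hg]
        field_simp
      nlinarith
    have e3 : δ * κ * W ≤ δ * (2 * g) * W := by gcongr
    have e4 : (0.6725 + δ) * W * g ≤ o * g := by
      norm_num at n7 ⊢
      linarith
    exact le_of_mul_le_mul_right e4 hgp
  · norm_num at n5 ⊢
    linarith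

end Pool.Agent.KS6_85.LZ
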