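import Pool.Graph.R_seed8.W261.TW.Smooth
import Pool.Agent.KS6_85.LZ.Gau

/-!
# The main term of the mean square
-/

set_option autoImplicit false
set_option maxHeartbeats 1000000

open Filter Topology Set MeasureTheory
open H385 (Rw)
open Pool.Agent.W261.TW

namespace Pool.Agent.KS6_85.LZ

lemma gauss_int_4 {p q : ℝ} (t : ℝ) (h : p ≤ q) :
    ∫ u in p..q, Real.exp (-(1 / 4 * (u - t) ^ 2)) ≤ 2 * Real.sqrt Real.pi := by
  have h1 := ga_ii (-t) h
  refine le_trans (le_of_eq ?_) h1
  refine intervalIntegral.integral_congr fun u _ => ?_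
  unfold ga
  show Real.exp _ = Real.exp _
  congr 1
  ring

lemma int_swu_8 (c : ℕ → ℂ) {C : ℝ} (hv : Wt (vv c) C) {L : ℝ} (hL : 0 ≤ L) :
    ∫ u in (0 : ℝ)..L, W388.SWu c (1 / 8) u ≤ 2 * Real.exp 8 * (C * S0) * (L + 1) ^ 2 := by
  have h1 : ∫ u in (0 : ℝ)..L, W388.SWu c (1 / 8) u ≤
      ∫ u in (0 : ℝ)..L, Real.exp 8 * (L + 1) * EE (vv c) u := by
    apply intervalIntegral.integral_mono_on hL
    · exact (swu_dom c hv (by norm_num : (0 : ℝ) < 1 / 8)).2.intervalIntegrable _ _
    · exact ((EE_dom hv).2.const_mul _).intervalIntegrable _ _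
    · intro u hu
      have := swu_le c hv (by norm_num : (0 : ℝ) < 1 / 8) hu.2 hL
      norm_num at this
      exact this
  rw [intervalIntegral.integral_const_mul] at h1
  have h2 := int_EE_le hv hL
  calc _ ≤ _ := h1
    _ ≤ Real.exp 8 * (L + 1) * (2 * (C * S0 * (L + 1))) := by gcongr
    _ = _ := by ring

lemma block4 (c : ℕ → ℂ) (hc : W388.SelE c) {a b : ℝ} (ha : 0 ≤ a) (hab : a ≤ b) (hb1 : b ≤ 1)
    {ε : ℝ} (hε : 0 < ε) :
    ∀ᶠ L : ℝ in atTop, ∫ u in (a * L)..(b * L), W388.SWu c (1 / 4) u ≤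
      (2 * Real.sqrt Real.pi) * L ^ 2 * (b * (b - a) + ε) := by
  obtain ⟨C, hv⟩ := wt_of c hc
  set K := C * S0 with hK
  have hb0 : 0 ≤ b := ha.trans hab
  obtain ⟨η, hη0, hη1, hη2⟩ : ∃ η : ℝ, 0 < η ∧ η ≤ 1 ∧ η ≤ ε / 18 :=
    ⟨min 1 (ε / 18), lt_min one_pos (by positivity), min_le_left _ _, min_le_right _ _⟩
  have hsq : 0 < (2 * Real.sqrt Real.pi) := by
    have := Real.sqrt_pos.2 Real.pi_pos
    positivity
  have hexp : Tendsto (fun L : ℝ => Real.exp (-((η * L) ^ 2 / 8)) * (8 * Real.exp 8 * K)) atTop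
      (𝓝 0) := by
    have h1 : Tendsto (fun L : ℝ => (η * L) ^ 2 / 8) atTop atTop := by
      apply Tendsto.atTop_div_const (by norm_num)
      exact (tendsto_pow_atTop (by norm_num)).comp (tendsto_id.const_mul_atTop hη0)
    have h2 := (Real.tendsto_exp_neg_atTop_nhds_zero.comp h1).mul_const (8 * Real.exp 8 * K)
    rw [zero_mul] at h2
    exact h2
  have hev1 := hexp.eventually (gt_mem_nhds (show (0 : ℝ) < (2 * Real.sqrt Real.pi) * (ε / 2) by
    positivity))
  have hev2 := VV_diff c hc (a := a) (b := b) (η := η) hb0 hη0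
  filter_upwards [hev1, hev2, eventually_ge_atTop 1] with L h1 h2 hL1
  have hL0 : 0 < L := by linarith
  set lo := (a - η) * L with hlo
  set hi := (b + η) * L with hhi
  have hlohi : lo ≤ hi := by
    apply mul_le_mul_of_nonneg_right _ hL0.le
    linarith
  set NL := (Finset.Icc 1 ⌊Real.exp hi⌋₊).filter (fun n : ℕ => lo < Real.log n) with hNL
  have hle : a * L ≤ b * L := mul_le_mul_of_nonneg_right hab hL0.le
  -- pointwise bound
  have hpt : ∀ u ∈ Set.Icc (a * L) (b * L), W388.SWu c (1 / 4) u ≤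
      (∑ n ∈ NL, ArithmeticFunction.vonMangoldt n ^ 2 * ‖c n‖ ^ 2 / n * Real.exp (-(1 / 4 * (u - Real.log n) ^ 2))) +
        Real.exp (-((η * L) ^ 2 / 8)) * W388.SWu c (1 / 8) u := by
    intro u hu
    have hs1 := (swu_dom c hv (by norm_num : (0 : ℝ) < 1 / 4)).1 u
    have hs2 := (swu_dom c hv (by norm_num : (0 : ℝ) < 1 / 8)).1 u
    have hfin : HasSum (fun n : ℕ => if n ∈ NL then
        ArithmeticFunction.vonMangoldt n ^ 2 * ‖c n‖ ^ 2 / n * Real.exp (-(1 / 4 * (u - Real.log n) ^ 2)) else 0)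
        (∑ n ∈ NL, ArithmeticFunction.vonMangoldt n ^ 2 * ‖c n‖ ^ 2 / n * Real.exp (-(1 / 4 * (u - Real.log n) ^ 2))) := by
      have h8 : HasSum (fun n : ℕ => if n ∈ NL then
        ArithmeticFunction.vonMangoldt n ^ 2 * ‖c n‖ ^ 2 / n * Real.exp (-(1 / 4 * (u - Real.log n) ^ 2)) else 0)
        (∑ n ∈ NL, if n ∈ NL then
        ArithmeticFunction.vonMangoldt n ^ 2 * ‖c n‖ ^ 2 / n * Real.exp (-(1 / 4 * (u - Real.log n) ^ 2)) else 0) :=
        hasSum_sum_of_ne_finset_zero (fun n hn => if_neg hn)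
      convert h8 using 1
      apply Finset.sum_congr rfl
      intro n hn
      rw [if_pos hn]
    have hR := hfin.add (hs2.hasSum.mul_left (Real.exp (-((η * L) ^ 2 / 8))))
    refine hasSum_le ?_ hs1.hasSum hR
    intro n
    have hG2 := swu_nonneg_term c (1 / 8) n u
    by_cases hn : n ∈ NL
    · simp only [if_pos hn]
      have := mul_nonneg (Real.exp_pos (-((η * L) ^ 2 / 8))).le hG2
      linarith
    · simp only [if_neg hn, zero_add]
      rcases Nat.eq_zero_or_pos n with h0 | h0
      · subst h0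
        simp
      · have hfar : (η * L) ^ 2 ≤ (u - Real.log n) ^ 2 := by
          have hn0 : (0 : ℝ) < n := by exact_mod_cast h0
          have hηL : 0 ≤ η * L := by positivity
          by_cases h3 : n ≤ ⌊Real.exp hi⌋₊
          · have h4 : ¬ lo < Real.log n := by
              intro h5
              apply hn
              rw [hNL, Finset.mem_filter, Finset.mem_Icc]
              exact ⟨⟨h0, h3⟩, h5⟩
            rw [not_lt] at h4
            have h5 : η * L ≤ u - Real.log n := by
              have := hu.1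
              have e : lo = a * L - η * L := by rw [hlo]; ring
              linarith
            exact pow_le_pow_left₀ hηL h5 2
          · have h4 : Real.exp hi < n := by
              rw [not_le] at h3
              exact (Nat.floor_lt (Real.exp_pos _).le).1 h3
            have h5 : hi < Real.log n := (Real.lt_log_iff_exp_lt hn0).2 h4
            have h6 : η * L ≤ Real.log n - u := by
              have := hu.2
              have e : hi = b * L + η * L := by rw [hhi]; ring
              linarith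
            have h7 := pow_le_pow_left₀ hηL h6 2
            calc (η * L) ^ 2 ≤ (Real.log n - u) ^ 2 := h7
              _ = (u - Real.log n) ^ 2 := by ring
        have hLam : 0 ≤ ArithmeticFunction.vonMangoldt n := ArithmeticFunction.vonMangoldt_nonneg
        have h5 : Real.exp (-(1 / 4 * (u - Real.log n) ^ 2)) ≤
            Real.exp (-((η * L) ^ 2 / 8)) * Real.exp (-(1 / 8 * (u - Real.log n) ^ 2)) := by
          rw [← Real.exp_add]
          apply Real.exp_le_exp.2
          linarith
        calc _ ≤ ArithmeticFunction.vonMangoldt n ^ 2 * ‖c n‖ ^ 2 / n * (Real.exp (-((η * L) ^ 2 / 8)) *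
            Real.exp (-(1 / 8 * (u - Real.log n) ^ 2))) := by gcongr
          _ = _ := by ring
  -- integrate
  have hcont1 : ∀ n : ℕ, Continuous fun u : ℝ =>
      ArithmeticFunction.vonMangoldt n ^ 2 * ‖c n‖ ^ 2 / n * Real.exp (-(1 / 4 * (u - Real.log n) ^ 2)) := fun n => by fun_prop
  have hcS := (swu_dom c hv (by norm_num : (0 : ℝ) < 1 / 8)).2
  have hint : ∫ u in (a * L)..(b * L), W388.SWu c (1 / 4) u ≤
      (∑ n ∈ NL, ∫ u in (a * L)..(b * L),
        ArithmeticFunction.vonMangoldt n ^ 2 * ‖c n‖ ^ 2 / n * Real.exp (-(1 / 4 * (u - Real.log n) ^ 2))) +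
        Real.exp (-((η * L) ^ 2 / 8)) * ∫ u in (a * L)..(b * L), W388.SWu c (1 / 8) u := by
    rw [← intervalIntegral.integral_const_mul, ← intervalIntegral.integral_finsetSum
      (fun n _ => (hcont1 n).intervalIntegrable _ _), ← intervalIntegral.integral_add]
    · apply intervalIntegral.integral_mono_on hle
      · exact (swu_dom c hv (by norm_num : (0 : ℝ) < 1 / 4)).2.intervalIntegrable _ _
      · exact ((continuous_finsetSum _ fun n _ => hcont1 n).add
          (hcS.const_mul _)).intervalIntegrable _ _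
      · exact hpt
    · exact (continuous_finsetSum _ fun n _ => hcont1 n).intervalIntegrable _ _
    · exact (hcS.const_mul _).intervalIntegrable _ _
  have hA : (∑ n ∈ NL, ∫ u in (a * L)..(b * L),
        ArithmeticFunction.vonMangoldt n ^ 2 * ‖c n‖ ^ 2 / n * Real.exp (-(1 / 4 * (u - Real.log n) ^ 2))) ≤
      (2 * Real.sqrt Real.pi) * hi * (VV c (Real.exp hi) - VV c (Real.exp lo)) := by
    rw [← VV_sub c hlohi, Finset.mul_sum]
    apply Finset.sum_le_sum
    intro n hn
    rw [hNL, Finset.mem_filter, Finset.mem_Icc] at hn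
    have hn0 : (0 : ℝ) < n := by exact_mod_cast hn.1.1
    have h3 : Real.log n ≤ hi := by
      rw [Real.log_le_iff_le_exp hn0]
      exact (Nat.le_floor_iff (Real.exp_pos _).le).1 hn.1.2
    have h4 : ArithmeticFunction.vonMangoldt n ≤ hi := ArithmeticFunction.vonMangoldt_le_log.trans h3
    have h5 : 0 ≤ ArithmeticFunction.vonMangoldt n := ArithmeticFunction.vonMangoldt_nonneg
    have h6 := vv_nonneg c n
    rw [intervalIntegral.integral_const_mul]
    calc ArithmeticFunction.vonMangoldt n ^ 2 * ‖c n‖ ^ 2 / n * ∫ u in (a * L)..(b * L), Real.exp (-(1 / 4 * (u - Real.log n) ^ 2))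
        ≤ ArithmeticFunction.vonMangoldt n ^ 2 * ‖c n‖ ^ 2 / n * (2 * Real.sqrt Real.pi) := by
          apply mul_le_mul_of_nonneg_left (gauss_int_4 _ hle)
          positivity
      _ = (2 * Real.sqrt Real.pi) * (ArithmeticFunction.vonMangoldt n * vv c n) := by unfold vv; ring
      _ ≤ (2 * Real.sqrt Real.pi) * (hi * vv c n) := by gcongr
      _ = _ := by ring
  have hB : ∫ u in (a * L)..(b * L), W388.SWu c (1 / 8) u ≤ 8 * Real.exp 8 * K * L ^ 2 := by
    have h3 : ∫ u in (a * L)..(b * L), W388.SWu c (1 / 8) u ≤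
        ∫ u in (0 : ℝ)..L, W388.SWu c (1 / 8) u := by
      apply intervalIntegral.integral_mono_interval
      · positivity
      · exact hle
      · nlinarith
      · exact Filter.Eventually.of_forall fun u => swu_nonneg c _ u
      · exact hcS.intervalIntegrable _ _
    have h4 := int_swu_8 c hv hL0.le
    have hK0 : 0 ≤ K := by
      have h5 := hv.C_nonneg
      have h6 : 0 ≤ S0 := tsum_nonneg fun j => by positivity
      positivity
    calc _ ≤ 2 * Real.exp 8 * K * (L + 1) ^ 2 := h3.trans h4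
      _ ≤ 2 * Real.exp 8 * K * (2 * L) ^ 2 := by
          gcongr
          linarith
      _ = _ := by ring
  have hE := (Real.exp_pos (-((η * L) ^ 2 / 8)))
  have hhi0 : 0 ≤ hi := by positivity
  calc _ ≤ _ := hint
    _ ≤ (2 * Real.sqrt Real.pi) * hi * ((b - a + 4 * η) * L) +
        Real.exp (-((η * L) ^ 2 / 8)) * (8 * Real.exp 8 * K * L ^ 2) := by
        apply add_le_add
        · exact hA.trans (mul_le_mul_of_nonneg_left h2 (by positivity))
        · exact mul_le_mul_of_nonneg_left hB hE.le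
    _ = (2 * Real.sqrt Real.pi) * L ^ 2 * ((b + η) * (b - a + 4 * η)) +
        (Real.exp (-((η * L) ^ 2 / 8)) * (8 * Real.exp 8 * K)) * L ^ 2 := by
        rw [hhi]; ring
    _ ≤ (2 * Real.sqrt Real.pi) * L ^ 2 * (b * (b - a) + ε / 2) +
        ((2 * Real.sqrt Real.pi) * (ε / 2)) * L ^ 2 := by
        have h3 : (b + η) * (b - a + 4 * η) ≤ b * (b - a) + ε / 2 := by
          nlinarith
        gcongr
    _ = _ := by ring

theorem main_term4 (c : ℕ → ℂ) (hc : W388.SelE c) (γ : ℝ) (h0 : 0 < γ) (hπ : γ < Real.pi) (ε : ℝ)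
    (hε : 0 < ε) : ∃ L0 : ℝ, 0 < L0 ∧ ∀ L : ℝ, L0 ≤ L →
    ∫ u in (0 : ℝ)..L, Rw γ (u / L) * W388.SWu c (1 / 4) u ≤
      (2 * Real.sqrt Real.pi) * L ^ 2 * ((∫ α in (0 : ℝ)..1, α * Rw γ α) + ε) := by
  obtain ⟨C, hv⟩ := wt_of c hc
  obtain ⟨KR, hKR, hlip⟩ := H385.Rw_lip γ h0 hπ
  have hcR : Continuous (Rw γ) := by
    have : LipschitzWith (Real.toNNReal KR) (Rw γ) := by
      apply LipschitzWith.of_dist_le_mul
      intro x y
      rw [Real.dist_eq, Real.dist_eq, Real.coe_toNNReal _ hKR.le]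
      exact hlip x y
    exact this.continuous
  have hRn := H385.Rw_nonneg γ h0 hπ
  have hanti := H385.Rw_antitone γ h0 hπ
  set R0 := Rw γ 0 with hR0
  have hR00 : 0 ≤ R0 := hRn 0
  obtain ⟨m, hm⟩ := exists_nat_gt ((KR + R0) / (ε / 2) + 1)
  have hm0 : (0 : ℝ) < m := by
    have : 0 ≤ (KR + R0) / (ε / 2) := by positivity
    linarith
  have hm1 : (KR + R0) / m ≤ ε / 2 := by
    rw [div_le_iff₀ hm0]
    have h1 : (KR + R0) / (ε / 2) ≤ m := by linarith
    rw [div_le_iff₀ (by positivity)] at h1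
    linarith
  set ε' := ε / (2 * m * (R0 + 1)) with hε'
  have hε'0 : 0 < ε' := by positivity
  have hev : ∀ᶠ L : ℝ in atTop, ∀ i ∈ Finset.range m,
      ∫ u in ((i : ℝ) / m * L)..(((i + 1 : ℕ) : ℝ) / m * L), W388.SWu c (1 / 4) u ≤
      (2 * Real.sqrt Real.pi) * L ^ 2 *
        ((((i + 1 : ℕ) : ℝ) / m) * ((((i + 1 : ℕ) : ℝ) / m) - (i : ℝ) / m) + ε') := by
    rw [Filter.eventually_all_finset]
    intro i hi
    rw [Finset.mem_range] at hi
    apply block4 c hc (by positivity) _ _ hε'0
    · gcongr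
      linarith
    · rw [div_le_one hm0]
      exact_mod_cast hi
  obtain ⟨L0, hL0⟩ := (hev.and (eventually_gt_atTop 0)).exists_forall_of_atTop
  refine ⟨max L0 1, by positivity, ?_⟩
  intro L hL
  obtain ⟨hbl, hLpos⟩ := hL0 L ((le_max_left _ _).trans hL)
  have hcS := (swu_dom c hv (by norm_num : (0 : ℝ) < 1 / 4)).2
  have hcf : Continuous fun u : ℝ => Rw γ (u / L) * W388.SWu c (1 / 4) u :=
    (hcR.comp (continuous_id.div_const L)).mul hcS
  have hcg : Continuous fun α : ℝ => α * Rw γ α := continuous_id.mul hcR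
  have hsplit1 : ∫ u in (0 : ℝ)..L, Rw γ (u / L) * W388.SWu c (1 / 4) u =
      ∑ i ∈ Finset.range m, ∫ u in ((i : ℝ) / m * L)..(((i + 1 : ℕ) : ℝ) / m * L),
        Rw γ (u / L) * W388.SWu c (1 / 4) u := by
    have := intervalIntegral.sum_integral_adjacent_intervals (a := fun i : ℕ => (i : ℝ) / m * L)
      (n := m) (f := fun u : ℝ => Rw γ (u / L) * W388.SWu c (1 / 4) u) (μ := volume)
      (fun i _ => hcf.intervalIntegrable _ _)
    rw [this]
    congr 1
    · simp
    · rw [div_self hm0.ne', one_mul]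
  have hsplit2 : ∫ α in (0 : ℝ)..1, α * Rw γ α =
      ∑ i ∈ Finset.range m, ∫ α in ((i : ℝ) / m)..(((i + 1 : ℕ) : ℝ) / m), α * Rw γ α := by
    have := intervalIntegral.sum_integral_adjacent_intervals (a := fun i : ℕ => (i : ℝ) / m)
      (n := m) (f := fun α : ℝ => α * Rw γ α) (μ := volume)
      (fun i _ => hcg.intervalIntegrable _ _)
    rw [this]
    congr 1
    · simp
    · rw [div_self hm0.ne']
  rw [hsplit1, hsplit2]
  have hterm : ∀ i ∈ Finset.range m, ∫ u in ((i : ℝ) / m * L)..(((i + 1 : ℕ) : ℝ) / m * L),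
        Rw γ (u / L) * W388.SWu c (1 / 4) u ≤ (2 * Real.sqrt Real.pi) * L ^ 2 *
        ((∫ α in ((i : ℝ) / m)..(((i + 1 : ℕ) : ℝ) / m), α * Rw γ α) + ε / m) := by
    intro i hi
    have hb := hbl i hi
    rw [Finset.mem_range] at hi
    set x := (i : ℝ) / m with hx
    set y := ((i + 1 : ℕ) : ℝ) / m with hy
    have hyx : y = x + 1 / m := by
      rw [hx, hy]
      push_cast
      ring
    have hx0 : 0 ≤ x := by positivity
    have h1m : 0 < 1 / (m : ℝ) := by positivity
    have hxy : x ≤ y := by linarith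
    have hy1 : y ≤ 1 := by
      rw [hy, div_le_one hm0]
      exact_mod_cast hi
    have hx1 : x ≤ 1 := hxy.trans hy1
    have hxyL : x * L ≤ y * L := mul_le_mul_of_nonneg_right hxy hLpos.le
    -- upper bound
    have hup : ∫ u in (x * L)..(y * L), Rw γ (u / L) * W388.SWu c (1 / 4) u ≤
        Rw γ x * ∫ u in (x * L)..(y * L), W388.SWu c (1 / 4) u := by
      rw [← intervalIntegral.integral_const_mul]
      apply intervalIntegral.integral_mono_on hxyL (hcf.intervalIntegrable _ _)
        ((hcS.const_mul _).intervalIntegrable _ _)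
      intro u hu
      apply mul_le_mul_of_nonneg_right _ (swu_nonneg c (1 / 4) u)
      have h1 : x ≤ u / L := by
        rw [le_div_iff₀ hLpos]
        exact hu.1
      exact hanti (Set.mem_Ici.2 hx0) (Set.mem_Ici.2 (hx0.trans h1)) h1
    -- lower bound
    have hlow : 1 / m * (x * Rw γ y) ≤ ∫ α in x..y, α * Rw γ α := by
      calc 1 / m * (x * Rw γ y) = ∫ _α in x..y, x * Rw γ y := by
            rw [intervalIntegral.integral_const, smul_eq_mul]
            congr 1
            rw [hyx]
            ring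
        _ ≤ _ := by
            apply intervalIntegral.integral_mono_on hxy
              (continuous_const.intervalIntegrable _ _) (hcg.intervalIntegrable _ _)
            intro α hα
            apply mul_le_mul hα.1 _ (hRn y) (hx0.trans hα.1)
            exact hanti (Set.mem_Ici.2 (hx0.trans hα.1)) (Set.mem_Ici.2 (hx0.trans hxy)) hα.2
    have hRx : Rw γ x ≤ R0 := hanti (Set.mem_Ici.2 le_rfl) (Set.mem_Ici.2 hx0) hx0
    have hRxy : Rw γ x ≤ Rw γ y + KR * (1 / m) := by
      have h1 := hlip x y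
      have h2 : |x - y| = 1 / m := by
        rw [hyx]
        rw [show x - (x + 1 / m) = -(1 / (m : ℝ)) by ring, abs_neg, abs_of_pos h1m]
      rw [h2] at h1
      have h3 := le_abs_self (Rw γ x - Rw γ y)
      linarith
    have hsq : 0 ≤ (2 * Real.sqrt Real.pi) * L ^ 2 := by positivity
    have hRx0 := hRn x
    have hfinal : Rw γ x * (y * (y - x) + ε') ≤ 1 / m * (x * Rw γ y) + ε / m := by
      have e1 : y * (y - x) = 1 / m * x + 1 / m * (1 / m) := by
        rw [hyx]; ring
      rw [e1]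
      have e2 : Rw γ x * ε' ≤ (ε / 2) * (1 / m) := by
        calc Rw γ x * ε' ≤ (R0 + 1) * ε' := by
              apply mul_le_mul_of_nonneg_right _ hε'0.le
              linarith
          _ = (ε / 2) * (1 / m) := by
              rw [hε']
              field_simp
      have e3 : Rw γ x * (1 / m * x) ≤ (Rw γ y + KR * (1 / m)) * (1 / m * x) :=
        mul_le_mul_of_nonneg_right hRxy (by positivity)
      have e4 : KR * (1 / m) * (1 / m * x) ≤ KR * (1 / m) * (1 / m) := by
        have : 1 / (m : ℝ) * x ≤ 1 / m := by nlinarith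
        gcongr
      have e5 : Rw γ x * (1 / m * (1 / m)) ≤ R0 * (1 / m * (1 / m)) := by gcongr
      have e6 : (KR + R0) * (1 / m) * (1 / m) ≤ (ε / 2) * (1 / m) := by
        apply mul_le_mul_of_nonneg_right _ h1m.le
        rw [mul_one_div]
        exact hm1
      have e7 : ε / m = (ε / 2) * (1 / m) + (ε / 2) * (1 / m) := by ring
      rw [e7]
      nlinarith
    calc _ ≤ _ := hup
      _ ≤ Rw γ x * ((2 * Real.sqrt Real.pi) * L ^ 2 * (y * (y - x) + ε')) :=
          mul_le_mul_of_nonneg_left hb hRx0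
      _ = (2 * Real.sqrt Real.pi) * L ^ 2 * (Rw γ x * (y * (y - x) + ε')) := by ring
      _ ≤ (2 * Real.sqrt Real.pi) * L ^ 2 * (1 / m * (x * Rw γ y) + ε / m) :=
          mul_le_mul_of_nonneg_left hfinal hsq
      _ ≤ _ := by
          apply mul_le_mul_of_nonneg_left _ hsq
          linarith
  calc _ ≤ _ := Finset.sum_le_sum hterm
    _ = _ := by
        rw [← Finset.mul_sum, Finset.sum_add_distrib, Finset.sum_const, Finset.card_range,
          nsmul_eq_mul]
        congr 2
        field_simp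


end Pool.Agent.KS6_85.LZ
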