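import Mathlib

/-!
# A band limited kernel with fast decay (normalised even power of `sin z / z`)
-/

set_option autoImplicit false

open Complex Filter Topology Set MeasureTheory
open scoped FourierTransform

namespace Pool.Agent.KS6_85.LZ

/-- the entire function `sin z / z` -/
noncomputable def es (z : ℂ) : ℂ := (1 / 2) * ∫ s in (-1 : ℝ)..1, cexp (I * z * s)

lemma es_mul (z : ℂ) : z * es z = Complex.sin z := by
  unfold es
  rcases eq_or_ne z 0 with rfl | hz
  · simp
  have hc : I * z ≠ 0 := mul_ne_zero I_ne_zero hz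
  have h := integral_exp_mul_complex (a := -1) (b := 1) hc
  rw [h, Complex.sin]
  push_cast
  field_simp
  linear_combination (cexp (z * I) - cexp (-(z * I))) * I_sq

lemma norm_exp_seg (z : ℂ) (s : ℝ) : ‖cexp (I * z * s)‖ = Real.exp (-(z.im * s)) := by
  rw [Complex.norm_exp]
  congr 1
  simp

lemma es_le (z : ℂ) : ‖es z‖ ≤ Real.exp |z.im| := by
  unfold es
  have h1 : ‖∫ s in (-1 : ℝ)..1, cexp (I * z * s)‖ ≤ Real.exp |z.im| * |(1 : ℝ) - (-1)| := by
    apply intervalIntegral.norm_integral_le_of_norm_le_const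
    intro s hs
    rw [uIoc_of_le (by norm_num)] at hs
    rw [norm_exp_seg]
    apply Real.exp_le_exp.2
    have h2 : |s| ≤ 1 := abs_le.2 ⟨hs.1.le, hs.2⟩
    calc -(z.im * s) ≤ |z.im * s| := neg_le_abs _
      _ = |z.im| * |s| := abs_mul _ _
      _ ≤ |z.im| * 1 := mul_le_mul_of_nonneg_left h2 (abs_nonneg _)
      _ = |z.im| := mul_one _
  rw [norm_mul]
  norm_num at h1 ⊢
  linarith

lemma sin_le (z : ℂ) : ‖Complex.sin z‖ ≤ Real.exp |z.im| := by
  rw [Complex.sin, norm_div, norm_mul, norm_I, mul_one, Complex.norm_ofNat]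
  have h1 : ‖cexp (-z * I)‖ ≤ Real.exp |z.im| := by
    rw [Complex.norm_exp]
    apply Real.exp_le_exp.2
    simp [le_abs_self]
  have h2 : ‖cexp (z * I)‖ ≤ Real.exp |z.im| := by
    rw [Complex.norm_exp]
    apply Real.exp_le_exp.2
    simp [neg_le_abs]
  have := norm_sub_le (cexp (-z * I)) (cexp (z * I))
  linarith

lemma es_dec (z : ℂ) : (1 + ‖z‖) * ‖es z‖ ≤ 2 * Real.exp |z.im| := by
  have h1 := es_le z
  have h2 : ‖z‖ * ‖es z‖ ≤ Real.exp |z.im| := by
    rw [← norm_mul, es_mul]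
    exact sin_le z
  linarith

lemma es_neg (z : ℂ) : es (-z) = es z := by
  unfold es
  congr 1
  have h := intervalIntegral.integral_comp_neg (a := -1) (b := 1)
    (fun s : ℝ => cexp (I * z * s))
  simp only [neg_neg] at h
  rw [← h]
  refine intervalIntegral.integral_congr fun s _ => ?_
  simp only [ofReal_neg]
  congr 1
  ring

lemma es_conj (z : ℂ) : es ((starRingEnd ℂ) z) = (starRingEnd ℂ) (es z) := by
  rw [← es_neg]
  unfold es
  rw [map_mul, intervalIntegral.integral_of_le (by norm_num),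
    intervalIntegral.integral_of_le (by norm_num), ← integral_conj]
  congr 1
  · rw [map_div₀, map_one, map_ofNat]
  · refine integral_congr_ae (Filter.Eventually.of_forall fun s => ?_)
    simp only [← Complex.exp_conj, map_mul, conj_I, conj_ofReal]
    congr 1
    ring

lemma es_zero : es 0 = 1 := by
  unfold es
  simp
  norm_num

lemma es_cont : Continuous es := by
  unfold es
  refine continuous_const.mul ?_
  exact intervalIntegral.continuous_parametric_intervalIntegral_of_continuous'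
    (f := fun z (s : ℝ) => cexp (I * z * s)) (by fun_prop) _ _

lemma es_real (x : ℝ) : ((es x).re : ℂ) = es x := by
  have h := es_conj x
  rw [conj_ofReal] at h
  exact Complex.conj_eq_iff_re.1 h.symm

/-- iterated averages of the indicator function of `[-1, 1]` -/
noncomputable def bs : ℕ → ℝ → ℝ
  | 0 => fun v => if |v| ≤ 1 then 1 / 2 else 0
  | (n + 1) => fun v => (1 / 2) * ∫ s in (-1 : ℝ)..1, bs n (v - s)

lemma bs_succ (n : ℕ) (v : ℝ) : bs (n + 1) v = (1 / 2) * ∫ s in (v - 1)..(v + 1), bs n s := by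
  show (1 / 2) * ∫ s in (-1 : ℝ)..1, bs n (v - s) = _
  rw [intervalIntegral.integral_comp_sub_left]
  congr 2
  ring

/-- basic facts -/
structure Bsf (n : ℕ) : Prop where
  meas : Measurable (bs n)
  nonneg : ∀ v, 0 ≤ bs n v
  le : ∀ v, bs n v ≤ 1 / 2
  supp : ∀ v, (n : ℝ) + 1 < |v| → bs n v = 0

lemma ii_of_bdd {f : ℝ → ℝ} (hm : Measurable f) {C : ℝ} (hC : ∀ v, |f v| ≤ C) (a b : ℝ) :
    IntervalIntegrable f volume a b := by
  refine IntervalIntegrable.mono_fun' (g := fun _ => C) (by simp) hm.aestronglyMeasurable ?_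
  exact Filter.Eventually.of_forall fun v => hC v

lemma Bsf.ii {n : ℕ} (h : Bsf n) (a b : ℝ) : IntervalIntegrable (bs n) volume a b :=
  ii_of_bdd h.meas (C := 1 / 2) (fun v => by rw [abs_of_nonneg (h.nonneg v)]; exact h.le v) a b

lemma cont_succ {n : ℕ} (h : Bsf n) : Continuous (bs (n + 1)) := by
  have h1 : bs (n + 1) = fun v => (1 / 2) * ((∫ s in (0 : ℝ)..(v + 1), bs n s) -
      ∫ s in (0 : ℝ)..(v - 1), bs n s) := by
    funext v
    rw [bs_succ, intervalIntegral.integral_interval_sub_left (h.ii _ _) (h.ii _ _)]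
  rw [h1]
  have h2 : Continuous fun x : ℝ => ∫ s in (0 : ℝ)..x, bs n s :=
    intervalIntegral.continuous_primitive (fun a b => h.ii a b) 0
  exact continuous_const.mul ((h2.comp (by fun_prop)).sub (h2.comp (by fun_prop)))

lemma bsf (n : ℕ) : Bsf n := by
  induction n with
  | zero =>
    refine ⟨?_, fun v => ?_, fun v => ?_, fun v hv => ?_⟩
    · show Measurable fun v : ℝ => if |v| ≤ 1 then (1 / 2 : ℝ) else 0
      refine Measurable.ite ?_ measurable_const measurable_const
      exact measurableSet_le (by fun_prop) measurable_const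
    · show 0 ≤ if |v| ≤ 1 then (1 / 2 : ℝ) else 0
      split_ifs <;> norm_num
    · show (if |v| ≤ 1 then (1 / 2 : ℝ) else 0) ≤ 1 / 2
      split_ifs <;> norm_num
    · show (if |v| ≤ 1 then (1 / 2 : ℝ) else 0) = 0
      rw [if_neg]
      push_cast at hv
      linarith
  | succ n ih =>
    refine ⟨(cont_succ ih).measurable, fun v => ?_, fun v => ?_, fun v hv => ?_⟩
    · rw [bs_succ]
      have : 0 ≤ ∫ s in (v - 1)..(v + 1), bs n s :=
        intervalIntegral.integral_nonneg (by linarith) fun s _ => ih.nonneg s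
      positivity
    · rw [bs_succ]
      have : ∫ s in (v - 1)..(v + 1), bs n s ≤ ∫ s in (v - 1)..(v + 1), (1 / 2 : ℝ) :=
        intervalIntegral.integral_mono_on (by linarith) (ih.ii _ _) (by simp) fun s _ => ih.le s
      rw [intervalIntegral.integral_const, smul_eq_mul] at this
      linarith
    · rw [bs_succ]
      have : ∫ s in (v - 1)..(v + 1), bs n s = 0 := by
        rw [intervalIntegral.integral_of_le (by linarith)]
        refine setIntegral_eq_zero_of_forall_eq_zero fun s hs => ih.supp s ?_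
        push_cast at hv
        rcases le_total 0 v with h0 | h0
        · rw [abs_of_nonneg h0] at hv
          have := le_abs_self s
          have := hs.1
          linarith
        · rw [abs_of_nonpos h0] at hv
          have := neg_abs_le s
          have := hs.2
          linarith
      rw [this]
      ring

/-- the integrand -/
lemma bs_int (n : ℕ) (z : ℂ) : Integrable fun v : ℝ => (bs n v : ℂ) * cexp (I * z * v) := by
  have h := bsf n
  have h1 : Integrable (Set.indicator (Icc (-((n : ℝ) + 1)) (n + 1))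
      fun _ : ℝ => (1 / 2 * Real.exp (|z.im| * (n + 1)) : ℝ)) := by
    refine (integrable_indicator_iff measurableSet_Icc).2 ?_
    exact integrableOn_const (by simp)
  refine h1.mono' ?_ ?_
  · exact (h.meas.complex_ofReal.mul (by fun_prop)).aestronglyMeasurable
  · refine Filter.Eventually.of_forall fun v => ?_
    by_cases hv : (n : ℝ) + 1 < |v|
    · rw [h.supp v hv]
      simp only [ofReal_zero, zero_mul, norm_zero]
      exact Set.indicator_nonneg (fun _ _ => by positivity) _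
    · push Not at hv
      rw [Set.indicator_of_mem (by exact ⟨(abs_le.1 hv).1, (abs_le.1 hv).2⟩), norm_mul,
        Complex.norm_real, Real.norm_of_nonneg (h.nonneg v), norm_exp_seg]
      refine mul_le_mul (h.le v) (Real.exp_le_exp.2 ?_) (Real.exp_pos _).le (by norm_num)
      calc -(z.im * v) ≤ |z.im * v| := neg_le_abs _
        _ = |z.im| * |v| := abs_mul _ _
        _ ≤ _ := mul_le_mul_of_nonneg_left hv (abs_nonneg _)

lemma bs_ft (n : ℕ) (z : ℂ) : ∫ v : ℝ, (bs n v : ℂ) * cexp (I * z * v) = es z ^ (n + 1) := by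
  induction n with
  | zero =>
    have h1 : (fun v : ℝ => ((bs 0 v : ℝ) : ℂ) * cexp (I * z * v)) =
        Set.indicator (Icc (-1 : ℝ) 1) (fun v : ℝ => (1 / 2 : ℂ) * cexp (I * z * v)) := by
      funext v
      show (((if |v| ≤ 1 then (1 / 2 : ℝ) else 0) : ℝ) : ℂ) * cexp (I * z * v) = _
      by_cases hv : |v| ≤ 1
      · rw [if_pos hv, Set.indicator_of_mem (by exact ⟨(abs_le.1 hv).1, (abs_le.1 hv).2⟩)]
        push_cast
        ring
      · rw [if_neg hv, Set.indicator_of_notMem (by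
          intro h
          exact hv (abs_le.2 ⟨h.1, h.2⟩))]
        simp
    rw [h1, integral_indicator measurableSet_Icc, integral_Icc_eq_integral_Ioc,
      ← intervalIntegral.integral_of_le (by norm_num), zero_add, pow_one]
    unfold es
    rw [intervalIntegral.integral_const_mul]
  | succ n ih =>
    have h := bsf n
    have hsw : ∫ v : ℝ, ∫ s in Ioc (-1 : ℝ) 1, (bs n (v - s) : ℂ) * cexp (I * z * v) =
        ∫ s in Ioc (-1 : ℝ) 1, ∫ v : ℝ, (bs n (v - s) : ℂ) * cexp (I * z * v) := by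
      refine integral_integral_swap ?_
      have h1 : Integrable (Set.indicator (Icc (-((n : ℝ) + 2)) (n + 2))
          fun _ : ℝ => (1 / 2 * Real.exp (|z.im| * (n + 2)) : ℝ)) := by
        refine (integrable_indicator_iff measurableSet_Icc).2 ?_
        exact integrableOn_const (by simp)
      have h2 : Integrable (fun _ : ℝ => (1 : ℝ)) (volume.restrict (Ioc (-1 : ℝ) 1)) :=
        integrable_const _
      refine (h1.mul_prod h2).mono' ?_ ?_
      · refine Measurable.aestronglyMeasurable ?_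
        refine Measurable.mul ?_ (by fun_prop)
        exact (h.meas.comp (by fun_prop)).complex_ofReal
      · have h3 : ∀ᵐ p : ℝ × ℝ ∂((volume : Measure ℝ).prod (volume.restrict (Ioc (-1 : ℝ) 1))),
            p.2 ∈ Ioc (-1 : ℝ) 1 := by
          have h4 : ∀ᵐ s : ℝ ∂(volume.restrict (Ioc (-1 : ℝ) 1)), s ∈ Ioc (-1 : ℝ) 1 :=
            ae_restrict_mem measurableSet_Ioc
          exact Measure.quasiMeasurePreserving_snd.ae h4
        filter_upwards [h3] with p hp
        rw [mul_one]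
        show ‖(bs n (p.1 - p.2) : ℂ) * cexp (I * z * p.1)‖ ≤ _
        by_cases hv : (n : ℝ) + 2 < |p.1|
        · have h5 : (n : ℝ) + 1 < |p.1 - p.2| := by
            have h6 : |p.2| ≤ 1 := abs_le.2 ⟨hp.1.le, hp.2⟩
            have := abs_sub_abs_le_abs_sub p.1 p.2
            linarith
          rw [h.supp _ h5]
          simp only [ofReal_zero, zero_mul, norm_zero]
          exact Set.indicator_nonneg (fun _ _ => by positivity) _
        · push Not at hv
          rw [Set.indicator_of_mem (by exact ⟨(abs_le.1 hv).1, (abs_le.1 hv).2⟩), norm_mul,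
            Complex.norm_real, Real.norm_of_nonneg (h.nonneg _), norm_exp_seg]
          refine mul_le_mul (h.le _) (Real.exp_le_exp.2 ?_) (Real.exp_pos _).le (by norm_num)
          calc -(z.im * p.1) ≤ |z.im * p.1| := neg_le_abs _
            _ = |z.im| * |p.1| := abs_mul _ _
            _ ≤ _ := mul_le_mul_of_nonneg_left hv (abs_nonneg _)
    have h1 : ∀ v : ℝ, ((bs (n + 1) v : ℝ) : ℂ) * cexp (I * z * v) =
        (1 / 2) * ∫ s in Ioc (-1 : ℝ) 1, (bs n (v - s) : ℂ) * cexp (I * z * v) := by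
      intro v
      show ((((1 / 2 : ℝ) * ∫ s in (-1 : ℝ)..1, bs n (v - s)) : ℝ) : ℂ) * cexp (I * z * v) = _
      rw [intervalIntegral.integral_of_le (by norm_num)]
      rw [integral_mul_const]
      push_cast
      rw [integral_complex_ofReal]
      ring
    have h2 : ∀ s : ℝ, ∫ v : ℝ, (bs n (v - s) : ℂ) * cexp (I * z * v) =
        cexp (I * z * s) * es z ^ (n + 1) := by
      intro s
      rw [← ih]
      have h3 := integral_sub_right_eq_self (μ := volume)
        (fun v : ℝ => (bs n v : ℂ) * cexp (I * z * (v + s : ℝ))) s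
      simp only [sub_add_cancel] at h3
      rw [h3, ← integral_const_mul]
      refine integral_congr_ae (Filter.Eventually.of_forall fun v => ?_)
      simp only
      rw [show I * z * ((v + s : ℝ) : ℂ) = I * z * s + I * z * v by push_cast; ring,
        Complex.exp_add]
      ring
    simp_rw [h1]
    rw [integral_const_mul, hsw]
    simp_rw [h2]
    rw [integral_mul_const, ← intervalIntegral.integral_of_le (by norm_num), pow_succ' (es z) (n + 1)]
    unfold es
    ring

/-! ### inversion -/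

lemma es_pow_le (n : ℕ) (x y : ℝ) : ‖es (x + y * I) ^ (n + 2)‖ ≤
    (2 * Real.exp |y|) ^ (n + 2) * (1 + x ^ 2)⁻¹ := by
  have h1 := es_dec (x + y * I)
  have h2 := es_le (x + y * I)
  have him : (x + y * I : ℂ).im = y := by simp
  rw [him] at h1 h2
  have h3 : |x| ≤ ‖(x + y * I : ℂ)‖ := by
    have := Complex.abs_re_le_norm (x + y * I : ℂ)
    simpa using this
  have hE : 1 ≤ 2 * Real.exp |y| := by
    have := Real.one_le_exp (abs_nonneg y)
    linarith
  set E := 2 * Real.exp |y| with hEd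
  set r := ‖es (x + y * I)‖ with hr
  have hr0 : 0 ≤ r := norm_nonneg _
  have h4 : (1 + |x|) * r ≤ E := by
    have : |x| * r ≤ ‖(x + y * I : ℂ)‖ * r := mul_le_mul_of_nonneg_right h3 hr0
    linarith
  have h5 : r ≤ E := by
    have := Real.exp_pos |y|
    linarith
  have h6 : (1 + x ^ 2) * r ^ 2 ≤ E ^ 2 := by
    have h7 : ((1 + |x|) * r) ^ 2 ≤ E ^ 2 :=
      pow_le_pow_left₀ (mul_nonneg (by positivity) hr0) h4 2
    have h8 : (1 + x ^ 2) * r ^ 2 ≤ ((1 + |x|) * r) ^ 2 := by
      rw [mul_pow]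
      refine mul_le_mul_of_nonneg_right ?_ (by positivity)
      have : |x| ^ 2 = x ^ 2 := sq_abs x
      have := abs_nonneg x
      nlinarith
    exact h8.trans h7
  rw [norm_pow, ← hr, ← div_eq_mul_inv, le_div_iff₀ (by positivity)]
  calc r ^ (n + 2) * (1 + x ^ 2) = r ^ n * ((1 + x ^ 2) * r ^ 2) := by ring
    _ ≤ E ^ n * E ^ 2 := mul_le_mul (pow_le_pow_left₀ hr0 h5 n) h6 (by positivity) (by positivity)
    _ = _ := by ring

lemma es_pow_int (n : ℕ) (y : ℝ) : Integrable fun x : ℝ => es (x + y * I) ^ (n + 2) := by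
  refine (integrable_inv_one_add_sq.const_mul ((2 * Real.exp |y|) ^ (n + 2))).mono' ?_ ?_
  · have := es_cont
    exact (Continuous.pow (this.comp (by fun_prop)) _).aestronglyMeasurable
  · exact Filter.Eventually.of_forall fun x => es_pow_le n x y

/-- the Fourier transform of `bs` -/
lemma bs_four (n : ℕ) (y : ℝ) : 𝓕 (fun v : ℝ => (bs n v : ℂ) * cexp (-(y * v : ℝ))) =
    fun ξ : ℝ => es ((-(2 * Real.pi * ξ) : ℝ) + y * I) ^ (n + 1) := by
  funext ξ
  rw [Real.fourier_real_eq_integral_exp_smul, ← bs_ft]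
  refine integral_congr_ae (Filter.Eventually.of_forall fun v => ?_)
  simp only [smul_eq_mul]
  rw [mul_left_comm, ← Complex.exp_add]
  congr 2
  push_cast
  linear_combination -(y : ℂ) * v * I_sq

lemma bs_inv (n : ℕ) (v y : ℝ) :
    ∫ ξ : ℝ, cexp (2 * Real.pi * I * ξ * v) * es ((-(2 * Real.pi * ξ) : ℝ) + y * I) ^ (n + 2) =
      (bs (n + 1) v : ℂ) * cexp (-(y * v : ℝ)) := by
  have hc : Continuous (fun v : ℝ => (bs (n + 1) v : ℂ) * cexp (-(y * v : ℝ))) := by
    have := cont_succ (bsf n)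
    fun_prop
  have hi : Integrable (fun v : ℝ => (bs (n + 1) v : ℂ) * cexp (-(y * v : ℝ))) := by
    have := bs_int (n + 1) (y * I)
    refine this.congr (Filter.Eventually.of_forall fun v => ?_)
    simp only
    congr 2
    push_cast
    linear_combination (y : ℂ) * v * I_sq
  have hF := bs_four (n + 1) y
  have hFi : Integrable (𝓕 (fun v : ℝ => (bs (n + 1) v : ℂ) * cexp (-(y * v : ℝ)))) := by
    rw [hF]
    have := (es_pow_int n y).comp_mul_left' (R := -(2 * Real.pi)) (by
      have := Real.pi_pos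
      simp [this.ne'])
    refine this.congr (Filter.Eventually.of_forall fun x => ?_)
    simp only
    congr 3
    push_cast
    ring
  have h := hi.fourierInv_fourier_eq hFi (v := v) hc.continuousAt
  rw [Real.fourierInv_eq', hF] at h
  rw [← h]
  refine integral_congr_ae (Filter.Eventually.of_forall fun ξ => ?_)
  simp only [smul_eq_mul, RCLike.inner_apply, conj_trivial]
  congr 2
  push_cast
  ring

/-! ### the normalised kernel -/

/-- the value at the origin -/
noncomputable def b0 (n : ℕ) : ℝ := bs (n + 1) 0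

lemma es_int (n : ℕ) (y : ℝ) : ∫ x : ℝ, es (x + y * I) ^ (n + 2) = ((2 * Real.pi * b0 n : ℝ) : ℂ) := by
  have hpi := Real.pi_pos
  have h := bs_inv n 0 y
  simp only [ofReal_zero, mul_zero, Complex.exp_zero, one_mul, neg_zero, mul_one] at h
  have h2 := MeasureTheory.Measure.integral_comp_mul_left
    (fun x : ℝ => es (x + y * I) ^ (n + 2)) (-(2 * Real.pi))
  have h3 : (∫ ξ : ℝ, es ((-(2 * Real.pi * ξ) : ℝ) + y * I) ^ (n + 2)) =
      ∫ ξ : ℝ, es (((-(2 * Real.pi) * ξ : ℝ)) + y * I) ^ (n + 2) := by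
    refine integral_congr_ae (Filter.Eventually.of_forall fun ξ => ?_)
    simp only
    congr 3
    push_cast
    ring
  rw [h3, h2, abs_inv, abs_neg, abs_of_pos (by positivity), Complex.real_smul] at h
  unfold b0
  have h4 : ((2 * Real.pi : ℝ) : ℂ) ≠ 0 := by
    rw [ofReal_ne_zero]
    positivity
  push_cast at h h4 ⊢
  rw [← h]
  field_simp

lemma es_pow_nonneg (M : ℕ) (x : ℝ) : es x ^ (2 * M + 2) = (((es x).re ^ (2 * M + 2) : ℝ) : ℂ) := by
  rw [ofReal_pow, es_real]

lemma re_pow_nonneg (M : ℕ) (x : ℝ) : 0 ≤ (es x).re ^ (2 * M + 2) :=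
  Even.pow_nonneg ⟨M + 1, by ring⟩ _

lemma bs_le_b0 (M : ℕ) (v : ℝ) : bs (2 * M + 1) v ≤ b0 (2 * M) := by
  have h1 := bs_inv (2 * M) v 0
  have h2 := bs_inv (2 * M) 0 0
  simp only [ofReal_zero, zero_mul, add_zero, neg_zero, Complex.exp_zero, mul_one, mul_zero,
    one_mul] at h1 h2
  have h3 : ∀ ξ : ℝ, ‖cexp (2 * Real.pi * I * ξ * v) * es ((-(2 * Real.pi * ξ) : ℝ)) ^ (2 * M + 2)‖ =
      (es ((-(2 * Real.pi * ξ) : ℝ))).re ^ (2 * M + 2) := by
    intro ξ
    rw [norm_mul, es_pow_nonneg, Complex.norm_real, Real.norm_of_nonneg (re_pow_nonneg _ _),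
      show (2 * Real.pi * I * ξ * v : ℂ) = ((2 * Real.pi * ξ * v : ℝ) : ℂ) * I by push_cast; ring,
      Complex.norm_exp_ofReal_mul_I, one_mul]
  have h4 : ‖((bs (2 * M + 1) v : ℝ) : ℂ)‖ ≤
      ∫ ξ : ℝ, (es ((-(2 * Real.pi * ξ) : ℝ))).re ^ (2 * M + 2) := by
    rw [← h1]
    refine (norm_integral_le_integral_norm _).trans (le_of_eq ?_)
    exact integral_congr_ae (Filter.Eventually.of_forall h3)
  have h5 : (∫ ξ : ℝ, (es ((-(2 * Real.pi * ξ) : ℝ))).re ^ (2 * M + 2)) = b0 (2 * M) := by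
    have h6 : ((∫ ξ : ℝ, (es ((-(2 * Real.pi * ξ) : ℝ))).re ^ (2 * M + 2) : ℝ) : ℂ) =
        ((b0 (2 * M) : ℝ) : ℂ) := by
      unfold b0
      rw [← h2, ← integral_complex_ofReal]
      exact integral_congr_ae (Filter.Eventually.of_forall fun ξ => (es_pow_nonneg M _).symm)
    exact_mod_cast h6
  rw [h5, Complex.norm_real, Real.norm_of_nonneg ((bsf _).nonneg v)] at h4
  exact h4

lemma b0_pos (M : ℕ) : 0 < b0 (2 * M) := by
  have h0 : 0 ≤ b0 (2 * M) := (bsf _).nonneg 0
  refine lt_of_le_of_ne h0 fun hcon => ?_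
  have h1 : ∀ v, bs (2 * M + 1) v = 0 := fun v =>
    le_antisymm ((bs_le_b0 M v).trans hcon.symm.le) ((bsf _).nonneg v)
  have h2 := bs_ft (2 * M + 1) 0
  rw [es_zero, one_pow] at h2
  simp [h1] at h2

/-- the kernel -/
noncomputable def Kf (M : ℕ) (z : ℂ) : ℂ :=
  es (z / (2 * M + 2 : ℕ)) ^ (2 * M + 2) / ((2 * Real.pi * b0 (2 * M) * (2 * M + 2 : ℕ) : ℝ) : ℂ)

/-- its Fourier transform -/
noncomputable def bf (M : ℕ) (w : ℝ) : ℝ := bs (2 * M + 1) ((2 * M + 2 : ℕ) * w) / b0 (2 * M)

lemma bf_zero (M : ℕ) : bf M 0 = 1 := by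
  unfold bf
  rw [mul_zero]
  exact div_self (b0_pos M).ne'

lemma bf_nonneg (M : ℕ) (w : ℝ) : 0 ≤ bf M w := div_nonneg ((bsf _).nonneg _) (b0_pos M).le

lemma bf_le (M : ℕ) (w : ℝ) : bf M w ≤ 1 := by
  unfold bf
  rw [div_le_one (b0_pos M)]
  exact bs_le_b0 M _

lemma bf_cont (M : ℕ) : Continuous (bf M) := by
  have := cont_succ (bsf (2 * M))
  unfold bf
  fun_prop

lemma bf_supp (M : ℕ) (w : ℝ) (hw : 1 < |w|) : bf M w = 0 := by
  unfold bf
  rw [(bsf _).supp, zero_div]
  rw [abs_mul, Nat.abs_cast]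
  push_cast
  nlinarith [(Nat.cast_nonneg M : (0 : ℝ) ≤ M)]

lemma bf_even (M : ℕ) (w : ℝ) : bf M (-w) = bf M w := by
  have h : ∀ n : ℕ, ∀ v : ℝ, bs n (-v) = bs n v := by
    intro n
    induction n with
    | zero =>
      intro v
      show (if |-v| ≤ 1 then (1 / 2 : ℝ) else 0) = if |v| ≤ 1 then (1 / 2 : ℝ) else 0
      rw [abs_neg]
    | succ n ih =>
      intro v
      show (1 / 2) * ∫ s in (-1 : ℝ)..1, bs n (-v - s) = (1 / 2) * ∫ s in (-1 : ℝ)..1, bs n (v - s)
      congr 1
      have := intervalIntegral.integral_comp_neg (a := -1) (b := 1) (fun s : ℝ => bs n (-v - s))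
      simp only [neg_neg, sub_neg_eq_add] at this
      rw [← this]
      refine intervalIntegral.integral_congr fun s _ => ?_
      rw [← ih]
      congr 1
      ring
  unfold bf
  rw [mul_neg, h]

lemma Kf_rep (M : ℕ) (z : ℂ) :
    Kf M z = (1 / (2 * Real.pi) : ℝ) * ∫ w in (-1 : ℝ)..1, (bf M w : ℂ) * cexp (I * z * w) := by
  have hpi := Real.pi_pos
  have hb := b0_pos M
  set N : ℕ := 2 * M + 2 with hN
  have hN0 : (0 : ℝ) < N := by positivity
  have hNc : (N : ℂ) ≠ 0 := by exact_mod_cast hN0.ne'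
  have h1 := bs_ft (2 * M + 1) (z / N)
  have h2 := MeasureTheory.Measure.integral_comp_mul_left
    (fun v : ℝ => (bs (2 * M + 1) v : ℂ) * cexp (I * (z / N) * v)) (N : ℝ)
  rw [h1, abs_inv, abs_of_pos hN0, Complex.real_smul] at h2
  have h3 : ∫ w in (-1 : ℝ)..1, (bf M w : ℂ) * cexp (I * z * w) =
      ∫ w : ℝ, (bf M w : ℂ) * cexp (I * z * w) := by
    rw [intervalIntegral.integral_of_le (by norm_num), ← integral_Icc_eq_integral_Ioc]
    refine setIntegral_eq_integral_of_forall_compl_eq_zero fun w hw => ?_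
    rw [bf_supp M w, ofReal_zero, zero_mul]
    by_contra hcon
    push Not at hcon
    exact hw ⟨(abs_le.1 hcon).1, (abs_le.1 hcon).2⟩
  rw [h3]
  have h4 : ∀ w : ℝ, (bf M w : ℂ) * cexp (I * z * w) = ((b0 (2 * M) : ℝ) : ℂ)⁻¹ *
      ((bs (2 * M + 1) (N * w) : ℂ) * cexp (I * (z / N) * ((N * w : ℝ) : ℂ))) := by
    intro w
    unfold bf
    rw [← hN]
    push_cast
    rw [show I * (z / N) * (N * w) = I * z * w by field_simp]
    ring
  simp_rw [h4]
  rw [integral_const_mul, h2]
  unfold Kf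
  rw [← hN]
  push_cast
  have hbc : ((b0 (2 * M) : ℝ) : ℂ) ≠ 0 := ofReal_ne_zero.2 hb.ne'
  have hpic : (Real.pi : ℂ) ≠ 0 := ofReal_ne_zero.2 hpi.ne'
  field_simp

lemma Kf_int (M : ℕ) (y : ℝ) : (Integrable fun x : ℝ => Kf M (x + y * I)) ∧
    ∫ x : ℝ, Kf M (x + y * I) = 1 := by
  have hpi := Real.pi_pos
  have hb := b0_pos M
  set N : ℕ := 2 * M + 2 with hN
  have hN0 : (0 : ℝ) < N := by positivity
  have hNc : (N : ℂ) ≠ 0 := by exact_mod_cast hN0.ne'
  have h0 : (fun x : ℝ => Kf M (x + y * I)) = fun x : ℝ =>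
      (es (((N : ℝ)⁻¹ * x : ℝ) + (y / N : ℝ) * I) ^ (2 * M + 2)) *
        ((2 * Real.pi * b0 (2 * M) * N : ℝ) : ℂ)⁻¹ := by
    funext x
    unfold Kf
    rw [← hN, div_eq_mul_inv]
    congr 3
    push_cast
    field_simp
  rw [h0]
  constructor
  · refine Integrable.mul_const ?_ _
    exact (es_pow_int (2 * M) (y / N)).comp_mul_left' (R := (N : ℝ)⁻¹) (by positivity)
  · rw [integral_mul_const, MeasureTheory.Measure.integral_comp_mul_left
      (fun x : ℝ => es (x + (y / N : ℝ) * I) ^ (2 * M + 2)) ((N : ℝ)⁻¹), es_int, inv_inv,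
      abs_of_pos hN0, Complex.real_smul, ← ofReal_mul, ← ofReal_inv, ← ofReal_mul]
    rw [← ofReal_one]
    congr 1
    field_simp

lemma Kf_cont (M : ℕ) : Continuous (Kf M) := by
  have := es_cont
  unfold Kf
  fun_prop

/-- the constant in the bound for the kernel -/
noncomputable def CK (M : ℕ) : ℝ :=
  (2 * (2 * M + 2 : ℕ)) ^ (2 * M + 2) / (2 * Real.pi * b0 (2 * M) * (2 * M + 2 : ℕ))

lemma CK_pos (M : ℕ) : 0 < CK M := by
  have hpi := Real.pi_pos
  have hb := b0_pos M
  unfold CK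
  positivity

lemma Kf_le (M : ℕ) (x y : ℝ) :
    ‖Kf M (x + y * I)‖ ≤ CK M * Real.exp |y| * ((1 + |x|) ^ (2 * M + 2))⁻¹ := by
  have hpi := Real.pi_pos
  have hb := b0_pos M
  set N : ℕ := 2 * M + 2 with hN
  have hN0 : (0 : ℝ) < N := by positivity
  have hN1 : (1 : ℝ) ≤ N := by
    rw [hN]
    push_cast
    linarith [(Nat.cast_nonneg M : (0 : ℝ) ≤ M)]
  have h1 := es_dec ((x + y * I) / N)
  have h2 : ((x + y * I) / N : ℂ).im = y / N := by
    rw [show ((x + y * I) / N : ℂ) = ((x / N : ℝ) : ℂ) + ((y / N : ℝ) : ℂ) * I by push_cast; ring]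
    simp
  have h3 : |x| / N ≤ ‖((x + y * I) / N : ℂ)‖ := by
    rw [norm_div, Complex.norm_natCast]
    gcongr
    have := Complex.abs_re_le_norm (x + y * I : ℂ)
    simpa using this
  rw [h2, abs_div, Nat.abs_cast] at h1
  set r := ‖es ((x + y * I) / N)‖ with hr
  have hr0 : 0 ≤ r := norm_nonneg _
  have h4 : (1 + |x|) * r ≤ 2 * N * Real.exp (|y| / N) := by
    have h5 : (1 + |x|) / N ≤ 1 + ‖((x + y * I) / N : ℂ)‖ := by
      rw [add_div]
      have : 1 / (N : ℝ) ≤ 1 := by
        rw [div_le_one hN0]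
        exact hN1
      linarith
    have h6 := (mul_le_mul_of_nonneg_right h5 hr0).trans h1
    rw [div_mul_eq_mul_div, div_le_iff₀ hN0] at h6
    linarith
  have h5 : ((1 + |x|) * r) ^ N ≤ (2 * N) ^ N * Real.exp |y| := by
    refine (pow_le_pow_left₀ (mul_nonneg (by positivity) hr0) h4 N).trans (le_of_eq ?_)
    rw [mul_pow, ← Real.exp_nat_mul]
    congr 2
    field_simp
  unfold Kf CK
  rw [← hN, norm_div, norm_pow, ← hr, Complex.norm_real, Real.norm_of_nonneg (by positivity)]
  rw [mul_pow] at h5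
  rw [div_mul_eq_mul_div, div_mul_eq_mul_div]
  refine div_le_div_of_nonneg_right ?_ (by positivity)
  rw [← div_eq_mul_inv, le_div_iff₀ (by positivity)]
  linarith

lemma Kf_conj (M : ℕ) (z : ℂ) : Kf M ((starRingEnd ℂ) z) = (starRingEnd ℂ) (Kf M z) := by
  unfold Kf
  rw [map_div₀, map_pow, conj_ofReal, ← es_conj, map_div₀, Complex.conj_natCast]

/-- on the real line the kernel is nonnegative -/
lemma Kf_real (M : ℕ) (x : ℝ) : ∃ r : ℝ, 0 ≤ r ∧ Kf M x = r := by
  have hpi := Real.pi_pos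
  have hb := b0_pos M
  refine ⟨(es ((x / (2 * M + 2 : ℕ) : ℝ))).re ^ (2 * M + 2) /
    (2 * Real.pi * b0 (2 * M) * (2 * M + 2 : ℕ)), ?_, ?_⟩
  · exact div_nonneg (re_pow_nonneg _ _) (by positivity)
  · unfold Kf
    rw [ofReal_div, ofReal_pow, es_real]
    congr 2
    push_cast
    rfl

end Pool.Agent.KS6_85.LZ
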