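import Pool.Agent.KS6_85.LZ.Spl

/-!
# The window: a band limited approximation of the indicator function of `[-h, h]`
-/

set_option autoImplicit false

open Complex Filter Topology Set MeasureTheory

namespace Pool.Agent.KS6_85.LZ

/-- `sin x / x` on the real line -/
noncomputable def sn (x : ℝ) : ℝ := (es x).re

lemma sn_eq (x : ℝ) : ((sn x : ℝ) : ℂ) = es x := es_real x

lemma sn_le (x : ℝ) : |sn x| ≤ 1 := by
  have h := es_le x
  rw [ofReal_im, abs_zero, Real.exp_zero] at h
  exact (Complex.abs_re_le_norm _).trans h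

lemma sn_zero : sn 0 = 1 := by
  unfold sn
  rw [ofReal_zero, es_zero, one_re]

lemma sn_cont : Continuous sn := by
  have := es_cont
  unfold sn
  fun_prop

lemma sn_even (x : ℝ) : sn (-x) = sn x := by
  unfold sn
  rw [ofReal_neg, es_neg]

lemma b0_zero : b0 0 = 1 / 2 := by
  unfold b0
  show (1 / 2) * ∫ s in (-1 : ℝ)..1, bs 0 (0 - s) = 1 / 2
  have h : ∫ s in (-1 : ℝ)..1, bs 0 (0 - s) = ∫ s in (-1 : ℝ)..1, (1 / 2 : ℝ) := by
    refine intervalIntegral.integral_congr fun s hs => ?_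
    rw [uIcc_of_le (by norm_num)] at hs
    show (if |0 - s| ≤ 1 then (1 / 2 : ℝ) else 0) = 1 / 2
    rw [if_pos]
    rw [zero_sub, abs_neg]
    exact abs_le.2 ⟨hs.1, hs.2⟩
  rw [h, intervalIntegral.integral_const, smul_eq_mul]
  norm_num

lemma sn_sq_int : Integrable (fun x : ℝ => sn x ^ 2) ∧ ∫ x : ℝ, sn x ^ 2 = Real.pi := by
  have h1 := es_pow_int 0 0
  have h2 := es_int 0 0
  simp only [ofReal_zero, zero_mul, add_zero, zero_add] at h1 h2
  have e : ∀ x : ℝ, es x ^ 2 = ((sn x ^ 2 : ℝ) : ℂ) := fun x => by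
    rw [ofReal_pow, sn_eq]
  simp_rw [e] at h1 h2
  refine ⟨?_, ?_⟩
  · have := h1.re
    refine this.congr (Filter.Eventually.of_forall fun x => ?_)
    exact Complex.ofReal_re _
  · rw [integral_complex_ofReal, b0_zero] at h2
    have h3 : (∫ x : ℝ, sn x ^ 2) = 2 * Real.pi * (1 / 2) := by exact_mod_cast h2
    rw [h3]
    ring

/-- change of the order of integration -/
lemma swap_cont {E : Type} [NormedAddCommGroup E] [NormedSpace ℝ E] {F : ℝ → ℝ → E}
    (hF : Continuous (Function.uncurry F)) (a b c d : ℝ) :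
    ∫ x in a..b, ∫ y in c..d, F x y = ∫ y in c..d, ∫ x in a..b, F x y :=
  intervalIntegral_intervalIntegral_swap
    ((hF.continuousOn.integrableOn_compact (isCompact_uIcc.prod isCompact_uIcc)).mono_set
      (Set.prod_mono uIoc_subset_uIcc uIoc_subset_uIcc))

/-- the window -/
noncomputable def gg (M : ℕ) (h c : ℝ) (z : ℂ) : ℂ :=
  ∫ t in (c * (z.re - h))..(c * (z.re + h)), Kf M (t + (c * z.im : ℝ) * I)

/-- its Fourier transform -/
noncomputable def gh (M : ℕ) (h c v : ℝ) : ℝ := h / Real.pi * sn (h * v) * bf M (v / c)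

lemma gh_cont (M : ℕ) (h c : ℝ) : Continuous (gh M h c) := by
  have h1 := sn_cont
  have h2 := bf_cont M
  unfold gh
  fun_prop

lemma gh_even (M : ℕ) (h c v : ℝ) : gh M h c (-v) = gh M h c v := by
  unfold gh
  rw [mul_neg, sn_even, neg_div, bf_even]

lemma gh_le (M : ℕ) {h : ℝ} (hh : 0 ≤ h) (c v : ℝ) : |gh M h c v| ≤ h / Real.pi := by
  have hpi := Real.pi_pos
  unfold gh
  rw [abs_mul, abs_mul, abs_of_nonneg (by positivity : 0 ≤ h / Real.pi),
    abs_of_nonneg (bf_nonneg M _), mul_assoc]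
  have h1 : |sn (h * v)| * bf M (v / c) ≤ 1 * 1 :=
    mul_le_mul (sn_le _) (bf_le M _) (bf_nonneg M _) zero_le_one
  calc h / Real.pi * (|sn (h * v)| * bf M (v / c)) ≤ h / Real.pi * (1 * 1) :=
        mul_le_mul_of_nonneg_left h1 (by positivity)
    _ = _ := by ring

lemma gh_zero (M : ℕ) (h c : ℝ) : gh M h c 0 = h / Real.pi := by
  unfold gh
  rw [mul_zero, sn_zero, zero_div, bf_zero]
  ring

lemma gh_sq_le (M : ℕ) {h : ℝ} (hh : 0 < h) {c : ℝ} (hc : 0 ≤ c) :
    ∫ v in (-c)..c, gh M h c v ^ 2 ≤ h / Real.pi := by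
  have hpi := Real.pi_pos
  obtain ⟨i1, i2⟩ := sn_sq_int
  have i3 : Integrable (fun v : ℝ => (h / Real.pi) ^ 2 * sn (h * v) ^ 2) := by
    refine Integrable.const_mul ?_ _
    exact i1.comp_mul_left' hh.ne'
  have h1 : ∫ v in (-c)..c, gh M h c v ^ 2 ≤ ∫ v in (-c)..c, (h / Real.pi) ^ 2 * sn (h * v) ^ 2 := by
    refine intervalIntegral.integral_mono_on (by linarith) ?_ i3.intervalIntegrable fun v _ => ?_
    · exact ((gh_cont M h c).pow 2).intervalIntegrable _ _
    · unfold gh
      rw [mul_pow, mul_pow]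
      have h2 : bf M (v / c) ^ 2 ≤ 1 := pow_le_one₀ (bf_nonneg M _) (bf_le M _)
      calc (h / Real.pi) ^ 2 * sn (h * v) ^ 2 * bf M (v / c) ^ 2 ≤
            (h / Real.pi) ^ 2 * sn (h * v) ^ 2 * 1 := mul_le_mul_of_nonneg_left h2 (by positivity)
        _ = _ := mul_one _
  refine h1.trans ?_
  rw [intervalIntegral.integral_of_le (by linarith)]
  refine (setIntegral_le_integral i3 (Filter.Eventually.of_forall fun v => by positivity)).trans ?_
  rw [integral_const_mul, MeasureTheory.Measure.integral_comp_mul_left (fun x : ℝ => sn x ^ 2) h,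
    i2, abs_inv, abs_of_pos hh, smul_eq_mul]
  refine le_of_eq ?_
  field_simp

/-- the representation of the window -/
lemma gg_rep (M : ℕ) {h c : ℝ} (hc : 0 < c) (z : ℂ) :
    gg M h c z = ∫ v in (-c)..c, (gh M h c v : ℂ) * cexp (I * v * z) := by
  have hpi := Real.pi_pos
  have hpic : (Real.pi : ℂ) ≠ 0 := ofReal_ne_zero.2 hpi.ne'
  have hcc : (c : ℂ) ≠ 0 := ofReal_ne_zero.2 hc.ne'
  have h1 : gg M h c z = ∫ τ in (-h)..h, (c : ℂ) * Kf M (c * (z - τ)) := by
    unfold gg
    have h2 := intervalIntegral.integral_comp_sub_mul (a := -h) (b := h)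
      (f := fun t : ℝ => Kf M (t + (c * z.im : ℝ) * I)) hc.ne' (c * z.re)
    have e1 : c * z.re - c * h = c * (z.re - h) := by ring
    have e2 : c * z.re - c * -h = c * (z.re + h) := by ring
    rw [e1, e2, Complex.real_smul] at h2
    rw [intervalIntegral.integral_const_mul]
    have h3 : ∫ τ in (-h)..h, Kf M (c * (z - τ)) =
        ∫ τ in (-h)..h, Kf M (((c * z.re - c * τ : ℝ) : ℂ) + (c * z.im : ℝ) * I) := by
      refine intervalIntegral.integral_congr fun τ _ => ?_
      congr 1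
      conv_lhs => rw [← Complex.re_add_im z]
      push_cast
      ring
    rw [h3, h2]
    push_cast
    field_simp
  rw [h1]
  have h4 : ∀ τ : ℝ, (c : ℂ) * Kf M (c * (z - τ)) =
      ∫ v in (-c)..c, ((1 / (2 * Real.pi) : ℝ) : ℂ) * ((bf M (v / c) : ℂ) *
        cexp (I * v * z) * cexp (-(I * v * τ))) := by
    intro τ
    have h5 := intervalIntegral.integral_comp_div (a := -c) (b := c)
      (f := fun w : ℝ => (bf M w : ℂ) * cexp (I * (c * (z - τ)) * w)) hc.ne'
    rw [neg_div, div_self hc.ne', Complex.real_smul] at h5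
    rw [Kf_rep, intervalIntegral.integral_const_mul]
    have h6 : ∫ v in (-c)..c, (bf M (v / c) : ℂ) * cexp (I * v * z) * cexp (-(I * v * τ)) =
        ∫ v in (-c)..c, (bf M (v / c) : ℂ) * cexp (I * (c * (z - τ)) * ((v / c : ℝ) : ℂ)) := by
      refine intervalIntegral.integral_congr fun v _ => ?_
      rw [mul_assoc, ← Complex.exp_add]
      congr 2
      push_cast
      field_simp
      ring
    rw [h6, h5]
    ring
  simp_rw [h4]
  rw [swap_cont]
  · refine intervalIntegral.integral_congr fun v _ => ?_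
    have h7 : ∀ τ : ℝ, ((1 / (2 * Real.pi) : ℝ) : ℂ) * ((bf M (v / c) : ℂ) *
        cexp (I * v * z) * cexp (-(I * v * τ))) =
        (((1 / (2 * Real.pi) : ℝ) : ℂ) * (bf M (v / c) : ℂ) * cexp (I * v * z)) *
          cexp (-(I * v * τ)) := fun τ => by ring
    simp_rw [h7]
    rw [intervalIntegral.integral_const_mul]
    have h8 : ∫ τ in (-h)..h, cexp (-(I * v * τ)) = 2 * h * es (h * v : ℝ) := by
      have h9 := intervalIntegral.smul_integral_comp_mul_left (a := -1) (b := 1)
        (fun τ : ℝ => cexp (-(I * v * τ))) h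
      rw [mul_neg, mul_one] at h9
      rw [Complex.real_smul] at h9
      rw [← h9, ← es_neg]
      unfold es
      have h10 : ∫ x in (-1 : ℝ)..1, cexp (-(I * v * ((h * x : ℝ) : ℂ))) =
          ∫ s in (-1 : ℝ)..1, cexp (I * (-((h * v : ℝ) : ℂ)) * s) := by
        refine intervalIntegral.integral_congr fun s _ => ?_
        congr 1
        push_cast
        ring
      rw [h10]
      ring
    rw [h8, ← sn_eq]
    unfold gh
    push_cast
    field_simp
  · have := bf_cont M
    fun_prop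

/-! ### bounds for the window -/

/-- a set integral far from the origin -/
lemma tail_le (M : ℕ) (y : ℝ) {a : ℝ} (ha : 0 ≤ a) {S : Set ℝ} (hS : MeasurableSet S)
    (h : ∀ t ∈ S, a ≤ |t|) :
    ‖∫ t in S, Kf M (t + y * I)‖ ≤ CK M * Real.pi * Real.exp |y| * ((1 + a) ^ (2 * M))⁻¹ := by
  have hC := CK_pos M
  have h1 : ∀ t ∈ S, ‖Kf M (t + y * I)‖ ≤
      CK M * Real.exp |y| * ((1 + a) ^ (2 * M))⁻¹ * (1 + t ^ 2)⁻¹ := by
    intro t ht
    refine (Kf_le M t y).trans ?_
    have h2 := h t ht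
    have h3 : ((1 + |t|) ^ (2 * M + 2))⁻¹ ≤ ((1 + a) ^ (2 * M))⁻¹ * (1 + t ^ 2)⁻¹ := by
      rw [← mul_inv]
      apply inv_anti₀ (by positivity)
      rw [pow_add]
      refine mul_le_mul (pow_le_pow_left₀ (by linarith) (by linarith) _) ?_ (by positivity)
        (by positivity)
      have : |t| ^ 2 = t ^ 2 := sq_abs t
      have := abs_nonneg t
      nlinarith
    calc CK M * Real.exp |y| * ((1 + |t|) ^ (2 * M + 2))⁻¹ ≤
          CK M * Real.exp |y| * (((1 + a) ^ (2 * M))⁻¹ * (1 + t ^ 2)⁻¹) := by gcongr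
      _ = _ := by ring
  have h2 : Integrable (fun t : ℝ => CK M * Real.exp |y| * ((1 + a) ^ (2 * M))⁻¹ * (1 + t ^ 2)⁻¹) :=
    integrable_inv_one_add_sq.const_mul _
  calc ‖∫ t in S, Kf M (t + y * I)‖ ≤
        ∫ t in S, CK M * Real.exp |y| * ((1 + a) ^ (2 * M))⁻¹ * (1 + t ^ 2)⁻¹ := by
        refine norm_integral_le_of_norm_le h2.integrableOn ?_
        exact (ae_restrict_iff' hS).2 (Filter.Eventually.of_forall h1)
    _ ≤ ∫ t : ℝ, CK M * Real.exp |y| * ((1 + a) ^ (2 * M))⁻¹ * (1 + t ^ 2)⁻¹ :=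
        setIntegral_le_integral h2 (Filter.Eventually.of_forall fun t => by positivity)
    _ = CK M * Real.exp |y| * ((1 + a) ^ (2 * M))⁻¹ * Real.pi := by
        rw [integral_const_mul, integral_univ_inv_one_add_sq]
    _ = _ := by ring

lemma gg_out (M : ℕ) {h c : ℝ} (hh : 0 ≤ h) (hc : 0 < c) {z : ℂ} (hz : h ≤ |z.re|) :
    ‖gg M h c z‖ ≤ CK M * Real.pi * Real.exp (c * |z.im|) *
      ((1 + c * |(|z.re| - h)|) ^ (2 * M))⁻¹ := by
  unfold gg
  have e1 : |c * z.im| = c * |z.im| := by rw [abs_mul, abs_of_pos hc]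
  have hle : c * (z.re - h) ≤ c * (z.re + h) := by
    apply mul_le_mul_of_nonneg_left _ hc.le
    linarith
  rw [intervalIntegral.integral_of_le hle, ← e1, abs_of_nonneg (by linarith : 0 ≤ |z.re| - h)]
  refine tail_le M (c * z.im) (mul_nonneg hc.le (by linarith)) measurableSet_Ioc fun t ht => ?_
  rcases le_total 0 z.re with h0 | h0
  · rw [abs_of_nonneg h0] at hz ⊢
    have := le_abs_self t
    linarith [ht.1]
  · rw [abs_of_nonpos h0] at hz ⊢
    have h1 := neg_abs_le t
    have h2 : c * (z.re + h) = -(c * (-z.re - h)) := by ring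
    rw [h2] at ht
    linarith [ht.2]

lemma gg_in (M : ℕ) {h c : ℝ} (hc : 0 < c) {z : ℂ} (hz : |z.re| ≤ h) :
    ‖gg M h c z - 1‖ ≤ CK M * Real.pi * Real.exp (c * |z.im|) *
      ((1 + c * |(|z.re| - h)|) ^ (2 * M))⁻¹ := by
  have e1 : |c * z.im| = c * |z.im| := by rw [abs_mul, abs_of_pos hc]
  have hh : 0 ≤ h := (abs_nonneg _).trans hz
  have hle : c * (z.re - h) ≤ c * (z.re + h) := by
    apply mul_le_mul_of_nonneg_left _ hc.le
    linarith
  obtain ⟨i1, i2⟩ := Kf_int M (c * z.im)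
  have h1 : gg M h c z - 1 = -∫ t in (Ioc (c * (z.re - h)) (c * (z.re + h)))ᶜ,
      Kf M (t + (c * z.im : ℝ) * I) := by
    unfold gg
    rw [intervalIntegral.integral_of_le hle, ← i2,
      ← integral_add_compl measurableSet_Ioc i1]
    ring
  rw [h1, norm_neg, ← e1, abs_sub_comm, abs_of_nonneg (by linarith : 0 ≤ h - |z.re|)]
  refine tail_le M (c * z.im) (mul_nonneg hc.le (by linarith)) measurableSet_Ioc.compl fun t ht => ?_
  rw [mem_compl_iff, mem_Ioc, not_and_or] at ht
  push Not at ht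
  have h2 := abs_le.1 (le_refl |z.re|)
  rcases ht with ht | ht
  · have h3 := neg_abs_le t
    have h4 : c * (z.re - h) ≤ -(c * (h - |z.re|)) := by
      have h5 : c * (z.re - h) ≤ c * (|z.re| - h) := by
        apply mul_le_mul_of_nonneg_left _ hc.le
        linarith [h2.2]
      linarith
    linarith
  · have h3 := le_abs_self t
    have h4 : c * (h - |z.re|) ≤ c * (z.re + h) := by
      apply mul_le_mul_of_nonneg_left _ hc.le
      linarith [h2.1]
    linarith

lemma gg_conj (M : ℕ) (h c : ℝ) (z : ℂ) :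
    gg M h c ((starRingEnd ℂ) z) = (starRingEnd ℂ) (gg M h c z) := by
  unfold gg
  have e : ∀ t : ℝ, Kf M (t + (c * ((starRingEnd ℂ) z).im : ℝ) * I) =
      (starRingEnd ℂ) (Kf M (t + (c * z.im : ℝ) * I)) := by
    intro t
    rw [← Kf_conj]
    congr 1
    simp
  simp_rw [e]
  rw [conj_re]
  rcases le_total (c * (z.re - h)) (c * (z.re + h)) with hle | hle
  · rw [intervalIntegral.integral_of_le hle, intervalIntegral.integral_of_le hle, integral_conj]
  · rw [intervalIntegral.integral_of_ge hle, intervalIntegral.integral_of_ge hle, integral_conj,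
      map_neg]

/-- on the real line the window is between `0` and `1` -/
lemma gg_real (M : ℕ) {h c : ℝ} (hh : 0 ≤ h) (hc : 0 < c) (x : ℝ) :
    ∃ r : ℝ, 0 ≤ r ∧ r ≤ 1 ∧ gg M h c x = r := by
  choose k hk0 hk using Kf_real M
  have hle : c * (x - h) ≤ c * (x + h) := by
    apply mul_le_mul_of_nonneg_left _ hc.le
    linarith
  obtain ⟨i1, i2⟩ := Kf_int M 0
  simp only [ofReal_zero, zero_mul, add_zero, hk] at i1 i2
  have i3 : Integrable k := by
    refine i1.re.congr (Filter.Eventually.of_forall fun x => ?_)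
    exact Complex.ofReal_re _
  rw [integral_complex_ofReal] at i2
  have i4 : ∫ x, k x = 1 := by exact_mod_cast i2
  refine ⟨∫ t in (c * (x - h))..(c * (x + h)), k t, ?_, ?_, ?_⟩
  · exact intervalIntegral.integral_nonneg hle fun t _ => hk0 t
  · rw [intervalIntegral.integral_of_le hle, ← i4]
    exact setIntegral_le_integral i3 (Filter.Eventually.of_forall hk0)
  · unfold gg
    rw [ofReal_re, ofReal_im, mul_zero, ← intervalIntegral.integral_ofReal]
    refine intervalIntegral.integral_congr fun t _ => ?_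
    rw [← hk]
    congr 1
    simp

end Pool.Agent.KS6_85.LZ
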